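import Pool.Agent.P.MP_c1f06d_ag.Gen

open Matrix Polynomial TensorProduct

universe u

namespace Pool.Agent.GW

open Pool.Agent.P.MP_c1f06d_ag

/-- All residue fields are infinite. -/
def ResInf (Z : Type*) [CommRing Z] : Prop := ∀ N : MaximalSpectrum Z, Infinite (Z ⧸ N.asIdeal)

/-- All residue fields are finite. -/
def ResFin (Z : Type*) [CommRing Z] : Prop := ∀ N : MaximalSpectrum Z, Finite (Z ⧸ N.asIdeal)

/-- Locally one of two elements divides the other. -/
def Arith (Z : Type*) [CommRing Z] : Prop :=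
  ∀ x y : Z, ∃ a b c, (1 - a) * x = b * y ∧ a * y = c * x

variable {Z : Type*} [CommRing Z]

/-- The map to the residue field at `N`. -/
abbrev rf (N : MaximalSpectrum Z) : Z →+* Z ⧸ N.asIdeal := Ideal.Quotient.mk N.asIdeal

theorem rf_eq_zero {N : MaximalSpectrum Z} {a : Z} : rf N a = 0 ↔ a ∈ N.asIdeal :=
  Ideal.Quotient.eq_zero_iff_mem

theorem rf_surj (N : MaximalSpectrum Z) : Function.Surjective (rf N) := Ideal.Quotient.mk_surjective

theorem sl_unit {s : Z} (h : ∀ N : MaximalSpectrum Z, s ∉ N.asIdeal) : IsUnit s := by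
  by_contra e
  obtain ⟨n, h1, h2⟩ := exists_max_ideal_of_mem_nonunits e
  exact h ⟨n, h1⟩ h2

theorem sl_notMem {s : Z} (h : IsUnit s) (N : MaximalSpectrum Z) : s ∉ N.asIdeal := fun hm =>
  N.isMaximal.ne_top (Ideal.eq_top_of_isUnit_mem _ hm h)

theorem sl_unit_iff {s : Z} : IsUnit s ↔ ∀ N : MaximalSpectrum Z, rf N s ≠ 0 :=
  ⟨fun h N e => sl_notMem h N (rf_eq_zero.1 e), fun h => sl_unit fun N e => h N (rf_eq_zero.2 e)⟩

theorem sl_top {I : Ideal Z} (h : ∀ N : MaximalSpectrum Z, ∃ x ∈ I, x ∉ N.asIdeal) : I = ⊤ := by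
  by_contra e
  obtain ⟨n, h1, h2⟩ := Ideal.exists_le_maximal I e
  obtain ⟨x, hx, hn⟩ := h ⟨n, h1⟩
  exact hn (h2 hx)

theorem mem_jac {a : Z} : a ∈ (⊥ : Ideal Z).jacobson ↔ ∀ N : MaximalSpectrum Z, a ∈ N.asIdeal := by
  rw [Ideal.jacobson, Ideal.mem_sInf]
  exact ⟨fun h N => h ⟨bot_le, N.isMaximal⟩, fun h I hI => h ⟨I, hI.2⟩⟩

/-- The maximal ideal below a maximal ideal of a finite algebra. -/
def under (Z : Type*) [CommRing Z] {T : Type*} [CommRing T] [Algebra Z T] [Module.Finite Z T]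
    (n : MaximalSpectrum T) : MaximalSpectrum Z :=
  ⟨n.asIdeal.comap (algebraMap Z T), Ideal.isMaximal_comap_of_isIntegral_of_isMaximal n.asIdeal⟩

section Alg
variable {T : Type*} [CommRing T] [Algebra Z T] [Module.Finite Z T]

theorem mem_under {n : MaximalSpectrum T} {a : Z} :
    a ∈ (under Z n).asIdeal ↔ algebraMap Z T a ∈ n.asIdeal := Iff.rfl

/-- The map of residue fields. -/
def resMap (Z : Type*) [CommRing Z] {T : Type*} [CommRing T] [Algebra Z T] [Module.Finite Z T]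
    (n : MaximalSpectrum T) : Z ⧸ (under Z n).asIdeal →+* T ⧸ n.asIdeal :=
  Ideal.quotientMap n.asIdeal (algebraMap Z T) le_rfl

theorem resMap_rf (n : MaximalSpectrum T) (a : Z) :
    resMap Z n (rf (under Z n) a) = rf n (algebraMap Z T a) := rfl

theorem resMap_injective (n : MaximalSpectrum T) : Function.Injective (resMap Z n) :=
  Ideal.quotientMap_injective

theorem ResInf.of_finite (h : ResInf Z) (T : Type*) [CommRing T] [Algebra Z T] [Module.Finite Z T] :
    ResInf T := fun n =>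
  have := h (under Z n)
  Infinite.of_injective _ (resMap_injective (Z := Z) n)

theorem ResFin.of_finite (h : ResFin Z) (T : Type*) [CommRing T] [Algebra Z T] [Module.Finite Z T] :
    ResFin T := fun n => by
  have := h (under Z n)
  let _ := (resMap Z n).toAlgebra
  have : IsScalarTower Z (Z ⧸ (under Z n).asIdeal) (T ⧸ n.asIdeal) :=
    IsScalarTower.of_algebraMap_eq fun _ => rfl
  have : Module.Finite (Z ⧸ (under Z n).asIdeal) (T ⧸ n.asIdeal) :=
    Module.Finite.of_restrictScalars_finite Z _ _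
  exact Module.finite_of_finite (Z ⧸ (under Z n).asIdeal)

theorem sl_finite (Z T : Type*) [CommRing Z] [Finite (MaximalSpectrum Z)] [CommRing T] [Algebra Z T]
    [Module.Finite Z T] : Finite (MaximalSpectrum T) := by
  refine Set.finite_univ_iff.1 (Set.Finite.of_finite_fibers (under Z) (Set.toFinite _)
    fun N _ => ?_)
  rw [Set.univ_inter, ← Set.finite_coe_iff]
  have hfin := Algebra.QuasiFinite.finite_primesOver (R := Z) (S := T) N.asIdeal
  have := hfin.to_subtype
  refine Finite.of_injective (fun n : (under Z ⁻¹' {N} : Set (MaximalSpectrum T)) =>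
    (⟨n.1.asIdeal, n.1.isMaximal.isPrime, ⟨(congrArg MaximalSpectrum.asIdeal n.2).symm⟩⟩ :
      N.asIdeal.primesOver T)) fun a b hab => ?_
  exact Subtype.ext (MaximalSpectrum.ext (congrArg Subtype.val hab))

/-- In a finite algebra units are detected modulo the extended maximal ideals. -/
theorem isUnit_of_forall_map {x : T} (h : ∀ N : MaximalSpectrum Z, ∃ y,
    x * y - 1 ∈ N.asIdeal.map (algebraMap Z T)) : IsUnit x := by
  refine sl_unit fun n hn => ?_
  obtain ⟨y, hy⟩ := h (under Z n)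
  have h1 : x * y - 1 ∈ n.asIdeal := Ideal.map_le_iff_le_comap.2 le_rfl hy
  exact sl_notMem isUnit_one n (by simpa using n.asIdeal.sub_mem (n.asIdeal.mul_mem_right y hn) h1)

theorem isUnit_of_sub_mem_jac {x y : T} (hy : IsUnit y)
    (h : x - y ∈ (⊥ : Ideal Z).jacobson.map (algebraMap Z T)) : IsUnit x := by
  refine sl_unit fun n hn => ?_
  have h1 : x - y ∈ n.asIdeal :=
    Ideal.map_le_iff_le_comap.2 (fun a ha => mem_jac.1 ha (under Z n)) h
  exact sl_notMem hy n (by simpa using n.asIdeal.sub_mem hn h1)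

end Alg

theorem resInf_of_local (R : Type*) [CommRing R] [IsLocalRing R]
    [h : Infinite (IsLocalRing.ResidueField R)] : ResInf R := fun N => by
  rw [IsLocalRing.eq_maximalIdeal N.isMaximal]; exact h

theorem resFin_of_local (R : Type*) [CommRing R] [IsLocalRing R]
    [h : Finite (IsLocalRing.ResidueField R)] : ResFin R := fun N => by
  rw [IsLocalRing.eq_maximalIdeal N.isMaximal]; exact h

theorem arith_of_local (h : ∀ (N : MaximalSpectrum Z) (x y : Z),
    ∃ s, s ∉ N.asIdeal ∧ (y ∣ s * x ∨ x ∣ s * y)) : Arith Z := fun x y => by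
  have e : (Ideal.span {y}).colon {x} ⊔ (Ideal.span {x}).colon {y} = ⊤ := sl_top fun N => by
    obtain ⟨s, hs, h1 | h1⟩ := h N x y
    · exact ⟨s, Ideal.mem_sup_left (Submodule.mem_colon_singleton.2
        (Ideal.mem_span_singleton.2 h1)), hs⟩
    · exact ⟨s, Ideal.mem_sup_right (Submodule.mem_colon_singleton.2
        (Ideal.mem_span_singleton.2 h1)), hs⟩
  obtain ⟨s, hs, a, ha, e1⟩ := Submodule.mem_sup.1 (e ▸ Submodule.mem_top : (1 : Z) ∈ _)
  obtain ⟨b, hb⟩ := Ideal.mem_span_singleton'.1 (Submodule.mem_colon_singleton.1 hs)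
  obtain ⟨c, hc⟩ := Ideal.mem_span_singleton'.1 (Submodule.mem_colon_singleton.1 ha)
  exact ⟨a, b, c, by rw [← e1, add_sub_cancel_right]; exact hb.symm, hc.symm⟩

theorem Arith.at (h : Arith Z) (N : MaximalSpectrum Z) (x y : Z) :
    ∃ s, s ∉ N.asIdeal ∧ (y ∣ s * x ∨ x ∣ s * y) := by
  obtain ⟨a, b, c, h1, h2⟩ := h x y
  by_cases ha : a ∈ N.asIdeal
  · exact ⟨1 - a, fun e => sl_notMem isUnit_one N (by simpa using N.asIdeal.add_mem e ha),
      .inl ⟨b, by rw [h1, mul_comm]⟩⟩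
  · exact ⟨a, ha, .inr ⟨c, by rw [h2, mul_comm]⟩⟩

variable [Finite (MaximalSpectrum Z)]

theorem sl_crt (a : ∀ N : MaximalSpectrum Z, Z ⧸ N.asIdeal) : ∃ x, ∀ N, rf N x = a N := by
  obtain ⟨x, hx⟩ := Ideal.pi_quotient_surjective (I := fun N : MaximalSpectrum Z => N.asIdeal)
    (fun _ _ => MaximalSpectrum.isCoprime_of_ne) a
  exact ⟨x, hx⟩

theorem sl_crt' (a : MaximalSpectrum Z → Z) : ∃ x, ∀ N : MaximalSpectrum Z, x - a N ∈ N.asIdeal :=
  let ⟨x, hx⟩ := sl_crt fun N => rf N (a N)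
  ⟨x, fun N => Ideal.Quotient.eq.1 (hx N)⟩

theorem sl_crt_vec {ι : Type*} (a : ∀ N : MaximalSpectrum Z, ι → Z ⧸ N.asIdeal) :
    ∃ x : ι → Z, ∀ N, rf N ∘ x = a N := by
  choose x hx using fun i => sl_crt fun N => a N i
  exact ⟨x, fun N => funext fun i => hx i N⟩

/-- Elements that separate the maximal ideals. -/
theorem sl_sep : ∃ e : MaximalSpectrum Z → Z, (∀ N, rf N (e N) = 1) ∧
    ∀ N N', N ≠ N' → rf N' (e N) = 0 := by
  classical
  choose e he using fun N : MaximalSpectrum Z => sl_crt (Z := Z) fun N' => if N = N' then 1 else 0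
  exact ⟨e, fun N => by rw [he, if_pos rfl], fun N N' h => by rw [he, if_neg h]⟩

/-- Gluing modulo the maximal ideals in a module. -/
theorem sl_crt_mod {M : Type*} [AddCommGroup M] [Module Z M] (a : MaximalSpectrum Z → M) :
    ∃ x, ∀ N : MaximalSpectrum Z, x - a N ∈ N.asIdeal • (⊤ : Submodule Z M) := by
  classical
  have := Fintype.ofFinite (MaximalSpectrum Z)
  obtain ⟨e, h1, h2⟩ := sl_sep (Z := Z)
  refine ⟨∑ N, e N • a N, fun N => ?_⟩
  rw [← Finset.add_sum_erase _ _ (Finset.mem_univ N), add_sub_right_comm]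
  refine add_mem ?_ (sum_mem fun N' h => Submodule.smul_mem_smul
    (rf_eq_zero.1 (h2 N' N (Finset.ne_of_mem_erase h))) trivial)
  rw [show e N • a N - a N = (e N - 1) • a N by rw [sub_smul, one_smul]]
  exact Submodule.smul_mem_smul (rf_eq_zero.1 (by rw [map_sub, h1, map_one, sub_self])) trivial

theorem sl_crt_poly (n : ℕ) (a : ∀ N : MaximalSpectrum Z, (Z ⧸ N.asIdeal)[X])
    (ha : ∀ N, (a N).natDegree ≤ n) : ∃ p : Z[X], p.natDegree ≤ n ∧ ∀ N, p.map (rf N) = a N := by
  choose c hc using fun i : ℕ => sl_crt fun N => (a N).coeff i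
  refine ⟨∑ i ∈ Finset.range (n + 1), monomial i (c i),
    natDegree_sum_le_of_forall_le _ _ fun i hi => (natDegree_monomial_le _).trans
      (Nat.le_of_lt_succ (Finset.mem_range.1 hi)), fun N => ?_⟩
  rw [Polynomial.map_sum, (a N).as_sum_range' (n + 1) (Nat.lt_succ_of_le (ha N))]
  exact Finset.sum_congr rfl fun i _ => by rw [map_monomial, hc]

theorem sl_crt_monic (n : ℕ) (a : ∀ N : MaximalSpectrum Z, (Z ⧸ N.asIdeal)[X])
    (hm : ∀ N, (a N).Monic) (ha : ∀ N, (a N).natDegree = n) [Nontrivial Z] :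
    ∃ p : Z[X], p.Monic ∧ p.natDegree = n ∧ ∀ N, p.map (rf N) = a N := by
  obtain ⟨p, h1, h2⟩ := sl_crt_poly n a fun N => (ha N).le
  have e : (p + monomial n (1 - p.coeff n)).coeff n = 1 := by simp
  have d : (p + monomial n (1 - p.coeff n)).natDegree ≤ n :=
    natDegree_add_le_of_degree_le h1 (natDegree_monomial_le _)
  refine ⟨_, monic_of_natDegree_le_of_coeff_eq_one n d e,
    natDegree_eq_of_le_of_coeff_ne_zero d (by rw [e]; exact one_ne_zero), fun N => ?_⟩
  rw [Polynomial.map_add, map_monomial, h2, map_sub, ← coeff_map, h2, ← ha N, (hm N).coeff_natDegree,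
    map_one, sub_self, map_zero, add_zero]

/-- A choice that is possible at every maximal ideal is possible at all of them together. -/
theorem sl_exists {ι : Type*} (p : ∀ N : MaximalSpectrum Z, (ι → Z ⧸ N.asIdeal) → Prop)
    (h : ∀ N, ∃ y, p N y) : ∃ x : ι → Z, ∀ N, p N (rf N ∘ x) := by
  choose y hy using h
  obtain ⟨x, hx⟩ := sl_crt_vec y
  exact ⟨x, fun N => hx N ▸ hy N⟩

/-- Sets that miss only finitely many residue classes at each maximal ideal. -/
noncomputable def GenS (Z : Type*) [CommRing Z] : Filter Z :=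
  ⨅ N : MaximalSpectrum Z, Filter.comap (rf N) Filter.cofinite

theorem ResInf.neBot (h : ResInf Z) : (GenS Z).NeBot := by
  refine Filter.forall_mem_nonempty_iff_neBot.1 fun s hs => ?_
  obtain ⟨t, ht, rfl⟩ := (Filter.mem_iInf_of_finite s).1 hs
  choose v hv hv' using fun N => Filter.mem_comap.1 (ht N)
  choose a ha using fun N => (have := h N; Filter.nonempty_of_mem (hv N) : (v N).Nonempty)
  obtain ⟨x, hx⟩ := sl_crt a
  exact ⟨x, Set.mem_iInter.2 fun N => hv' N (by rw [Set.mem_preimage, hx]; exact ha N)⟩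

section Gen
variable {T : Type*} [CommRing T] [Algebra Z T] [Module.Finite Z T]

theorem eventually_notMemS (p : MaximalSpectrum T → T[X])
    (hp : ∀ n, ∃ i, (p n).coeff i ∉ n.asIdeal) :
    ∀ᶠ c in GenS Z, ∀ n : MaximalSpectrum T, (p n).eval (algebraMap Z T c) ∉ n.asIdeal := by
  have := sl_finite Z T
  rw [Filter.eventually_all]
  intro n
  have hne : (p n).map (rf n) ≠ 0 := fun h => by
    obtain ⟨i, hi⟩ := hp n
    exact hi (rf_eq_zero.1 (by rw [← coeff_map, h, coeff_zero]))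
  have hfin2 := (finite_setOfPred_isRoot hne).preimage (f := resMap Z n)
    (resMap_injective n).injOn
  refine Filter.mem_iInf_of_mem (under Z n)
    (Filter.mem_comap.2 ⟨_, hfin2.compl_mem_cofinite, fun c hc hmem => hc ?_⟩)
  change IsRoot _ (resMap Z n (rf _ c))
  rw [resMap_rf, IsRoot, eval_map, eval₂_at_apply]
  exact rf_eq_zero.2 hmem

theorem eventually_isUnitS (p : T[X]) (i : ℕ) (hp : IsUnit (p.coeff i)) :
    ∀ᶠ c in GenS Z, IsUnit (p.eval (algebraMap Z T c)) :=
  (eventually_notMemS (Z := Z) (fun _ => p) fun n => ⟨i, sl_notMem hp n⟩).mono fun _ hc =>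
    sl_unit hc

theorem eventually_adjoin_eq_topS (f : T[X]) (j : ℕ) (hj : Algebra.adjoin Z {f.coeff j} = ⊤) :
    ∀ᶠ c in GenS Z, Algebra.adjoin Z {f.eval (algebraMap Z T c)} = ⊤ := by
  classical
  set t := f.coeff j with ht
  have hall : ∀ x : T, x ⊗ₜ[Z] (1 : T) - (1 : T) ⊗ₜ[Z] x ∈
      Ideal.span {t ⊗ₜ[Z] (1 : T) - (1 : T) ⊗ₜ[Z] t} :=
    gen_mem_of_adjoin {t} hj _ (by
      intro x hx
      rw [Set.mem_singleton_iff.mp hx]
      exact Ideal.mem_span_singleton_self _)
  have hd : ∀ i : ℕ, ∃ d : T ⊗[Z] T,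
      d * (t ⊗ₜ[Z] (1 : T) - (1 : T) ⊗ₜ[Z] t) =
        (f.coeff i) ⊗ₜ[Z] (1 : T) - (1 : T) ⊗ₜ[Z] (f.coeff i) ∧ (i = j → d = 1) := by
    intro i
    by_cases hij : i = j
    · exact ⟨1, by rw [hij, one_mul], fun _ => rfl⟩
    · obtain ⟨d, hd⟩ := Ideal.mem_span_singleton'.mp (hall (f.coeff i))
      exact ⟨d, hd, fun h => absurd h hij⟩
  choose d hd1 hd2 using hd
  set N := max (f.natDegree + 1) (j + 1) with hN
  let p : (T ⊗[Z] T)[X] := ∑ i ∈ Finset.range N, monomial i (d i)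
  have hpj : p.coeff j = 1 := by
    simp only [p, finsetSum_coeff, coeff_monomial]
    rw [Finset.sum_ite_eq' (Finset.range N) j d, if_pos (by
      rw [Finset.mem_range]; omega)]
    exact hd2 j rfl
  have hunit := eventually_isUnitS (Z := Z) p j (by rw [hpj]; exact isUnit_one)
  filter_upwards [hunit] with c hc
  apply adjoin_eq_top_of_span
  have hkey : (f.eval (algebraMap Z T c)) ⊗ₜ[Z] (1 : T) -
      (1 : T) ⊗ₜ[Z] (f.eval (algebraMap Z T c)) =
      p.eval (algebraMap Z (T ⊗[Z] T) c) * (t ⊗ₜ[Z] (1 : T) - (1 : T) ⊗ₜ[Z] t) := by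
    rw [eval_eq_sum_range' (n := N) (by omega), TensorProduct.sum_tmul, TensorProduct.tmul_sum,
      ← Finset.sum_sub_distrib]
    simp only [p, eval_finsetSum, eval_monomial, Finset.sum_mul]
    refine Finset.sum_congr rfl fun i _ => ?_
    rw [mul_comm (f.coeff i), ← map_pow, gen_D_smul, ← hd1 i, map_pow]
    ring
  refine gen_mem_of_adjoin {t} hj _ ?_
  intro x hx
  rw [Set.mem_singleton_iff.mp hx, hkey]
  obtain ⟨v, hv⟩ := hc.exists_left_inv
  refine Ideal.mem_span_singleton'.mpr ⟨v, ?_⟩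
  rw [← mul_assoc, hv, one_mul]

end Gen

end Pool.Agent.GW
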