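import Pool.Agent.P.MP_c1f06d_ag.BTop
import Pool.Agent.P.MP_c1f06d_ag.w.SL

open Matrix Polynomial

universe u

namespace Pool.Agent.GW

open Pool.Agent.P.MP_c1f06d_ag

variable {m : ℕ}

/-- The form is unimodular or the sum of a line with unit value and a unimodular form. -/
def Smq {T : Type*} [CommRing T] (Q : Matrix (Fin m) (Fin m) T) : Prop :=
  Unim Q ∨ ∃ r ρ, Semi Q r ρ

theorem Smq.map {T T' : Type*} [CommRing T] [CommRing T'] {Q : Matrix (Fin m) (Fin m) T}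
    (h : Smq Q) (f : T →+* T') : Smq (Q.map f) :=
  h.imp (fun h => h.map f) fun ⟨_, _, h⟩ => ⟨_, _, h.map f⟩

section Field
variable {k : Type*} [Field k] {Q : Matrix (Fin m) (Fin m) k}

theorem Smq.good_of_qv_eq_zero (h : Smq Q) {x : Fin m → k} (hx : x ≠ 0) (h0 : qv Q x = 0) :
    Good Q x := by
  rcases h with h | ⟨r, ρ, h⟩
  · obtain ⟨i, hi⟩ := Function.ne_iff.1 hx
    exact h.exists_bv_one (isUnit_iff_ne_zero.2 hi)
  · exact h.good_of_qv_eq_zero hx h0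

theorem Smq.exists_qv_ne_zero_perp (h : Smq Q) (hm : 5 ≤ m) (a b z : Fin m → k) :
    ∃ y, bv Q y a = 0 ∧ bv Q y b = 0 ∧ qv Q (z + y) ≠ 0 := by
  rcases h with h | ⟨r, ρ, h⟩
  · exact Pool.Agent.P.MP_c1f06d_ag.exists_qv_ne_zero_perp h hm a b z
  · exact h.exists_qv_ne_zero_perp hm a b z

theorem good_ne_zero {x : Fin m → k} (h : Good Q x) : x ≠ 0 := by
  rintro rfl
  obtain ⟨z, hz⟩ := h
  rw [bv_zero_left] at hz
  exact zero_ne_one hz

theorem Smq.exists_three_ne_zero (h : Smq Q) (hm : 5 ≤ m) {a b : Fin m → k} (ha : Good Q a)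
    (hb : Good Q b) : ∃ z, qv Q z ≠ 0 ∧ bv Q a z ≠ 0 ∧ bv Q b z ≠ 0 := by
  rcases h with h | ⟨r, ρ, h⟩
  · exact Pool.Agent.P.MP_c1f06d_ag.exists_three_ne_zero h hm (good_ne_zero ha) (good_ne_zero hb)
  · exact h.exists_three_ne_zero hm ha hb

theorem Smq.exists_two_refl_field (h : Smq Q) (hm : 5 ≤ m) {w w' : Fin m → k} (hw : Good Q w)
    (hw' : Good Q w') :
    ∃ z, qv Q z ≠ 0 ∧ qv Q (w - w') * qv Q z + bv Q w z * bv Q w' z ≠ 0 := by
  rcases h with h | ⟨r, ρ, h⟩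
  · exact Pool.Agent.P.MP_c1f06d_ag.exists_two_refl_field h hm (good_ne_zero hw) (good_ne_zero hw')
  · exact h.exists_two_refl_field hm hw hw'

theorem Smq.top_iso (hQ : Smq Q) (hm : 5 ≤ m) {x : Fin m → k} (hx : x ≠ 0)
    (hx0 : qv Q x = 0) {P : k[X]} (hP : P.Monic) {n : ℕ} (hn : P.natDegree = n + 2) (c : k[X]) :
    ∃ w' : Fin m → k[X], (∀ i, (w' i).natDegree ≤ n + 1) ∧ P ∣ qv (Q.map C) w' - c ∧
      qv Q (fun i => (w' i).coeff (n + 1)) ≠ 0 ∧ bv (Q.map C) w' (C ∘ x) = 1 := by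
  obtain ⟨g, hg⟩ := hQ.good_of_qv_eq_zero hx hx0
  obtain ⟨f, f1, f2⟩ : ∃ f, qv Q f = 0 ∧ bv Q x f = 1 := ⟨g - qv Q g • x,
    by rw [qv_sub, qv_smul, bv_smul_right, bv_comm, hg, hx0]; ring,
    by rw [bv_sub_right, bv_smul_right, bv_self, hg, hx0]; ring⟩
  obtain ⟨v, v1, v2, v3⟩ := hQ.exists_qv_ne_zero_perp hm x f 0
  rw [zero_add] at v3
  obtain ⟨a, ha⟩ : ∃ a, a = (c - (X ^ (n + 1)) ^ 2 * C (qv Q v)) %ₘ P := ⟨_, rfl⟩
  have h1 : a.natDegree ≤ n + 1 := ha ▸ top_lt hP hn _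
  refine ⟨a • (C ∘ x) + C ∘ f + (X ^ (n + 1) : k[X]) • (C ∘ v), fun j => ?_, ?_, ?_, ?_⟩
  · refine natDegree_add_le_of_degree_le (natDegree_add_le_of_degree_le
      ((natDegree_mul_C_le a _).trans h1) (by simp))
      ((natDegree_mul_C_le (X ^ (n + 1)) _).trans (natDegree_X_pow_le _))
  · rw [qv_add, qv_add, bv_add_left, qv_smul, qv_smul, bv_smul_left, bv_smul_left, bv_smul_right,
      bv_smul_right, qv_map, qv_map, qv_map, bv_map, bv_map, bv_map, hx0, f1, f2, bv_comm Q x, v1,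
      bv_comm Q f, v2]
    have := dvd_modByMonic_sub (c - (X ^ (n + 1)) ^ 2 * C (qv Q v)) P
    rw [← ha] at this
    refine this.trans (dvd_of_eq ?_)
    simp only [map_zero, map_one]
    ring
  · have : (fun j => ((a • (C ∘ x) + C ∘ f + (X ^ (n + 1) : k[X]) • (C ∘ v)) j).coeff (n + 1)) =
        a.coeff (n + 1) • x + v := funext fun j => by simp
    rw [this, qv_add, qv_smul, bv_smul_left, bv_comm, v1, hx0]
    simpa using v3
  · rw [bv_add_left, bv_add_left, bv_smul_left, bv_smul_left, bv_map, bv_map, bv_map, bv_self, hx0,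
      bv_comm Q f, f2, v1]
    simp

theorem Smq.exists_good_field (h : Smq Q) (hm : 2 ≤ m) : ∃ v, qv Q v ≠ 0 ∧ Good Q v := by
  rcases h with h | ⟨r, ρ, h⟩
  · obtain ⟨v, hv⟩ := h.exists_isUnit_qv (by omega)
    exact ⟨v, hv.ne_zero, h.exists_bv_one_of_isUnit hv⟩
  · obtain ⟨v, hv, hg⟩ := h.exists_good hm
    exact ⟨v, hv.ne_zero, hg⟩

end Field

attribute [local instance] Ideal.Quotient.field

variable {S : Type*} [CommRing S] [Finite (MaximalSpectrum S)] {Q : Matrix (Fin m) (Fin m) S}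

theorem good_of_forall {x : Fin m → S} (h : ∀ N, Good (Q.map (rf N)) (rf N ∘ x)) : Good Q x := by
  obtain ⟨z, hz⟩ := sl_exists (fun N y => bv (Q.map (rf N)) (rf N ∘ x) y = 1) h
  exact good_of_isUnit (z := z) (sl_unit_iff.2 fun N => by rw [← bv_map, hz]; exact one_ne_zero)

theorem Smq.exists_good (h : Smq Q) (hm : 2 ≤ m) : ∃ v, IsUnit (qv Q v) ∧ Good Q v := by
  obtain ⟨v, hv⟩ := sl_exists (fun N y => qv (Q.map (rf N)) y ≠ 0 ∧ Good (Q.map (rf N)) y)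
    fun N => (h.map (rf N)).exists_good_field hm
  exact ⟨v, sl_unit_iff.2 fun N => qv_map Q (rf N) v ▸ (hv N).1, good_of_forall fun N => (hv N).2⟩

theorem exists_isUnit_qvS (h : Unim Q) (hm : 1 ≤ m) : ∃ v, IsUnit (qv Q v) := by
  obtain ⟨v, hv⟩ := sl_exists (fun N y => IsUnit (qv (Q.map (rf N)) y))
    fun N => (h.map (rf N)).exists_isUnit_qv hm
  exact ⟨v, sl_unit_iff.2 fun N => qv_map Q (rf N) v ▸ (hv N).ne_zero⟩

theorem Smq.exists_two_refl (hQ : Smq Q) (hm : 5 ≤ m) {w w' : Fin m → S} (h : qv Q w' = qv Q w)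
    (hw : Good Q w) (hw' : Good Q w') :
    ∃ z, IsUnit (qv Q z) ∧ IsUnit (qv Q (refl Q z w - w')) := by
  obtain ⟨y, hy⟩ := sl_exists _ fun N =>
    (hQ.map (rf N)).exists_two_refl_field hm (hw.map _) (hw'.map _)
  have u1 : IsUnit (qv Q y) := sl_unit_iff.2 fun N => qv_map Q (rf N) y ▸ (hy N).1
  refine ⟨y, u1, isUnit_of_mul_isUnit_left (y := qv Q y) ?_⟩
  have e : qv Q (refl Q y w - w') * qv Q y = qv Q (w - w') * qv Q y + bv Q w y * bv Q w' y := by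
    rw [qv_sub, qv_sub, qv_refl u1, bv_refl_left, bv_comm Q y w']
    linear_combination bv Q w y * bv Q w' y * Ring.inverse_mul_cancel _ u1
  refine e ▸ sl_unit_iff.2 fun N => ?_
  have h2 := (hy N).2
  rw [show rf N ∘ w - rf N ∘ w' = rf N ∘ (w - w') from
    funext fun i => (map_sub (rf N) (w i) (w' i)).symm] at h2
  simpa only [qv_map, bv_map, ← map_mul, ← map_add] using h2

omit [Finite (MaximalSpectrum S)] in
theorem Smq.lift_vector {S' : Type*} [CommRing S'] (f : S →+* S') (hf : Function.Surjective f)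
    [IsLocalHom f] [Finite (MaximalSpectrum S')] (hQ : Smq Q) (hm : 5 ≤ m) {w : Fin m → S}
    (hw : Good Q w) {w' : Fin m → S'} (hw' : Good (Q.map f) w')
    (h : qv (Q.map f) w' = f (qv Q w)) : ∃ w1, qv Q w1 = qv Q w ∧ f ∘ w1 = w' := by
  obtain ⟨z, h1, h2⟩ := (hQ.map f).exists_two_refl hm (w := f ∘ w) (w' := w')
    (by rw [h, qv_map]) (hw.map f) hw'
  obtain ⟨z, rfl⟩ := hf.comp_left z
  obtain ⟨y, hy⟩ := hf.comp_left (refl (Q.map f) (f ∘ z) (f ∘ w) - w')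
  have u1 : IsUnit (qv Q z) := IsUnit.of_map f _ (qv_map Q f z ▸ h1)
  have u2 : IsUnit (qv Q y) := IsUnit.of_map f _ (by rw [← qv_map, show f ∘ y = _ from hy]; exact h2)
  refine ⟨refl Q y (refl Q z w), by rw [qv_refl u2, qv_refl u1], ?_⟩
  rw [refl_map f u2, refl_map f u1, show f ∘ y = _ from hy]
  exact refl_sub (by rw [qv_refl h1, h, qv_map]) h2

end Pool.Agent.GW
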