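import Pool.Agent.P.MP_c1f06d_ag.BNF
import Pool.Agent.P.MP_c1f06d_ag.w.Smq

open Matrix Polynomial

universe u

namespace Pool.Agent.GW

open Pool.Agent.P.MP_c1f06d_ag

variable {m n : ℕ}

attribute [local instance] Ideal.Quotient.field

theorem nfs_core {T : Type*} [CommRing T] {Q : Matrix (Fin (n + 1)) (Fin (n + 1)) T}
    {r ρ : Fin (n + 1) → T} (h : Semi Q r ρ) (G : Matrix (Fin (n + 1)) (Fin n) T)
    (P : Matrix (Fin n) (Fin (n + 1)) T) (G1 : ∀ u, P *ᵥ (G *ᵥ u) = u)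
    (G3 : ∀ u, (G *ᵥ u) ⬝ᵥ ρ = 0) (G2 : ∀ y, y ⬝ᵥ ρ = 0 → G *ᵥ (P *ᵥ y) = y) :
    ∃ Q0 : Matrix (Fin n) (Fin n) T, Unim Q0 ∧ Iso (qv Q r • ext1 Q0) Q ∧
      Iso Q (qv Q r • ext1 Q0) := by
  obtain ⟨c, hc⟩ := h.unit.exists_left_inv
  have G4 : ∀ x : Fin (n + 1) → T,
      G *ᵥ (P *ᵥ (x - (x ⬝ᵥ ρ) • r)) = x - (x ⬝ᵥ ρ) • r := fun x => G2 _ (by
    rw [sub_dotProduct, smul_dotProduct, h.one, smul_eq_mul, mul_one, sub_self])
  have G5 : ∀ u, bv Q (G *ᵥ u) r = 0 := fun u => by rw [h.bv_r, G3, mul_zero]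
  have key : ∀ (s : T) (u : Fin n → T),
      qv Q (s • r + G *ᵥ u) = qv (qv Q r • ext1 (c • (Gᵀ * Q * G))) (Fin.cons s u) := fun s u => by
    rw [qv_add, qv_smul, bv_smul_left, bv_comm, G5, qv_smul_mat, qv_ext1, qv_smul_mat, bnf_qv]
    linear_combination (-qv (Gᵀ * Q * G) u) * hc
  refine ⟨c • (Gᵀ * Q * G), unim_of_bv fun i => ?_, ?_, ?_⟩
  · obtain ⟨y, s, e⟩ := h.exists_dual (P i)
    refine ⟨qv Q r • (P *ᵥ (y - (y ⬝ᵥ ρ) • r)), fun u => ?_⟩
    have e1 := e (G *ᵥ u)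
    have e2 : (G *ᵥ u) ⬝ᵥ P i = u i := by
      rw [dotProduct_comm]
      exact congrFun (G1 u) i
    rw [e2, G3, mul_zero, add_zero] at e1
    rw [bv_smul_mat, bv_smul_right, ← bnf_bv, G4, bv_sub_right, bv_smul_right, G5, ← e1]
    linear_combination u i * hc
  · refine iso_of_linearMap
      { toFun := fun x => x 0 • r + G *ᵥ Fin.tail x
        map_add' := fun x y => by
          rw [show Fin.tail (x + y) = Fin.tail x + Fin.tail y from rfl, mulVec_add, Pi.add_apply,
            add_smul]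
          abel
        map_smul' := fun a x => by
          rw [show Fin.tail (a • x) = a • Fin.tail x from rfl, mulVec_smul, Pi.smul_apply,
            smul_add, smul_assoc]
          rfl } fun x => ?_
    change qv Q (x 0 • r + G *ᵥ Fin.tail x) = _
    rw [key, Fin.cons_self_tail]
  · refine iso_of_linearMap
      { toFun := fun x => Fin.cons (x ⬝ᵥ ρ) (P *ᵥ (x - (x ⬝ᵥ ρ) • r))
        map_add' := fun x y => by
          have e : x + y - ((x + y) ⬝ᵥ ρ) • r = (x - (x ⬝ᵥ ρ) • r) + (y - (y ⬝ᵥ ρ) • r) := by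
            rw [add_dotProduct, add_smul]
            abel
          rw [e, mulVec_add]
          funext i
          refine Fin.cases ?_ (fun i => ?_) i <;> simp
        map_smul' := fun a x => by
          have e : a • x - ((a • x) ⬝ᵥ ρ) • r = a • (x - (x ⬝ᵥ ρ) • r) := by
            rw [smul_dotProduct, smul_sub, smul_assoc]
          rw [e, mulVec_smul]
          funext i
          refine Fin.cases ?_ (fun i => ?_) i <;> simp } fun x => ?_
    change qv _ (Fin.cons (x ⬝ᵥ ρ) (P *ᵥ (x - (x ⬝ᵥ ρ) • r))) = _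
    rw [← key, G4, add_sub_cancel]

theorem exists_ext1S {Z : Type*} [CommRing Z] [Finite (MaximalSpectrum Z)]
    {Q : Matrix (Fin (n + 1)) (Fin (n + 1)) Z} {r ρ : Fin (n + 1) → Z} (h : Semi Q r ρ) :
    ∃ Q0 : Matrix (Fin n) (Fin n) Z, Unim Q0 ∧ Iso (qv Q r • ext1 Q0) Q ∧
      Iso Q (qv Q r • ext1 Q0) := by
  obtain ⟨c, hc⟩ := sl_exists (Z := Z) (ι := Fin n)
    (fun N y => rf N (ρ 0) + ∑ i, y i * rf N (ρ i.succ) ≠ 0) fun N => by
      by_contra! hn
      have h0 : rf N (ρ 0) = 0 := by simpa using hn 0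
      have h1 : ∀ i : Fin n, rf N (ρ i.succ) = 0 := fun i => by
        have := hn (Pi.single i 1)
        rw [h0, zero_add] at this
        simpa [Pi.single_apply] using this
      have h2 := congrArg (rf N) h.one
      rw [dotProduct, Fin.sum_univ_succ, map_add, map_mul, h0, map_sum] at h2
      simp only [map_mul, h1, mul_zero, Finset.sum_const_zero, add_zero, map_one] at h2
      exact zero_ne_one h2
  obtain ⟨b, hb⟩ : ∃ b, b * (ρ 0 + ∑ i, c i * ρ i.succ) = 1 :=
    IsUnit.exists_left_inv (sl_unit_iff.2 fun N => by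
      simpa only [map_add, map_sum, map_mul, Function.comp_apply] using hc N)
  let G : Matrix (Fin (n + 1)) (Fin n) Z :=
    Matrix.of (Fin.cons (fun k => -b * ρ k.succ)
      fun j k => (Pi.single j 1 : Fin n → Z) k - b * ρ k.succ * c j)
  let P : Matrix (Fin n) (Fin (n + 1)) Z :=
    Matrix.of fun j => Fin.cons (-c j) (Pi.single j 1)
  have g0 : ∀ u, (G *ᵥ u) 0 = -b * ∑ k, u k * ρ k.succ := fun u => by
    simp only [G, mulVec, dotProduct, of_apply, Fin.cons_zero, Finset.mul_sum]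
    exact Finset.sum_congr rfl fun i _ => by ring
  have g1 : ∀ u j, (G *ᵥ u) (Fin.succ j) = u j - b * (∑ k, u k * ρ k.succ) * c j := fun u j => by
    have e : ∑ k, (Pi.single j 1 : Fin n → Z) k * u k = u j := by
      simp [Pi.single_apply]
    simp only [G, mulVec, dotProduct, of_apply, Fin.cons_succ, sub_mul, Finset.sum_sub_distrib, e,
      Finset.mul_sum, Finset.sum_mul]
    congr 1
    exact Finset.sum_congr rfl fun i _ => by ring
  have p1 : ∀ y j, (P *ᵥ y) j = y (Fin.succ j) - y 0 * c j := fun y j => by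
    have e : ∑ k, (Pi.single j 1 : Fin n → Z) k * y k.succ = y j.succ := by
      simp [Pi.single_apply]
    simp only [P, mulVec, dotProduct, of_apply, Fin.sum_univ_succ, Fin.cons_zero, Fin.cons_succ, e]
    ring
  refine nfs_core h G P (fun u => funext fun j => ?_) (fun u => ?_) fun y hy => ?_
  · rw [p1, g0, g1]
    ring
  · rw [dotProduct, Fin.sum_univ_succ, g0]
    simp only [g1, sub_mul, Finset.sum_sub_distrib, mul_assoc, ← Finset.mul_sum]
    linear_combination (-∑ k, u k * ρ k.succ) * hb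
  · have e : -b * ∑ k, (P *ᵥ y) k * ρ k.succ = y 0 := by
      rw [dotProduct, Fin.sum_univ_succ] at hy
      simp only [p1, sub_mul, Finset.sum_sub_distrib, mul_assoc, ← Finset.mul_sum]
      linear_combination (-b) * hy + y 0 * hb
    funext i
    refine Fin.cases ?_ (fun j => ?_) i
    · rw [g0, e]
    · rw [g1, p1]
      linear_combination c j * e

theorem nfs_det_odd {T : Type*} [CommRing T] (hm : Odd m) (M : Matrix (Fin m) (Fin m) T) :
    (M - Mᵀ).det = 0 := by
  let A : Matrix (Fin m) (Fin m) (MvPolynomial (Fin m × Fin m) ℤ) :=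
    Matrix.of fun i j => MvPolynomial.X (i, j)
  have e : (A - Aᵀ).det = 0 := by
    have e1 : (A - Aᵀ)ᵀ = -(A - Aᵀ) := by rw [transpose_sub, transpose_transpose, neg_sub]
    have e2 := det_transpose (A - Aᵀ)
    rw [e1, det_neg, Fintype.card_fin, hm.neg_one_pow] at e2
    have e3 : 2 * (A - Aᵀ).det = 0 := by linear_combination -e2
    exact (mul_eq_zero.1 e3).resolve_left two_ne_zero
  let f : MvPolynomial (Fin m × Fin m) ℤ →+* T :=
    MvPolynomial.eval₂Hom (Int.castRingHom T) fun p => M p.1 p.2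
  have e4 : M - Mᵀ = f.mapMatrix (A - Aᵀ) := by
    ext i j
    simp [A, f]
  rw [e4, ← RingHom.map_det, e, map_zero]

theorem nfs_two_ne {k : Type*} [Field k] (hm : Odd m) {M : Matrix (Fin m) (Fin m) k}
    (h : Unim M) : (2 : k) ≠ 0 := fun h2 => by
  have e : M + Mᵀ = M - Mᵀ := by
    ext i j
    rw [Matrix.add_apply, Matrix.sub_apply]
    linear_combination Mᵀ i j * h2
  unfold Unim at h
  rw [e, nfs_det_odd hm] at h
  exact h.ne_zero rfl

theorem nfs_unim_of_even {k : Type*} [Field k] (hm : Even m) {Q : Matrix (Fin m) (Fin m) k}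
    (h : Smq Q) : Unim Q := by
  rcases h with h | ⟨r, ρ, h⟩
  · exact h
  have h2 : 2 * qv Q r ≠ 0 := mul_ne_zero (nfs_two_ne hm.add_one h.unim_ext) h.unit.ne_zero
  refine unim_of_dual fun i => ?_
  obtain ⟨y, s, e⟩ := h.dual i
  refine ⟨y + (s * (2 * qv Q r)⁻¹) • r, ?_⟩
  rw [mulVec_add, mulVec_smul, h.perp, smul_smul, mul_assoc, inv_mul_cancel₀ h2, mul_one, e]

theorem nfs_ext_of_odd {k : Type*} [Field k] (hm : Odd m) {Q : Matrix (Fin m) (Fin m) k}
    (h : Smq Q) : ∃ ρ, Unim (ext Q ρ) := by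
  rcases h with h | ⟨r, ρ, h⟩
  swap
  · exact ⟨ρ, h.unim_ext⟩
  obtain ⟨r, hr⟩ := h.exists_isUnit_qv hm.pos
  have h2 : 2 * qv Q r ≠ 0 := mul_ne_zero (nfs_two_ne hm h) hr.ne_zero
  refine ⟨(2 * qv Q r)⁻¹ • ((Q + Qᵀ) *ᵥ r), Semi.unim_ext (r := r) ⟨hr, ?_, ?_, fun i => ?_⟩⟩
  · rw [dotProduct_smul, smul_eq_mul, ← bv, bv_self, inv_mul_cancel₀ h2]
  · rw [smul_smul, mul_inv_cancel₀ h2, one_smul]
  · refine ⟨(Q + Qᵀ)⁻¹ *ᵥ Pi.single i 1, 0, ?_⟩
    rw [zero_smul, add_zero, mulVec_mulVec, mul_nonsing_inv _ h, one_mulVec]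

theorem nfs_unim {Z : Type*} [CommRing Z] {Q : Matrix (Fin m) (Fin m) Z}
    (h : ∀ N : MaximalSpectrum Z, Unim (Q.map (rf N))) : Unim Q :=
  sl_unit_iff.2 fun N => by
    have := (h N).ne_zero
    rw [polar_map] at this
    rw [RingHom.map_det]
    exact this

theorem smq_of_smooth {Z : Type u} [CommRing Z] [Finite (MaximalSpectrum Z)]
    (Q : Matrix (Fin m) (Fin m) Z)
    (h : ∀ (k : Type u) [Field k] (f : Z →+* k) (x : Fin m → k),
      x ⬝ᵥ Q.map f *ᵥ x = 0 → (Q.map f + (Q.map f)ᵀ) *ᵥ x = 0 → x = 0) : Smq Q := by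
  have hN : ∀ N : MaximalSpectrum Z, Smq (Q.map (rf N)) := fun N =>
    unim_or_semi _ fun k _ f x => h k (f.comp (rf N)) x
  rcases Nat.even_or_odd m with hm | hm
  · exact .inl (nfs_unim fun N => nfs_unim_of_even hm (hN N))
  right
  obtain ⟨ρ, hρ⟩ := sl_exists (Z := Z) (fun N y => Unim (ext (Q.map (rf N)) y))
    fun N => nfs_ext_of_odd hm (hN N)
  have U : Unim (ext Q ρ) := nfs_unim fun N => by rw [ext_map]; exact hρ N
  obtain ⟨w, hw⟩ := U.exists_bv_eq 0
  rw [← Fin.cons_self_tail w] at hw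
  generalize w 0 = s, Fin.tail w = r at hw
  have w1 : r ⬝ᵥ ρ = 1 := by
    have := hw (Fin.cons 1 0)
    rw [bv_ext, bv_zero_left] at this
    simpa using this
  have w2 : ∀ v, s * (v ⬝ᵥ ρ) + bv Q v r = 0 := fun v => by
    have := hw (Fin.cons 0 v)
    rw [bv_ext] at this
    simpa using this
  have w3 : s = -(2 * qv Q r) := by
    have := w2 r
    rw [w1, bv_self] at this
    linear_combination this
  have perp : (Q + Qᵀ) *ᵥ r = (2 * qv Q r) • ρ := funext fun i => by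
    have := w2 (Pi.single i 1)
    rw [bv, single_dotProduct, single_dotProduct, w3] at this
    rw [Pi.smul_apply, smul_eq_mul]
    linear_combination this
  refine ⟨r, ρ, sl_unit_iff.2 fun N e => ?_, w1, perp, fun i => ?_⟩
  · rw [← qv_map] at e
    have e1 : (Q.map (rf N) + (Q.map (rf N))ᵀ) *ᵥ (rf N ∘ r) = 0 := funext fun i => by
      rw [polar_map, ← RingHom.map_mulVec, perp, Pi.smul_apply, smul_eq_mul, map_mul, map_mul,
        ← qv_map, e]
      simp
    have e2 := h _ (rf N) (rf N ∘ r) e e1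
    have e3 := congrArg (rf N) w1
    rw [RingHom.map_dotProduct, e2, zero_dotProduct, map_one] at e3
    exact zero_ne_one e3
  · obtain ⟨y, hy⟩ := U.exists_bv_eq i.succ
    rw [← Fin.cons_self_tail y] at hy
    refine ⟨Fin.tail y, y 0, funext fun a => ?_⟩
    have := hy (Fin.cons 0 (Pi.single a 1))
    rw [bv_ext, bv, single_dotProduct, single_dotProduct, Fin.cons_succ] at this
    rw [Pi.add_apply, Pi.smul_apply, smul_eq_mul, Pi.single_comm i (1 : Z) a]
    linear_combination this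

end Pool.Agent.GW
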