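import Pool.Agent.P.MP_c1f06d_ag.BNormInd
import Pool.Agent.P.MP_c1f06d_ag.w.Smq

open Matrix Polynomial

universe u

namespace Pool.Agent.GW

open Pool.Agent.P.MP_c1f06d_ag

variable {m : ℕ} {Z : Type*} [CommRing Z] [Nontrivial Z] [Finite (MaximalSpectrum Z)]
  {Q : Matrix (Fin m) (Fin m) Z}

theorem nis_field {k : Type*} [Field k] {Q : Matrix (Fin m) (Fin m) k} (hQ : Smq Q) (hm : 5 ≤ m)
    {P : k[X]} (hP : P.Monic) {n : ℕ} (hn : P.natDegree = n + 1) (w0 : Fin m → k[X])
    (hw : IsCoprime (qv (Q.map C) w0) P)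
    (hg : Good ((Q.map C).map (AdjoinRoot.mk P)) (AdjoinRoot.mk P ∘ w0)) :
    ∃ (v t : Fin m → k[X]) (x : Fin m → k), (∀ i, (v i).natDegree ≤ n) ∧
      (∀ i, (t i).natDegree ≤ n) ∧ P ∣ qv (Q.map C) v - qv (Q.map C) w0 ∧
      qv Q (fun i => (v i).coeff n) ≠ 0 ∧ P ∣ bv (Q.map C) v t - 1 ∧
      (n = 0 ∨ Infinite k ∨ bv (Q.map C) v (C ∘ x) = 1) := by
  obtain ⟨v, x, v1, v2, v3, ⟨t, ht⟩, v5⟩ : ∃ (v : Fin m → k[X]) (x : Fin m → k),
      (∀ i, (v i).natDegree ≤ n) ∧ P ∣ qv (Q.map C) v - qv (Q.map C) w0 ∧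
      qv Q (fun i => (v i).coeff n) ≠ 0 ∧
      Good ((Q.map C).map (AdjoinRoot.mk P)) (AdjoinRoot.mk P ∘ v) ∧
      (n = 0 ∨ Infinite k ∨ bv (Q.map C) v (C ∘ x) = 1) := by
    rcases n with _ | n
    · have e : AdjoinRoot.mk P ∘ (fun i => w0 i %ₘ P) = AdjoinRoot.mk P ∘ w0 :=
        funext fun i => AdjoinRoot.mk_eq_mk.2 (dvd_modByMonic_sub _ _)
      have h1 : P ∣ qv (Q.map C) (fun i => w0 i %ₘ P) - qv (Q.map C) w0 := by
        rw [← AdjoinRoot.mk_eq_mk, ← qv_map, ← qv_map, e]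
      refine ⟨_, 0, fun i => top_lt hP hn _, h1, fun h0 => top_ne hn hw ?_, by rwa [e], .inl rfl⟩
      rw [show (fun i => w0 i %ₘ P) = C ∘ fun i => (w0 i %ₘ P).coeff 0 from
        funext fun i => eq_C_of_natDegree_le_zero (top_lt hP hn _), qv_map, h0, map_zero,
        zero_sub] at h1
      exact dvd_neg.1 h1
    by_cases h : ∃ x, x ≠ 0 ∧ qv Q x = 0
    · obtain ⟨x, h1, h2⟩ := h
      obtain ⟨v, a1, a2, a3, a4⟩ := hQ.top_iso hm h1 h2 hP hn (qv (Q.map C) w0)
      exact ⟨v, x, a1, a2, a3, Good.map ⟨_, a4⟩ _, .inr (.inr a4)⟩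
    · have : Infinite k := not_finite_iff_infinite.1 fun _ =>
        h (exists_isotropic_of_finite Q (by omega))
      obtain ⟨v, a1, a2, a3, a4⟩ := btop_aniso (by omega)
        (fun x hx => by_contra fun h0 => h ⟨x, h0, hx⟩) hP hn w0 hg
      exact ⟨v, 0, a1, a2, a3, a4, .inr (.inl this)⟩
  obtain ⟨t, rfl⟩ := (AdjoinRoot.mk_surjective (g := P)).comp_left t
  have e : AdjoinRoot.mk P ∘ (fun i => t i %ₘ P) = AdjoinRoot.mk P ∘ t :=
    funext fun i => AdjoinRoot.mk_eq_mk.2 (dvd_modByMonic_sub _ _)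
  refine ⟨v, fun i => t i %ₘ P, x, v1, fun i => top_lt hP hn _, v2, v3, ?_, v5⟩
  rw [← AdjoinRoot.mk_eq_mk, ← bv_map, e, map_one]
  exact ht

omit [Nontrivial Z] [Finite (MaximalSpectrum Z)] in
theorem nis_red {Z' : Type*} [CommRing Z'] (ν : Z →+* Z') (P : Z[X]) :
    ∃ f : AdjoinRoot P →+* AdjoinRoot (P.map ν),
      ∀ p, f (AdjoinRoot.mk P p) = AdjoinRoot.mk _ (p.map ν) :=
  ⟨Ideal.Quotient.lift _ ((AdjoinRoot.mk (P.map ν)).comp (mapRingHom ν)) fun a ha => by
      obtain ⟨b, rfl⟩ := Ideal.mem_span_singleton.1 ha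
      simp, fun _ => rfl⟩

omit [Nontrivial Z] [Finite (MaximalSpectrum Z)] in
theorem nis_jac {P : Z[X]} (hP : P.Monic) {p : Z[X]}
    (h : ∀ N : MaximalSpectrum Z, P.map (rf N) ∣ p.map (rf N)) :
    AdjoinRoot.mk P p ∈ (⊥ : Ideal Z).jacobson.map (algebraMap Z (AdjoinRoot P)) := by
  have h1 : p %ₘ P ∈ (⊥ : Ideal Z).jacobson.map (C : Z →+* Z[X]) :=
    Ideal.mem_map_C_iff.2 fun n => mem_jac.2 fun N => rf_eq_zero.1 (by
      rw [← coeff_map, map_modByMonic _ hP, (modByMonic_eq_zero_iff_dvd (hP.map _)).2 (h N),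
        coeff_zero])
  have h2 := Ideal.mem_map_of_mem (AdjoinRoot.mk P) h1
  rw [Ideal.map_map, AdjoinRoot.mk_eq_mk.2 (dvd_modByMonic_sub p P)] at h2
  exact h2

omit [Nontrivial Z] [Finite (MaximalSpectrum Z)] in
theorem nis_dvd {P p : Z[X]}
    (h : AdjoinRoot.mk P p ∈ (⊥ : Ideal Z).jacobson.map (algebraMap Z (AdjoinRoot P)))
    (N : MaximalSpectrum Z) : P.map (rf N) ∣ p.map (rf N) := by
  obtain ⟨f, hf⟩ := nis_red (rf N) P
  have : (⊥ : Ideal Z).jacobson.map (algebraMap Z (AdjoinRoot P)) ≤ RingHom.ker f :=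
    Ideal.map_le_iff_le_comap.2 fun a ha => by
      change f (AdjoinRoot.mk P (C a)) = 0
      rw [hf, map_C, rf_eq_zero.2 (mem_jac.1 ha N), map_zero, map_zero]
  rw [← AdjoinRoot.mk_eq_zero, ← hf]
  exact this h

attribute [local instance] Ideal.Quotient.field

theorem Smq.exists_top_isUnit (hQ : Smq Q) (hm : 5 ≤ m) (hres : ResInf Z ∨ ResFin Z) {P : Z[X]}
    (hP : P.Monic) {n : ℕ} (hn : P.natDegree = n + 1) (w : Fin m → Z[X])
    (hw : IsCoprime (qv (Q.map C) w) P)
    (hg : Good ((Q.map C).map (AdjoinRoot.mk P)) (AdjoinRoot.mk P ∘ w)) :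
    ∃ w' : Fin m → Z[X], (∀ i, (w' i).natDegree ≤ n) ∧
      P ∣ qv (Q.map C) w' - qv (Q.map C) w ∧ (IsUnit (qv Q fun i => (w' i).coeff n)) ∧
      (n = 0 ∨ ResInf Z ∨
        ∃ x : Fin m → Z, ∀ N, (bv (Q.map C) w' (C ∘ x) - 1).map (rf N) = 0) := by
  have e1 : ∀ N : MaximalSpectrum Z, (Q.map (rf N)).map C = (Q.map C).map (mapRingHom (rf N)) :=
    fun N => by
      ext1 i j
      simp
  have e2 : ∀ (N : MaximalSpectrum Z) (w : Fin m → Z[X]),
      qv ((Q.map (rf N)).map C) (mapRingHom (rf N) ∘ w) = (qv (Q.map C) w).map (rf N) :=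
    fun N w => by
      rw [e1, qv_map]
      rfl
  have e4 : ∀ (N : MaximalSpectrum Z) (w t : Fin m → Z[X]),
      bv ((Q.map (rf N)).map C) (mapRingHom (rf N) ∘ w) (mapRingHom (rf N) ∘ t) =
        (bv (Q.map C) w t).map (rf N) := fun N w t => by
    rw [e1, bv_map]
    rfl
  have hn' : ∀ N : MaximalSpectrum Z, (P.map (rf N)).natDegree = n + 1 := fun N => by
    rw [hP.natDegree_map, hn]
  choose vN tN xN v1 t1 v2 v3 v4 v5 using fun N : MaximalSpectrum Z =>
    nis_field (hQ.map (rf N)) hm (hP.map (rf N)) (hn' N) (mapRingHom (rf N) ∘ w)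
      (by rw [e2]; exact hw.map (mapRingHom (rf N))) (by
        obtain ⟨f, hf⟩ := nis_red (rf N) P
        have e3 : ((Q.map C).map (AdjoinRoot.mk P)).map f =
            ((Q.map (rf N)).map C).map (AdjoinRoot.mk (P.map (rf N))) := by
          ext1 i j
          simp only [Matrix.map_apply, hf, map_C]
        have := hg.map f
        rwa [e3, show f ∘ (AdjoinRoot.mk P ∘ w) =
          AdjoinRoot.mk (P.map (rf N)) ∘ (mapRingHom (rf N) ∘ w) from funext fun i => hf _] at this)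
  choose v _ hv using fun i => sl_crt_poly n (fun N => vN N i) fun N => v1 N i
  choose t _ ht using fun i => sl_crt_poly n (fun N => tN N i) fun N => t1 N i
  obtain ⟨x, hx⟩ := sl_crt_vec xN
  have hv' : ∀ N, mapRingHom (rf N) ∘ v = vN N := fun N => funext fun i => hv i N
  have ht' : ∀ N, mapRingHom (rf N) ∘ t = tN N := fun N => funext fun i => ht i N
  have := hP.finite_adjoinRoot
  let J := (⊥ : Ideal Z).jacobson.map (algebraMap Z (AdjoinRoot P))
  have := sl_finite Z (AdjoinRoot P ⧸ J)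
  have : IsLocalHom (Ideal.Quotient.mk J) := ⟨fun a ha => by
    obtain ⟨y, hy⟩ := ha.exists_right_inv
    obtain ⟨y, rfl⟩ := Ideal.Quotient.mk_surjective y
    exact isUnit_of_mul_isUnit_left (isUnit_of_sub_mem_jac (Z := Z) (x := a * y) isUnit_one
      (Ideal.Quotient.eq.1 (by rw [map_mul, hy, map_one])))⟩
  have gv : Good ((Q.map C).map (AdjoinRoot.mk P)) (AdjoinRoot.mk P ∘ v) := by
    refine good_of_isUnit (z := AdjoinRoot.mk P ∘ t) ?_
    rw [bv_map]
    refine isUnit_of_sub_mem_jac (Z := Z) isUnit_one ?_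
    have := nis_jac hP (p := bv (Q.map C) v t - 1) fun N => by
      rw [Polynomial.map_sub, Polynomial.map_one, ← e4, hv', ht']
      exact v4 N
    rwa [map_sub, map_one] at this
  obtain ⟨w1, a1, a2⟩ := ((hQ.map C).map (AdjoinRoot.mk P)).lift_vector (Ideal.Quotient.mk J)
    Ideal.Quotient.mk_surjective hm hg (gv.map (Ideal.Quotient.mk J)) (by
      rw [qv_map, qv_map, qv_map, Ideal.Quotient.eq, ← map_sub]
      refine nis_jac hP fun N => ?_
      rw [Polynomial.map_sub, ← e2, ← e2, hv']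
      exact v2 N)
  have P1 : P ≠ 1 := fun e => by simp [e] at hn
  have : ∀ i, ∃ p : Z[X], p.natDegree ≤ n ∧ AdjoinRoot.mk P p = w1 i := fun i => by
    obtain ⟨p, e⟩ := AdjoinRoot.mk_surjective (w1 i)
    refine ⟨p %ₘ P, by have := natDegree_modByMonic_lt p hP P1; omega, ?_⟩
    rw [← e, AdjoinRoot.mk_eq_mk]
    exact ⟨-(p /ₘ P), by linear_combination modByMonic_add_div p P⟩
  choose z z1 z2 using this
  have z3 : AdjoinRoot.mk P ∘ z = w1 := funext z2
  have z4 : ∀ N i, (z i).map (rf N) = vN N i := fun N i => by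
    have g := nis_dvd (P := P) (p := z i - v i) (by
      rw [map_sub, z2]
      exact Ideal.Quotient.eq.1 (congrFun a2 i)) N
    rw [Polynomial.map_sub, hv] at g
    refine sub_eq_zero.1 (eq_zero_of_dvd_of_natDegree_lt g ?_)
    have := natDegree_sub_le_of_le
      (natDegree_map_le.trans (z1 i) : ((z i).map (rf N)).natDegree ≤ n) (v1 N i)
    have := hn' N
    omega
  refine ⟨z, z1, AdjoinRoot.mk_eq_mk.1 (by rw [← qv_map, ← qv_map, z3, a1]),
    sl_unit_iff.2 fun N => ?_, ?_⟩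
  · rw [← qv_map]
    have : (rf N ∘ fun i => (z i).coeff n) = fun i => (vN N i).coeff n := funext fun i => by
      rw [← z4, coeff_map]
      rfl
    rw [this]
    exact v3 N
  · by_cases h0 : n = 0
    · exact .inl h0
    rcases hres with h | h
    · exact .inr (.inl h)
    refine .inr (.inr ⟨x, fun N => ?_⟩)
    have := h N
    have h5 := ((v5 N).resolve_left h0).resolve_left (not_infinite_iff_finite.2 this)
    rw [Polynomial.map_sub, Polynomial.map_one, sub_eq_zero, ← e4,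
      show mapRingHom (rf N) ∘ z = vN N from funext (z4 N),
      show mapRingHom (rf N) ∘ (C ∘ x) = C ∘ (rf N ∘ x) from funext fun i => map_C _, hx]
    exact h5

section
variable {S : Type*} [CommRing S] [Algebra Z S] [Module.Finite Z S]

omit [Nontrivial Z] in
theorem btrick_eventuallyS {Q : Matrix (Fin m) (Fin m) S} {y v : Fin m → S}
    (hy : IsUnit (qv Q y)) (hv : IsUnit (qv Q v)) (hg : Good Q v) :
    ∀ᶠ c in GenS Z, IsUnit (qv Q (algebraMap Z S c • y + v)) ∧ Good Q (algebraMap Z S c • y + v) ∧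
      Good Q ((algebraMap Z S c * bv Q y v + qv Q v) • y - (algebraMap Z S c * qv Q y) • v) := by
  obtain ⟨t, ht⟩ := hg
  have h1 := eventually_isUnitS (Z := Z) (C (qv Q v) + C (bv Q y v) * X + C (qv Q y) * X ^ 2) 0
    (by simpa using hv)
  have h2 := eventually_isUnitS (Z := Z) (C (1 : S) + C (bv Q y t) * X) 0 (by simp)
  have h3 := eventually_notMemS (Z := Z) (T := S)
    (fun _ => C (qv Q v * bv Q y t) + C (bv Q y v * bv Q y t - qv Q y) * X) fun n => by
      by_cases h : bv Q y t ∈ n.asIdeal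
      · refine ⟨1, fun e => n.isMaximal.ne_top (n.asIdeal.eq_top_of_isUnit_mem ?_ hy)⟩
        rw [coeff_add, coeff_C_mul, coeff_X_one, coeff_C, if_neg one_ne_zero, zero_add,
          mul_one] at e
        simpa using n.asIdeal.sub_mem (n.asIdeal.mul_mem_left (bv Q y v) h) e
      · refine ⟨0, fun e => ?_⟩
        rw [coeff_add, coeff_C_mul, coeff_X_zero, coeff_C_zero, mul_zero, add_zero] at e
        exact (n.isMaximal.isPrime.mem_or_mem e).elim
          (fun e => n.isMaximal.ne_top (n.asIdeal.eq_top_of_isUnit_mem e hv)) h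
  refine ((h1.and h2).and h3).mono fun c ⟨⟨a1, a2⟩, a3⟩ =>
    ⟨(congrArg IsUnit ?_).mpr a1, good_of_isUnit (z := t) ((congrArg IsUnit ?_).mpr a2),
      good_of_isUnit (z := t) ?_⟩
  · rw [qv_add, qv_smul, bv_smul_left]
    simp only [eval_add, eval_mul, eval_C, eval_X, eval_pow]
    ring
  · rw [bv_add_left, bv_smul_left, ht]
    simp only [eval_add, eval_mul, eval_C, eval_X]
    ring
  · by_contra hu
    obtain ⟨n, hn, hmem⟩ := exists_max_ideal_of_mem_nonunits (mem_nonunits_iff.2 hu)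
    refine a3 ⟨n, hn⟩ ((congrArg (· ∈ n) ?_).mpr hmem)
    rw [bv_sub_left, bv_smul_left, bv_smul_left, ht]
    simp only [eval_add, eval_mul, eval_C, eval_X]
    ring

variable [Module.Free Z S]

omit [Finite (MaximalSpectrum Z)] in
theorem normA_of_good {v0 : Fin m → Z} (hA : NormA Q v0 (Module.finrank Z S))
    {y : Fin m → S} (hy : IsUnit (qv (Q.map (algebraMap Z S)) y))
    (hg : Good (Q.map (algebraMap Z S)) y)
    (hgen : Algebra.adjoin Z {qv (Q.map (algebraMap Z S)) y} = ⊤) :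
    Sn Q (Algebra.norm Z (qv (Q.map (algebraMap Z S)) y) * qv Q v0 ^ Module.finrank Z S) := by
  obtain ⟨P, e, hP, hd, hr, hN⟩ := exists_adjoinRoot_equiv _ hgen
  obtain ⟨b, hb⟩ := hy.exists_left_inv
  let φ : Z[X] →+* S := (e : AdjoinRoot P →+* S).comp (AdjoinRoot.mk P)
  have hs : Function.Surjective φ := e.surjective.comp AdjoinRoot.mk_surjective
  choose w hw using fun i => hs ((b • y) i)
  have h1 : (Q.map C).map φ = Q.map (algebraMap Z S) := by
    ext i j
    exact e.commutes _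
  have h2 := qv_map (Q.map C) φ w
  rw [h1, show φ ∘ w = b • y from funext hw, qv_smul] at h2
  rw [hN]
  refine hA P hP hd w ?_ (AdjoinRoot.mk_eq_zero.1 (e.injective ?_))
  · have g := (hg.smul (IsUnit.of_mul_eq_one _ hb)).map (e.symm : S →+* AdjoinRoot P)
    have e1 : (Q.map (algebraMap Z S)).map (e.symm : S →+* AdjoinRoot P) =
        (Q.map C).map (AdjoinRoot.mk P) := by
      ext i j
      exact e.symm.commutes _
    have e2 : (e.symm : S →+* AdjoinRoot P) ∘ (b • y) = AdjoinRoot.mk P ∘ w := funext fun i => by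
      change e.symm ((b • y) i) = _
      rw [← hw i]
      exact e.symm_apply_apply _
    rwa [e1, e2] at g
  rw [map_zero]
  change φ _ = 0
  rw [map_sub, map_mul, map_one, ← h2, show φ X = _ from hr]
  linear_combination (b * qv (Q.map (algebraMap Z S)) y + 1) * hb

theorem normA_of_generator (hinf : ResInf Z) {v0 : Fin m → Z} (h0 : IsUnit (qv Q v0))
    (g0 : Good Q v0) (hA : NormA Q v0 (Module.finrank Z S))
    {y : Fin m → S} (hy : IsUnit (qv (Q.map (algebraMap Z S)) y))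
    (hgen : Algebra.adjoin Z {qv (Q.map (algebraMap Z S)) y} = ⊤) :
    Sn Q (Algebra.norm Z (qv (Q.map (algebraMap Z S)) y) * qv Q v0 ^ Module.finrank Z S) := by
  have := hinf.neBot
  have key := fun y hy hg hgen => normA_of_good (S := S) hA (y := y) hy hg hgen
  have hv := qv_map Q (algebraMap Z S) v0
  have g1 := g0.map (algebraMap Z S)
  set Q' := Q.map (algebraMap Z S)
  set v := algebraMap Z S ∘ v0
  have hu : IsUnit (qv Q' v) := hv ▸ h0.map _
  let f : S[X] := C (qv Q' v) + C (bv Q' y v) * X + C (qv Q' y) * X ^ 2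
  have f0 : f.coeff 0 = qv Q' v := by simp [f]
  have f2 : f.coeff 2 = qv Q' y := by simp [f, coeff_X, coeff_C]
  have fe : ∀ e : S, f.eval e = qv Q' (e • y + v) := fun e => by
    rw [qv_add, qv_smul, bv_smul_left]
    simp only [f, eval_add, eval_mul, eval_C, eval_X, eval_pow]
    ring
  have gen0 : Algebra.adjoin Z {(C (qv Q' y * qv Q' v) * f).coeff 0} = ⊤ := by
    obtain ⟨b, hb⟩ := h0.exists_left_inv
    rw [coeff_C_mul, f0, eq_top_iff, ← hgen, Algebra.adjoin_le_iff, Set.singleton_subset_iff]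
    have e : qv Q' y = (b * b) • (qv Q' y * qv Q' v * qv Q' v) := by
      have hb' := congrArg (algebraMap Z S) hb
      rw [map_mul, map_one] at hb'
      rw [Algebra.smul_def, map_mul, hv]
      linear_combination (-qv Q' y * (1 + algebraMap Z S b * algebraMap Z S (qv Q v0))) * hb'
    have := (Algebra.adjoin Z {qv Q' y * qv Q' v * qv Q' v}).smul_mem
      (Algebra.self_mem_adjoin_singleton Z _) (b * b)
    rwa [← e] at this
  obtain ⟨c, ⟨⟨u1, a1, a2⟩, b1⟩, b2⟩ := (((btrick_eventuallyS (Z := Z) hy hu g1).and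
    (eventually_adjoin_eq_topS (Z := Z) f 2 (f2 ▸ hgen))).and
    (eventually_adjoin_eq_topS (Z := Z) _ 0 gen0)).exists
  rw [eval_mul, eval_C, fe, ← btrick] at b2
  rw [fe] at b1
  have s2 := key _ (by rw [btrick]; exact (hy.mul hu).mul u1) a2 b2
  refine Sn.cancel h0 (key _ u1 a1 b1) ((u1.map (Algebra.norm Z)).mul (h0.pow _)) ?_
  rw [btrick, map_mul, map_mul, hv, Algebra.norm_algebraMap, mul_assoc] at s2
  exact s2

end

theorem Smq.normA (hQ : Smq Q) (hm : 5 ≤ m) (hres : ResInf Z ∨ ResFin Z) {v0 : Fin m → Z}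
    (h0 : IsUnit (qv Q v0)) (g0 : Good Q v0) (n : ℕ) : NormA Q v0 n := by
  induction n with
  | zero =>
    intro P hP hn w _ _
    rw [hP.natDegree_eq_zero.1 hn]
    simpa using sn_one
  | succ n ih =>
    intro P hP hn w hgood hw
    obtain ⟨g, hg⟩ := hw
    obtain ⟨z, z1, ⟨g', hg'⟩, ⟨u, hu⟩, hcase⟩ := hQ.exists_top_isUnit hm hres hP hn w
      ⟨X, -g, by linear_combination hg⟩ hgood
    obtain ⟨t1, t2⟩ := normind_top (Q := Q) z z1
    obtain ⟨h, hh⟩ : P ∣ X * qv (Q.map C) z - 1 := ⟨g + X * g', by linear_combination hg + X * hg'⟩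
    have d1 : (P * h).natDegree ≤ n + 1 + n := by
      rw [← hh]
      have := natDegree_sub_le_of_le (natDegree_mul_le_of_le natDegree_X_le t1)
        (natDegree_one (R := Z)).le
      omega
    have d2 : h.natDegree ≤ n := by
      by_cases e : h = 0
      · simp [e]
      · rw [hP.natDegree_mul' e] at d1
        omega
    have d3 : h.coeff n = u := by
      have a := coeff_mul_add_eq_of_natDegree_le hn.le d2
      rw [← hh, show n + 1 + n = n + n + 1 by ring, coeff_sub, coeff_X_mul, t2, ← hu,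
        coeff_one, if_neg (by omega), sub_zero, ← hn, hP.coeff_natDegree, one_mul] at a
      exact a.symm
    have d4 : (C (↑u⁻¹ : Z) * h).coeff n = 1 := by rw [coeff_C_mul, d3, Units.inv_mul]
    have d5 : (C (↑u⁻¹ : Z) * h).natDegree ≤ n := (natDegree_C_mul_le _ _).trans d2
    have i1 : Sn Q ((-1) ^ n * (C (↑u⁻¹ : Z) * h).coeff 0 * qv Q v0 ^ n) := by
      have m1 := monic_of_natDegree_le_of_coeff_eq_one n d5 d4
      have m2 := natDegree_eq_of_le_of_coeff_ne_zero d5 (by rw [d4]; exact one_ne_zero)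
      have m3 : C (↑u⁻¹ : Z) * h ∣ X * qv (Q.map C) z - 1 := ⟨C (↑u : Z) * P, by
        rw [hh, mul_mul_mul_comm, ← C_mul, Units.inv_mul, C_1, one_mul, mul_comm]⟩
      generalize C (↑u⁻¹ : Z) * h = H at m1 m2 m3
      have := Module.Free.of_basis (AdjoinRoot.powerBasis' m1).basis
      have := Module.Finite.of_basis (AdjoinRoot.powerBasis' m1).basis
      rcases hcase with rfl | hinf | ⟨x, hx⟩
      · rw [m1.natDegree_eq_zero.1 m2]
        simpa using sn_one
      · have rk : Module.finrank Z (AdjoinRoot H) = n := by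
          rw [(AdjoinRoot.powerBasis' m1).finrank, ← m2]; rfl
        have e1 : AdjoinRoot.root H * qv (Q.map (algebraMap Z (AdjoinRoot H)))
            (AdjoinRoot.mk H ∘ z) = 1 := by
          have := AdjoinRoot.mk_eq_zero.2 m3
          rw [map_sub, map_mul, map_one, sub_eq_zero, ← qv_map] at this
          exact this
        have e2 : qv (Q.map (algebraMap Z (AdjoinRoot H)))
            (AdjoinRoot.root H • (AdjoinRoot.mk H ∘ z)) = AdjoinRoot.root H := by
          rw [qv_smul, sq, mul_assoc, e1, mul_one]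
        have s1 := normA_of_generator (S := AdjoinRoot H) hinf h0 g0 (rk ▸ ih)
          (y := AdjoinRoot.root H • (AdjoinRoot.mk H ∘ z))
          (by rw [e2]; exact IsUnit.of_mul_eq_one _ e1)
          (by rw [e2]; exact AdjoinRoot.adjoinRoot_eq_top)
        obtain ⟨P', e, p1, p2, p3, p4⟩ := exists_adjoinRoot_equiv (R := Z) (AdjoinRoot.root H)
          AdjoinRoot.adjoinRoot_eq_top
        have p5 : H ∣ P' := by
          rw [← AdjoinRoot.mk_eq_zero, ← AdjoinRoot.aeval_eq, ← p3, aeval_algHom_apply,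
            AdjoinRoot.aeval_eq, AdjoinRoot.mk_self, map_zero]
        rw [e2, p4, rk, eq_of_monic_of_dvd_of_natDegree_le m1 p1 p5 (by omega)] at s1
        exact s1
      · refine ih H m1 m2 z (good_of_isUnit (z := AdjoinRoot.mk H ∘ (C ∘ x)) ?_) m3
        rw [bv_map]
        refine isUnit_of_sub_mem_jac (Z := Z) isUnit_one ?_
        have h2 := nis_jac m1 (p := bv (Q.map C) z (C ∘ x) - 1) fun N => by
          rw [hx]
          exact dvd_zero _
        rwa [map_sub, map_one] at h2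
    have c0 : P.coeff 0 * h.coeff 0 = -1 := by
      rw [← mul_coeff_zero, ← hh]
      simp
    have hu0 : IsUnit (h.coeff 0) :=
      IsUnit.of_mul_eq_one_right (-P.coeff 0) (by linear_combination -c0)
    rw [coeff_C_mul] at i1
    have i2 := i1.mul (hu ▸ sn_two (Q := Q) (fun i => (z i).coeff n) v0)
    refine Sn.cancel h0 i2 (((((isUnit_one.neg).pow n).mul ((u⁻¹).isUnit.mul hu0)).mul
      (h0.pow n)).mul (u.isUnit.mul h0)) ?_
    have e : (-1) ^ (n + 1) * P.coeff 0 * qv Q v0 ^ (n + 1) *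
        ((-1) ^ n * (↑u⁻¹ * h.coeff 0) * qv Q v0 ^ n * (↑u * qv Q v0)) =
        -(-1) ^ (2 * n) * (P.coeff 0 * h.coeff 0) * (↑u⁻¹ * ↑u) * (qv Q v0 ^ (n + 1)) ^ 2 := by
      rw [two_mul, pow_add (-1 : Z) n n, pow_succ (-1 : Z)]
      generalize (-1 : Z) ^ n = s
      ring
    rw [e, c0, Units.inv_mul]
    simpa using sn_sq h0 (qv Q v0 ^ (n + 1))

end Pool.Agent.GW
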