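import Pool.Agent.P.MP_c1f06d_ag.BNormVal
import Pool.Agent.P.MP_c1f06d_ag.w.NormIndS

open Matrix Polynomial

universe u

namespace Pool.Agent.GW

open Pool.Agent.P.MP_c1f06d_ag

variable {m : ℕ} {Z : Type*} [CommRing Z] [Nontrivial Z] [Finite (MaximalSpectrum Z)]
  {Q : Matrix (Fin m) (Fin m) Z}

section
variable {S : Type*} [CommRing S] [Algebra Z S] [Module.Free Z S] [Module.Finite Z S]

theorem nvs_generator (hinf : ResInf Z) {v0 : Fin m → Z} (h0 : IsUnit (qv Q v0))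
    (g0 : Good Q v0) (hA : NormA Q v0 (Module.finrank Z S))
    {y : Fin m → S} (hy : IsUnit (qv (Q.map (algebraMap Z S)) y))
    (hgen : Algebra.adjoin Z {qv (Q.map (algebraMap Z S)) y} = ⊤) :
    Sn Q (Algebra.norm Z (qv (Q.map (algebraMap Z S)) y) * qv Q v0 ^ Module.finrank Z S) := by
  have := hinf.neBot
  have key := fun y hy hg hgen => normA_of_good (S := S) (y := y) hA hy hg hgen
  have hv := qv_map Q (algebraMap Z S) v0
  have g1 := g0.map (algebraMap Z S)
  set Q' := Q.map (algebraMap Z S)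
  set v := algebraMap Z S ∘ v0
  have hu : IsUnit (qv Q' v) := hv ▸ h0.map _
  let f : S[X] := C (qv Q' v) + C (bv Q' y v) * X + C (qv Q' y) * X ^ 2
  have f0 : f.coeff 0 = qv Q' v := by simp [f]
  have f2 : f.coeff 2 = qv Q' y := by simp [f, coeff_X, coeff_C]
  have fe : ∀ e : S, f.eval e = qv Q' (e • y + v) := fun e => by
    rw [qv_add, qv_smul, bv_smul_left]
    simp only [f, eval_add, eval_mul, eval_C, eval_X, eval_pow]
    ring
  have gen0 : Algebra.adjoin Z {(C (qv Q' y * qv Q' v) * f).coeff 0} = ⊤ := by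
    obtain ⟨b, hb⟩ := h0.exists_left_inv
    rw [coeff_C_mul, f0, eq_top_iff, ← hgen, Algebra.adjoin_le_iff, Set.singleton_subset_iff]
    have e : qv Q' y = (b * b) • (qv Q' y * qv Q' v * qv Q' v) := by
      have hb' := congrArg (algebraMap Z S) hb
      rw [map_mul, map_one] at hb'
      rw [Algebra.smul_def, map_mul, hv]
      linear_combination (-qv Q' y * (1 + algebraMap Z S b * algebraMap Z S (qv Q v0))) * hb'
    have := (Algebra.adjoin Z {qv Q' y * qv Q' v * qv Q' v}).smul_mem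
      (Algebra.self_mem_adjoin_singleton Z _) (b * b)
    rwa [← e] at this
  obtain ⟨c, ⟨⟨u1, a1, a2⟩, b1⟩, b2⟩ := (((btrick_eventuallyS (Z := Z) hy hu g1).and
    (eventually_adjoin_eq_topS (Z := Z) f 2 (f2 ▸ hgen))).and
    (eventually_adjoin_eq_topS (Z := Z) _ 0 gen0)).exists
  rw [eval_mul, eval_C, fe, ← btrick] at b2
  rw [fe] at b1
  have s2 := key _ (by rw [btrick]; exact (hy.mul hu).mul u1) a2 b2
  refine Sn.cancel h0 (key _ u1 a1 b1) ((u1.map (Algebra.norm Z)).mul (h0.pow _)) ?_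
  rw [btrick, map_mul, map_mul, hv, Algebra.norm_algebraMap, mul_assoc] at s2
  exact s2

theorem nvs_inf_good (hinf : ResInf Z) (hQ : Smq Q) (hm : 5 ≤ m)
    {v0 : Fin m → Z} (h0 : IsUnit (qv Q v0)) (g0 : Good Q v0) {θ : S}
    (hθ : Algebra.adjoin Z {θ} = ⊤) {y : Fin m → S}
    (hy : IsUnit (qv (Q.map (algebraMap Z S)) y)) (hg : Good (Q.map (algebraMap Z S)) y) :
    Sn Q (Algebra.norm Z (qv (Q.map (algebraMap Z S)) y) * qv Q v0 ^ Module.finrank Z S) := by
  have := hinf.neBot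
  obtain ⟨z1, hz1⟩ := hg
  have key := fun y hy hg =>
    nvs_generator (S := S) (y := y) hinf h0 g0 (hQ.normA hm (Or.inl hinf) h0 g0 _) hy hg
  set Q' := Q.map (algebraMap Z S)
  have hz : bv Q' y (θ • z1) = θ := by rw [bv_smul_right, hz1, mul_one]
  generalize θ • z1 = z at hz
  obtain ⟨b, hb⟩ := hy.exists_right_inv
  have hv : ∀ α β : S, qv Q' (α • y + β • z) = α ^ 2 * qv Q' y + β ^ 2 * qv Q' z + α * (β * θ) :=
    fun α β => by rw [qv_add, qv_smul, qv_smul, bv_smul_left, bv_smul_right, hz]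
  let f : S[X] := C (qv Q' y) + C θ * X + C (qv Q' z) * X ^ 2
  have f0 : f.coeff 0 = qv Q' y := by simp [f]
  have f1 : f.coeff 1 = θ := by simp [f]
  have fe : ∀ e : S, f.eval e = qv Q' ((1 : S) • y + e • z) := fun e => by
    rw [hv]
    simp only [f, eval_add, eval_mul, eval_C, eval_X, eval_pow]
    ring
  have hE := (eventually_isUnitS (Z := Z) f 0 (f0 ▸ hy)).and
    (eventually_adjoin_eq_topS (Z := Z) f 1 (f1 ▸ hθ))
  obtain ⟨e, u1, g1⟩ := hE.exists
  set e1 := algebraMap Z S e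
  obtain ⟨e', ⟨u2, g2⟩, g3⟩ := (hE.and (eventually_adjoin_eq_topS (Z := Z)
    (C (f.eval e1 * b) * f) 0 (by
      rwa [coeff_C_mul, f0, mul_assoc, mul_comm b, hb, mul_one]))).exists
  set e2 := algebraMap Z S e'
  have h3 : f.eval e1 * b * f.eval e2 =
      qv Q' ((1 - e1 * e2 * qv Q' z * b) • y + (e1 + e2 + e1 * e2 * θ * b) • z) := by
    rw [fe, fe, hv, hv, hv]
    linear_combination (qv Q' y + θ * (e1 + e2) + (e1 + e2) ^ 2 * qv Q' z -
      (e1 * e2) ^ 2 * qv Q' z ^ 2 * b) * hb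
  have u3 := (u1.mul (IsUnit.of_mul_eq_one_right _ hb)).mul u2
  rw [eval_mul, eval_C, h3] at g3
  have h4 : qv Q' y * (f.eval e1 * b * f.eval e2) = f.eval e1 * f.eval e2 := by
    linear_combination f.eval e1 * f.eval e2 * hb
  rw [h3] at u3 h4
  rw [fe] at u1 u2 g1 g2
  refine Sn.cancel h0 (key _ u3 g3) ((u3.map (Algebra.norm Z)).mul (h0.pow _)) ?_
  have h5 := (key _ u1 g1).mul (key _ u2 g2)
  rw [mul_mul_mul_comm, ← map_mul] at h5 ⊢
  rwa [h4, fe, fe]

omit [Nontrivial Z] [Finite (MaximalSpectrum Z)] [Module.Finite Z S] in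
theorem nvs_reduce {v0 : Fin m → Z} (h0 : IsUnit (qv Q v0)) {y : Fin m → S} (a : S)
    (u1 : IsUnit (qv (Q.map (algebraMap Z S)) (a • y + algebraMap Z S ∘ v0)))
    (s1 : Sn Q (Algebra.norm Z (qv (Q.map (algebraMap Z S)) (a • y + algebraMap Z S ∘ v0)) *
      qv Q v0 ^ Module.finrank Z S))
    (s2 : Sn Q (Algebra.norm Z (qv (Q.map (algebraMap Z S))
      ((a * bv (Q.map (algebraMap Z S)) y (algebraMap Z S ∘ v0) +
        qv (Q.map (algebraMap Z S)) (algebraMap Z S ∘ v0)) • y -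
        (a * qv (Q.map (algebraMap Z S)) y) • (algebraMap Z S ∘ v0))) *
      qv Q v0 ^ Module.finrank Z S)) :
    Sn Q (Algebra.norm Z (qv (Q.map (algebraMap Z S)) y) * qv Q v0 ^ Module.finrank Z S) := by
  refine Sn.cancel h0 s1 ((u1.map (Algebra.norm Z)).mul (h0.pow _)) ?_
  rw [btrick, map_mul, map_mul, qv_map, Algebra.norm_algebraMap, mul_assoc] at s2
  exact s2

theorem nvs_inf (hinf : ResInf Z) (hQ : Smq Q) (hm : 5 ≤ m)
    {v0 : Fin m → Z} (h0 : IsUnit (qv Q v0)) (g0 : Good Q v0) {θ : S}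
    (hθ : Algebra.adjoin Z {θ} = ⊤) {y : Fin m → S}
    (hy : IsUnit (qv (Q.map (algebraMap Z S)) y)) :
    Sn Q (Algebra.norm Z (qv (Q.map (algebraMap Z S)) y) * qv Q v0 ^ Module.finrank Z S) := by
  have := hinf.neBot
  have hu : IsUnit (qv (Q.map (algebraMap Z S)) (algebraMap Z S ∘ v0)) := by
    rw [qv_map]; exact h0.map _
  obtain ⟨c, u1, a1, a2⟩ := (btrick_eventuallyS (Z := Z) hy hu (g0.map (algebraMap Z S))).exists
  exact nvs_reduce h0 _ u1 (nvs_inf_good hinf hQ hm h0 g0 hθ u1 a1)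
    (nvs_inf_good hinf hQ hm h0 g0 hθ (by rw [btrick]; exact (hy.mul hu).mul u1) a2)

omit [Nontrivial Z] [Finite (MaximalSpectrum Z)] [Module.Finite Z S] in
theorem nvs_descend {v0 : Fin m → Z} (h0 : IsUnit (qv Q v0)) (hodd : Odd (Module.finrank Z S))
    (hval : ∀ y : Fin m → S, IsUnit (qv (Q.map (algebraMap Z S)) y) →
      Sn Q (Algebra.norm Z (qv (Q.map (algebraMap Z S)) y) * qv Q v0 ^ Module.finrank Z S))
    {a : Z} (ha : IsUnit a) (h : Sn (Q.map (algebraMap Z S)) (algebraMap Z S a)) : Sn Q a := by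
  obtain ⟨l, ⟨r, hr⟩, hl⟩ := h
  have key : ∀ l : List (Fin m → S), IsUnit (l.map (qv (Q.map (algebraMap Z S)))).prod →
      Sn Q (Algebra.norm Z (l.map (qv (Q.map (algebraMap Z S)))).prod *
        (qv Q v0 ^ Module.finrank Z S) ^ l.length) := fun l => by
    induction l with
    | nil => exact fun _ => by simpa using sn_one (Q := Q)
    | cons y l ih =>
      intro hu
      rw [List.map_cons, List.prod_cons] at hu ⊢
      rw [map_mul, List.length_cons, pow_succ', mul_mul_mul_comm]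
      exact (hval y (isUnit_of_mul_isUnit_left hu)).mul (ih (isUnit_of_mul_isUnit_right hu))
  have h1 := key l (hl ▸ ha.map _)
  rw [← hl, Algebra.norm_algebraMap, hr, ← mul_two, pow_mul] at h1
  exact Sn.of_odd_pow h0 ha hodd (Sn.cancel h0 (sn_sq h0 _) (((h0.pow _).pow _).pow _) h1)

end

theorem Smq.sn_of_adjoinRoot_inf (hQ : Smq Q) (hm : 5 ≤ m) (hinf : ResInf Z) {P : Z[X]}
    (hP : P.Monic) (hodd : Odd P.natDegree) {a : Z} (ha : IsUnit a)
    (h : Sn (Q.map (AdjoinRoot.of P)) (AdjoinRoot.of P a)) : Sn Q a := by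
  obtain ⟨v0, h0, g0⟩ := hQ.exists_good (by omega)
  have := Module.Free.of_basis (AdjoinRoot.powerBasis' hP).basis
  have := Module.Finite.of_basis (AdjoinRoot.powerBasis' hP).basis
  exact nvs_descend (S := AdjoinRoot P) h0 ((AdjoinRoot.powerBasis' hP).finrank ▸ hodd)
    (fun _ hy => nvs_inf hinf hQ hm h0 g0 AdjoinRoot.adjoinRoot_eq_top hy) ha h

omit [Nontrivial Z] [Finite (MaximalSpectrum Z)] in
theorem nvs_le {V : Type*} [AddCommGroup V] [Module Z V] [Module.Finite Z V] {p : Submodule Z V}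
    (h : ∀ N : MaximalSpectrum Z, ⊤ ≤ p ⊔ N.asIdeal • ⊤) : ⊤ ≤ p := fun x hx => by
  have e : p.comap (LinearMap.toSpanSingleton Z V x) = ⊤ := sl_top fun N => by
    obtain ⟨r, h1, h2⟩ := Submodule.exists_sub_one_mem_and_smul_le_of_fg_of_le_sup
      Module.Finite.fg_top le_rfl (h N)
    exact ⟨r, h2 (Submodule.smul_mem_pointwise_smul x r ⊤ hx),
      fun e => sl_notMem isUnit_one N (by simpa using N.asIdeal.sub_mem e h1)⟩
  have h1 : (1 : Z) ∈ p.comap (LinearMap.toSpanSingleton Z V x) := e ▸ Submodule.mem_top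
  simpa using h1

/-- The choice of the scalar over a field. -/
theorem nvs_field {K : Type*} [Field K] {Q : Matrix (Fin m) (Fin m) K} {θ : K} (h0 : θ ≠ 0)
    (h1 : θ ^ 2 ≠ 1) {y v : Fin m → K} (hy : qv Q y ≠ 0) (hv : qv Q v ≠ 0) (gv : Good Q v) :
    ∃ a, qv Q (a • y + v) ≠ 0 ∧ Good Q (a • y + v) ∧
      Good Q ((a * bv Q y v + qv Q v) • y - (a * qv Q y) • v) := by
  by_cases gy : Good Q y
  · refine ⟨0, by simpa using hv, by simpa using gv, ?_⟩
    simpa using gy.smul (isUnit_iff_ne_zero.2 hv)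
  obtain ⟨t, ht⟩ := gv
  have z0 : ∀ x, bv Q y x = 0 := fun x =>
    by_contra fun e => gy (good_of_isUnit (isUnit_iff_ne_zero.2 e))
  obtain ⟨a, a1, a2⟩ : ∃ a : K, a ≠ 0 ∧ a ^ 2 * qv Q y + qv Q v ≠ 0 := by
    by_contra! hc
    refine h1 (mul_right_cancel₀ hy ?_)
    linear_combination hc θ h0 - hc 1 one_ne_zero
  refine ⟨a, ?_, ⟨t, ?_⟩, good_of_isUnit (z := t) (isUnit_iff_ne_zero.2 ?_)⟩
  · rwa [qv_add, qv_smul, bv_smul_left, z0, mul_zero, add_zero]
  · rw [bv_add_left, bv_smul_left, ht, z0, mul_zero, zero_add]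
  · rw [bv_sub_left, bv_smul_left, bv_smul_left, ht, z0 t, mul_zero, zero_sub, mul_one]
    exact neg_ne_zero.2 (mul_ne_zero a1 hy)

attribute [local instance] Ideal.Quotient.field

omit [Nontrivial Z] [Finite (MaximalSpectrum Z)] in
/-- The residue field of the extension at one maximal ideal. -/
theorem nvs_res {P : Z[X]} (hP : P.Monic) (N : MaximalSpectrum Z)
    [hirr : Fact (Irreducible (P.map (rf N)))] (hp : P.natDegree.Prime) (hodd : Odd P.natDegree) :
    ∃ φ : AdjoinRoot P →+* AdjoinRoot (P.map (rf N)), Function.Surjective φ ∧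
      (∀ x, φ x = 0 ↔ x ∈ N.asIdeal.map (algebraMap Z (AdjoinRoot P))) ∧
      ∃ G : AdjoinRoot (P.map (rf N)) → Prop,
        (∀ x, G (φ x) → ⊤ ≤ Subalgebra.toSubmodule (Algebra.adjoin Z {x}) ⊔ N.asIdeal • ⊤) ∧
        (∀ c, c ≠ 0 → ∃ b, b ≠ 0 ∧ G (b ^ 2 * c)) ∧
        ∃ θ : AdjoinRoot (P.map (rf N)), θ ≠ 0 ∧ θ ^ 2 ≠ 1 := by
  set B := P.map (rf N) with hB
  have hd : B.natDegree = P.natDegree := hP.natDegree_map _
  have h3 : 2 < B.natDegree := hd ▸ lt_of_le_of_ne hp.two_le fun e => by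
    rw [← e] at hodd
    exact absurd hodd (by decide)
  let φ : AdjoinRoot P →+* AdjoinRoot B :=
    AdjoinRoot.lift ((AdjoinRoot.of B).comp (rf N)) (AdjoinRoot.root B)
      (by rw [← eval₂_map]; exact AdjoinRoot.eval₂_root _)
  have hφ : ∀ r, φ (AdjoinRoot.mk P r) = AdjoinRoot.mk B (r.map (rf N)) := fun r => by
    rw [AdjoinRoot.lift_mk, ← eval₂_map, ← AdjoinRoot.aeval_eq]
    rfl
  have hm' := map_surjective (rf N) (rf_surj N)
  have hs : Function.Surjective φ := fun x => by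
    obtain ⟨r, rfl⟩ := AdjoinRoot.mk_surjective x
    obtain ⟨r, rfl⟩ := hm' r
    exact ⟨_, hφ r⟩
  have hk : ∀ x, φ x = 0 → x ∈ N.asIdeal.map (algebraMap Z (AdjoinRoot P)) := fun x hx => by
    obtain ⟨r, rfl⟩ := AdjoinRoot.mk_surjective x
    obtain ⟨t, ht⟩ := AdjoinRoot.mk_eq_zero.1 ((hφ r).symm.trans hx)
    obtain ⟨t, rfl⟩ := hm' t
    have h1 : r - P * t ∈ RingHom.ker (mapRingHom (rf N)) := by
      rw [RingHom.mem_ker, coe_mapRingHom, Polynomial.map_sub, Polynomial.map_mul, ht, sub_self]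
    rw [ker_mapRingHom, Ideal.mk_ker] at h1
    have h2 := Ideal.mem_map_of_mem (AdjoinRoot.mk P) h1
    rwa [Ideal.map_map, map_sub, map_mul, AdjoinRoot.mk_self, zero_mul, sub_zero] at h2
  have hk' : N.asIdeal.map (algebraMap Z (AdjoinRoot P)) ≤ RingHom.ker φ :=
    Ideal.map_le_iff_le_comap.2 fun c hc => by
      change φ (AdjoinRoot.of P c) = 0
      rw [AdjoinRoot.lift_of, RingHom.comp_apply, rf_eq_zero.2 hc, map_zero]
  have hn : ∀ c, AdjoinRoot.root B ^ 2 ≠ algebraMap (Z ⧸ N.asIdeal) _ c := fun c e => by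
    have h1 : B ∣ X ^ 2 - C c := AdjoinRoot.mk_eq_zero.1 (by
      rw [map_sub, map_pow, sub_eq_zero]
      exact e)
    have h2 := natDegree_le_of_dvd h1 (X_pow_sub_C_ne_zero two_pos c)
    rw [natDegree_X_pow_sub_C] at h2
    omega
  have hr : AdjoinRoot.root B ≠ 0 := fun e => hn 0 (by rw [e, map_zero, zero_pow two_ne_zero])
  refine ⟨φ, hs, fun x => ⟨hk x, fun hx => hk' hx⟩,
    fun t => t ∉ (⊥ : Subalgebra (Z ⧸ N.asIdeal) (AdjoinRoot B)), fun x hx s _ => ?_,
    fun c hc => ?_, AdjoinRoot.root B, hr, fun e => hn 1 (e.trans (map_one _).symm)⟩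
  · have := Subalgebra.isSimpleOrder_of_finrank_prime (Z ⧸ N.asIdeal) (AdjoinRoot B)
      (by rwa [(AdjoinRoot.powerBasis hirr.1.ne_zero).finrank, AdjoinRoot.powerBasis_dim, hd])
    have h1 := (eq_bot_or_eq_top (Algebra.adjoin (Z ⧸ N.asIdeal) {φ x})).resolve_left
      fun e => hx (e ▸ Algebra.self_mem_adjoin_singleton _ _)
    have h2 : φ s ∈ Algebra.adjoin (Z ⧸ N.asIdeal) {φ x} := h1 ▸ trivial
    rw [Algebra.adjoin_singleton_eq_range_aeval] at h2
    obtain ⟨p, hp⟩ := h2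
    obtain ⟨p, rfl⟩ := hm' p
    rw [← add_sub_cancel (aeval x p) s, Ideal.smul_top_eq_map]
    refine Submodule.add_mem_sup (aeval_mem_adjoin_singleton Z x) (hk _ ?_)
    rw [map_sub, ← hp, aeval_def, hom_eval₂, sub_eq_zero]
    change eval₂ _ _ _ = _
    rw [eval₂_map]
    exact congrArg (fun f => eval₂ f (φ x) p) (AdjoinRoot.lift_comp_of _).symm
  · by_cases hb : c ∈ (⊥ : Subalgebra (Z ⧸ N.asIdeal) (AdjoinRoot B))
    · obtain ⟨c, rfl⟩ := Algebra.mem_bot.1 hb
      refine ⟨_, hr, fun e => ?_⟩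
      obtain ⟨c', e⟩ := Algebra.mem_bot.1 e
      refine hn (c' / c) ?_
      rw [map_div₀, e, mul_div_cancel_right₀ _ hc]
    · exact ⟨1, one_ne_zero, by rwa [one_pow, one_mul]⟩

theorem Smq.sn_of_adjoinRoot_prime (hQ : Smq Q) (hm : 5 ≤ m) (hfin : ResFin Z) {P : Z[X]}
    (hP : P.Monic) (hirr : ∀ N, Irreducible (P.map (rf N))) (hp : P.natDegree.Prime)
    (hodd : Odd P.natDegree) {a : Z} (ha : IsUnit a)
    (h : Sn (Q.map (AdjoinRoot.of P)) (AdjoinRoot.of P a)) : Sn Q a := by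
  obtain ⟨v0, h0, g0⟩ := hQ.exists_good (by omega)
  have := Module.Free.of_basis (AdjoinRoot.powerBasis' hP).basis
  have := Module.Finite.of_basis (AdjoinRoot.powerBasis' hP).basis
  have := fun N => Fact.mk (hirr N)
  choose φ hs hk G hg hb θ t0 t1 using fun N => nvs_res hP N hp hodd
  have crt : ∀ b : ∀ N, AdjoinRoot (P.map (rf N)), ∃ x, ∀ N, φ N x = b N := fun b => by
    choose c hc using fun N => hs N (b N)
    obtain ⟨x, hx⟩ := sl_crt_mod (Z := Z) c
    refine ⟨x, fun N => ?_⟩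
    have h1 := hx N
    rw [Ideal.smul_top_eq_map] at h1
    rw [← hc, ← sub_eq_zero, ← map_sub]
    exact (hk N _).2 h1
  have un : ∀ x, (∀ N, φ N x ≠ 0) → IsUnit x := fun x hx =>
    isUnit_of_forall_map (Z := Z) fun N => by
      obtain ⟨x', hx'⟩ := hs N (φ N x)⁻¹
      exact ⟨x', (hk N _).1 (by
        rw [map_sub, map_mul, hx', map_one, mul_inv_cancel₀ (hx N), sub_self])⟩
  have hA : NormA Q v0 (Module.finrank Z (AdjoinRoot P)) := hQ.normA hm (Or.inr hfin) h0 g0 _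
  have good : ∀ y : Fin m → AdjoinRoot P, IsUnit (qv (Q.map (algebraMap Z (AdjoinRoot P))) y) →
      Good (Q.map (algebraMap Z (AdjoinRoot P))) y →
      Sn Q (Algebra.norm Z (qv (Q.map (algebraMap Z (AdjoinRoot P))) y) *
        qv Q v0 ^ Module.finrank Z (AdjoinRoot P)) := fun y hy gy => by
    choose b b0 b1 using fun N => hb N _ (hy.map (φ N)).ne_zero
    obtain ⟨x, hx⟩ := crt b
    have hu : IsUnit x := un x fun N => hx N ▸ b0 N
    have h1 := normA_of_good hA (y := x • y) (by rw [qv_smul]; exact (hu.pow 2).mul hy) (gy.smul hu)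
      (by
        rw [← Algebra.toSubmodule_eq_top, eq_top_iff]
        exact nvs_le fun N => hg N _ (by rw [qv_smul, map_mul, map_pow, hx]; exact b1 N))
    rw [qv_smul, map_mul, map_pow, mul_assoc, mul_comm] at h1
    exact Sn.cancel h0 (sn_sq h0 _) ((hu.map (Algebra.norm Z)).pow 2) h1
  refine nvs_descend (S := AdjoinRoot P) h0 ((AdjoinRoot.powerBasis' hP).finrank ▸ hodd)
    (fun y hy => ?_) ha h
  have hv : IsUnit (qv (Q.map (algebraMap Z (AdjoinRoot P))) (algebraMap Z _ ∘ v0)) := by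
    rw [qv_map]; exact h0.map _
  have gv := g0.map (algebraMap Z (AdjoinRoot P))
  have red := fun a => nvs_reduce (S := AdjoinRoot P) (Q := Q) h0 (y := y) a
  set Q' := Q.map (algebraMap Z (AdjoinRoot P))
  set v := algebraMap Z (AdjoinRoot P) ∘ v0
  have glue : ∀ w, (∀ N, Good (Q'.map (φ N)) (φ N ∘ w)) → Good Q' w := fun w hw => by
    choose z hz using hw
    choose x hx using fun i => crt fun N => z N i
    refine good_of_isUnit (z := x) (un _ fun N => ?_)
    rw [← bv_map, show φ N ∘ x = z N from funext fun i => hx i N, hz]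
    exact one_ne_zero
  choose b b1 b2 b3 using fun N => nvs_field (Q := Q'.map (φ N)) (t0 N) (t1 N) (y := φ N ∘ y)
    (v := φ N ∘ v) (by rw [qv_map]; exact (hy.map (φ N)).ne_zero)
    (by rw [qv_map]; exact (hv.map (φ N)).ne_zero) (gv.map (φ N))
  obtain ⟨x, hx⟩ := crt b
  have e1 : ∀ N, φ N ∘ (x • y + v) = b N • (φ N ∘ y) + φ N ∘ v := fun N => funext fun i => by
    simp only [Function.comp_apply, Pi.add_apply, Pi.smul_apply, smul_eq_mul, map_add, map_mul, hx]
  have u1 : IsUnit (qv Q' (x • y + v)) := un _ fun N => by rw [← qv_map, e1]; exact b1 N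
  refine red x u1 (good _ u1 (glue _ fun N => e1 N ▸ b2 N))
    (good _ (by rw [btrick]; exact (hy.mul hv).mul u1) (glue _ fun N => ?_))
  have h1 := b3 N
  rw [bv_map, qv_map Q' _ v, qv_map Q' _ y] at h1
  refine (congrArg (Good _) (funext fun i => ?_)).mpr h1
  simp only [Function.comp_apply, Pi.sub_apply, Pi.smul_apply, smul_eq_mul, map_add, map_sub,
    map_mul, hx]

end Pool.Agent.GW
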