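import Pool.Agent.P.MP_c1f06d_ag.Trans
import Pool.Agent.P.MP_c1f06d_ag.w.Smq

open Matrix Polynomial QuadraticMap

universe u

namespace Pool.Agent.GW

open Pool.Agent.P.MP_c1f06d_ag

variable {Z : Type*} [CommRing Z] [Finite (MaximalSpectrum Z)]

attribute [local instance] Ideal.Quotient.field

theorem frames_scal (al be ga x z A D q : Z) (hq : IsUnit q) : ∃ c d : Z,
    IsUnit (al + c * (1 - x * be - z * al) + d * (ga - 2 * al * be) -
      (c * c * A + d * d * (q - al * be + ga) + c * d * D) * be) := by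
  have key : ∀ N : MaximalSpectrum Z, ∃ c d : Z ⧸ N.asIdeal,
      rf N al + c * (1 - rf N x * rf N be - rf N z * rf N al) + d * (rf N ga - 2 * rf N al * rf N be)
        - (c * c * rf N A + d * d * (rf N q - rf N al * rf N be + rf N ga) + c * d * rf N D) *
          rf N be ≠ 0 := fun N => by
    have hN := sl_unit_iff.1 hq N
    by_cases h1 : rf N al = 0
    · by_cases h2 : rf N be = 0
      · exact ⟨1, 0, by rw [h1, h2]; simp⟩
      · refine ⟨0, (rf N be)⁻¹, fun e => hN ?_⟩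
        rw [h1] at e
        field_simp at e
        linear_combination -e
    · exact ⟨0, 0, by simpa using h1⟩
  choose c d h using key
  obtain ⟨c', hc⟩ := sl_crt c
  obtain ⟨d', hd⟩ := sl_crt d
  refine ⟨c', d', sl_unit_iff.2 fun N => ?_⟩
  simp only [map_add, map_sub, map_mul, map_one, map_ofNat, hc, hd]
  exact h N

theorem pair_conjS {M : Type*} [AddCommGroup M] [Module Z M] (φ : QuadraticForm Z M)
    {e f e' f' w : M} (he : φ e = 0) (hf : φ f = 0) (hef : polar φ e f = 1) (he' : φ e' = 0)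
    (hf' : φ f' = 0) (hef' : polar φ e' f' = 1) (hw : IsUnit (φ w)) (hwe : polar φ w e = 0)
    (hwf : polar φ w f = 0) : ∃ σ : M →ₗ[Z] M, (∀ x, φ (σ x) = φ x) ∧ σ e = e' ∧ σ f = f' := by
  obtain ⟨p, hp⟩ : ∃ p, p = wittPr φ e f e' := ⟨_, rfl⟩
  obtain ⟨r, hr⟩ : ∃ r, r = wittPr φ e f f' := ⟨_, rfl⟩
  obtain ⟨c, d, hu⟩ := frames_scal (polar φ e' f) (polar φ e' e) (polar φ w e') (polar φ f' f)
    (polar φ f' e) (φ r) (polar φ r (w + p)) (φ w) hw
  have p1 : polar φ p e = 0 := hp ▸ wittPr_left φ he hef e'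
  have p2 : polar φ p f = 0 := hp ▸ wittPr_right φ hf hef e'
  have r1 : polar φ r e = 0 := hr ▸ wittPr_left φ he hef f'
  have r2 : polar φ r f = 0 := hr ▸ wittPr_right φ hf hef f'
  have p3 : φ p = -(polar φ e' e * polar φ e' f) := by
    rw [hp, wittPr_val φ he hf hef, he', zero_sub]
  have p4 : polar φ w p = polar φ w e' := by
    rw [hp, wittPr_polar, hwe, hwf]; ring
  have p5 : polar φ e' p = -(2 * polar φ e' f * polar φ e' e) := by
    rw [hp, wittPr_polar, witt_self φ he']; ring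
  have r3 : polar φ e' r = 1 - polar φ f' f * polar φ e' e - polar φ f' e * polar φ e' f := by
    rw [hr, wittPr_polar, hef']
  obtain ⟨y, hy⟩ : ∃ y, y = c • r + d • (w + p) := ⟨_, rfl⟩
  have y1 : polar φ y e = 0 := by
    rw [hy, polar_add_left, polar_smul_left, polar_smul_left, polar_add_left, r1, hwe, p1]; simp
  have y2 : polar φ y f = 0 := by
    rw [hy, polar_add_left, polar_smul_left, polar_smul_left, polar_add_left, r2, hwf, p2]; simp
  have y3 : φ y = c * c * φ r + d * d * (φ w - polar φ e' f * polar φ e' e + polar φ w e') +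
      c * d * polar φ r (w + p) := by
    rw [hy, witt_add_smul, QuadraticMap.map_smul, polar_smul_left, QuadraticMap.map_add φ w p, p3,
      p4, smul_eq_mul, smul_eq_mul]
    ring
  have y4 : polar φ e' y =
      c * (1 - polar φ f' f * polar φ e' e - polar φ f' e * polar φ e' f) +
        d * (polar φ w e' - 2 * polar φ e' f * polar φ e' e) := by
    rw [hy, polar_add_right, polar_smul_right, polar_smul_right, polar_add_right, r3, p5,
      polar_comm φ e' w, smul_eq_mul, smul_eq_mul]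
    ring
  have z1 : polar φ (f + y) e = 1 := by rw [polar_add_left, y1, polar_comm, hef, add_zero]
  have z2 : φ (f + y) = φ y := by
    rw [QuadraticMap.map_add φ f y, hf, polar_comm, y2, zero_add, add_zero]
  have g1 := witt_iso_fix φ he z1
  obtain ⟨g, hg⟩ : ∃ g, g = f + y + (-φ (f + y)) • e := ⟨_, rfl⟩
  rw [← hg] at g1
  have g2 : polar φ e g = 1 := by
    rw [hg, polar_add_right, polar_smul_right, witt_self φ he, polar_comm, z1]; simp
  have g3 : IsUnit (polar φ e' g) := by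
    rw [hg, polar_add_right, polar_add_right, polar_smul_right, z2, y3, y4, smul_eq_mul]
    refine Eq.subst ?_ hu
    ring
  obtain ⟨b, hb⟩ := g3.exists_left_inv
  have b1 : φ (b • g) = 0 := by rw [QuadraticMap.map_smul, g1, smul_zero]
  have b2 : polar φ e' (b • g) = 1 := by rw [polar_smul_right, smul_eq_mul, hb]
  have b3 : IsUnit (polar φ e (b • g)) := by
    rw [polar_smul_right, g2, smul_eq_mul, mul_one]
    exact IsUnit.of_mul_eq_one _ hb
  exact (witt_of_unit φ he hf hef he' b1 b2 b3).trans (witt_same_left φ he' b1 b2 hf' hef')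

theorem witt_framesS {M : Type*} [AddCommGroup M] [Module Z M] {ι : Type*} [DecidableEq ι]
    (s : Finset ι) :
    ∀ (φ : QuadraticForm Z M) (e f e' f' : ι → M) (w : M), IsUnit (φ w) →
      (∀ i ∈ s, polar φ w (e i) = 0) → (∀ i ∈ s, φ (e i) = 0) →
      (∀ i ∈ s, ∀ j ∈ s, polar φ (e i) (e j) = 0) →
      (∀ i ∈ s, ∀ j ∈ s, polar φ (e i) (f j) = if i = j then 1 else 0) →
      (∀ i ∈ s, φ (e' i) = 0) → (∀ i ∈ s, ∀ j ∈ s, polar φ (e' i) (e' j) = 0) →
      (∀ i ∈ s, ∀ j ∈ s, polar φ (e' i) (f' j) = if i = j then 1 else 0) →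
      ∃ σ : M →ₗ[Z] M, (∀ x, φ (σ x) = φ x) ∧ ∀ i ∈ s, σ (e i) = e' i := by
  induction s using Finset.induction_on with
  | empty =>
    intro φ e f e' f' _ _ _ _ _ _ _ _ _
    exact ⟨LinearMap.id, fun _ => rfl, fun i hi => absurd hi (Finset.notMem_empty i)⟩
  | insert a s ha ih =>
    intro φ e f e' f' w hw hwe he hee hef he' hee' hef'
    have ma : a ∈ insert a s := Finset.mem_insert_self a s
    have ms : ∀ i ∈ s, i ∈ insert a s := fun i hi => Finset.mem_insert_of_mem hi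
    have ne : ∀ i ∈ s, i ≠ a := fun i hi h => ha (h ▸ hi)
    have key : ∀ e f : ι → M, (∀ i ∈ insert a s, φ (e i) = 0) →
        (∀ i ∈ insert a s, ∀ j ∈ insert a s, polar φ (e i) (e j) = 0) →
        (∀ i ∈ insert a s, ∀ j ∈ insert a s, polar φ (e i) (f j) = if i = j then 1 else 0) →
        ∃ g, φ g = 0 ∧ polar φ (e a) g = 1 ∧ ∀ i ∈ s, polar φ (e i) g = 0 := by
      intro e f he hee hef
      have h1 : polar φ (e a) (f a) = 1 := by rw [hef a ma a ma, if_pos rfl]
      refine ⟨f a + (-φ (f a)) • e a, witt_iso_fix φ (he a ma) (by rw [polar_comm, h1]), ?_,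
        fun i hi => ?_⟩
      · rw [polar_add_right, polar_smul_right, h1, hee a ma a ma]; simp
      · rw [polar_add_right, polar_smul_right, hef i (ms i hi) a ma, if_neg (ne i hi),
          hee i (ms i hi) a ma]; simp
    obtain ⟨g, g1, g2, g3⟩ := key e f he hee hef
    obtain ⟨g', g1', g2', g3'⟩ := key e' f' he' hee' hef'
    obtain ⟨w1, hw1⟩ : ∃ w1, w1 = w + (-polar φ w g) • e a := ⟨_, rfl⟩
    have w2 : φ w1 = φ w := by rw [hw1, witt_add_smul, he a ma, hwe a ma]; ring
    have w3 : ∀ i ∈ insert a s, polar φ w1 (e i) = 0 := fun i hi => by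
      rw [hw1, polar_add_left, polar_smul_left, hwe i hi, hee a ma i hi]; simp
    have w4 : polar φ w1 g = 0 := by rw [hw1, polar_add_left, polar_smul_left, g2]; simp
    obtain ⟨s1, k1, k2, k3⟩ := pair_conjS φ (he a ma) g1 g2 (he' a ma) g1' g2' (w2 ▸ hw)
      (w3 a ma) w4
    have p0 : wittPr φ (e' a) g' (s1 w1) = s1 w1 := wittPr_fix φ
      (by rw [← k2, witt_polar_map φ k1, w3 a ma]) (by rw [← k3, witt_polar_map φ k1, w4])
    have u1 : ∀ i ∈ s, polar φ (s1 (e i)) (e' a) = 0 := fun i hi => by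
      rw [← k2, witt_polar_map φ k1, hee i (ms i hi) a ma]
    have u2 : ∀ i ∈ s, polar φ (s1 (e i)) g' = 0 := fun i hi => by
      rw [← k3, witt_polar_map φ k1, g3 i hi]
    have v1 : ∀ i ∈ s, polar φ (e' i) (e' a) = 0 := fun i hi => hee' i (ms i hi) a ma
    have p1 : ∀ i ∈ s, wittPr φ (e' a) g' (s1 (e i)) = s1 (e i) := fun i hi =>
      wittPr_fix φ (u1 i hi) (u2 i hi)
    have p2 : ∀ i ∈ s, wittPr φ (e' a) g' (e' i) = e' i := fun i hi =>
      wittPr_fix φ (v1 i hi) (g3' i hi)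
    obtain ⟨s2, l1, l2⟩ := ih (φ.comp (wittPr φ (e' a) g')) (fun i => s1 (e i))
      (fun i => s1 (f i)) e' f' (s1 w1)
      (by rw [QuadraticMap.comp_apply, p0, k1, w2]; exact hw)
      (fun i hi => by rw [witt_polar_comp, p0, p1 i hi, witt_polar_map φ k1, w3 i (ms i hi)])
      (fun i hi => by rw [QuadraticMap.comp_apply, p1 i hi, k1, he i (ms i hi)])
      (fun i hi j hj => by
        rw [witt_polar_comp, p1 i hi, p1 j hj, witt_polar_map φ k1, hee i (ms i hi) j (ms j hj)])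
      (fun i hi j hj => by
        rw [witt_polar_comp, p1 i hi, wittPr_polar, u1 i hi, u2 i hi, witt_polar_map φ k1,
          hef i (ms i hi) j (ms j hj)]
        simp)
      (fun i hi => by rw [QuadraticMap.comp_apply, p2 i hi, he' i (ms i hi)])
      (fun i hi j hj => by
        rw [witt_polar_comp, p2 i hi, p2 j hj, hee' i (ms i hi) j (ms j hj)])
      (fun i hi j hj => by
        rw [witt_polar_comp, p2 i hi, wittPr_polar, v1 i hi, g3' i hi,
          hef' i (ms i hi) j (ms j hj)]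
        simp)
    obtain ⟨t, t1, t2, t3⟩ := witt_extend φ (he' a ma) g1' g2' s2 l1
    refine ⟨t.comp s1, fun x => by rw [LinearMap.comp_apply, t1, k1], fun i hi => ?_⟩
    rcases Finset.mem_insert.1 hi with h | h
    · rw [h, LinearMap.comp_apply, k2, t2]
    · rw [LinearMap.comp_apply, t3 _ (u1 i h) (u2 i h), l2 i h, p2 i h]

theorem frames_conjS {M : Type*} [AddCommGroup M] [Module Z M] {ι : Type*} [Fintype ι]
    [DecidableEq ι] (φ : QuadraticForm Z M) (e f e' f' : ι → M) (he : ∀ i, φ (e i) = 0)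
    (hee : ∀ i j, polar φ (e i) (e j) = 0)
    (hef : ∀ i j, polar φ (e i) (f j) = if i = j then 1 else 0)
    (he' : ∀ i, φ (e' i) = 0) (hee' : ∀ i j, polar φ (e' i) (e' j) = 0)
    (hef' : ∀ i j, polar φ (e' i) (f' j) = if i = j then 1 else 0) {w : M} (hw : IsUnit (φ w))
    (hwe : ∀ i, polar φ w (e i) = 0) :
    ∃ σ : M →ₗ[Z] M, (∀ x, φ (σ x) = φ x) ∧ ∀ i, σ (e i) = e' i := by
  obtain ⟨σ, h1, h2⟩ := witt_framesS Finset.univ φ e f e' f' w hw (fun i _ => hwe i)
    (fun i _ => he i) (fun i _ j _ => hee i j) (fun i _ j _ => hef i j) (fun i _ => he' i)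
    (fun i _ j _ => hee' i j) (fun i _ j _ => hef' i j)
  exact ⟨σ, h1, fun i => h2 i (Finset.mem_univ i)⟩

/-- The abstract transfer argument. -/
theorem trans_coreS {m : ℕ} {Q Q' : Matrix (Fin m) (Fin m) Z} {S : Type*} [CommRing S] [Algebra Z S] (lam c : S →ₗ[Z] Z) (t : S) (k : ℕ)
    (s : Fin k → S) (h0 : ∀ a, a < 2 * k → lam (t ^ a) = 0) (h1 : lam (t ^ (2 * k)) = 1)
    (hs : ∀ i j : Fin k, lam (t ^ (i : ℕ) * s j) = if i = j then 1 else 0)
    (hc : ∀ y z : S, (∀ j : Fin k, lam (t ^ (j : ℕ) * y) = 0) →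
      (∀ j : Fin k, lam (t ^ (j : ℕ) * z) = 0) → lam (y * z) = c y * c z)
    (hQ : Unim Q) (hQ' : Unim Q')
    (h : Iso (Q.map (algebraMap Z S)) (Q'.map (algebraMap Z S))) : Iso Q Q' := by
  rcases Nat.eq_zero_or_pos m with rfl | hm
  · rw [Subsingleton.elim Q Q']
    exact Iso.rfl
  obtain ⟨v, hv⟩ := exists_isUnit_qvS hQ hm
  obtain ⟨g, hg⟩ := h
  obtain ⟨φ, hφ, hφp⟩ := trans_form lam (Q'.map (algebraMap Z S))
  obtain ⟨d, hd⟩ := trans_dual (algebraMap Z S) hQ
  obtain ⟨d', hd'⟩ := trans_dual (algebraMap Z S) hQ'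
  have hl : ∀ (z : S) (a : Z), lam (z * algebraMap Z S a) = a * lam z := fun z a => by
    rw [mul_comm, ← Algebra.smul_def, map_smul, smul_eq_mul]
  have hq : ∀ (A : Matrix (Fin m) (Fin m) Z) (x : Fin m → Z) (a : ℕ),
      lam (qv (A.map (algebraMap Z S)) (t ^ a • (algebraMap Z S ∘ x))) =
        qv A x * lam (t ^ (2 * a)) := fun A x a => by
    rw [qv_smul, qv_map, hl, ← pow_mul, mul_comm a 2]
  have hb : ∀ (A : Matrix (Fin m) (Fin m) Z) (x y : Fin m → Z) (a b : ℕ), a + b < 2 * k →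
      lam (bv (A.map (algebraMap Z S)) (t ^ a • (algebraMap Z S ∘ x))
        (t ^ b • (algebraMap Z S ∘ y))) = 0 := fun A x y a b hab => by
    rw [bv_smul_left, bv_smul_right, bv_map, ← mul_assoc, ← pow_add, hl, h0 _ hab, mul_zero]
  have hf : ∀ (A : Matrix (Fin m) (Fin m) Z) (D : Fin m → Fin m → Z),
      (∀ (i : Fin m) (y : Fin m → S),
        bv (A.map (algebraMap Z S)) y (algebraMap Z S ∘ D i) = y i) →
      ∀ p r : Fin m × Fin k,
      lam (bv (A.map (algebraMap Z S)) (t ^ (p.2 : ℕ) • (algebraMap Z S ∘ D p.1))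
        (s r.2 • Pi.single r.1 1)) = if p = r then 1 else 0 := fun A D hD p r => by
    rw [bv_smul_left, bv_smul_right, bv_comm, hD]
    obtain ⟨p1, p2⟩ := p
    obtain ⟨r1, r2⟩ := r
    by_cases e : p1 = r1
    · subst e
      simp [hs]
    · simp [e]
  obtain ⟨σ, hσ, hσe⟩ := frames_conjS (ι := Fin m × Fin k) φ
    (fun p => g *ᵥ (t ^ (p.2 : ℕ) • (algebraMap Z S ∘ d p.1)))
    (fun p => g *ᵥ (s p.2 • Pi.single p.1 1))
    (fun p => t ^ (p.2 : ℕ) • (algebraMap Z S ∘ d' p.1))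
    (fun p => s p.2 • Pi.single p.1 1)
    (fun p => by rw [hφ, hg, hq, h0 _ (by have := p.2.2; omega), mul_zero])
    (fun p r => by rw [hφp, hg.bv, hb _ _ _ _ _ (by have := p.2.2; have := r.2.2; omega)])
    (fun p r => by rw [hφp, hg.bv, hf _ _ hd])
    (fun p => by rw [hφ, hq, h0 _ (by have := p.2.2; omega), mul_zero])
    (fun p r => by rw [hφp, hb _ _ _ _ _ (by have := p.2.2; have := r.2.2; omega)])
    (fun p r => by rw [hφp, hf _ _ hd'])
    (w := g *ᵥ (t ^ k • (algebraMap Z S ∘ v))) (by rw [hφ, hg, hq, h1, mul_one]; exact hv)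
    (fun p => by rw [hφp, hg.bv, hb _ _ _ _ _ (by have := p.2.2; omega)])
  have hσp : ∀ x y, QuadraticMap.polar φ (σ x) (σ y) = QuadraticMap.polar φ x y := fun x y => by
    unfold QuadraticMap.polar
    rw [← map_add σ, hσ, hσ, hσ]
  refine iso_of_linearMap (c.compLeft (Fin m) ∘ₗ σ ∘ₗ (Matrix.mulVecLin g).restrictScalars Z ∘ₗ
    (LinearMap.lsmul S (Fin m → S) (t ^ k)).restrictScalars Z ∘ₗ
    (Algebra.linearMap Z S).compLeft (Fin m)) fun x => ?_
  change qv Q' (c ∘ σ (g *ᵥ (t ^ k • (algebraMap Z S ∘ x)))) = _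
  have hy : ∀ (i : Fin m) (j : Fin k),
      lam (t ^ (j : ℕ) * σ (g *ᵥ (t ^ k • (algebraMap Z S ∘ x))) i) = 0 := fun i j => by
    have e := hσp (g *ᵥ (t ^ k • (algebraMap Z S ∘ x)))
      (g *ᵥ (t ^ (j : ℕ) • (algebraMap Z S ∘ d i)))
    rw [hσe (i, j), hφp, hφp, hg.bv, hb _ _ _ _ _ (by have := j.2; omega), bv_smul_right,
      hd'] at e
    exact e
  have e := hσ (g *ᵥ (t ^ k • (algebraMap Z S ∘ x)))
  rw [hφ, hφ, hg, hq, h1, mul_one] at e
  rw [← e]
  generalize σ (g *ᵥ (t ^ k • (algebraMap Z S ∘ x))) = y at hy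
  unfold qv dotProduct mulVec dotProduct
  rw [map_sum]
  refine Finset.sum_congr rfl fun i _ => ?_
  rw [Finset.mul_sum, Finset.mul_sum, map_sum]
  refine Finset.sum_congr rfl fun j _ => ?_
  change c (y i) * (Q' i j * c (y j)) = lam (y i * (algebraMap Z S (Q' i j) * y j))
  rw [mul_comm (algebraMap Z S _), ← mul_assoc (y i), hl, hc _ _ (hy i) (hy j)]
  ring

omit [Finite (MaximalSpectrum Z)] in
theorem iso_triv [Subsingleton Z] {m : ℕ} (Q Q' : Matrix (Fin m) (Fin m) Z) : Iso Q Q' :=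
  ⟨1, fun _ => Subsingleton.elim _ _⟩

theorem iso_of_adjoinRootS {m : ℕ} {Q Q' : Matrix (Fin m) (Fin m) Z} (hQ : Unim Q) (hQ' : Unim Q')
    {P : Z[X]} (hP : P.Monic) (hodd : Odd P.natDegree)
    (h : Iso (Q.map (AdjoinRoot.of P)) (Q'.map (AdjoinRoot.of P))) : Iso Q Q' := by
  nontriviality Z using iso_triv
  obtain ⟨k, hk⟩ := hodd
  have hdeg : P.degree = ((2 * k + 1 : ℕ) : WithBot ℕ) := by
    rw [degree_eq_natDegree hP.ne_zero, hk]
  obtain ⟨lam, hlam⟩ : ∃ lam : AdjoinRoot P →ₗ[Z] Z, ∀ p : Z[X], p.natDegree ≤ 2 * k →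
      lam (AdjoinRoot.mk P p) = p.coeff (2 * k) := by
    refine ⟨lcoeff Z (2 * k) ∘ₗ AdjoinRoot.modByMonicHom hP, fun p hp => ?_⟩
    rw [LinearMap.comp_apply, AdjoinRoot.modByMonicHom_mk, lcoeff_apply,
      (modByMonic_eq_self_iff hP).2]
    rw [hdeg]
    exact degree_le_natDegree.trans_lt (by exact_mod_cast Nat.lt_succ_of_le hp)
  have hX : ∀ (a : ℕ) (p : Z[X]), AdjoinRoot.root P ^ a * AdjoinRoot.mk P p =
      AdjoinRoot.mk P (X ^ a * p) := fun a p => by
    rw [map_mul, map_pow, AdjoinRoot.mk_X]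
  have hXd : ∀ (a b : ℕ) (p : Z[X]), p.natDegree ≤ b → a + b ≤ 2 * k →
      (X ^ a * p).natDegree ≤ 2 * k := fun a b p hp hab =>
    (natDegree_mul_le_of_le (natDegree_X_pow_le a) hp).trans hab
  have hpow : ∀ a, a ≤ 2 * k → lam (AdjoinRoot.root P ^ a) = if 2 * k = a then 1 else 0 :=
    fun a ha => by
      rw [← AdjoinRoot.mk_X, ← map_pow, hlam _ ((natDegree_X_pow_le a).trans ha), coeff_X_pow]
  have hlow : ∀ y : AdjoinRoot P, (∀ j : Fin k, lam (AdjoinRoot.root P ^ (j : ℕ) * y) = 0) →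
      ∃ p : Z[X], p.natDegree ≤ k ∧ AdjoinRoot.mk P p = y := fun y hy => by
    obtain ⟨p, hp, rfl⟩ : ∃ p : Z[X], p.natDegree ≤ 2 * k ∧ AdjoinRoot.mk P p = y := by
      refine ⟨AdjoinRoot.modByMonicHom hP y, ?_, AdjoinRoot.mk_leftInverse hP y⟩
      induction y using AdjoinRoot.induction_on with
      | ih p =>
        rw [AdjoinRoot.modByMonicHom_mk]
        have hne : P ≠ 1 := fun e => by rw [e, natDegree_one] at hk; omega
        have := natDegree_modByMonic_lt p hP hne
        omega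
    have key : ∀ j, j ≤ k → p.natDegree ≤ 2 * k - j := by
      intro j
      induction j with
      | zero => intro _; simpa using hp
      | succ j ih =>
        intro hj
        have h1 := ih (by omega)
        have h2 := hy ⟨j, by omega⟩
        rw [hX, hlam _ (hXd _ _ _ h1 (by simp only; omega)), coeff_X_pow_mul',
          if_pos (by simp only; omega)] at h2
        have h3 := natDegree_le_pred h1 h2
        omega
    exact ⟨p, (key k le_rfl).trans (by omega), rfl⟩
  refine trans_coreS lam (lam ∘ₗ LinearMap.mulLeft Z (AdjoinRoot.root P ^ k)) (AdjoinRoot.root P) k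
    (fun j => AdjoinRoot.mk P (P /ₘ X ^ ((j : ℕ) + 1))) (fun a ha => ?_) ?_ (fun i j => ?_)
    (fun y z hy hz => ?_) hQ hQ' h
  · rw [hpow a ha.le, if_neg ha.ne']
  · rw [hpow _ le_rfl, if_pos rfl]
  · have hi := i.2
    have hj := j.2
    have hm : (X ^ ((j : ℕ) + 1) : Z[X]).Monic := monic_X_pow _
    have hA : (P /ₘ X ^ ((j : ℕ) + 1)).natDegree = 2 * k - j := by
      rw [natDegree_divByMonic _ hm, natDegree_X_pow, hk]; omega
    have hB : (P %ₘ X ^ ((j : ℕ) + 1)).natDegree ≤ j := by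
      have hne : (X ^ ((j : ℕ) + 1) : Z[X]) ≠ 1 := fun e => by
        have := congrArg natDegree e
        rw [natDegree_X_pow, natDegree_one] at this
        omega
      have := natDegree_modByMonic_lt P hm hne
      rw [natDegree_X_pow] at this
      omega
    have hAB := modByMonic_add_div P (X ^ ((j : ℕ) + 1))
    generalize P /ₘ X ^ ((j : ℕ) + 1) = A at hA hAB
    generalize P %ₘ X ^ ((j : ℕ) + 1) = B at hB hAB
    rw [hX]
    rcases Nat.lt_or_ge (j : ℕ) i with hij | hij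
    · obtain ⟨l, hl⟩ : ∃ l, (i : ℕ) = l + (j + 1) := ⟨i - (j + 1), by omega⟩
      have e : AdjoinRoot.mk P (X ^ (i : ℕ) * A) = AdjoinRoot.mk P (X ^ l * (-B)) := by
        rw [AdjoinRoot.mk_eq_mk]
        refine ⟨X ^ l, ?_⟩
        rw [hl, pow_add, ← hAB]
        ring
      have hB' : (-B).natDegree ≤ j := by rwa [natDegree_neg]
      rw [e, hlam _ (hXd _ _ _ hB' (by omega)), if_neg (fun e' => by rw [e'] at hij; omega)]
      exact coeff_eq_zero_of_natDegree_lt
        ((natDegree_mul_le_of_le (natDegree_X_pow_le l) hB').trans_lt (by omega))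
    · rw [hlam _ (hXd _ _ _ hA.le (by omega)), coeff_X_pow_mul', if_pos (by omega)]
      by_cases e : i = j
      · subst e
        rw [if_pos rfl]
        have h1 : P.coeff (2 * k + 1) = 1 := by rw [← hk]; exact hP.coeff_natDegree
        rw [← hAB, coeff_add, coeff_eq_zero_of_natDegree_lt (hB.trans_lt (by omega)), zero_add,
          coeff_X_pow_mul', if_pos (by omega)] at h1
        rw [← h1]
        congr 1
        omega
      · rw [if_neg e]
        have : (i : ℕ) ≠ j := fun e' => e (Fin.ext e')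
        exact coeff_eq_zero_of_natDegree_lt (by omega)
  · obtain ⟨p, hp, rfl⟩ := hlow y hy
    obtain ⟨q, hq, rfl⟩ := hlow z hz
    have hc : ∀ r : Z[X], r.natDegree ≤ k →
        (lam ∘ₗ LinearMap.mulLeft Z (AdjoinRoot.root P ^ k)) (AdjoinRoot.mk P r) = r.coeff k :=
      fun r hr => by
        rw [LinearMap.comp_apply, LinearMap.mulLeft_apply, hX,
          hlam _ (hXd _ _ _ hr (by omega)), two_mul, coeff_X_pow_mul]
    rw [hc p hp, hc q hq, ← map_mul,
      hlam _ ((natDegree_mul_le_of_le hp hq).trans (by omega)), two_mul,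
      coeff_mul_add_eq_of_natDegree_le hp hq]

end Pool.Agent.GW
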