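import Pool.Agent.P.MP_c1f06d_ag.ValA
import Pool.Agent.P.MP_c1f06d_ag.w.Frames

open Matrix Polynomial

universe u

namespace Pool.Agent.GW

open Pool.Agent.P.MP_c1f06d_ag

variable {m : ℕ} {O K : Type*} [CommRing O] [IsDomain O] [Finite (MaximalSpectrum O)] [Field K]
  [Algebra O K] [IsFractionRing O K]

omit [Finite (MaximalSpectrum O)] in
theorem valas_val (har : Arith O) (N : MaximalSpectrum O) [N.asIdeal.IsPrime] :
    ValuationRing (Localization.AtPrime N.asIdeal) := by
  refine @ValuationRing.mk _ _ _ ⟨fun a b => ?_⟩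
  obtain ⟨⟨x, s⟩, rfl⟩ := IsLocalization.mk'_surjective N.asIdeal.primeCompl a
  obtain ⟨⟨y, t⟩, rfl⟩ := IsLocalization.mk'_surjective N.asIdeal.primeCompl b
  have key : ∀ (x y : O) (s t : N.asIdeal.primeCompl) (u : O), u ∉ N.asIdeal → y ∣ u * x →
      ∃ c, IsLocalization.mk' (Localization.AtPrime N.asIdeal) y t * c =
        IsLocalization.mk' (Localization.AtPrime N.asIdeal) x s := by
    rintro x y s t u hu ⟨c, hc⟩
    refine ⟨IsLocalization.mk' _ (c * t) (s * ⟨u, hu⟩), ?_⟩
    rw [← IsLocalization.mk'_mul]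
    refine IsLocalization.mk'_eq_of_eq ?_
    simp only [Submonoid.coe_mul]
    linear_combination (s : O) * (t : O) * hc
  obtain ⟨u, hu, h | h⟩ := har.at N x y
  · obtain ⟨c, hc⟩ := key x y s t u hu h
    exact ⟨c, .inr hc⟩
  · obtain ⟨c, hc⟩ := key y x t s u hu h
    exact ⟨c, .inl hc⟩

omit [Finite (MaximalSpectrum O)] in
theorem valas_loc (har : Arith O) (g : Matrix (Fin m) (Fin m) K) (N : MaximalSpectrum O) :
    ∃ ρ : Fin m → Fin m ⊕ Fin m, ∀ Y1 Y2 : Matrix (Fin m) (Fin m) O,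
      (∀ i a, fromCols Y1 Y2 i a - (if ρ i = a then 1 else 0) ∈ N.asIdeal) →
      (Y1.map (algebraMap O K) + Y2.map (algebraMap O K) * g).det ≠ 0 ∧
      ∀ a j, ∃ s, s ∉ N.asIdeal ∧ ∃ o : O, algebraMap O K s *
        (fromRows (1 : Matrix (Fin m) (Fin m) K) g *
          (Y1.map (algebraMap O K) + Y2.map (algebraMap O K) * g)⁻¹) a j = algebraMap O K o := by
  have := N.isMaximal.isPrime
  have := valas_val har N
  have hle : N.asIdeal.primeCompl ≤ nonZeroDivisors O := N.asIdeal.primeCompl_le_nonZeroDivisors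
  let inst : Algebra (Localization.AtPrime N.asIdeal) K :=
    IsLocalization.localizationAlgebraOfSubmonoidLe _ K N.asIdeal.primeCompl (nonZeroDivisors O) hle
  have : IsScalarTower O (Localization.AtPrime N.asIdeal) K :=
    IsLocalization.localization_isScalarTower_of_submonoid_le _ K N.asIdeal.primeCompl
      (nonZeroDivisors O) hle
  have : IsFractionRing (Localization.AtPrime N.asIdeal) K :=
    IsFractionRing.isFractionRing_of_isDomain_of_isLocalization N.asIdeal.primeCompl _ K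
  let L := Localization.AtPrime N.asIdeal
  obtain ⟨X1, X2, ρ, h1, h2, -⟩ := exists_lattice (O := L) g
  refine ⟨ρ, fun Y1 Y2 hY => ?_⟩
  obtain ⟨U, hU⟩ : ∃ U, U = Y1.map (algebraMap O L) * X1 + Y2.map (algebraMap O L) * X2 := ⟨_, rfl⟩
  have hU1 : U.map (IsLocalRing.residue L) = 1 := by
    ext i j
    have e1 : U i j = ∑ a, algebraMap O L (fromCols Y1 Y2 i a) * fromRows X1 X2 a j := by
      simp [hU, mul_apply, Fintype.sum_sum_type]
    have e2 : (1 : Matrix (Fin m) (Fin m) L) i j =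
        ∑ a, algebraMap O L (if ρ i = a then 1 else 0) * fromRows X1 X2 a j := by
      rw [← h1]
      simp [apply_ite (algebraMap O L)]
    have e3 : U i j - (1 : Matrix (Fin m) (Fin m) L) i j ∈ IsLocalRing.maximalIdeal L := by
      rw [e1, e2, ← Finset.sum_sub_distrib]
      refine sum_mem fun a _ => ?_
      rw [← sub_mul, ← map_sub]
      exact Ideal.mul_mem_right _ _
        ((IsLocalization.AtPrime.to_map_mem_maximal_iff L N.asIdeal _).2 (hY i a))
    have e4 := (IsLocalRing.residue_eq_zero_iff _).2 e3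
    rw [map_sub, sub_eq_zero] at e4
    rw [map_apply, e4]
    simp [one_apply, apply_ite (IsLocalRing.residue L)]
  have hu : IsUnit U.det := by
    by_contra e
    have e1 := (IsLocalRing.residue_eq_zero_iff _).2 ((IsLocalRing.mem_maximalIdeal _).2 e)
    rw [RingHom.map_det, RingHom.mapMatrix_apply, hU1, det_one] at e1
    exact one_ne_zero e1
  set A := Y1.map (algebraMap O K) + Y2.map (algebraMap O K) * g with hA
  have e5 : ∀ Y : Matrix (Fin m) (Fin m) O, (Y.map (algebraMap O L)).map (algebraMap L K) =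
      Y.map (algebraMap O K) := fun Y => by
    ext i j
    exact (IsScalarTower.algebraMap_apply O L K _).symm
  have e6 : A * X1.map (algebraMap L K) = U.map (algebraMap L K) := by
    rw [hU, Matrix.map_add _ (map_add _), Matrix.map_mul, Matrix.map_mul, e5, e5, h2, hA,
      Matrix.add_mul, Matrix.mul_assoc]
  have e7 : A * (X1 * U⁻¹).map (algebraMap L K) = 1 := by
    rw [Matrix.map_mul, ← Matrix.mul_assoc, e6, ← Matrix.map_mul, mul_nonsing_inv _ hu,
      Matrix.map_one _ (map_zero _) (map_one _)]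
  refine ⟨(isUnit_det_of_right_inverse e7).ne_zero, fun a j => ?_⟩
  have e8 : fromRows (1 : Matrix (Fin m) (Fin m) K) g * A⁻¹ =
      (fromRows X1 X2 * U⁻¹).map (algebraMap L K) := by
    rw [inv_eq_right_inv e7, fromRows_mul, fromRows_mul, fromRows_map, Matrix.one_mul,
      Matrix.map_mul, Matrix.map_mul, h2, Matrix.mul_assoc]
  obtain ⟨⟨o, s⟩, hs⟩ := IsLocalization.surj N.asIdeal.primeCompl ((fromRows X1 X2 * U⁻¹) a j)
  refine ⟨s, s.2, o, ?_⟩
  rw [e8, map_apply, IsScalarTower.algebraMap_apply O L K, IsScalarTower.algebraMap_apply O L K o,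
    ← map_mul, mul_comm, hs]

theorem exists_latticeS (har : Arith O) (g : Matrix (Fin m) (Fin m) K) :
    ∃ X1 X2 Y1 Y2 : Matrix (Fin m) (Fin m) O, Y1 * X1 + Y2 * X2 = 1 ∧
      X2.map (algebraMap O K) = g * X1.map (algebraMap O K) ∧
      (X1.map (algebraMap O K)).det ≠ 0 := by
  choose ρ hρ using valas_loc har g
  choose Y hY using fun (i : Fin m) (a : Fin m ⊕ Fin m) =>
    sl_crt' (Z := O) fun N => if ρ N i = a then 1 else 0
  obtain ⟨Y1, hY1⟩ : ∃ Y1 : Matrix (Fin m) (Fin m) O, Y1 = of fun i a => Y i (Sum.inl a) := ⟨_, rfl⟩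
  obtain ⟨Y2, hY2⟩ : ∃ Y2 : Matrix (Fin m) (Fin m) O, Y2 = of fun i a => Y i (Sum.inr a) := ⟨_, rfl⟩
  have h := fun N => hρ N Y1 Y2 fun i a => by
    have e : fromCols Y1 Y2 i a = Y i a := by cases a <;> simp [hY1, hY2]
    rw [e]
    exact hY i a N
  set A := Y1.map (algebraMap O K) + Y2.map (algebraMap O K) * g with hA
  obtain ⟨n, hn⟩ := Ideal.exists_maximal O
  have hu : IsUnit A.det := (h ⟨n, hn⟩).1.isUnit
  have h2 : ∀ a j, ∃ o : O, algebraMap O K o =
      (fromRows (1 : Matrix (Fin m) (Fin m) K) g * A⁻¹) a j := fun a j => by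
    have e : (LinearMap.range (Algebra.linearMap O K)).colon
        {(fromRows (1 : Matrix (Fin m) (Fin m) K) g * A⁻¹) a j} = ⊤ :=
      sl_top fun N => by
        obtain ⟨s, hs, o, ho⟩ := (h N).2 a j
        exact ⟨s, Submodule.mem_colon_singleton.2 ⟨o, by rw [Algebra.smul_def, ho]; rfl⟩, hs⟩
    obtain ⟨o, ho⟩ := Submodule.mem_colon_singleton.1 (e ▸ Submodule.mem_top : (1 : O) ∈ _)
    exact ⟨o, by rw [one_smul] at ho; exact ho⟩
  choose X hX using h2
  have h6 : (Matrix.of fun a => X (Sum.inl a)).map (algebraMap O K) = A⁻¹ := by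
    ext a j
    simp [hX, fromRows_mul]
  have h7 : (Matrix.of fun a => X (Sum.inr a)).map (algebraMap O K) = g * A⁻¹ := by
    ext a j
    simp [hX, fromRows_mul]
  refine ⟨Matrix.of fun a => X (Sum.inl a), Matrix.of fun a => X (Sum.inr a), Y1, Y2, ?_, ?_, ?_⟩
  · apply Matrix.map_injective (IsFractionRing.injective O K)
    change Matrix.map _ _ = Matrix.map _ _
    rw [Matrix.map_add _ (map_add _), Matrix.map_mul, Matrix.map_mul, h6, h7,
      Matrix.map_one _ (map_zero _) (map_one _), ← Matrix.mul_assoc, ← Matrix.add_mul,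
      mul_nonsing_inv _ hu]
  · rw [h6, h7]
  · rw [h6]
    exact (isUnit_nonsing_inv_det _ hu).ne_zero

theorem iso_of_fracS (har : Arith O) {Q Q' : Matrix (Fin m) (Fin m) O} (hQ : Unim Q)
    (hQ' : Unim Q') (h : Iso (Q.map (algebraMap O K)) (Q'.map (algebraMap O K))) : Iso Q Q' := by
  rcases Nat.eq_zero_or_pos m with rfl | hm
  · exact iso_of_linearMap LinearMap.id fun x => by simp [qv]
  obtain ⟨v0, hv0⟩ := exists_isUnit_qvS hQ hm
  obtain ⟨g, hg⟩ := h
  obtain ⟨X1, X2, Y1, Y2, h1, h2, h3⟩ := exists_latticeS har g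
  obtain ⟨φ, hφ, hB⟩ := vala_form Q Q'
  choose d hd using hQ.exists_bv_eq
  choose d' hd' using hQ'.exists_bv_eq
  have inj := IsFractionRing.injective O K
  have hc : ∀ (A : Matrix (Fin m) (Fin m) O) (x : Fin m → O), algebraMap O K ∘ (A *ᵥ x) =
      A.map (algebraMap O K) *ᵥ (algebraMap O K ∘ x) := fun A x =>
    funext fun i => RingHom.map_mulVec _ A x i
  have h4 : ∀ x, algebraMap O K ∘ (X2 *ᵥ x) = g *ᵥ (algebraMap O K ∘ (X1 *ᵥ x)) := fun x => by
    rw [hc, hc, h2, mulVec_mulVec]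
  have hs : ∀ (P : Matrix (Fin m) (Fin m) O) (c : Fin m → Fin m → O), (∀ i x, bv P x (c i) = x i) →
      ∀ (y x : Fin m → O), bv P x (∑ a, y a • c a) = ∑ a, y a * x a := fun P c hc y x => by
    rw [bv, mulVec_sum, dotProduct_sum]
    refine Finset.sum_congr rfl fun a _ => ?_
    change bv _ _ _ = _
    rw [bv_smul_right, hc]
  obtain ⟨σ, hσ, he⟩ := frames_conjS φ (fun j => (0, Pi.single j 1, Pi.single j 1))
    (fun j => (0, 0, d' j)) (fun j => (X1 *ᵥ Pi.single j 1, X2 *ᵥ Pi.single j 1, 0))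
    (fun j => (∑ a, Y1 j a • d a, -∑ a, Y2 j a • d' a, 0))
    (fun i => by simp [hφ, qv_zero]) (fun i j => by simp [hB, bv_zero_left])
    (fun i j => by simp [hB, bv_zero_right, hd', Pi.single_apply, eq_comm])
    (fun i => inj (by simp only [hφ, map_add, map_sub, ← qv_map, h4, hg _]; simp [qv_zero]))
    (fun i j => inj (by
      simp only [hB, map_sub, bv_zero_left, ← bv_map, h4, hg.bv, sub_self, add_zero]
      simp))
    (fun i j => by
      have h5 := congrFun (congrFun h1 j) i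
      rw [Matrix.add_apply, mul_apply, mul_apply, one_apply] at h5
      rw [hB, bv_neg_right, hs Q d hd, hs Q' d' hd', bv_zero_left]
      simpa [eq_comm] using h5)
    (w := (v0, 0, 0)) (by simpa [hφ, qv_zero] using hv0)
    (fun i => by simp [hB, bv_zero_left, bv_zero_right])
  refine iso_of_linearMap ((LinearMap.snd O _ _).comp ((LinearMap.snd O _ _).comp
    (σ.comp (LinearMap.inl O _ _)))) fun x => ?_
  change qv Q' (σ (x, 0)).2.2 = _
  have h6 := hσ (x, 0)
  have h7 : ∀ j, bv Q (σ (x, 0)).1 (X1 *ᵥ Pi.single j 1) =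
      bv Q' (σ (x, 0)).2.1 (X2 *ᵥ Pi.single j 1) := fun j => by
    have h8 : QuadraticMap.polar φ (σ (x, 0)) (σ (0, Pi.single j 1, Pi.single j 1)) =
        QuadraticMap.polar φ (x, 0) (0, Pi.single j 1, Pi.single j 1) := by
      simp only [QuadraticMap.polar, ← map_add, hσ]
    rw [he, hB, hB] at h8
    simpa [bv_zero_left, bv_zero_right, sub_eq_zero] using h8
  generalize σ (x, 0) = y at h6 h7 ⊢
  have hu : IsUnit (X2.map (algebraMap O K)).det := by
    rw [h2, det_mul]
    exact (hg.isUnit_det (hQ.map _)).mul h3.isUnit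
  have h9 : g *ᵥ (algebraMap O K ∘ y.1) - algebraMap O K ∘ y.2.1 = 0 := by
    refine (hQ'.map (algebraMap O K)).eq_zero fun z => ?_
    have hz : z = ∑ j, ((X2.map (algebraMap O K))⁻¹ *ᵥ z) j •
        algebraMap O K ∘ (X2 *ᵥ Pi.single j 1) := by
      nth_rewrite 1 [← one_mulVec z, ← mul_nonsing_inv _ hu, ← mulVec_mulVec]
      ext i
      simp [mulVec, dotProduct, mul_comm]
    rw [hz, bv, mulVec_sum, dotProduct_sum]
    refine Finset.sum_eq_zero fun j _ => ?_
    change bv _ _ _ = 0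
    rw [bv_smul_right, bv_sub_left, bv_map, ← h7, h4, hg.bv, bv_map, sub_self, mul_zero]
  have h10 : qv Q y.1 = qv Q' y.2.1 :=
    inj (by rw [← qv_map, ← qv_map, ← sub_eq_zero.1 h9, hg])
  rw [hφ, hφ, h10] at h6
  simpa [qv_zero] using h6

end Pool.Agent.GW
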