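import Pool.Agent.P.MP_c1f06d_ag.BNormInd
import Pool.Agent.P.MP_c1f06d_ag.w.Smq

open Matrix Polynomial

universe u

namespace Pool.Agent.GW

open Pool.Agent.P.MP_c1f06d_ag

attribute [local instance] Ideal.Quotient.field

variable {m : ℕ}

theorem valbs_move {k : Type*} [Field k] {Q : Matrix (Fin m) (Fin m) k} (hQ : Smq Q) (hm : 5 ≤ m)
    {v z : Fin m → k} (hv : v ≠ 0) (hz : z ≠ 0) :
    ∃ y, qv Q y ≠ 0 ∧ (qv Q v = 0 → qv Q z = 0 → bv Q (refl Q y v) z ≠ 0) := by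
  by_cases h : qv Q v = 0 ∧ qv Q z = 0 ∧ bv Q v z = 0
  · obtain ⟨y, h1, h2, h3⟩ := hQ.exists_three_ne_zero hm (hQ.good_of_qv_eq_zero hv h.1)
      (hQ.good_of_qv_eq_zero hz h.2.1)
    refine ⟨y, h1, fun _ _ => ?_⟩
    rw [bv_refl_left, h.2.2, zero_sub, neg_ne_zero, bv_comm Q y, Ring.inverse_eq_inv']
    exact mul_ne_zero (mul_ne_zero h2 (inv_ne_zero h1)) h3
  · obtain ⟨y, h1, -, h2⟩ := hQ.exists_qv_ne_zero_perp hm v v 0
    rw [zero_add] at h2
    refine ⟨y, h2, fun a b e => h ⟨a, b, ?_⟩⟩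
    rwa [refl_of_bv_eq_zero (by rw [bv_comm, h1])] at e

theorem valbs_quad {k : Type*} [Field k] [Infinite k] {A B D : k} (h : A = 0 → D = 0 → B ≠ 0) :
    ∃ t, t ^ 2 * A + D + t * B ≠ 0 := by
  classical
  by_contra! hn
  obtain ⟨t, ht⟩ := Infinite.exists_notMem_finset ({0, 1} : Finset k)
  rw [Finset.mem_insert, Finset.mem_singleton, not_or] at ht
  have e : t * (t - 1) * A = 0 := by linear_combination hn t - t * hn 1 + (t - 1) * hn 0
  have hA := (mul_eq_zero.1 e).resolve_left (mul_ne_zero ht.1 (sub_ne_zero.2 ht.2))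
  exact h hA (by linear_combination hn 0) (by linear_combination hn 1 - hn 0 - hA)

variable {O K : Type*} [CommRing O] [Finite (MaximalSpectrum O)]

omit [Finite (MaximalSpectrum O)] in
theorem valbs_dvd {g x : O} (h : ∀ N : MaximalSpectrum O, ∃ s, s ∉ N.asIdeal ∧ g ∣ s * x) :
    g ∣ x := by
  have e : (Ideal.span {g}).colon {x} = ⊤ := sl_top fun N =>
    let ⟨s, hs, h1⟩ := h N
    ⟨s, Submodule.mem_colon_singleton.2 (Ideal.mem_span_singleton.2 h1), hs⟩
  simpa [Ideal.mem_span_singleton] using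
    Submodule.mem_colon_singleton.1 (e ▸ Submodule.mem_top : (1 : O) ∈ (Ideal.span {g}).colon {x})

theorem valbs_bezout (har : Arith O) : IsBezout O := by
  classical
  refine IsBezout.iff_span_pair_isPrincipal.2 fun x y => ?_
  have aux : ∀ (N : MaximalSpectrum O) (x y e : O), rf N e = 0 → (∃ s, s ∉ N.asIdeal ∧ y ∣ s * x) →
      ∃ s, s ∉ N.asIdeal ∧ e * x + (1 - e) * y ∣ s * x ∧ e * x + (1 - e) * y ∣ s * y := by
    rintro N x y e he ⟨s, hs, c, hc⟩
    have h1 : e * x + (1 - e) * y ∣ (e * c + (1 - e) * s) * y :=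
      ⟨s, by linear_combination (-e) * hc⟩
    refine ⟨(e * c + (1 - e) * s) * s, fun h => hs (rf_eq_zero.1 ?_), ?_, ?_⟩
    · simpa [he] using rf_eq_zero.2 h
    · rw [mul_assoc, hc, ← mul_assoc]
      exact h1.mul_right _
    · rw [mul_right_comm]
      exact h1.mul_right _
  obtain ⟨e, he⟩ := sl_crt (Z := O) fun N => if ∃ s, s ∉ N.asIdeal ∧ y ∣ s * x then 0 else 1
  have key : ∀ N : MaximalSpectrum O,
      ∃ s, s ∉ N.asIdeal ∧ e * x + (1 - e) * y ∣ s * x ∧ e * x + (1 - e) * y ∣ s * y := fun N => by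
    by_cases h : ∃ s, s ∉ N.asIdeal ∧ y ∣ s * x
    · exact aux N x y e (by rw [he, if_pos h]) h
    · obtain ⟨s, hs, h1⟩ := har.at N x y
      obtain ⟨t, ht, h2, h3⟩ := aux N y x (1 - e) (by rw [map_sub, he, if_neg h, map_one, sub_self])
        ⟨s, hs, h1.resolve_left fun h1 => h ⟨s, hs, h1⟩⟩
      rw [sub_sub_cancel, add_comm] at h2 h3
      exact ⟨t, ht, h3, h2⟩
  refine ⟨⟨e * x + (1 - e) * y, le_antisymm (Ideal.span_le.2 ?_) (Ideal.span_le.2 ?_)⟩⟩
  · rintro _ (rfl | rfl)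
    · exact Ideal.mem_span_singleton.2 (valbs_dvd fun N => (key N).imp fun _ h => ⟨h.1, h.2.1⟩)
    · exact Ideal.mem_span_singleton.2 (valbs_dvd fun N => (key N).imp fun _ h => ⟨h.1, h.2.2⟩)
  · rintro _ rfl
    exact Ideal.mem_span_pair.2 ⟨_, _, rfl⟩

omit [Finite (MaximalSpectrum O)] in
theorem valbs_ne {w c : Fin m → O} (h : c ⬝ᵥ w = 1) (N : MaximalSpectrum O) : rf N ∘ w ≠ 0 :=
  fun e => by
    have := RingHom.map_dotProduct (rf N) c w
    rw [h, e, dotProduct_zero, map_one] at this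
    exact one_ne_zero this

variable {Q : Matrix (Fin m) (Fin m) O}

theorem valbs_step (hinf : ResInf O) (hQ : Smq Q) (hm : 5 ≤ m) {v0 z v c c' : Fin m → O}
    (h0 : IsUnit (qv Q v0)) (hz : c ⬝ᵥ z = 1) (hv : c' ⬝ᵥ v = 1) :
    ∃ z' s, IsUnit s ∧ Sn Q s ∧ qv Q z * qv Q v * qv Q v0 = qv Q z' * s := by
  obtain ⟨y, hy⟩ := sl_exists _ fun N =>
    valbs_move (hQ.map (rf N)) hm (valbs_ne hv N) (valbs_ne hz N)
  have u1 : IsUnit (qv Q y) := sl_unit_iff.2 fun N => qv_map Q (rf N) y ▸ (hy N).1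
  have ht : ∀ N : MaximalSpectrum O, ∃ t,
      t ^ 2 * rf N (qv Q v) + rf N (qv Q z) + t * rf N (bv Q (refl Q y v) z) ≠ 0 := fun N => by
    have := hinf N
    have h := (hy N).2
    rw [← refl_map _ u1, qv_map, qv_map, bv_map] at h
    exact valbs_quad h
  choose t ht using ht
  obtain ⟨x, hx⟩ := sl_crt t
  obtain ⟨d, hd⟩ : IsUnit (qv Q (x • refl Q y v + z)) := sl_unit_iff.2 fun N => by
    rw [qv_add, qv_smul, bv_smul_left, qv_refl u1]
    simpa only [map_add, map_mul, map_pow, hx] using ht N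
  have hi := d.inv_mul
  refine ⟨(x * bv Q (refl Q y v) z + qv Q z) • refl Q y v - (x * qv Q (refl Q y v)) • z, _,
    h0.mul d⁻¹.isUnit, ?_, ?_⟩
  · have := sn_two (Q := Q) v0 ((↑d⁻¹ : O) • (x • refl Q y v + z))
    rwa [qv_smul, ← hd, sq, mul_assoc, hi, mul_one] at this
  · rw [btrick Q (refl Q y v) z x, ← hd, qv_refl u1]
    linear_combination (-(qv Q z * qv Q v * qv Q v0)) * hi

theorem valbs_rep (hQ : Smq Q) {w c : Fin m → O} (hw : c ⬝ᵥ w = 1) {a e : O} (he : IsUnit e)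
    (h : qv Q w = a ^ 2 * e) : ∃ z b, IsUnit b ∧ qv Q z = b ^ 2 * e := by
  obtain ⟨y, hy⟩ := sl_exists (fun N y => (rf N a ≠ 0 → y = 0) ∧
      (rf N a = 0 → bv (Q.map (rf N)) (rf N ∘ w) y = 1)) fun N => by
    by_cases ha : rf N a = 0
    · obtain ⟨y, hy⟩ := (hQ.map (rf N)).good_of_qv_eq_zero (valbs_ne hw N)
        (by rw [qv_map, h, map_mul, map_pow, ha]; ring)
      exact ⟨y, fun e => (e ha).elim, fun _ => hy⟩
    · exact ⟨0, fun _ => rfl, fun e => (ha e).elim⟩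
  refine ⟨(qv Q y - e) • w - (bv Q w y - 2 * e * a) • y, a * qv Q y + e * a - bv Q w y,
    sl_unit_iff.2 fun N => ?_, ?_⟩
  · rw [map_sub, map_add, map_mul, map_mul, ← qv_map, ← bv_map]
    by_cases ha : rf N a = 0
    · rw [(hy N).2 ha, ha]
      simp
    · rw [(hy N).1 ha, qv_zero, bv_zero_right, mul_zero, zero_add, sub_zero]
      exact mul_ne_zero (sl_unit_iff.1 he N) ha
  · rw [qv_sub, qv_smul, qv_smul, bv_smul_left, bv_smul_right, h]
    ring

variable [IsDomain O] [Field K] [Algebra O K] [IsFractionRing O K]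

theorem valbs_prim (har : Arith O) {v : Fin m → K} (hv : v ≠ 0) :
    ∃ (k : K) (w c : Fin m → O), c ⬝ᵥ w = 1 ∧ v = k • (algebraMap O K ∘ w) := by
  have := valbs_bezout har
  obtain ⟨b, hb⟩ := IsLocalization.exist_integer_multiples_of_finite (nonZeroDivisors O) v
  choose w0 hw0 using hb
  have hb0 : algebraMap O K b ≠ 0 := IsFractionRing.to_map_ne_zero_of_mem_nonZeroDivisors b.2
  obtain ⟨g, hg⟩ := (IsBezout.isPrincipal_of_FG (Ideal.span (Set.range w0))
    (Submodule.fg_span (Set.finite_range _))).principal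
  have h1 : ∀ j, ∃ c, c * g = w0 j := fun j => Ideal.mem_span_singleton'.1
    (show w0 j ∈ Submodule.span O {g} from hg ▸ Ideal.subset_span ⟨j, rfl⟩)
  choose w hw using h1
  obtain ⟨c, hc⟩ := Ideal.mem_span_range_iff_exists_fun.1
    (show g ∈ Ideal.span (Set.range w0) from hg ▸ Submodule.mem_span_singleton_self g)
  have e : v = (algebraMap O K g / algebraMap O K b) • (algebraMap O K ∘ w) := funext fun j => by
    have := hw0 j
    rw [← hw, map_mul, Algebra.smul_def] at this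
    rw [Pi.smul_apply, Function.comp_apply, smul_eq_mul, div_mul_eq_mul_div, eq_div_iff hb0]
    linear_combination -this
  refine ⟨_, w, c, mul_right_cancel₀ (b := g) (fun h => hv ?_) ?_, e⟩
  · rw [e, h, map_zero, zero_div, zero_smul]
  · rw [one_mul, dotProduct, Finset.sum_mul]
    conv_rhs => rw [← hc]
    exact Finset.sum_congr rfl fun j _ => by rw [mul_assoc, hw]

theorem valbs_list (har : Arith O) (hinf : ResInf O) (hQ : Smq Q) (hm : 5 ≤ m) {v0 : Fin m → O}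
    (h0 : IsUnit (qv Q v0)) (l : List (Fin m → K))
    (hl : (l.map (qv (Q.map (algebraMap O K)))).prod ≠ 0) :
    ∃ z s, IsUnit s ∧ Sn Q s ∧ algebraMap O K (qv Q v0) ^ (l.length + 1) *
      (l.map (qv (Q.map (algebraMap O K)))).prod =
        qv (Q.map (algebraMap O K)) z * algebraMap O K s := by
  induction l with
  | nil => exact ⟨algebraMap O K ∘ v0, 1, isUnit_one, sn_one, by simp [qv_map]⟩
  | cons v l ih =>
    rw [List.map_cons, List.prod_cons] at hl ⊢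
    obtain ⟨z, s, h1, h2, h3⟩ := ih (right_ne_zero_of_mul hl)
    obtain ⟨k, w, c, hw, rfl⟩ := valbs_prim har (v := z) fun h => by
      rw [h, qv_zero, zero_mul] at h3
      exact mul_ne_zero (pow_ne_zero _ (h0.map _).ne_zero) (right_ne_zero_of_mul hl) h3
    obtain ⟨k', w', c', hw', rfl⟩ := valbs_prim har (v := v) fun h => by
      rw [h, qv_zero, zero_mul] at hl
      exact hl rfl
    obtain ⟨z', s', h4, h5, h6⟩ := valbs_step hinf hQ hm h0 hw hw'
    refine ⟨(k * k') • (algebraMap O K ∘ z'), s * s', h1.mul h4, h2.mul h5, ?_⟩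
    have h7 := congrArg (algebraMap O K) h6
    simp only [qv_smul, qv_map, map_mul, List.length_cons] at h3 h7 ⊢
    linear_combination (k' ^ 2 * algebraMap O K (qv Q w') * algebraMap O K (qv Q v0)) * h3 +
      (k * k') ^ 2 * algebraMap O K s * h7

theorem valbs_sq (har : Arith O) {k : K} {e x : O} (he : IsUnit e)
    (h : algebraMap O K e = k ^ 2 * algebraMap O K x) : ∃ c, x = c ^ 2 * e := by
  obtain ⟨k', w, c, hw, e1⟩ := valbs_prim har (v := ![k, 1]) fun h => one_ne_zero (congrFun h 1)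
  have e2 : k = k' * algebraMap O K (w 0) := congrFun e1 0
  have e3 : 1 = k' * algebraMap O K (w 1) := congrFun e1 1
  have e4 : w 1 ^ 2 * e = w 0 ^ 2 * x := IsFractionRing.injective O K (by
    rw [map_mul, map_mul, map_pow, map_pow, h, e2]
    linear_combination (-(algebraMap O K (w 0) ^ 2 * algebraMap O K x) *
      (1 + k' * algebraMap O K (w 1))) * e3)
  have hc : IsCoprime (w 0) (w 1) := ⟨c 0, c 1, by simpa [dotProduct, Fin.sum_univ_two] using hw⟩
  obtain ⟨u, hu⟩ : IsUnit (w 0) := isUnit_of_dvd_unit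
    ((hc.pow_right (n := 2)).dvd_of_dvd_mul_left ⟨w 0 * x, by rw [e4]; ring⟩) he
  refine ⟨↑u⁻¹ * w 1, ?_⟩
  rw [mul_pow, mul_assoc, e4, ← hu, ← mul_assoc, ← mul_pow, u.inv_mul, one_pow, one_mul]

theorem sn_of_fracS (har : Arith O) (hinf : ResInf O) {Q : Matrix (Fin m) (Fin m) O} (hQ : Smq Q)
    (hm : 5 ≤ m) {a : O} (ha : IsUnit a) (h : Sn (Q.map (algebraMap O K)) (algebraMap O K a)) :
    Sn Q a := by
  obtain ⟨v0, h0, -⟩ := hQ.exists_good (le_trans (by norm_num) hm)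
  obtain ⟨l, ⟨r, hr⟩, hl⟩ := h
  obtain ⟨z, s, ⟨s, rfl⟩, h2, h3⟩ := valbs_list har hinf hQ hm h0 l (hl ▸ (ha.map _).ne_zero)
  rw [← hl, hr] at h3
  have he : IsUnit (qv Q v0 ^ (r + r + 1) * a * ↑s⁻¹) := ((h0.pow _).mul ha).mul s⁻¹.isUnit
  have hs : algebraMap O K ↑s * algebraMap O K ↑s⁻¹ = 1 := by rw [← map_mul, s.mul_inv, map_one]
  have h4 : algebraMap O K (qv Q v0 ^ (r + r + 1) * a * ↑s⁻¹) = qv (Q.map (algebraMap O K)) z := by
    rw [map_mul, map_mul, map_pow, h3, mul_assoc, hs, mul_one]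
  obtain ⟨k, w, c, hw, rfl⟩ := valbs_prim har (v := z) fun h => by
    rw [h, qv_zero] at h4
    exact (he.map _).ne_zero h4
  rw [qv_smul, qv_map] at h4
  obtain ⟨c, hc⟩ := valbs_sq har he h4
  obtain ⟨z, b, hb, hz⟩ := valbs_rep hQ hw he hc
  refine Sn.cancel h0 (sn_sq h0 (qv Q v0 ^ (r + 1) * b)) (((h0.pow _).mul hb).pow 2) ?_
  have h5 := (sn_two (Q := Q) z v0).mul h2
  rwa [hz, show b ^ 2 * (qv Q v0 ^ (r + r + 1) * a * ↑s⁻¹) * qv Q v0 * ↑s =
    a * (qv Q v0 ^ (r + 1) * b) ^ 2 * (↑s⁻¹ * ↑s) by ring, s.inv_mul, mul_one] at h5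

end Pool.Agent.GW
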