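import Pool.Agent.P.MP_c1f06d_ag.w.GeoZ
import Pool.Agent.P.MP_c1f06d_ag.w.ValAS
import Pool.Agent.P.MP_c1f06d_ag.w.ValBS
import Pool.Agent.P.MP_c1f06d_ag.w.NormValS
import Pool.Agent.P.MP_c1f06d_ag.w.NFS

open Matrix Polynomial

universe u

namespace Pool.Agent.GW

open Pool.Agent.P.MP_c1f06d_ag Pool.Agent.SU

theorem near_iso {Z B : Type u} [CommRing Z] [CommRing B] {ρ : B →+* Z} {m : ℕ}
    {Q : Matrix (Fin m) (Fin m) B} (hU : Unim (Q.map ρ)) :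
    NearS (fun _ _ i ψ => Iso ((Q.map ρ).map i) (Q.map ψ) ∧ Iso (Q.map ψ) ((Q.map ρ).map i) : Pr Z B)
      ρ := fun A _ i ψ σ hi hψ => by
  have k1 : ((Q.map ρ).map i).map σ = Q.map ρ := by rw [map_comp_ringHom (Q.map ρ), hi]; rfl
  have k2 : (Q.map ψ).map σ = Q.map ρ := by rw [map_comp_ringHom, hψ]
  obtain ⟨A1, _, f, σ1, h1, h2, h3⟩ := exists_etale_iso σ ((Q.map ρ).map i) (Q.map ψ)
    (k1.trans k2.symm) (k1.symm ▸ hU)
  exact ⟨A1, inferInstance, f, σ1, etale_smooth h1, h2, h3, h3.symm ((hU.map i).map f)⟩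

theorem near_sn {Z B : Type u} [CommRing Z] [CommRing B] {ρ : B →+* Z} {m : ℕ}
    {Q : Matrix (Fin m) (Fin m) Z} (hU : Unim Q) {v : Fin m → Z} (hv : IsUnit (qv Q v)) {a : B}
    (ha : IsUnit (ρ a)) :
    NearS (fun _ _ i ψ => ∃ r, Sn (Q.map i) r ∧ i (ρ a) = r * ψ a : Pr Z B) ρ :=
  fun A _ i ψ σ hi hψ => by
    have k1 : σ (i (ρ a)) = ρ a := RingHom.congr_fun hi _
    have k2 : σ (ψ a) = ρ a := RingHom.congr_fun hψ _
    obtain ⟨A1, _, f, σ1, r, h1, h2, h3⟩ := exists_etale_sn σ i hi Q hU hv (i (ρ a)) (ψ a)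
      (k1.trans k2.symm) (k1.symm ▸ ha)
    exact ⟨A1, inferInstance, f, σ1, etale_smooth h1, h2, r, h3⟩

variable {Z K : Type u} [CommRing Z] [IsDomain Z] [Finite (MaximalSpectrum Z)] [Field K]
  [Algebra Z K] {m : ℕ}

omit [IsDomain Z] in
theorem Geo.iso (hc : Geo Z K) {Q Q' : Matrix (Fin m) (Fin m) Z} (hQ : Unim Q) (hQ' : Unim Q')
    (hi : Iso (Q.map (algebraMap Z K)) (Q'.map (algebraMap Z K))) : Iso Q Q' := by
  obtain ⟨B, _, ρ, O, _, _, _, _, _, _, _, -, har, h⟩ := hc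
  obtain ⟨Q0, s, hs, e⟩ := h.lp.exists_mat Q
  obtain ⟨Q0', s', hs', e'⟩ := h.lp.exists_mat Q'
  have hU : Unim (Q0.map ρ) := e ▸ hQ.smul (hs.pow 2)
  have hU' : Unim (Q0'.map ρ) := e' ▸ hQ'.smul (hs'.pow 2)
  have i1 : Iso (Q0.map ρ) Q := e ▸ iso_sq_smul Q s
  have i2 : Iso (Q0'.map ρ) Q' := e' ▸ iso_sq_smul Q' s'
  have hO : Iso ((Q0.map ρ).map (algebraMap Z O)) ((Q0'.map ρ).map (algebraMap Z O)) := by
    refine iso_of_fracS (K := K) har (hU.map _) (hU'.map _) ?_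
    rw [map_comp_ringHom (Q0.map ρ), map_comp_ringHom (Q0'.map ρ), ← IsScalarTower.algebraMap_eq]
    exact ((i1.map _).trans hi).trans ((i2.symm hU').map _)
  obtain ⟨F, hF, hsp⟩ := h.lpO.spread_iso (Q := Q0) (Q' := Q0') hO
  obtain ⟨P, k, ψ, hP, hk, hψ, h1, h2⟩ := h.geo 2 two_pos _
    (fun _ _ _ _ χ _ _ hw => ⟨⟨hw.1.1.map χ, hw.1.2.map χ⟩, hw.2.1.map χ, hw.2.2.map χ⟩)
    ((near_iso hU).and (fun _ _ _ _ χ _ _ hw => ⟨hw.1.map χ, hw.2.map χ⟩) (near_iso hU')) F hF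
  exact ((i1.symm hU).trans (iso_of_adjoinRootS hU hU' hP ⟨k, hk⟩
    ((h1.1.trans (hsp _ ψ (map_zero _) hψ)).trans h2.2))).trans i2

/-- The spinor norm statement for the forms `Φ Q` with `Q` unimodular. -/
theorem Geo.sn_shape (hinf : ResInf Z) (hc : Geo Z K) {n : ℕ}
    (Φ : ∀ {T : Type u} [CommRing T], Matrix (Fin n) (Fin n) T → Matrix (Fin m) (Fin m) T)
    (hmap : ∀ {T T' : Type u} [CommRing T] [CommRing T'] (Q : Matrix (Fin n) (Fin n) T)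
      (f : T →+* T'), (Φ Q).map f = Φ (Q.map f))
    (hiso : ∀ {T : Type u} [CommRing T] {Q Q' : Matrix (Fin n) (Fin n) T},
      Iso Q Q' → Iso (Φ Q) (Φ Q'))
    (hsn : ∀ {T : Type u} [CommRing T] {Q : Matrix (Fin n) (Fin n) T} {a : T},
      Sn Q a → Sn (Φ Q) a)
    (hsm : ∀ {T : Type u} [CommRing T] {Q : Matrix (Fin n) (Fin n) T}, Unim Q → Smq (Φ Q))
    {Q : Matrix (Fin n) (Fin n) Z} (hQ : Unim Q) (hn : 1 ≤ n) (hm : 5 ≤ m) {a : Z} (ha : IsUnit a)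
    (hs : Sn (Φ (Q.map (algebraMap Z K))) (algebraMap Z K a)) : Sn (Φ Q) a := by
  obtain ⟨B, _, ρ, O, _, _, _, _, _, _, _, hio, har, h⟩ := hc
  obtain ⟨Q0, s, hs0, e⟩ := h.lp.exists_mat Q
  obtain ⟨a0, t, ht, ea⟩ := h.lp.exists_sq a
  have hU : Unim (Q0.map ρ) := e ▸ hQ.smul (hs0.pow 2)
  have i1 : Iso (Q0.map ρ) Q := e ▸ iso_sq_smul Q s
  have hau : IsUnit (ρ a0) := ea ▸ (ht.pow 2).mul ha
  obtain ⟨v0, h0⟩ := exists_isUnit_qvS hU hn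
  have hO : Sn ((Φ Q0).map ((algebraMap Z O).comp ρ)) (((algebraMap Z O).comp ρ) a0) := by
    rw [hmap, ← map_comp_ringHom, RingHom.comp_apply]
    refine sn_of_fracS (K := K) har hio (hsm (hU.map _)) hm (hau.map _) ?_
    rw [hmap, map_comp_ringHom (Q0.map ρ), ← IsScalarTower.algebraMap_eq,
      ← IsScalarTower.algebraMap_apply, ea, map_mul]
    exact (hsn ((sn_sq h0 t).map _)).mul (hs.of_iso (hiso ((i1.symm hU).map _)))
  obtain ⟨F, hF, hsp⟩ := h.lpO.spread_sn hO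
  obtain ⟨P, k, ψ, hP, hk, hψ, h1, r, h2, h3⟩ := h.geo 2 two_pos _
    (fun _ _ _ _ χ _ _ ⟨w1, r, w2, w3⟩ => ⟨⟨w1.1.map χ, w1.2.map χ⟩, χ r, w2.map χ,
      (congrArg χ w3).trans (map_mul χ _ _)⟩)
    ((near_iso hU).and (fun _ _ _ _ χ _ _ hw => ⟨hw.1.map χ, hw.2.map χ⟩) (near_sn hU h0 hau)) F hF
  have hS : Sn ((Φ (Q0.map ρ)).map (AdjoinRoot.of P)) (AdjoinRoot.of P (ρ a0)) := by
    have h4 := hsp _ ψ (map_zero _) hψ
    rw [hmap] at h4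
    rw [h3, hmap]
    exact (hsn h2).mul (h4.of_iso (hiso h1.2))
  have hR := ((hsm hU).sn_of_adjoinRoot_inf hm hinf hP ⟨k, hk⟩ hau hS).of_iso (hiso i1)
  obtain ⟨v1, h5, -⟩ := (hsm hQ).exists_good (by omega)
  refine Sn.cancel h5 (sn_sq h5 t) (ht.pow 2) ?_
  rwa [mul_comm, ← ea]

theorem Geo.sn (hinf : ResInf Z) (hc : Geo Z K) {Q : Matrix (Fin m) (Fin m) Z}
    (hQ : Smq Q) (hm : 5 ≤ m) {a : Z} (ha : IsUnit a)
    (hs : Sn (Q.map (algebraMap Z K)) (algebraMap Z K a)) : Sn Q a := by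
  rcases hQ with hQ | ⟨r, ρ, hQ⟩
  · exact hc.sn_shape hinf (fun Q => Q) (fun _ _ => rfl) id id .inl hQ (by omega) hm ha hs
  obtain ⟨n, rfl⟩ : ∃ n, m = n + 1 := ⟨m - 1, by omega⟩
  obtain ⟨Q0, u0, i1, i2⟩ := exists_ext1S hQ
  obtain ⟨c, hc'⟩ := hQ.unit.exists_left_inv
  have s1 := hs.of_iso (i2.map (algebraMap Z K))
  have e : (qv Q r • ext1 Q0).map (algebraMap Z K) =
      algebraMap Z K (qv Q r) • ext1 (Q0.map (algebraMap Z K)) := by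
    rw [← ext1_map]; ext; simp
  rw [e] at s1
  have s2 := hc.sn_shape hinf ext1 (fun _ f => ext1_map f) Iso.ext1 Sn.ext1
    (fun h => .inr ⟨_, _, h.semi_ext1⟩) u0 (by omega) hm ha (s1.of_smul (u0.map _).semi_ext1.unit)
  rw [← one_smul Z (ext1 Q0), ← hc', mul_smul] at s2
  refine (s2.of_smul (v0 := Fin.cons 1 0) ?_).of_iso i1
  rw [qv_smul_mat]
  exact hQ.unit.mul u0.semi_ext1.unit

theorem exists_odd_prime (n : ℕ) : ∃ l, n < l ∧ l.Prime ∧ Odd l :=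
  let ⟨l, h1, h2⟩ := Nat.exists_infinite_primes (n + 3)
  ⟨l, by omega, h2, h2.odd_of_ne_two (by omega)⟩

theorem iso_mainZ (hc : ResInf Z ∧ Geo Z K ∨ ResFin Z ∧ GeoX Z K)
    {Q Q' : Matrix (Fin m) (Fin m) Z} (hQ : Unim Q) (hQ' : Unim Q')
    (hi : Iso (Q.map (algebraMap Z K)) (Q'.map (algebraMap Z K))) : Iso Q Q' := by
  rcases hc with ⟨-, hc⟩ | ⟨hf, Z1, K1, _, _, _, _, _, _, ζ, κ, -, hc, hκ, lp, hζ⟩
  · exact hc.iso hQ hQ' hi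
  have h1 : Iso ((Q.map C).map ζ) ((Q'.map C).map ζ) := by
    refine hc.iso ((hQ.map _).map _) ((hQ'.map _).map _) ?_
    have h2 := hi.map κ
    rw [map_comp_ringHom, map_comp_ringHom, hκ] at h2
    exact h2
  obtain ⟨F, hF, hsp⟩ := lp.spread_iso h1
  obtain ⟨l, l1, -, l3⟩ := exists_odd_prime F.natDegree
  obtain ⟨P, hP, rfl, -, hu⟩ := hf.exists_irreducible F (hζ F hF) l l1
  exact iso_of_adjoinRootS hQ hQ' hP l3 (hsp _ (AdjoinRoot.mk P) (map_zero _) hu)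

theorem sn_mainZ (hc : ResInf Z ∧ Geo Z K ∨ ResFin Z ∧ GeoX Z K) {Q : Matrix (Fin m) (Fin m) Z}
    (hQ : Smq Q) (hm : 5 ≤ m) {a : Z} (ha : IsUnit a)
    (hs : Sn (Q.map (algebraMap Z K)) (algebraMap Z K a)) : Sn Q a := by
  rcases hc with ⟨hi, hc⟩ | ⟨hf, Z1, K1, _, _, _, _, _, _, ζ, κ, hi, hc, hκ, lp, hζ⟩
  · exact hc.sn hi hQ hm ha hs
  have h1 : Sn ((Q.map C).map ζ) (ζ (C a)) := by
    refine hc.sn hi ((hQ.map _).map _) hm ((ha.map _).map _) ?_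
    have h2 := hs.map κ
    rw [map_comp_ringHom, hκ, show κ (algebraMap Z K a) = _ from RingHom.congr_fun hκ a] at h2
    exact h2
  obtain ⟨F, hF, hsp⟩ := lp.spread_sn h1
  obtain ⟨l, l1, l2, l3⟩ := exists_odd_prime F.natDegree
  obtain ⟨P, hP, rfl, hirr, hu⟩ := hf.exists_irreducible F (hζ F hF) l l1
  exact hQ.sn_of_adjoinRoot_prime hm hf hP hirr l2 l3 ha (hsp _ (AdjoinRoot.mk P) (map_zero _) hu)

end Pool.Agent.GW
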