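import Pool.Agent.P.MP_c1f06d_ag.d.DWall

/-! Semilocal rings: gluing along the maximal ideals. -/

open Matrix Module Polynomial Pool.Agent.SU

universe u

namespace Pool.Agent.GSD

section
variable {Z V : Type*} [CommRing Z] [AddCommGroup V] [Module Z V]

theorem wnp_unit {x : Z} (h : ∀ N : MaximalSpectrum Z, x ∉ N.asIdeal) : IsUnit x := by
  by_contra hx
  obtain ⟨M, hM, h1⟩ := exists_max_ideal_of_mem_nonunits hx
  exact h ⟨M, hM⟩ h1

theorem wnp_one (N : MaximalSpectrum Z) {r : Z} (h : r - 1 ∈ N.asIdeal) : r ∉ N.asIdeal :=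
  fun h1 => (Ideal.ne_top_iff_one _).1 N.isMaximal.ne_top (by simpa using N.asIdeal.sub_mem h1 h)

theorem wnp_mem (p : Submodule Z V) {x : V}
    (h : ∀ N : MaximalSpectrum Z, ∃ r, r ∉ N.asIdeal ∧ r • x ∈ p) : x ∈ p := by
  by_contra hx
  obtain ⟨M, hM, h1⟩ := Ideal.exists_le_maximal (p.comap (LinearMap.toSpanSingleton Z V x))
    ((Ideal.ne_top_iff_one _).2 (by simpa using hx))
  obtain ⟨r, h2, h3⟩ := h ⟨M, hM⟩
  exact h2 (h1 h3)

theorem wnp_le {p q : Submodule Z V} (hq : q.FG)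
    (h : ∀ N : MaximalSpectrum Z, q ≤ p ⊔ N.asIdeal • q) : q ≤ p := fun x hx =>
  wnp_mem p fun N => by
    obtain ⟨r, h1, h2⟩ := Submodule.exists_sub_one_mem_and_smul_le_of_fg_of_le_sup hq le_rfl (h N)
    exact ⟨r, wnp_one N h1, h2 (Submodule.smul_mem_pointwise_smul x r q hx)⟩

variable [Finite (MaximalSpectrum Z)]

theorem wnp_e : ∃ e : MaximalSpectrum Z → Z,
    ∀ N, e N - 1 ∈ N.asIdeal ∧ ∀ M, M ≠ N → e N ∈ M.asIdeal := by
  classical
  choose e he using fun N : MaximalSpectrum Z => Ideal.exists_forall_sub_mem_ideal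
    (I := fun M : MaximalSpectrum Z => M.asIdeal) (fun _ _ h => MaximalSpectrum.isCoprime_of_ne h)
    fun M => if M = N then 1 else 0
  exact ⟨e, fun N => ⟨by simpa using he N N, fun M hM => by simpa [hM] using he N M⟩⟩

theorem wnp_glue (p : Submodule Z V) (x : MaximalSpectrum Z → V) (hx : ∀ N, x N ∈ p) :
    ∃ y ∈ p, ∀ N, y - x N ∈ N.asIdeal • (⊤ : Submodule Z V) := by
  classical
  have := Fintype.ofFinite (MaximalSpectrum Z)
  obtain ⟨e, he⟩ := wnp_e (Z := Z)
  refine ⟨∑ M, e M • x M, p.sum_mem fun M _ => p.smul_mem _ (hx M), fun N => ?_⟩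
  rw [← Finset.add_sum_erase _ _ (Finset.mem_univ N), add_sub_right_comm]
  refine add_mem ?_ (Submodule.sum_mem _ fun M hM => Submodule.smul_mem_smul
    ((he M).2 N (Finset.ne_of_mem_erase hM).symm) trivial)
  have h1 := Submodule.smul_mem_smul (he N).1 (Submodule.mem_top (x := x N))
  rwa [sub_smul, one_smul] at h1

end

theorem wnp_norm {R S : Type*} [CommRing R] [CommRing S] [Algebra R S] [Module.Free R S]
    [Module.Finite R S] {x : S} (h : IsUnit (Algebra.norm R x)) : IsUnit x := by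
  rw [Algebra.norm_apply, ← LinearMap.isUnit_iff_isUnit_det] at h
  exact Algebra.lmul_isUnit_iff.1 h

section
variable {T T' A A' : Type u} [CommRing T] [CommRing T'] [Ring A] [Ring A'] [Algebra T A]
  [Algebra T' A'] {f : T →+* T'} {j : A →+* A'}

theorem wnp_cong (h : Az T A) (a b : A) (e : T) : ∃ s, nrd T (a + e • b) = nrd T a + e * s := by
  have := h.finite
  have := h.free
  obtain ⟨p, h1, h2⟩ := h.exists_line a b
  have h3 := h2 T A _ _ BC.refl e
  rw [Polynomial.map_id, ← p.divX_mul_X_add, eval_add, eval_mul, eval_X, eval_C, h1] at h3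
  exact ⟨p.divX.eval e, h3.trans (by ring)⟩

theorem wnp_nrd (h : Az T A) (hj : BC f j) [Nontrivial T'] {a : A} (ha : IsUnit (j a)) :
    f (nrd T a) ≠ 0 := by
  rw [← h.nrd_map hj]
  exact ((h.map hj).isUnit_nrd_iff.2 ha).ne_zero

theorem wnp_isUnit (h : Az T A) {a : A} (ha : ∀ N : MaximalSpectrum T, nrd T a ∉ N.asIdeal) :
    IsUnit a := h.isUnit_nrd_iff.1 (wnp_unit ha)

end

end Pool.Agent.GSD
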