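import Pool.Agent.P.MP_c1f06d_ag.OddA

namespace Pool.Agent.P.MP_c1f06d_ag

open Matrix

section Simple
variable {D : Type*} [Ring D] [IsSemisimpleRing D]

theorem xo_art : IsArtinian Dᵐᵒᵖ D :=
  isArtinian_of_linearEquiv (MulOpposite.opLinearEquiv Dᵐᵒᵖ (M := D)).symm

theorem xo_noeth : IsNoetherian Dᵐᵒᵖ D :=
  isNoetherian_of_linearEquiv (MulOpposite.opLinearEquiv Dᵐᵒᵖ (M := D)).symm

theorem xo_isUnit_of_ker {a : D} (h : ∀ z, a * z = 0 → z = 0) : IsUnit a := by
  have := xo_art (D := D)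
  have hi : Function.Injective (LinearMap.mulLeft Dᵐᵒᵖ a) :=
    (injective_iff_map_eq_zero _).2 fun z hz => h z hz
  obtain ⟨b, hb⟩ := IsArtinian.surjective_of_injective_endomorphism _ hi 1
  have hb : a * b = 1 := hb
  refine ⟨⟨a, b, hb, ?_⟩, rfl⟩
  have := h (b * a - 1) (by rw [mul_sub, ← mul_assoc, hb, one_mul, mul_one, sub_self])
  exact sub_eq_zero.1 this

theorem xo_exists_ker_el {A s : D} (hk : ¬ ∀ z, A * z = 0 → z = 0) :
    ∃ z, A * z = 0 ∧ ∃ a, (1 - A * s) * a * z ≠ 0 := by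
  have := xo_noeth (D := D)
  by_contra hne
  push Not at hne
  let K : Submodule Dᵐᵒᵖ D :=
    { carrier := {v | ∀ a, (1 - A * s) * a * v = 0}
      add_mem' := fun {x y} hx hy a => by rw [mul_add, hx a, hy a, add_zero]
      zero_mem' := fun a => mul_zero _
      smul_mem' := fun c x hx a => by rw [mul_smul_comm, hx a, smul_zero] }
  have hK : ∀ b, ∀ v ∈ K, b * v ∈ K := fun b v hv a => by
    rw [← mul_assoc, mul_assoc _ a]; exact hv _
  let f : K →ₗ[Dᵐᵒᵖ] K := (LinearMap.mulLeft Dᵐᵒᵖ A).restrict (fun v hv => hK A v hv)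
  have hf : Function.Surjective f := by
    rintro ⟨v, hv⟩
    refine ⟨⟨s * v, hK s v hv⟩, Subtype.ext ?_⟩
    have := hv 1
    rw [mul_one, sub_mul, one_mul, sub_eq_zero, mul_assoc] at this
    exact this.symm
  refine hk fun z hz => ?_
  have := (injective_iff_map_eq_zero _).1 (IsNoetherian.injective_of_surjective_endomorphism f hf)
    ⟨z, hne z hz⟩ (Subtype.ext hz)
  exact congrArg Subtype.val this

end Simple

section Witt
variable {B : Type*} [Ring B] [StarRing B] {L : FP B} {Θ π : B}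
variable {D : Type*} [Ring D] [IsSemisimpleRing D]

theorem xo_witt_step (ρ : B →+* D) (hρ : Function.Surjective ρ) (hs : star π = π) (hπ : π * π = π)
    {E F E1 F1 y0 : B} (h : PairA L Θ π E F) (h1 : PairA L Θ π E1 F1) (hy : ba Θ E1 y0 = 0)
    (hy' : FullEl (ρ (ba Θ y0 y0)))
    (hk : ¬ ∀ z, ρ (ba Θ F1 E + (1 - π)) * z = 0 → z = 0) :
    ∃ g z, IsoA L Θ g ∧ ρ (ba Θ F1 E + (1 - π)) * z = 0 ∧
      ρ (ba Θ F1 (g * E) + (1 - π)) * z ≠ 0 ∧
      ∀ w, ρ (ba Θ F1 (g * E) + (1 - π)) * w = 0 → ρ (ba Θ F1 E + (1 - π)) * w = 0 := by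
  obtain ⟨α, hα⟩ : ∃ α, α = ba Θ F1 E := ⟨_, rfl⟩
  obtain ⟨β, hβ⟩ : ∃ β, β = ba Θ E1 E := ⟨_, rfl⟩
  have hπα : π * α = α := by rw [hα]; exact h1.π_ba_f hs E
  have hπβ : π * β = β := by rw [hβ]; exact h1.π_ba_e hs E
  have hαπ : α * π = α := by rw [hα, ← ba_mul_right, h.eπ]
  obtain ⟨A, hA⟩ : ∃ A, A = α + (1 - π) := ⟨_, rfl⟩
  rw [← hα, ← hA] at hk ⊢
  obtain ⟨s', hs'⟩ := ss_regular (ρ A)
  obtain ⟨s, rfl⟩ := hρ s'
  obtain ⟨z, hz0, a0, hz⟩ := xo_exists_ker_el (s := ρ s) hk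
  obtain ⟨z, rfl⟩ := hρ z
  obtain ⟨a0, rfl⟩ := hρ a0
  obtain ⟨u0, hu0⟩ : ∃ u0, u0 = 1 - A * s := ⟨_, rfl⟩
  obtain ⟨u, hu⟩ : ∃ u, u = π * u0 := ⟨_, rfl⟩
  have hA1 : A * (1 - π) = 1 - π := by
    rw [hA, add_mul, mul_sub, hαπ, mul_one, sub_self, zero_add, sub_mul, mul_sub, mul_sub, hπ]; simp
  have hu0A : ρ u0 * ρ A = 0 := by rw [hu0, map_sub, map_one, map_mul, sub_mul, hs']; simp
  have huu : u = u0 - A * ((1 - π) * u0) := by rw [← mul_assoc, hA1, hu]; noncomm_ring
  have hu0u : ρ u0 * ρ u = ρ u0 := by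
    rw [huu, map_sub, map_mul, mul_sub, ← mul_assoc, hu0A, zero_mul, sub_zero]
    nth_rw 2 [hu0]
    rw [map_sub, map_one, map_mul, mul_sub, ← mul_assoc, hu0A]; simp
  have hind : ∀ w v, ρ A * w + ρ u * v = 0 → ρ A * w = 0 := by
    intro w v hw
    have h2 := congrArg (ρ u0 * ·) hw
    simp only [mul_add, ← mul_assoc, hu0A, hu0u, zero_mul, zero_add, mul_zero] at h2
    rwa [hu, map_mul, mul_assoc, h2, mul_zero, add_zero] at hw
  have hz1 : ρ ((1 - π) * z) = 0 := by
    have : (1 - π) * A = 1 - π := by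
      rw [hA, mul_add, sub_mul, hπα, one_mul, sub_self, zero_add, sub_mul, mul_sub, mul_sub, hπ]
      simp
    rw [← this, mul_assoc, map_mul, map_mul, hz0, mul_zero]
  have hz2 : ρ (α * z) = 0 := by
    have : α * z = A * z - (1 - π) * z := by rw [hA]; noncomm_ring
    rw [this, map_sub, map_mul, hz0, hz1, sub_zero]
  obtain ⟨pr, hpr⟩ : ∃ pr, pr = prA Θ E1 F1 := ⟨_, rfl⟩
  have hepr : ∀ x, ba Θ E1 (pr * x) = 0 := fun x => by rw [hpr]; exact h1.e_pr hs x
  have hfpr : ∀ x, ba Θ F1 (pr * x) = 0 := fun x => by rw [hpr]; exact h1.f_pr hs x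
  obtain ⟨G, hL⟩ : ∃ G : B → B → B, ∀ n c, G n c =
    ba Θ (pr * n) E + (qa Θ (pr * n) + (c - star c)) * (star u * β) := ⟨_, fun _ _ => rfl⟩
  by_cases hex : ∃ n c, ρ u * ρ (G n c) * ρ z ≠ 0
  · obtain ⟨n, c, hnc⟩ := hex
    have hY : ba Θ E1 (pr * n * star u) = 0 := by rw [ba_mul_right, hepr, zero_mul]
    have hπu : π * u = u := by rw [hu, ← mul_assoc, hπ]
    have key : ba Θ F1 (eich Θ E1 (pr * n * star u) (u * (qa Θ (pr * n) + (c - star c)) * star u)
        * E) + (1 - π) = A + u * -G n c := by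
      have e : ba Θ (pr * n * star u) E + u * (qa Θ (pr * n) + (c - star c)) * star u * β =
          u * G n c := by
        rw [ba_mul_left, star_star, hL]; noncomm_ring
      rw [eich_mul, ← hβ, e, ba_sub_right, ba_add_right, ba_mul_right, ba_mul_right, hfpr,
        ba_mul_right, h1.fe hs, ← hα, ← mul_assoc π, hπu, hA]
      noncomm_ring
    refine ⟨eich Θ E1 (pr * n * star u) (u * (qa Θ (pr * n) + (c - star c)) * star u), ρ z,
      isoA_eich h1.qe hY ?_, hz0, ?_, fun w hw => ?_⟩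
    · refine ((L.sub_star c).conj (star u)).of_eq ?_
      rw [qa_mul Θ (pr * n), star_star]; noncomm_ring
    · rw [key, map_add, add_mul, hz0, zero_add, map_mul, map_neg, mul_neg, neg_mul]
      exact neg_ne_zero.2 hnc
    · rw [key, map_add, add_mul, map_mul, mul_assoc] at hw
      exact hind _ _ hw
  exfalso
  push Not at hex
  have hw : ∀ a, ρ (u * a * (star u * β * z)) = 0 := by
    have hb : ∀ n1 n2, ρ u * ρ (ba Θ (pr * n1) (pr * n2)) * ρ (star u * β * z) = 0 := by
      intro n1 n2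
      have e : u * ba Θ (pr * n1) (pr * n2) * (star u * β * z) =
          u * G (n1 + n2) 0 * z - u * G n1 0 * z - u * G n2 (star (pr * n2) * Θ * (pr * n1)) * z := by
        simp only [hL, ba, qa, mul_add pr, star_add, star_mul, star_star, star_zero]
        noncomm_ring
      rw [← map_mul, ← map_mul, e]
      simp only [map_sub, map_mul, hex, sub_zero]
    have hk : ba Θ (pr * y0) (pr * y0) = ba Θ y0 y0 := by
      have hy2 : ba Θ y0 E1 = 0 := by rw [← star_ba, hy, star_zero]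
      rw [hpr, prA_mul, hy, mul_zero, sub_zero, ba_sub_left, ba_sub_right, ba_sub_right,
        ba_mul_right, ba_mul_right, ba_mul_left, ba_mul_left, hy, hy2, ba_self_eq_zero h1.qe]
      simp
    intro c
    rw [map_mul]
    refine hy' _ _ fun a b => ?_
    obtain ⟨a, rfl⟩ := hρ a
    obtain ⟨b, rfl⟩ := hρ b
    have := hb (y0 * star (c * a)) (y0 * b)
    rw [← mul_assoc pr, ← mul_assoc pr, ba_mul_left, ba_mul_right, hk, star_star] at this
    simpa only [map_mul, mul_assoc] using this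
  have hp : ∀ a, ρ (u * a * (ba Θ pr E * z)) = 0 := by
    intro a
    have h4 := hex (star a) 0
    have e : u * G (star a) 0 * z = u * a * (ba Θ pr E * z) +
        u * (qa Θ (pr * star a) + (0 - star 0)) * (star u * β * z) := by
      rw [hL, ba_mul_left, star_star]; noncomm_ring
    rwa [← map_mul, ← map_mul, e, map_add, hw, add_zero] at h4
  have hz3 : ∀ a, ρ (u * a * (α * z)) = 0 := fun a => by rw [map_mul, hz2, mul_zero]
  have hdec : ∀ x, ba Θ x E = star (ba Θ F1 x) * β + star (ba Θ E1 x) * α +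
      star x * ba Θ pr E := by
    intro x
    rw [← ba_mul_left, hpr, prA_mul, ba_sub_left, ba_sub_left, ba_mul_left, ba_mul_left, ← hα, ← hβ]
    abel
  have h5 : ∀ a, ρ (u * a * (star α * β * z)) = 0 := by
    intro a
    have e := hdec E
    rw [ba_self_eq_zero h.qe, ← hα, ← hβ] at e
    have e2 : star α * β * z = -(star β * (α * z)) - star E * (ba Θ pr E * z) := by
      have := congrArg (· * z) e
      simp only [zero_mul, add_mul, mul_assoc] at this
      rw [mul_assoc, eq_sub_iff_add_eq, eq_neg_iff_add_eq_zero, this]; abel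
    have e3 : u * a * (star α * β * z) =
        -(u * (a * star β) * (α * z)) - u * (a * star E) * (ba Θ pr E * z) := by
      rw [e2]; noncomm_ring
    rw [e3, map_sub, map_neg, hz3, hp]; simp
  have h6 : ∀ a, ρ (u * a * (β * z)) = 0 := by
    intro a
    have e : β * z = star u * β * z + star s * (star α * β * z) := by
      have e1 : star u * β = star u0 * β := by rw [hu, star_mul, hs, mul_assoc, hπβ]
      have e2 : star A * β = star α * β := by
        rw [hA, star_add, star_sub, star_one, hs, add_mul, sub_mul, hπβ, one_mul, sub_self, add_zero]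
      rw [e1, ← e2, hu0, star_sub, star_one, star_mul]; noncomm_ring
    rw [e, mul_add, ← mul_assoc _ (star s), mul_assoc u a (star s), map_add, hw, h5, add_zero]
  have h7 : ∀ a, ρ (u * a * (π * z)) = 0 := by
    intro a
    have e := hdec F
    rw [h.fe hs] at e
    have e3 : u * a * (π * z) = u * (a * star (ba Θ F1 F)) * (β * z) +
        u * (a * star (ba Θ E1 F)) * (α * z) + u * (a * star F) * (ba Θ pr E * z) := by
      nth_rw 1 [e]; noncomm_ring
    rw [e3, map_add, map_add, h6, hz3, hp]; simp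
  apply hz
  have e4 : ρ u * ρ a0 * ρ z = 0 := by
    rw [← map_mul, ← map_mul, show u * a0 * z = u * a0 * ((1 - π) * z) + u * a0 * (π * z) by
      noncomm_ring, map_add, h7, map_mul, hz1]; simp
  rw [← map_mul, ← map_one ρ, ← map_sub, ← hu0, ← hu0u, mul_assoc, mul_assoc, ← mul_assoc (ρ u), e4,
    mul_zero]

theorem xo_witt_unit (ρ : B →+* D) (hρ : Function.Surjective ρ)
    (hu : ∀ x, IsUnit (ρ x) → IsUnit x) (hs : star π = π) (hπ : π * π = π) {E1 F1 y0 : B}
    (h1 : PairA L Θ π E1 F1) (hy : ba Θ E1 y0 = 0) (hy' : FullEl (ρ (ba Θ y0 y0)))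
    (d : Submodule Dᵐᵒᵖ D) : ∀ E F, PairA L Θ π E F →
      LinearMap.ker (LinearMap.mulLeft Dᵐᵒᵖ (ρ (ba Θ F1 E + (1 - π)))) = d →
      ∃ g, IsoA L Θ g ∧ IsUnit (ba Θ F1 (g * E) + (1 - π)) := by
  have := xo_art (D := D)
  induction d using WellFoundedLT.induction with
  | _ d ih =>
    intro E F h hd
    by_cases hk : ∀ z, ρ (ba Θ F1 E + (1 - π)) * z = 0 → z = 0
    · exact ⟨1, isoA_one, by rw [one_mul]; exact hu _ (xo_isUnit_of_ker hk)⟩
    obtain ⟨g, z, hg, hz0, hg1, hg2⟩ := xo_witt_step ρ hρ hs hπ h h1 hy hy' hk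
    have hlt : LinearMap.ker (LinearMap.mulLeft Dᵐᵒᵖ (ρ (ba Θ F1 (g * E) + (1 - π)))) <
        LinearMap.ker (LinearMap.mulLeft Dᵐᵒᵖ (ρ (ba Θ F1 E + (1 - π)))) :=
      lt_of_le_of_ne (fun w hw => hg2 w hw) fun he => hg1 (by
        have : z ∈ LinearMap.ker (LinearMap.mulLeft Dᵐᵒᵖ (ρ (ba Θ F1 E + (1 - π)))) := hz0
        rw [← he] at this
        exact this)
    obtain ⟨g', hg', hu'⟩ := ih _ (hd ▸ hlt) _ _ (h.map hg) rfl
    exact ⟨g' * g, hg'.mul hg, by rwa [mul_assoc]⟩

/-- Witt's theorem for frames over a star ring with a semisimple quotient that detects units. -/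
theorem xo_frames_conjA (ρ : B →+* D) (hρ : Function.Surjective ρ)
    (hu : ∀ x, IsUnit (ρ x) → IsUnit x) (hs : star π = π) (hπ : π * π = π) {E F E1 F1 y : B}
    (he : E * π = E) (hq : L.Mem (qa Θ E)) (hef : ba Θ E F = π)
    (he1 : E1 * π = E1) (hq1 : L.Mem (qa Θ E1)) (hef1 : ba Θ E1 F1 = π)
    (hy : ba Θ E1 y = 0) (hy' : FullEl (ρ (ba Θ y y))) : ∃ g, IsoA L Θ g ∧ g * E = E1 := by
  obtain ⟨F', h⟩ := exists_pairA hs hπ he hq hef
  obtain ⟨F1', h1⟩ := exists_pairA hs hπ he1 hq1 hef1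
  obtain ⟨g, hg, hU⟩ := xo_witt_unit ρ hρ hu hs hπ h1 hy hy' _ E F' h rfl
  obtain ⟨g', hg', e⟩ := wittA_of_unit hs hπ (h.map hg).eπ (h.map hg).qe h1 hU
  exact ⟨g' * g, hg'.mul hg, by rw [mul_assoc, e]⟩

end Witt

variable {A : Type*} [Ring A] [StarRing A]

section Hank
variable {η : ℕ → A} {k : ℕ} (hc : ∀ m a, η m * a = a * η m) (hs : ∀ m, star (η m) = η m)
  (h0 : ∀ m, m < 2 * k → η m = 0) (h1 : η (2 * k) = 1)

include hc hs h0 h1 in
theorem xo_hank_descent {D : Type*} [Ring D] [IsSemisimpleRing D]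
    (ρ : A →+* D) (hρ : Function.Surjective ρ)
    (hu : ∀ x, IsUnit (ρ x) → IsUnit x) (L : FP A) {θ θ1 : A} (hθ : IsUnit (θ + star θ))
    (hθ1 : IsUnit (θ1 + star θ1)) {g : Matrix (Fin (2 * k + 1)) (Fin (2 * k + 1)) A}
    (hg : (L.mat _).Mem (qa (hank η k θ) g - hank η k θ1)) :
    ∃ x, L.Mem (star x * θ * x - θ1) := by
  obtain ⟨S, hS⟩ := hank_inv hc h0 h1 hθ
  obtain ⟨S1, hS1⟩ := hank_inv hc h0 h1 hθ1
  have hba : ∀ (θ : A) M, ba (hank η k θ) (hpi A k) M = hpi A k * (hank η k (θ + star θ) * M) :=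
    fun θ M => by rw [ba, hank_add_star hc hs, star_hpi, mul_assoc]
  let c : Fin (2 * k + 1) := ⟨k, by omega⟩
  have hρ' : Function.Surjective (ρ.mapMatrix : Matrix (Fin (2 * k + 1)) (Fin (2 * k + 1)) A →+* _) :=
    fun M => by
      choose N hN using fun i j => hρ (M i j)
      exact ⟨Matrix.of N, by ext i j; exact hN i j⟩
  have hyy : ba (hank η k θ) (Matrix.single c c 1) (Matrix.single c c 1) =
      Matrix.single c c (θ + star θ) := by
    rw [ba, hank_add_star hc hs, Matrix.star_eq_conjTranspose, Matrix.conjTranspose_single, star_one,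
      Matrix.single_mul_mul_single]
    simp only [hank, Matrix.of_apply, c, ← two_mul, h1, one_mul, mul_one]
  obtain ⟨σ, hσ, hσg⟩ := xo_frames_conjA (L := L.mat _) (Θ := hank η k θ) ρ.mapMatrix hρ'
    (mat_unit_lift ρ hρ hu) star_hpi hpi_mul (E := g * hpi A k) (F := g * (S1 * hpi A k))
    (E1 := hpi A k) (F1 := S * hpi A k) (y := Matrix.single c c 1)
    (by rw [mul_assoc, hpi_mul])
    ((sim_qa hg (hpi A k)).of_eq (by rw [qa_hpi h0, sub_zero]))
    (by rw [sim_ba hg, hba, ← mul_assoc _ S1, hS1, one_mul, hpi_mul]) hpi_mul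
    (by rw [qa_hpi h0]; exact FP.zero _) (by rw [hba, ← mul_assoc _ S, hS, one_mul, hpi_mul])
    (by
      rw [hba]; ext i l
      simp only [hpi, Matrix.diagonal_mul, Matrix.zero_apply]
      split_ifs with a
      · by_cases hl : l = c
        · rw [hl, Matrix.mul_single_apply_same]
          simp only [hank, Matrix.of_apply, c]
          rw [h0 _ (by omega)]; simp
        · rw [Matrix.mul_single_apply_of_ne (hbj := hl), mul_zero]
      · simp)
    (by
      obtain ⟨b, hb⟩ := hθ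
      refine fullEl_of_sum (fun i => ρ.mapMatrix (Matrix.single i c (b⁻¹).1))
        (fun i => ρ.mapMatrix (Matrix.single c i 1)) ?_
      simp only [hyy, ← map_mul, Matrix.single_mul_single_same, ← hb, Units.inv_mul, mul_one]
      rw [← map_sum, Matrix.sum_single_one, map_one])
  obtain ⟨h, hh⟩ : ∃ h, h = σ * g := ⟨_, rfl⟩
  have hh1 : (L.mat _).Mem (qa (hank η k θ) h - hank η k θ1) :=
    ((hσ.qa g).add hg).of_eq (by rw [hh]; abel)
  have hh2 := sim_ba hh1 (hpi A k) 1
  rw [mul_one, hh, mul_assoc, hσg, ← hh, hba, hba, mul_one] at hh2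
  have hz : ∀ d, ∀ m : Fin (2 * k + 1), k < m → 2 * k - m = d → h m c = 0 := by
    intro d
    induction d using Nat.strong_induction_on with
    | _ d ih =>
      intro m hm hd
      have e := congrFun (congrFun hh2 m.rev) c
      have hr : (m.rev : ℕ) = 2 * k - m := by rw [Fin.val_rev]; omega
      have hm2 := m.2
      simp only [hpi, Matrix.diagonal_mul] at e
      rw [if_pos (by omega), one_mul, one_mul, Matrix.mul_apply, Finset.sum_eq_single m] at e
      · simp only [hank, Matrix.of_apply, c] at e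
        rw [h0 (m.rev + k) (by omega), show (m.rev : ℕ) + m = 2 * k by omega, h1, one_mul,
          zero_mul] at e
        exact hθ.mul_right_eq_zero.1 e
      · intro m' _ hne
        have hne' : (m' : ℕ) ≠ m := fun h => hne (Fin.ext h)
        have := m'.2
        rcases lt_or_gt_of_ne hne' with hlt | hlt
        · simp only [hank, Matrix.of_apply]
          rw [h0 _ (by omega)]; simp
        · rw [ih _ (by omega) m' (by omega) rfl, mul_zero]
      · simp
  refine ⟨h c c, (hh1.2 c).of_eq ?_⟩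
  simp only [Matrix.sub_apply, qa, Matrix.mul_apply, Matrix.star_apply, hank, Matrix.of_apply]
  have hcc : η (c + c) = 1 := by simp only [c, ← two_mul, h1]
  rw [Finset.sum_eq_single c, Finset.sum_eq_single c, hcc, one_mul, one_mul]
  · intro i _ hne
    have hne' : (i : ℕ) ≠ k := fun h => hne (Fin.ext h)
    rcases lt_or_gt_of_ne hne' with hlt | hlt
    · rw [h0 _ (by simp only [c]; omega)]; simp
    · rw [hz _ i hlt rfl]; simp
  · simp
  · intro l _ hne
    have hne' : (l : ℕ) ≠ k := fun h => hne (Fin.ext h)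
    rcases lt_or_gt_of_ne hne' with hlt | hlt
    · rw [Finset.sum_eq_zero, zero_mul]
      intro i _
      rcases le_or_gt (i : ℕ) k with hi | hi
      · rw [h0 _ (by omega)]; simp
      · rw [hz _ i hi rfl]; simp
    · rw [hz _ l hlt rfl, mul_zero]
  · simp

end Hank

theorem xo_odd_descent {D : Type*} [Ring D] [IsSemisimpleRing D]
    (ρ : A →+* D) (hρ : Function.Surjective ρ)
    (hu : ∀ x, IsUnit (ρ x) → IsUnit x) {A1 : Type*} [Ring A1] [StarRing A1] (L : FP A)
    (L1 : FP A1) (j : A →+* A1) (hj : ∀ a, j (star a) = star (j a)) (t : A1) (ht : star t = t)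
    (htc : ∀ x, t * x = x * t) (k : ℕ)
    (hex : ∀ x, ∃ c : Fin (2 * k + 1) → A, x = ∑ i : Fin (2 * k + 1), t ^ (i : ℕ) * j (c i))
    (hun : ∀ c : Fin (2 * k + 1) → A, ∑ i : Fin (2 * k + 1), t ^ (i : ℕ) * j (c i) = 0 → c = 0)
    (hL : ∀ c : Fin (2 * k + 1) → A, L1.Mem (∑ i : Fin (2 * k + 1), t ^ (i : ℕ) * j (c i)) →
      L.Mem (c (Fin.last _)))
    {θ θ1 : A} (hθ : IsUnit (θ + star θ)) (hθ1 : IsUnit (θ1 + star θ1)) {x : A1}
    (hx : L1.Mem (star x * j θ * x - j θ1)) : ∃ x0, L.Mem (star x0 * θ * x0 - θ1) := by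
  choose co hco using hex
  have hcm : ∀ (m : ℕ) y, t ^ m * y = y * t ^ m := fun m y =>
    ((show Commute t _ from htc y).pow_left m).eq
  have hce : ∀ y c, y = ∑ i : Fin (2 * k + 1), t ^ (i : ℕ) * j (c i) → co y = c :=
    fun y c h => coord_inj j t hun ((hco y).symm.trans h)
  let Λ : A1 →+ A := AddMonoidHom.mk' (fun y => co y (Fin.last _)) fun y z => by
    rw [hce (y + z) (co y + co z)]
    · rfl
    · simp only [Pi.add_apply, map_add, mul_add, Finset.sum_add_distrib, ← hco]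
  have hΛ : ∀ y, Λ y = co y (Fin.last _) := fun _ => rfl
  have hr : ∀ y a, Λ (y * j a) = Λ y * a := fun y a => by
    rw [hΛ, hΛ, hce (y * j a) fun i => co y i * a]
    nth_rw 1 [hco y]
    simp only [Finset.sum_mul, map_mul, mul_assoc]
  have hst : ∀ y, Λ (star y) = star (Λ y) := fun y => by
    rw [hΛ, hΛ, hce (star y) fun i => star (co y i)]
    nth_rw 1 [hco y]
    exact star_coord j hj t ht htc _
  have hl : ∀ a y, Λ (j a * y) = a * Λ y := fun a y => by
    rw [← star_star (j a * y), hst, star_mul, ← hj, hr, hst, star_mul, star_star, star_star]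
  have hpow : ∀ i : Fin (2 * k + 1), co (t ^ (i : ℕ)) = Pi.single i 1 := fun i => hce _ _ (by
    rw [Finset.sum_eq_single i]
    · simp
    · intro b _ hb; rw [Pi.single_eq_of_ne hb, map_zero, mul_zero]
    · simp)
  have hLΛ : ∀ y, L1.Mem y → L.Mem (Λ y) := fun y hy => hL _ (hco y ▸ hy)
  refine xo_hank_descent (η := fun m => Λ (t ^ m)) (k := k) (fun m a => ?_) (fun m => ?_)
    (fun m hm => ?_) ?_ ρ hρ hu L hθ hθ1 (g := Matrix.of fun i l => co (x * t ^ (l : ℕ)) i) ?_
  · rw [← hr, ← hl, hcm]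
  · rw [← hst, star_pow, ht]
  · have := hpow ⟨m, by omega⟩
    rw [hΛ, this, Pi.single_eq_of_ne]
    exact fun h => by simpa using (congrArg Fin.val h).trans_lt hm
  · have := hpow (Fin.last _)
    rw [Fin.val_last] at this
    rw [hΛ, this, Pi.single_eq_same]
  have key : ∀ a b : Fin (2 * k + 1),
      (qa (hank (fun m => Λ (t ^ m)) k θ) (Matrix.of fun i l => co (x * t ^ (l : ℕ)) i) -
        hank (fun m => Λ (t ^ m)) k θ1) a b =
      Λ (star (t ^ (a : ℕ)) * (star x * j θ * x - j θ1) * t ^ (b : ℕ)) := by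
    intro a b
    have e1 : star (t ^ (a : ℕ)) * (star x * j θ * x - j θ1) * t ^ (b : ℕ) =
        star (x * t ^ (a : ℕ)) * j θ * (x * t ^ (b : ℕ)) - t ^ ((a : ℕ) + b) * j θ1 := by
      rw [star_mul, pow_add, mul_assoc (t ^ (a : ℕ)), hcm b, star_pow, ht]; noncomm_ring
    rw [e1, map_sub, hr]
    simp only [Matrix.sub_apply, qa, Matrix.mul_apply, Matrix.star_apply, hank, Matrix.of_apply]
    congr 1
    conv_rhs => rw [hco (x * t ^ (a : ℕ)), hco (x * t ^ (b : ℕ)), star_coord j hj t ht htc]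
    simp only [Finset.sum_mul, Finset.mul_sum, map_sum]
    refine Finset.sum_congr rfl fun l _ => Finset.sum_congr rfl fun i _ => ?_
    rw [← hr, ← hl, ← hr, pow_add]
    congr 1
    generalize j (star (co (x * t ^ (a : ℕ)) i)) = u
    generalize j (co (x * t ^ (b : ℕ)) l) = v
    rw [hcm i u, mul_assoc (t ^ (i : ℕ)), hcm l (j θ)]
    simp only [mul_assoc]
  refine ⟨?_, fun a => by rw [key]; exact hLΛ _ (hx.conj _)⟩
  ext a b
  rw [Matrix.add_apply, Matrix.star_apply, key, key, ← hst, ← map_add, star_mul, star_mul, star_star,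
    ← mul_assoc, ← add_mul, ← mul_add, hx.add_star]
  simp

end Pool.Agent.P.MP_c1f06d_ag
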