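import Pool.Agent.P.MP_c1f06d_ag.d.DSplit
import Pool.Agent.P.MP_c1f06d_ag.w.WNP0
import Pool.Agent.P.MP_c1f06d_ag.w.XOdd0

open Matrix Module Polynomial Pool.Agent.SU Pool.Agent.P.MP_c1f06d_ag

universe u

namespace Pool.Agent.GSD

variable {Z A A1 : Type u} [CommRing Z] [Finite (MaximalSpectrum Z)] [Ring A] [StarRing A]
  [Algebra Z A] {m : ℕ} {l : A} {P : Z[X]} [Ring A1] [StarRing A1] [Algebra (AdjoinRoot P) A1]
  {j : A →+* A1}

omit [StarRing A] in
/-- An Azumaya algebra over a semilocal ring has a semisimple quotient that detects units. -/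
theorem xo_residue (h : Az Z A) : ∃ (D : Type u) (_ : Ring D) (_ : IsSemisimpleRing D)
    (ρ : A →+* D), Function.Surjective ρ ∧ ∀ x, IsUnit (ρ x) → IsUnit x := by
  have := h.free
  have := h.finite
  choose D i1 i2 ρ hρ using fun N : MaximalSpectrum Z =>
    exists_bc (A := A) (Ideal.Quotient.mk N.asIdeal)
  have hss : ∀ N, IsSemisimpleRing (D N) := fun N => by
    have := N.isMaximal
    let _ := Ideal.Quotient.field N.asIdeal
    exact (h.map (hρ N)).isSemisimpleRing
  refine ⟨∀ N, D N, inferInstance, inferInstance, RingHom.pi ρ, fun y => ?_, fun x hx => ?_⟩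
  · choose a ha using fun N => (hρ N).surjective Ideal.Quotient.mk_surjective (y N)
    obtain ⟨x, -, hx⟩ := wnp_glue (Z := Z) ⊤ a fun _ => trivial
    refine ⟨x, funext fun N => ?_⟩
    rw [RingHom.pi_apply, ← ha, ← sub_eq_zero, ← map_sub]
    refine Submodule.smul_induction_on (p := fun v => ρ N v = 0) (hx N) (fun r hr v _ => ?_)
      fun u v hu hv => by rw [map_add, hu, hv, add_zero]
    rw [(hρ N).smul, Ideal.Quotient.eq_zero_iff_mem.2 hr, zero_smul]
  · refine wnp_isUnit h fun N hN => ?_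
    have := Ideal.Quotient.nontrivial_iff.2 N.isMaximal.ne_top
    exact wnp_nrd h (hρ N) (hx.map (Pi.evalRingHom D N)) (Ideal.Quotient.eq_zero_iff_mem.2 hN)

/-- (A), descent along an extension of odd degree, semilocal base. -/
theorem desc_formIso_semi [StarFix (AdjoinRoot P) A1] (h : QAz Z m l) (hP : P.Monic)
    (hd : Odd P.natDegree) (hj : SBC (AdjoinRoot.of P) j) {th : A} (hth : IsUnit (th + star th))
    (hs : FormIso (j l) (j th)) : FormIso l th := by
  have := h.az.free
  have := h.az.finite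
  obtain ⟨k, hk⟩ := hd
  obtain ⟨D, _, _, ρ, hρ, hu⟩ := xo_residue h.az
  let pb : Basis (Fin (2 * k + 1)) Z (AdjoinRoot P) :=
    (AdjoinRoot.powerBasis' hP).basis.reindex (finCongr hk)
  have hpb : ∀ i, pb i = AdjoinRoot.root P ^ (i : ℕ) := fun i => by
    rw [Basis.reindex_apply, PowerBasis.basis_eq_pow]
    rfl
  let t : A1 := algebraMap (AdjoinRoot P) A1 (AdjoinRoot.root P)
  have ht : star t = t := StarFix.fix _
  have htc : ∀ x, t * x = x * t := fun x => Algebra.commutes _ x
  have hsm : ∀ (i : Fin (2 * k + 1)) (y : A1), t ^ (i : ℕ) * y = pb i • y := fun i y => by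
    rw [hpb, Algebra.smul_def, map_pow]
  have hex : ∀ x, ∃ c : Fin (2 * k + 1) → A,
      x = ∑ i : Fin (2 * k + 1), t ^ (i : ℕ) * j (c i) := fun x => by
    refine hj.toBC.induction (p := fun x => ∃ c : Fin (2 * k + 1) → A,
      x = ∑ i : Fin (2 * k + 1), t ^ (i : ℕ) * j (c i)) ⟨0, by simp⟩
      (fun s a => ⟨fun i => pb.repr s i • a, ?_⟩) ?_ x
    · nth_rw 1 [← pb.sum_repr s]
      rw [Finset.sum_smul]
      refine Finset.sum_congr rfl fun i _ => ?_
      rw [hsm, hj.toBC.smul, smul_smul, Algebra.smul_def (pb.repr s i), mul_comm]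
      rfl
    · rintro _ _ ⟨c, rfl⟩ ⟨d, rfl⟩
      exact ⟨c + d, by simp only [Pi.add_apply, map_add, mul_add, Finset.sum_add_distrib]⟩
  have hun : ∀ c : Fin (2 * k + 1) → A,
      ∑ i : Fin (2 * k + 1), t ^ (i : ℕ) * j (c i) = 0 → c = 0 := fun c hc => by
    let b := Module.Free.chooseBasis Z A
    obtain ⟨b', -, hb⟩ := hj.toBC.exists_basis b
    funext i
    refine b.repr.map_eq_zero_iff.1 (Finsupp.ext fun n => ?_)
    refine Fintype.linearIndependent_iff.1 pb.linearIndependent (fun i => b.repr (c i) n) ?_ i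
    have e := congrArg (fun y => b'.repr y n) hc
    simp only [hsm, map_sum, map_smul, map_zero, Finsupp.finsetSum_apply, Finsupp.smul_apply,
      smul_eq_mul, hb, Finsupp.zero_apply] at e
    rw [← e]
    refine Finset.sum_congr rfl fun i _ => ?_
    rw [Algebra.smul_def, mul_comm]
    rfl
  obtain ⟨x, hx⟩ := hs
  exact xo_odd_descent ρ hρ hu (FP.alt A) (FP.alt A1) j hj.map_star t ht htc k hex hun
    (fun c hc => coord_alt j hj.map_star t ht htc hun hex c hc _)
    (h.add_star ▸ isUnit_one) hth hx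

end Pool.Agent.GSD
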