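import Pool.Agent.P.MP_c1f06d_ag.d.DSplit
import Pool.Agent.P.MP_c1f06d_ag.d.WVal4
import Pool.Agent.P.MP_c1f06d_ag.w.WNP0

open Matrix Module Polynomial Pool.Agent.SU Pool.Agent.P.MP_c1f06d_ag TensorProduct

universe u

namespace Pool.Agent.GSD

section Mod
variable {Z M : Type*} [CommRing Z] [AddCommGroup M] [Module Z M]

theorem xrep_eq {I : Ideal Z} {x y : M} :
    (1 : Z ⧸ I) ⊗ₜ[Z] x = (1 : Z ⧸ I) ⊗ₜ[Z] y ↔ x - y ∈ I • (⊤ : Submodule Z M) := by
  rw [← (quotTensorEquivQuotSMul M I).injective.eq_iff, quotTensorEquivQuotSMul_mk_one_tmul,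
    quotTensorEquivQuotSMul_mk_one_tmul, Submodule.Quotient.eq]

theorem xrep_surj (I : Ideal Z) (y : (Z ⧸ I) ⊗[Z] M) : ∃ x : M, (1 : Z ⧸ I) ⊗ₜ[Z] x = y :=
  TensorProduct.mk_surjective Z M (Z ⧸ I) Ideal.Quotient.mk_surjective y

theorem xrep_range {P : Type*} [AddCommGroup P] [Module Z P] [Module.Finite Z M] (f : P →ₗ[Z] M)
    (h : ∀ (N : MaximalSpectrum Z) (y : M), ∃ x, y - f x ∈ N.asIdeal • (⊤ : Submodule Z M)) :
    Function.Surjective f :=
  LinearMap.range_eq_top.1 (top_le_iff.1 (wnp_le Module.Finite.fg_top fun N y _ => by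
    obtain ⟨x, hx⟩ := h N y
    exact Submodule.mem_sup.2 ⟨f x, ⟨x, rfl⟩, _, hx, add_sub_cancel _ _⟩))

theorem xrep_inj {k P : Type*} [Field k] [Algebra Z k] [AddCommGroup P] [Module Z P] {c : Z}
    (hc : algebraMap Z k c ≠ 0) (f : P →ₗ[Z] M) (g : M →ₗ[Z] P) (e : g ∘ₗ f = c • LinearMap.id) :
    Function.Injective (f.baseChange k) := by
  refine Function.Injective.of_comp (f := g.baseChange k) ?_
  rw [← LinearMap.coe_comp, ← LinearMap.baseChange_comp, e, LinearMap.baseChange_smul,
    LinearMap.baseChange_id]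
  intro a b hab
  refine smul_right_injective _ hc ?_
  simpa only [algebraMap_smul, LinearMap.smul_apply, LinearMap.id_apply] using hab

variable [Finite (MaximalSpectrum Z)]

theorem xrep_lift (y : ∀ N : MaximalSpectrum Z, (Z ⧸ N.asIdeal) ⊗[Z] M) :
    ∃ x : M, ∀ N, (1 : Z ⧸ N.asIdeal) ⊗ₜ[Z] x = y N := by
  choose x hx using fun N : MaximalSpectrum Z => xrep_surj N.asIdeal (y N)
  obtain ⟨z, -, hz⟩ := wnp_glue ⊤ x fun _ => trivial
  exact ⟨z, fun N => (xrep_eq.2 (hz N)).trans (hx N)⟩

/-- A finite flat module between `Z ^ m` and `c⁻¹ Z ^ m` is free of rank `m`. -/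
theorem xrep_free [Module.Finite Z M] [Module.Flat Z M] {m : ℕ} (v : (Fin m → Z) →ₗ[Z] M)
    (hv : Function.Injective v) {c : Z} (hc : c ∈ nonZeroDivisors Z)
    (h : ∀ y, c • y ∈ LinearMap.range v) : Nonempty (Basis (Fin m) Z M) := by
  let w : M →ₗ[Z] (Fin m → Z) := (LinearEquiv.ofInjective v hv).symm.toLinearMap.comp
    (LinearMap.codRestrict _ (c • LinearMap.id) h)
  have h1 : v ∘ₗ w = c • LinearMap.id := LinearMap.ext fun y =>
    congrArg Subtype.val ((LinearEquiv.ofInjective v hv).apply_symm_apply _)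
  have h2 : w ∘ₗ v = c • LinearMap.id := LinearMap.ext fun y => hv (by
    rw [LinearMap.smul_apply, map_smul]; exact LinearMap.congr_fun h1 _)
  refine Module.nonempty_basis_of_flat_of_finrank_eq Z M m fun N => ?_
  have := N.isMaximal
  let := Ideal.Quotient.field N.asIdeal
  obtain ⟨P, hP, hle⟩ := Ideal.exists_minimalPrimes_le (bot_le (a := N.asIdeal))
  have := hP.1.1
  have h3 : algebraMap Z P.ResidueField c ≠ 0 := fun h0 =>
    Set.disjoint_left.1 (Ideal.disjoint_nonZeroDivisors_of_mem_minimalPrimes hP)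
      (Ideal.algebraMap_residueField_eq_zero.1 h0) hc
  have h4 : finrank P.ResidueField (P.ResidueField ⊗[Z] M) = m := by
    have : Nontrivial Z := (algebraMap Z P.ResidueField).domain_nontrivial
    have h5 : finrank P.ResidueField (P.ResidueField ⊗[Z] (Fin m → Z)) = m := by
      rw [Module.finrank_baseChange, Module.finrank_fin_fun]
    exact le_antisymm ((LinearMap.finrank_le_finrank_of_injective (xrep_inj h3 w v h1)).trans h5.le)
      (h5.ge.trans (LinearMap.finrank_le_finrank_of_injective (xrep_inj h3 v w h2)))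
  rw [← h4, P.finrank_fiber_eq_rankAtStalk, rankAtStalk_eq_of_le_of_finite_of_flat' M hle,
    ← Ideal.finrank_fiber_eq_rankAtStalk, ← (AlgebraTensorModule.cancelBaseChange Z
      (Z ⧸ N.asIdeal) N.asIdeal.ResidueField N.asIdeal.ResidueField M).finrank_eq]
  exact Module.finrank_baseChange.symm

theorem xrep_step [Nontrivial Z] {A : Type*} [Ring A] [Algebra Z A] [Module.Finite Z A]
    [Module.Free Z A] (hs : ∀ N : MaximalSpectrum Z, IsSimpleRing ((Z ⧸ N.asIdeal) ⊗[Z] A))
    [Module A M] [IsScalarTower Z A M] [Module.Finite Z M] [Module.Free Z M] {n : ℕ}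
    (h : finrank Z M = finrank Z A + n) : Nonempty (A →ₐ[Z] Matrix (Fin n) (Fin n) Z) := by
  have k1 : ∀ N : MaximalSpectrum Z, ∃ (x : (Z ⧸ N.asIdeal) ⊗[Z] M)
      (v : Fin n → (Z ⧸ N.asIdeal) ⊗[Z] M), ∀ x0 : M, 1 ⊗ₜ x0 = x → ∀ y, ∃ (a : A) (c : Fin n → Z),
        y = 1 ⊗ₜ (a • x0) + ∑ i, c i • v i := fun N => by
    have := N.isMaximal
    let := Ideal.Quotient.field N.asIdeal
    have := hs N
    obtain ⟨φ2, hφ⟩ := exists_bc_rep (R := Z) (A := A) (Z ⧸ N.asIdeal) M
    obtain ⟨x, hx⟩ := exists_free_el φ2 (by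
      rw [Module.finrank_baseChange, Module.finrank_baseChange]; omega)
    let f := (LinearMap.applyₗ x).comp φ2.toLinearMap
    obtain ⟨U, hU⟩ := exists_isCompl (LinearMap.range f)
    have h1 := Submodule.finrank_add_eq_of_isCompl hU
    rw [LinearMap.finrank_range_of_inj ((injective_iff_map_eq_zero f).2 hx),
      Module.finrank_baseChange, Module.finrank_baseChange] at h1
    have := Module.Free.of_divisionRing (Z ⧸ N.asIdeal) U
    let b := Module.finBasisOfFinrankEq (Z ⧸ N.asIdeal) U (n := n) (by omega)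
    refine ⟨x, fun i => b i, fun x0 h0 y => ?_⟩
    obtain ⟨_, ⟨d, rfl⟩, w, hw, e⟩ := Submodule.mem_sup.1 (hU.sup_eq_top ▸ Submodule.mem_top (x := y))
    obtain ⟨a, rfl⟩ := xrep_surj N.asIdeal d
    choose c hc using fun i => Ideal.Quotient.mk_surjective (b.repr ⟨w, hw⟩ i)
    refine ⟨a, c, e.symm.trans (congrArg₂ _ ?_ ?_)⟩
    · change φ2 _ x = _
      rw [← h0]
      exact hφ x0 _
    · have h2 := congrArg Subtype.val (b.sum_repr ⟨w, hw⟩)
      simp only [Submodule.coe_sum, Submodule.coe_smul, ← hc] at h2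
      exact h2.symm
  choose x v hv using k1
  obtain ⟨x0, h0⟩ := xrep_lift x
  choose v0 h1 using fun i => xrep_lift fun N => v N i
  let f : (A × (Fin n → Z)) →ₗ[Z] M := ((LinearMap.toSpanSingleton A M x0).restrictScalars Z).coprod
    (Fintype.linearCombination Z v0)
  have hf : Function.Surjective f := xrep_range f fun N y => by
    obtain ⟨a, c, e⟩ := hv N x0 (h0 N) (1 ⊗ₜ y)
    refine ⟨(a, c), xrep_eq.1 (e.trans ?_)⟩
    change _ = 1 ⊗ₜ (a • x0 + ∑ i, c i • v0 i)
    simp only [tmul_add, tmul_sum, tmul_smul, h1]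
  have hi := OrzechProperty.injective_of_surjective_of_injective
    (LinearEquiv.ofFinrankEq (R := Z) (A × (Fin n → Z)) M (by
      rw [finrank_prod, Module.finrank_fin_fun, h])).toLinearMap f (LinearEquiv.injective _) hf
  obtain ⟨g, hg, he⟩ := exists_quot_map (R := Z) (A := A) x0
  let e := LinearEquiv.ofBijective (g ∘ₗ Fintype.linearCombination Z v0)
    ⟨(injective_iff_map_eq_zero _).2 fun c hc => by
      obtain ⟨a, ha⟩ := (he _).1 hc
      have h2 : f (-a, c) = f 0 := by
        rw [map_zero, LinearMap.coprod_apply, map_neg, ha, neg_add_cancel]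
      exact congrArg Prod.snd (hi h2),
    fun y => by
      obtain ⟨y, rfl⟩ := hg y
      obtain ⟨⟨a, c⟩, rfl⟩ := hf y
      exact ⟨c, by rw [LinearMap.coprod_apply, map_add, he.apply_apply_eq_zero, zero_add]; rfl⟩⟩
  exact ⟨(LinearMap.toMatrixAlgEquiv ((Pi.basisFun Z (Fin n)).map e)).toAlgHom.comp
    (Algebra.lsmul Z Z (M ⧸ Submodule.span A {x0}))⟩

end Mod

variable {Z A : Type u} [CommRing Z] [Ring A] [StarRing A] [Algebra Z A] {m : ℕ} {l : A}

omit [StarRing A] in
theorem xrep_triv {n : Type} [Fintype n] [DecidableEq n] [Subsingleton (Matrix n n Z)] :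
    Nonempty (A →ₐ[Z] Matrix n n Z) :=
  ⟨⟨⟨⟨⟨fun _ => 0, Subsingleton.elim _ _⟩, fun _ _ => Subsingleton.elim _ _⟩, rfl,
    fun _ _ => Subsingleton.elim _ _⟩, fun _ => Subsingleton.elim _ _⟩⟩

theorem xrep_simple {k D : Type u} [Field k] [Ring D] [Algebra k D] (h : QAz Z m l) (hm : 0 < m)
    {f : Z →+* k} {j : A →+* D} (hj : BC f j) : IsSimpleRing D ∧ finrank k D = m * m := by
  have : Nontrivial Z := f.domain_nontrivial
  obtain ⟨N, b, b', -⟩ := hj.basis
  have h1 : finrank k D = m * m := by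
    rw [← h.finrank, finrank_eq_card_basis b, finrank_eq_card_basis b']
  have : Nontrivial D := Module.nontrivial_of_finrank_pos (R := k) (h1 ▸ Nat.mul_pos hm hm)
  exact ⟨dsplit_simple (h.az.map hj), h1⟩

/-- A representation of degree `m` is a splitting (any base ring). -/
theorem QAz.rep_bijective (h : QAz Z m l) (φ : A →ₐ[Z] Matrix (Fin m) (Fin m) Z) :
    Function.Bijective φ := by
  have := h.az.free
  have := h.az.finite
  have hs : Function.Surjective φ := by
    rcases m.eq_zero_or_pos with rfl | hm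
    · exact fun _ => ⟨0, Subsingleton.elim _ _⟩
    refine xrep_range φ.toLinearMap fun N X => ?_
    have := N.isMaximal
    let := Ideal.Quotient.field N.asIdeal
    have : Nonempty (Fin m) := ⟨⟨0, hm⟩⟩
    obtain ⟨D, _, _, j, hj⟩ := exists_bc (A := A) (Ideal.Quotient.mk N.asIdeal)
    have := hj.finite'
    obtain ⟨_, h1⟩ := xrep_simple h hm hj
    have h2 := bc_mapMatrix (Ideal.Quotient.mk N.asIdeal) (Fin m)
    obtain ⟨k, hk, hk'⟩ := hj.lift (g := RingHom.id _)
      ((Ideal.Quotient.mk N.asIdeal).mapMatrix.comp φ.toRingHom) fun t =>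
        (congrArg _ (φ.commutes t)).trans (h2.alg t)
    let k' : D →ₐ[Z ⧸ N.asIdeal] Matrix (Fin m) (Fin m) (Z ⧸ N.asIdeal) := ⟨k, hk'⟩
    obtain ⟨d, hd⟩ := (LinearMap.injective_iff_surjective_of_finrank_eq_finrank
      (f := k'.toLinearMap) (by rw [h1, Module.finrank_matrix, finrank_self]; simp)).1
      k.injective ((Ideal.Quotient.mk N.asIdeal).mapMatrix X)
    obtain ⟨a, rfl⟩ := hj.surjective Ideal.Quotient.mk_surjective d
    refine ⟨a, mem_extI_iff.1 ?_⟩
    have h3 := (h2.map_eq_zero_iff (a := X - φ a)).1 (by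
      rw [map_sub, ← hd, sub_eq_zero]; exact RingHom.congr_fun hk a)
    rwa [Ideal.mk_ker] at h3
  rcases subsingleton_or_nontrivial Z with hZ | hZ
  · have := Module.subsingleton Z A
    exact ⟨fun _ _ _ => Subsingleton.elim _ _, hs⟩
  · exact OrzechProperty.bijective_of_surjective_of_injective
      (LinearEquiv.ofFinrankEq (R := Z) A (Matrix (Fin m) (Fin m) Z) (by
        rw [h.finrank, Module.finrank_matrix, finrank_self]; simp)).toLinearMap φ.toLinearMap
      (LinearEquiv.injective _) hs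

variable [Finite (MaximalSpectrum Z)]

omit [StarRing A] in
theorem xrep_steps [Nontrivial Z] [Module.Finite Z A] [Module.Free Z A]
    (hs : ∀ N : MaximalSpectrum Z, IsSimpleRing ((Z ⧸ N.asIdeal) ⊗[Z] A)) {n : ℕ} (k : ℕ) :
    ∀ N, N = n + k * finrank Z A →
      (A →ₐ[Z] Matrix (Fin N) (Fin N) Z) → Nonempty (A →ₐ[Z] Matrix (Fin n) (Fin n) Z) := by
  induction k with
  | zero => rintro N h φ; obtain rfl : N = n := by omega
            exact ⟨φ⟩
  | succ k ih =>
    rintro N h φ
    let M := Fin N → Z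
    let : Module A M := Module.compHom M
      ((Matrix.toLinAlgEquiv' (R := Z) (n := Fin N)).toAlgHom.toRingHom.comp φ.toRingHom)
    have h1 : ∀ (a : A) (x : M), a • x = Matrix.mulVec (φ a) x := fun _ _ => rfl
    have : IsScalarTower Z A M := ⟨fun r a x => by rw [h1, h1, map_smul, Matrix.smul_mulVec]⟩
    obtain ⟨φ'⟩ := xrep_step (M := M) hs (n := n + k * finrank Z A)
      ((Module.finrank_fin_fun Z).trans (by rw [h]; ring))
    exact ih _ rfl φ'

/-- (C), descent along an extension of degree `1 mod m`, semilocal base. -/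
theorem rep_desc_semi (h : QAz Z m l) {P : Z[X]} (hP : P.Monic) {k : ℕ}
    (hd : P.natDegree = m * k + 1) (φ : A →ₐ[Z] Matrix (Fin m) (Fin m) (AdjoinRoot P)) :
    Nonempty (A →ₐ[Z] Matrix (Fin m) (Fin m) Z) := by
  rcases m.eq_zero_or_pos with rfl | hm
  · exact xrep_triv
  rcases subsingleton_or_nontrivial Z with hZ | hZ
  · exact xrep_triv
  have := h.az.free
  have := h.az.finite
  have := Module.Free.of_basis (AdjoinRoot.powerBasis' hP).basis
  have := (AdjoinRoot.powerBasis' hP).finite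
  let M := Fin m → AdjoinRoot P
  let : Module A M := Module.compHom M
    ((Matrix.toLinAlgEquiv' (R := AdjoinRoot P) (n := Fin m)).toAlgHom.toRingHom.comp φ.toRingHom)
  have hs : ∀ (a : A) (x : M), a • x = Matrix.mulVec (φ a) x := fun _ _ => rfl
  have : IsScalarTower Z A M := ⟨fun r a x => by rw [hs, hs, map_smul, Matrix.smul_mulVec]⟩
  obtain ⟨φ1⟩ := rep_of_module (R := Z) (A := A) M rfl
  refine xrep_steps (fun N => ?_) k _ ?_ φ1
  · have := N.isMaximal
    let := Ideal.Quotient.field N.asIdeal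
    exact (xrep_simple h hm (bc_of_isBaseChange
      (Algebra.TensorProduct.includeRight : A →ₐ[Z] (Z ⧸ N.asIdeal) ⊗[Z] A)
      (TensorProduct.isBaseChange Z A (Z ⧸ N.asIdeal)))).1
  · rw [Module.finrank_pi_fintype, Finset.sum_const, Finset.card_univ, Fintype.card_fin,
      (AdjoinRoot.powerBasis' hP).finrank.trans hd, h.finrank, smul_eq_mul]
    ring

omit [Finite (MaximalSpectrum Z)] in
/-- (C) over a finite etale algebra over a valuation ring. -/
theorem val_rep_fin {O K F : Type u} [CommRing O] [IsDomain O] [ValuationRing O] [Field K]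
    [Algebra O K] [IsFractionRing O K] [Algebra O Z] [CommRing F] [Algebra K F] {g : Z →+* F}
    (hg : BC (algebraMap O K) g) (hav : Avg O Z) (h : QAz Z m l)
    (ψ : A →+* Matrix (Fin m) (Fin m) F)
    (hψ : ∀ z, ψ (algebraMap Z A z) = algebraMap F _ (g z)) :
    Nonempty (A →ₐ[Z] Matrix (Fin m) (Fin m) Z) := by
  have := hg.free
  have := hg.finite
  have := h.az.finite
  have := wv_finite_max (T := O) (Z := Z)
  have hinj := hg.injective (IsFractionRing.injective O K)
  let : Algebra Z F := g.toAlgebra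
  let M := Fin m → F
  let : Module A M := Module.compHom M
    ((Matrix.toLinAlgEquiv' (R := F) (n := Fin m)).toAlgHom.toRingHom.comp ψ)
  have hs : ∀ (a : A) (x : M), a • x = Matrix.mulVec (ψ a) x := fun _ _ => rfl
  have hz : ∀ (z : Z) (x : M), z • x = g z • x := fun _ _ => rfl
  have : IsScalarTower Z A M := ⟨fun r a x => by
    rw [hs, hs, Algebra.smul_def, map_mul, hψ, ← Algebra.smul_def, Matrix.smul_mulVec, hz]⟩
  let L : Submodule A M := Submodule.span A (Set.range (Pi.basisFun F (Fin m)))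
  have : Module.Finite A L := Module.Finite.span_of_finite A (Set.finite_range _)
  have : Module.Finite Z L := Module.Finite.trans A L
  have hu : ∀ r : O, r ≠ 0 → IsUnit (g (algebraMap O Z r)) := fun r hr => by
    rw [hg.alg]
    exact (IsUnit.mk0 _ ((map_ne_zero_iff _ (IsFractionRing.injective O K)).2 hr)).map _
  have hproj : Module.Projective Z L := by
    obtain ⟨r, π, hπ⟩ := Module.Finite.exists_fin' Z L
    obtain ⟨p, p1, p2⟩ := exists_proj_of_saturated ((LinearMap.ker π).restrictScalars O)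
      fun c y hc hy => by
        have h1 : π (c • y) = 0 := hy
        rw [← algebraMap_smul Z, map_smul] at h1
        have h2 : g (algebraMap O Z c) • (π y : M) = 0 := congrArg Subtype.val h1
        exact Subtype.ext ((hu c hc).smul_eq_zero.1 h2)
    obtain ⟨n, x, y, h1, h2⟩ := hav
    let q : (Fin r → Z) →ₗ[Z] (Fin r → Z) :=
      { toFun := fun w => ∑ i, x i • p (y i • w)
        map_add' := fun v w => by simp only [smul_add, map_add, Finset.sum_add_distrib]
        map_smul' := fun z w => funext fun k => by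
          have h3 := h2 ((LinearMap.proj k).comp (p.comp
            ((LinearMap.toSpanSingleton Z _ w).restrictScalars O))) z
          simp only [RingHom.id_apply, Pi.smul_apply, Finset.sum_apply, smul_eq_mul, ← mul_smul]
          exact h3.symm }
    have q1 : ∀ w, π (q w) = 0 := fun w => by
      change π (∑ i, x i • p (y i • w)) = 0
      rw [map_sum]
      exact Finset.sum_eq_zero fun i _ => by
        rw [map_smul, show π (p (y i • w)) = 0 from p1 _, smul_zero]
    have q2 : ∀ w, π w = 0 → q w = w := fun w hw => by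
      change ∑ i, x i • p (y i • w) = w
      conv_rhs => rw [← one_smul Z w, ← h1, Finset.sum_smul]
      exact Finset.sum_congr rfl fun i _ => by
        rw [p2 _ (show π (y i • w) = 0 by rw [map_smul, hw, smul_zero]), mul_smul]
    let s := ((LinearMap.ker π).liftQ (LinearMap.id - q) fun w hw => by
      rw [LinearMap.mem_ker, LinearMap.sub_apply, q2 w hw]; exact sub_self w).comp
      (π.quotKerEquivOfSurjective hπ).symm.toLinearMap
    refine Module.Projective.of_split s π (LinearMap.ext fun w => ?_)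
    obtain ⟨w, rfl⟩ := hπ w
    have h3 : (π.quotKerEquivOfSurjective hπ).symm (π w) = Submodule.Quotient.mk w :=
      (LinearEquiv.symm_apply_eq _).2 rfl
    rw [LinearMap.comp_apply, LinearMap.comp_apply, LinearEquiv.coe_coe, h3,
      Submodule.liftQ_apply, LinearMap.sub_apply, map_sub, q1, sub_zero, LinearMap.id_apply,
      LinearMap.id_apply]
  let v : (Fin m → Z) →ₗ[Z] L := Fintype.linearCombination Z fun i =>
    ⟨Pi.basisFun F (Fin m) i, Submodule.subset_span ⟨i, rfl⟩⟩
  have hv : ∀ w i, (v w : M) i = g (w i) := fun w i => by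
    simp [v, M, Fintype.linearCombination_apply, hz, Pi.single_apply]
  have hd : ∀ y : L, ∃ c ∈ nonZeroDivisors O, algebraMap O Z c • y ∈ LinearMap.range v := fun y => by
    choose c hc a ha using fun i => wv_frac (nonZeroDivisors O) hg ((y : M) i)
    refine ⟨∏ i, c i, prod_mem fun i _ => hc i,
      fun i => algebraMap O Z (∏ k ∈ Finset.univ.erase i, c k) * a i, Subtype.ext (funext fun i => ?_)⟩
    change _ = g _ * (y : M) i
    rw [hv, map_mul g, ← ha, Algebra.smul_def, ← hg.alg, ← mul_assoc, ← map_mul, ← map_mul,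
      Finset.prod_erase_mul _ _ (Finset.mem_univ i)]
  obtain ⟨r, π, hπ⟩ := Module.Finite.exists_fin' Z L
  choose c hc h1 using fun k => hd (π (Pi.single k 1))
  obtain ⟨b⟩ := xrep_free v (fun w w' e => funext fun i => hinj (by rw [← hv, ← hv, e]))
    (wv_nzd (Z := Z) (nonZeroDivisors.ne_zero (prod_mem fun k (_ : k ∈ Finset.univ) => hc k)))
    fun y => by
      obtain ⟨w, rfl⟩ := hπ y
      rw [pi_eq_sum_univ' w, map_sum, Finset.smul_sum]
      refine Submodule.sum_mem _ fun k _ => ?_
      rw [map_smul, smul_comm, ← Finset.prod_erase_mul _ _ (Finset.mem_univ k), map_mul, mul_smul]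
      exact Submodule.smul_mem _ _ (Submodule.smul_mem _ _ (h1 k))
  exact ⟨(LinearMap.toMatrixAlgEquiv b).toAlgHom.comp (Algebra.lsmul Z Z L)⟩

end Pool.Agent.GSD
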