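import Pool.Agent.P.MP_c1f06d_ag.su.GeoD
import Pool.Agent.P.MP_c1f06d_ag.su.SM
import Pool.Agent.P.MP_c1f06d_ag.w.SL

open Polynomial

universe u

namespace Pool.Agent.GW

open Pool.Agent.P.MP_c1f06d_ag Pool.Agent.SU

variable {Z B B' O : Type u} [CommRing Z] [CommRing B] [CommRing B'] [CommRing O]

theorem etale_smooth {f : Z →+* B} (hf : f.Etale) : f.Smooth :=
  ((RingHom.etale_iff_formallyUnramified_and_smooth f).1 hf).2

/-- The property holds on a smooth neighbourhood of every section over the diagonal. -/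
def NearS (W : Pr Z B) (ρ : B →+* Z) : Prop :=
  ∀ (A : Type u) [CommRing A] (i : Z →+* A) (ψ : B →+* A) (σ : A →+* Z),
    σ.comp i = RingHom.id Z → σ.comp ψ = ρ →
    ∃ (A' : Type u) (_ : CommRing A') (f : A →+* A') (σ' : A' →+* Z),
      f.Smooth ∧ σ'.comp f = σ ∧ W A' (f.comp i) (f.comp ψ)

theorem nearS_of_near {W : Pr Z B} {ρ : B →+* Z} (h : W.Near ρ) : NearS W ρ :=
  fun A _ i ψ σ hi hψ =>
    let ⟨A', c, f, σ', h1, h2, h3⟩ := h A i ψ σ hi hψ
    ⟨A', c, f, σ', etale_smooth h1, h2, h3⟩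

theorem NearS.and {W W' : Pr Z B} {ρ : B →+* Z} (hs : W.Stable) (h : NearS W ρ) (h' : NearS W' ρ) :
    NearS (fun A _ i ψ => W A i ψ ∧ W' A i ψ : Pr Z B) ρ := by
  intro A _ i ψ σ hi hψ
  obtain ⟨A1, _, f1, σ1, e1, c1, w1⟩ := h A i ψ σ hi hψ
  obtain ⟨A2, _, f2, σ2, e2, c2, w2⟩ := h' A1 (f1.comp i) (f1.comp ψ) σ1
    (by rw [← RingHom.comp_assoc, c1, hi]) (by rw [← RingHom.comp_assoc, c1, hψ])
  exact ⟨A2, inferInstance, f2.comp f1, σ2, e1.comp e2,
    by rw [← RingHom.comp_assoc, c2, c1], hs _ _ f2 _ _ w1, w2⟩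

/-- A formally smooth natural system of equations with a solution along `σ` has a solution on a
smooth neighbourhood of `σ`. -/
theorem exists_smooth_sol {C R : Type u} [CommRing C] [CommRing R] (σ : C →+* R)
    {ι κ : Type} [Finite ι] [Finite κ]
    (F : ∀ (T : Type u) [CommRing T], (C →+* T) → (ι → T) → κ → T)
    (hnat : ∀ (T T' : Type u) [CommRing T] [CommRing T'] (f : C →+* T) (g : T →+* T') (x : ι → T),
      F T' (g.comp f) (g ∘ x) = g ∘ F T f x)
    (hlift : ∀ (T : Type u) [CommRing T] (f : C →+* T) (I : Ideal T), I ^ 2 = ⊥ → ∀ x : ι → T,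
      (∀ a, F T f x a ∈ I) → ∃ y : ι → T, (∀ i, y i - x i ∈ I) ∧ F T f y = 0)
    (x0 : ι → R) (h0 : F R σ x0 = 0) :
    ∃ (C' : Type u) (_ : CommRing C') (f : C →+* C') (σ' : C' →+* R) (x : ι → C'),
      f.Smooth ∧ σ'.comp f = σ ∧ σ' ∘ x = x0 ∧ F C' f x = 0 := by
  let J : Ideal (MvPolynomial ι C) :=
    Ideal.span (Set.range (F (MvPolynomial ι C) MvPolynomial.C MvPolynomial.X))
  let xH : ι → MvPolynomial ι C ⧸ J := Ideal.Quotient.mk J ∘ MvPolynomial.X
  have hal : algebraMap C (MvPolynomial ι C ⧸ J) = (Ideal.Quotient.mk J).comp MvPolynomial.C := rfl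
  have hH : F (MvPolynomial ι C ⧸ J) (algebraMap C _) xH = 0 := by
    rw [hal, hnat]
    funext a
    exact Ideal.Quotient.eq_zero_iff_mem.mpr (Ideal.subset_span ⟨a, rfl⟩)
  have hsol : ∀ (T : Type u) [CommRing T] (φ : (MvPolynomial ι C ⧸ J) →+* T),
      F T (φ.comp (algebraMap C _)) (φ ∘ xH) = 0 := by
    intro T _ φ
    rw [hnat, hH]
    funext a
    exact map_zero φ
  have hhom : ∀ (T : Type u) [CommRing T] (f : C →+* T) (y : ι → T), F T f y = 0 →
      ∃ φ : (MvPolynomial ι C ⧸ J) →+* T, φ.comp (algebraMap C _) = f ∧ φ ∘ xH = y := by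
    intro T _ f y hy
    have e1 : (MvPolynomial.eval₂Hom f y).comp MvPolynomial.C = f := by
      ext a
      simp
    have e2 : (MvPolynomial.eval₂Hom f y) ∘ MvPolynomial.X = y := by
      funext i
      simp
    have hk : J ≤ RingHom.ker (MvPolynomial.eval₂Hom f y) := by
      refine Ideal.span_le.mpr ?_
      rintro _ ⟨a, rfl⟩
      have := congrFun (hnat _ T MvPolynomial.C (MvPolynomial.eval₂Hom f y) MvPolynomial.X) a
      rw [e1, e2, hy] at this
      exact this.symm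
    exact ⟨Ideal.Quotient.lift J (MvPolynomial.eval₂Hom f y) fun a ha => hk ha, e1, e2⟩
  have : Algebra.FinitePresentation C (MvPolynomial ι C ⧸ J) :=
    Algebra.FinitePresentation.quotient (Submodule.fg_span (Set.finite_range _))
  have : Algebra.FormallySmooth C (MvPolynomial ι C ⧸ J) := by
    refine Algebra.FormallySmooth.of_comp_surjective fun B _ _ I hI ψ => ?_
    choose x hx using fun i => Ideal.Quotient.mk_surjective (I := I) (ψ (xH i))
    have e1 : (Ideal.Quotient.mk I).comp (algebraMap C B) =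
        ψ.toRingHom.comp (algebraMap C _) := by
      ext a
      exact (ψ.commutes a).symm
    have e2 : Ideal.Quotient.mk I ∘ x = ψ.toRingHom ∘ xH := funext hx
    obtain ⟨y, hy, hF⟩ := hlift B (algebraMap C B) I hI x fun a => by
      have := congrFun (hnat B _ (algebraMap C B) (Ideal.Quotient.mk I) x) a
      rw [e1, e2, hsol] at this
      exact Ideal.Quotient.eq_zero_iff_mem.mp this.symm
    obtain ⟨φ, h1, h2⟩ := hhom B (algebraMap C B) y hF
    refine ⟨{ φ with commutes' := fun a => RingHom.congr_fun h1 a }, ?_⟩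
    refine Ideal.Quotient.algHom_ext _ (MvPolynomial.algHom_ext fun i => ?_)
    show Ideal.Quotient.mk I (φ (xH i)) = ψ (xH i)
    rw [← hx i, show φ (xH i) = y i from congrFun h2 i]
    exact Ideal.Quotient.eq.mpr (hy i)
  obtain ⟨τ, t1, t2⟩ := hhom R σ x0 h0
  exact ⟨_, inferInstance, algebraMap C _, τ, xH, RingHom.smooth_algebraMap.2 ⟨this, ‹_›⟩, t1, t2,
    hH⟩

/-- The geometric principle over a base `Z`, with the ring `O` at the generic points of the
special fibre. -/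
structure GZ (ρ : B →+* Z) (ω : Z →+* O) : Prop where
  lp : LocPres ρ 0
  lpO : LocPres (ω.comp ρ) 0
  geo : ∀ D : ℕ, 0 < D → ∀ W : Pr Z B, W.Stable → NearS W ρ → ∀ F, IsUnit (ω (ρ F)) →
    ∃ (P : Z[X]) (k : ℕ) (ψ : B →+* AdjoinRoot P), P.Monic ∧ P.natDegree = D * k + 1 ∧
      IsUnit (ψ F) ∧ W (AdjoinRoot P) (AdjoinRoot.of P) ψ

variable {ρ : B →+* Z} {ω : Z →+* O} {j : B →+* B'}

/-- The principle passes to neighbourhoods. -/
theorem GZ.nb {ρ' : B' →+* Z} (h : GZ ρ ω) (hn : Nb ρ j ρ') : GZ ρ' ω := by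
  refine ⟨hn.lp, ⟨map_zero _, fun r => ?_, fun b hb => ?_⟩, fun D hD W hs hW F hF => ?_⟩
  · obtain ⟨a, s, hs, e⟩ := h.lpO.surj r
    refine ⟨j a, j s, ?_, ?_⟩ <;> simp only [RingHom.comp_apply, hn.apply]
    exacts [hs, e]
  · obtain ⟨a, s, hs, e⟩ := hn.frac b
    obtain ⟨t, ht, hd⟩ := h.lpO.ker a (by
      rw [RingHom.comp_apply, ← hn.apply, ← e, map_mul, map_mul]
      exact mul_eq_zero_of_left hb _)
    refine ⟨j t * j s, ?_, ?_⟩
    · rw [map_mul]
      refine IsUnit.mul ?_ (hs.map _)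
      rwa [RingHom.comp_apply, hn.apply]
    · rw [mul_assoc, mul_comm _ b, e, ← map_mul, zero_dvd_iff.1 hd, map_zero]
  obtain ⟨a, s, hu, e⟩ := hn.frac F
  obtain ⟨F0, hF0, hx⟩ := hn.ext
  have ha : IsUnit (ω (ρ a)) := by
    rw [← hn.apply, ← e, map_mul, map_mul]
    exact hF.mul ((hu.map ρ').map ω)
  obtain ⟨P, k, ψ, hP, hd, hψ, ψ', rfl, hw⟩ := h.geo D hD
    (fun A _ i ψ => ∃ ψ' : B' →+* A, ψ'.comp j = ψ ∧ W A i ψ')
    (fun A A' _ _ χ i ψ ⟨ψ', e', hw⟩ => ⟨χ.comp ψ', e' ▸ rfl, hs _ _ χ _ _ hw⟩)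
    (fun A _ i ψ σ hi hψ => by
      obtain ⟨A1, _, f1, σ1, e1, c1, u1⟩ := exists_etale_unit σ (ψ F0)
        (by rw [← RingHom.comp_apply, hψ, ← hn.apply]; exact hF0.map ρ')
      obtain ⟨ψ1, hψ1⟩ := hx A1 (f1.comp ψ) u1
      obtain ⟨A2, _, f2, σ2, e2, c2, w2⟩ := hW A1 (f1.comp i) ψ1 σ1
        (by rw [← RingHom.comp_assoc, c1, hi])
        (hn.epi (by rw [RingHom.comp_assoc, hψ1, ← RingHom.comp_assoc, c1, hψ, hn.comp]))
      exact ⟨A2, inferInstance, f2.comp f1, σ2, (etale_smooth e1).comp e2,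
        by rw [← RingHom.comp_assoc, c2, c1], f2.comp ψ1,
        by rw [RingHom.comp_assoc, hψ1]; rfl, w2⟩) a ha
  refine ⟨P, k, ψ', hP, hd, ?_, hw⟩
  rw [RingHom.comp_apply, ← e, map_mul] at hψ
  exact isUnit_of_mul_isUnit_left hψ

/-- Data over `O`, spread to a neighbourhood `B'`, are carried to a monogenic algebra of degree
`D k + 1`. -/
theorem GZ.run (h : GZ ρ ω) {ρ' : B' →+* O} (hn : Nb (ω.comp ρ) j ρ')
    (D : ℕ) (hD : 0 < D) (W : Pr Z B) (hs : W.Stable) (hW : NearS W ρ) :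
    ∃ (P : Z[X]) (k : ℕ) (ψ' : B' →+* AdjoinRoot P), P.Monic ∧ P.natDegree = D * k + 1 ∧
      W (AdjoinRoot P) (AdjoinRoot.of P) (ψ'.comp j) := by
  obtain ⟨F, hF, hx⟩ := hn.ext
  have h1 : IsUnit (ω (ρ F)) := by
    have := hF.map ρ'
    rwa [hn.apply] at this
  obtain ⟨P, k, ψ, hP, hd, hψ, hw⟩ := h.geo D hD W hs hW F h1
  obtain ⟨ψ', rfl⟩ := hx _ ψ hψ
  exact ⟨P, k, ψ', hP, hd, hw⟩

/-- The geometric principle holds for `Z`, with a semilocal arithmetical domain `O` between `Z` and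
its fraction field `K`. -/
def Geo (Z K : Type u) [CommRing Z] [Field K] [Algebra Z K] : Prop :=
  ∃ (B : Type u) (_ : CommRing B) (ρ : B →+* Z) (O : Type u) (_ : CommRing O) (_ : IsDomain O)
    (_ : Algebra Z O) (_ : Algebra O K) (_ : IsScalarTower Z O K) (_ : IsFractionRing O K)
    (_ : Finite (MaximalSpectrum O)), ResInf O ∧ Arith O ∧ GZ ρ (algebraMap Z O)

/-- `Z1` is a localisation of `Z[X]` with infinite residue fields to which the principle applies,
and the polynomials that are inverted are nonzero modulo every maximal ideal of `Z`. -/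
def GeoX (Z K : Type u) [CommRing Z] [Field K] [Algebra Z K] : Prop :=
  ∃ (Z1 K1 : Type u) (_ : CommRing Z1) (_ : IsDomain Z1) (_ : Finite (MaximalSpectrum Z1))
    (_ : Field K1) (_ : Algebra Z1 K1) (_ : IsFractionRing Z1 K1) (ζ : Z[X] →+* Z1)
    (κ : K →+* K1), ResInf Z1 ∧ Geo Z1 K1 ∧
      κ.comp (algebraMap Z K) = (algebraMap Z1 K1).comp (ζ.comp C) ∧ LocPres ζ 0 ∧
      ∀ F, IsUnit (ζ F) → ∀ N, F.map (rf N) ≠ 0

/-- `Z = R[θ] = R[X] / (f)` with `f` monic and `f'(θ)` a unit. -/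
structure Mono {R Z : Type*} [CommRing R] [CommRing Z] [Algebra R Z] (f : R[X]) (θ : Z) : Prop where
  monic : f.Monic
  root : aeval θ f = 0
  deriv : IsUnit (aeval θ (derivative f))
  surj : ∀ z, ∃ p : R[X], aeval θ p = z
  ker : ∀ p : R[X], aeval θ p = 0 → f ∣ p

end Pool.Agent.GW
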