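import Pool.Agent.P.MP_c1f06d_ag.d.EqD
import Pool.Agent.P.MP_c1f06d_ag.w.GZ

open Matrix Polynomial

universe u

namespace Pool.Agent.GSD

open Pool.Agent.SU SAlg Pool.Agent.P.MP_c1f06d_ag Pool.Agent.GW

variable {T R : Type u} [CommRing T] [CommRing R] {N : ℕ} {A A1 A2 : SAlg T N}

/-- Algebras with quadratic pair that agree along a section are isomorphic near it. -/
theorem exists_smooth_qiso (σ : T →+* R) (h : A1.map σ = A2.map σ)
    {l1 : A1.Car} {l2 : A2.Car} (hl : σ ∘ l1.co = σ ∘ l2.co) (h1 : QN A1 l1) (h2 : QM A2 l2) :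
    ∃ (T' : Type u) (_ : CommRing T') (f : T →+* T') (σ' : T' →+* R), f.Smooth ∧ σ'.comp f = σ ∧
      ∃ Φ : SIso (A1.map f) (A2.map f), (∀ x, σ' ∘ (Φ.e x).co = σ' ∘ x.co) ∧
        Alt (Φ.e (A1.bc f l1) - A2.bc f l2) := by
  obtain ⟨T', _, f, σ', x, hf, hc, hx, h0⟩ := exists_smooth_sol σ
    (fun S _ f x => eqd_F (A1.map f) (A2.map f) (A1.bc f l1) (A2.bc f l2) x)
    (fun S S' _ _ f g x => eqd_nat (l1 := A1.bc f l1) (l2 := A2.bc f l2) g x)
    (fun S _ f I hI x hx => eqd_lift (h1.map f) (h2.map f) I hI x hx)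
    (Sum.elim (fun o => o.elim 1 fun q => (1 : Matrix (Fin N) (Fin N) R) q.1 q.2) 0) (by
      funext k
      rcases k with k | a
      · refine congrFun (?_ : eqa2_F _ _ _ = 0) k
        rw [h, eqa2_iff]
        change (1 : R) * (1 : Matrix (Fin N) (Fin N) R).det = 1 ∧ (1 : Matrix _ _ R) *ᵥ _ = _ ∧
          (∀ i, (1 : Matrix _ _ R) * _ = (∑ c, (1 : Matrix _ _ R) c i • _) * (1 : Matrix _ _ R)) ∧
          (1 : Matrix _ _ R) * _ = _ * (1 : Matrix _ _ R)
        simp [Matrix.one_apply]
      · change ((1 : Matrix _ _ R) *ᵥ (σ ∘ l1.co)) a - (σ ∘ l2.co) a - (0 - (_ *ᵥ 0) a) = 0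
        rw [one_mulVec, hl, mulVec_zero]; simp)
  obtain ⟨Φ, hΦ, hΦl⟩ := eqd_siso h0
  refine ⟨T', inferInstance, f, σ', hf, hc, Φ, fun y => funext fun k => ?_, _, hΦl⟩
  have h1 : (eqa2_mat (x ∘ Sum.inl)).map σ' = 1 :=
    Matrix.ext fun a b => congrFun hx (.inl (some (a, b)))
  rw [hΦ, Function.comp_apply, RingHom.map_mulVec, h1, one_mulVec]

/-- Regular forms that agree along a section are isometric near it. -/
theorem exists_smooth_form (σ : T →+* R) {θ1 θ2 : A.Car}
    (hu : IsUnit (θ2 + star θ2)) (h : A.bc σ θ1 = A.bc σ θ2) :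
    ∃ (T' : Type u) (_ : CommRing T') (f : T →+* T') (σ' : T' →+* R), f.Smooth ∧ σ'.comp f = σ ∧
      ∃ y : (A.map f).Car, σ' ∘ y.co = σ ∘ A.one ∧ Alt (star y * A.bc f θ1 * y - A.bc f θ2) := by
  obtain ⟨T', _, f, σ', x, hf, hc, hx, h0⟩ := exists_smooth_sol σ (ι := Fin N ⊕ Fin N)
    (fun S _ f x => (star ⟨x ∘ Sum.inl⟩ * A.bc f θ1 * ⟨x ∘ Sum.inl⟩ - A.bc f θ2 -
      (⟨x ∘ Sum.inr⟩ - star ⟨x ∘ Sum.inr⟩) : (A.map f).Car).co)
    (fun S S' _ _ f g x => by
      rw [← co_bc]
      simp only [map_sub, map_mul, bc_star]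
      rfl)
    (fun S _ f I hI x hx => by
      obtain ⟨v, hv⟩ := (hu.map (A.bc f)).exists_right_inv
      rw [map_add, bc_star] at hv
      have hx' := sm_car.2 hx
      generalize A.bc f θ1 = t1 at *
      generalize A.bc f θ2 = t2 at *
      obtain ⟨y, hy⟩ : ∃ y : (A.map f).Car, y = ⟨x ∘ Sum.inl⟩ := ⟨_, rfl⟩
      obtain ⟨c, hc⟩ : ∃ y : (A.map f).Car, y = ⟨x ∘ Sum.inr⟩ := ⟨_, rfl⟩
      rw [← hy, ← hc] at hx'
      obtain ⟨n, hn⟩ : ∃ n, n = star y * t1 * y - t2 - (c - star c) := ⟨_, rfl⟩
      rw [← hn] at hx'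
      obtain ⟨w, hw⟩ : ∃ w, w = v * n := ⟨_, rfl⟩
      have hwI : w ∈ Sm I _ := hw ▸ sm_mul_left v hx'
      have hws : star w ∈ Sm I _ := sm_map (A.map f).stL hwI
      have a1 : y * (1 - w) - y ∈ Sm I _ := by
        have := neg_mem (sm_mul_left y hwI)
        refine (congrArg (· ∈ Sm I _) ?_).mp this
        noncomm_ring
      have a2 : (1 - star w) * c * (1 - w) - star w * t2 - c ∈ Sm I _ := by
        have := neg_mem (add_mem (add_mem (sm_mul_right c hws) (sm_mul_left ((1 - star w) * c) hwI))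
          (sm_mul_right t2 hws))
        refine (congrArg (· ∈ Sm I _) ?_).mp this
        noncomm_ring
      refine ⟨Sum.elim (y * (1 - w)).co ((1 - star w) * c * (1 - w) - star w * t2).co, ?_, ?_⟩
      · rintro (a | a)
        · have := sm_car.1 a1 a
          rwa [co_sub, Pi.sub_apply, show y.co a = x (.inl a) by rw [hy]; rfl] at this
        · have := sm_car.1 a2 a
          rwa [co_sub, Pi.sub_apply, show c.co a = x (.inr a) by rw [hc]; rfl] at this
      · change (star (y * (1 - w)) * t1 * (y * (1 - w)) - t2 -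
          (((1 - star w) * c * (1 - w) - star w * t2) -
            star ((1 - star w) * c * (1 - w) - star w * t2))).co = (0 : (A.map f).Car).co
        congr 1
        have k0 : star (y * (1 - w)) * t1 * (y * (1 - w)) =
            (1 - star w) * (t2 + (c - star c) + n) * (1 - w) := by
          rw [hn, star_mul, star_sub, star_one]; noncomm_ring
        have k1 : (t2 + star t2) * w = n := by rw [hw, ← mul_assoc, hv, one_mul]
        have k2 := sm_mul hI hws hx'
        have k3 := sm_mul hI hx' hwI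
        have k4 := sm_mul hI (sm_mul_right t2 hws) hwI
        have k5 : (1 - star w) * n * (1 - w) = (t2 + star t2) * w := by
          rw [k1, sub_mul, one_mul, k2, sub_zero, mul_sub, k3, sub_zero, mul_one]
        rw [k0, mul_add, add_mul, k5, ← k4]
        simp only [star_sub, star_mul, star_one, star_star]
        noncomm_ring)
    (Sum.elim (σ ∘ A.one) 0) (by
      change (star 1 * A.bc σ θ1 * 1 - A.bc σ θ2 - (0 - star 0)).co = (0 : (A.map σ).Car).co
      rw [h]; simp)
  exact ⟨T', inferInstance, f, σ', hf, hc, ⟨x ∘ Sum.inl⟩, funext fun a => congrFun hx (.inl a),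
    ⟨x ∘ Sum.inr⟩, sub_eq_zero.1 (Car.ext h0)⟩

/-- A simple root along a section exists on a smooth neighbourhood. -/
theorem xeq_root (σ : T →+* R) (F : T[X]) (h0 : σ (F.coeff 0) = 0)
    (h1 : IsUnit (σ (F.coeff 1))) :
    ∃ (T' : Type u) (_ : CommRing T') (f : T →+* T') (σ' : T' →+* R) (s : T'),
      f.Smooth ∧ σ'.comp f = σ ∧ (F.map f).eval s = 0 := by
  obtain ⟨v, hv⟩ := h1.exists_left_inv
  obtain ⟨T', _, f, σ', x, hf, hc, -, hx⟩ := exists_smooth_sol σ (ι := Bool) (κ := Bool)
    (fun S _ f x b => cond b ((F.map f).eval (x true))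
      (x false * (F.map f).derivative.eval (x true) - 1))
    (fun S S' _ _ f g x => funext fun b => by
      cases b <;> simp [← Polynomial.map_map, eval_map, ← hom_eval₂, eval₂_map])
    (fun S _ f I hI x hx => by
      have sq : ∀ a ∈ I, ∀ b ∈ I, a * b = 0 := fun a ha b hb => by
        have : a * b ∈ I ^ 2 := by rw [sq]; exact Ideal.mul_mem_mul ha hb
        rwa [hI, Ideal.mem_bot] at this
      generalize F.map f = G at hx ⊢
      have a1 : G.eval (x true) ∈ I := hx true
      have a2 : x false * G.derivative.eval (x true) - 1 ∈ I := hx false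
      have a3 : -(x false * G.eval (x true)) ∈ I := I.neg_mem (I.mul_mem_left _ a1)
      have a4 := fun p : S[X] => p.eval_add_of_sq_eq_zero (x true) _ ((pow_two _).trans (sq _ a3 _ a3))
      have a5 : x false * G.derivative.eval (x true + -(x false * G.eval (x true))) - 1 ∈ I := by
        rw [a4, mul_add, add_sub_right_comm]
        exact I.add_mem a2 (I.mul_mem_left _ (I.mul_mem_left _ a3))
      refine ⟨fun b => cond b (x true + -(x false * G.eval (x true))) (x false - x false *
        (x false * G.derivative.eval (x true + -(x false * G.eval (x true))) - 1)),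
        fun b => ?_, funext fun b => ?_⟩
      · cases b
        · simpa using I.mul_mem_left _ a5
        · simpa using a3
      · cases b
        · have := sq _ a5 _ a5
          simp only [cond_false, cond_true, Pi.zero_apply]
          linear_combination -this
        · have := sq _ a1 _ a2
          simp only [cond_true, Pi.zero_apply, a4]
          linear_combination -this)
    (fun b => cond b 0 v) (funext fun b => by
      cases b <;> simp [← coeff_zero_eq_eval_zero, coeff_derivative, h0, hv])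
  exact ⟨T', inferInstance, f, σ', x true, hf, hc, congrFun hx true⟩

end Pool.Agent.GSD
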