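import Pool.Agent.P.MP_c1f06d_ag.w.XGeo
import Pool.Agent.P.MP_c1f06d_ag.w.XEq

open Matrix Polynomial

universe u

namespace Pool.Agent.GSD

open Pool.Agent.SU SAlg Pool.Agent.P.MP_c1f06d_ag Pool.Agent.GW

variable {N : ℕ}

/-- The inputs of a run: `gd` is what is known on the given algebra, `ad` the conditions on the
data, `p0` the property over the fraction field, `p1` the property over a finite extension of
degree `1 mod D`, `p2` the property that is proved. -/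
structure SysZ (D : ℕ) (gd : ∀ (T : Type u) [CommRing T] (A : SAlg T N), A.Car → Prop)
    (ad p0 p1 p2 : Pr3.{u} N) : Prop where
  pos : 0 < D
  qn : ∀ (T : Type u) [CommRing T] (A : SAlg T N) (l : A.Car), gd T A l → QN A l
  gd_bc : ∀ (T T' : Type u) [CommRing T] [CommRing T'] (f : T →+* T') (A : SAlg T N) (l : A.Car),
    gd T A l → gd T' (A.map f) (A.bc f l)
  ad_bc : ad.Bc
  p0_bc : p0.Bc
  p2_bc : ∀ (T T' : Type u) [CommRing T] [CommRing T'] (f : T →+* T') (A : SAlg T N)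
    (l x : A.Car) (c : T), gd T A l → p2 T A l x c → p2 T' (A.map f) (A.bc f l) (A.bc f x) (f c)
  ad_iso : ad.Iso
  p0_iso : p0.Iso
  ad_spread : ad.Spread fun _ _ _ _ => True
  p0_spread : p0.Spread fun _ _ _ _ => True
  p2_spread : p2.Spread gd
  near : ∀ (T R : Type u) [CommRing T] [CommRing R]
    (i : R →+* T) (σ : T →+* R), σ.comp i = RingHom.id R → ∀ (A : SAlg R N) (l : A.Car)
    (x1 x2 : (A.map i).Car) (c1 c2 : T), gd R A l → ad T _ (A.bc i l) x1 c1 →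
    ad T _ (A.bc i l) x2 c2 → (A.map i).bc σ x1 = (A.map i).bc σ x2 → σ c1 = σ c2 →
    ∃ (T' : Type u) (_ : CommRing T') (f : T →+* T') (σ' : T' →+* R), f.Smooth ∧ σ'.comp f = σ ∧
      ∀ (S : Type u) [CommRing S] (χ : T' →+* S),
        p0 S ((A.map i).map (χ.comp f)) (A.bc ((χ.comp f).comp i) l)
          ((A.map i).bc (χ.comp f) x2) (χ (f c2)) →
        p1 S ((A.map i).map (χ.comp f)) (A.bc ((χ.comp f).comp i) l)
          ((A.map i).bc (χ.comp f) x1) (χ (f c1))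
  val : ∀ (O K : Type u) [CommRing O] [IsDomain O] [Field K] [Algebra O K], OverVal O K →
    ∀ (A : SAlg O N) (l x : A.Car) (c : O), gd O A l →
    ad O A l x c → p0 K (A.map (algebraMap O K)) (A.bc _ l) (A.bc _ x) (algebraMap O K c) →
    p0 O A l x c
  desc : ∀ (R : Type u) [CommRing R] [Finite (MaximalSpectrum R)] (A : SAlg R N)
    (l x : A.Car) (c : R), gd R A l → ad R A l x c → ∀ (P : R[X]) (k : ℕ), P.Monic →
    P.natDegree = D * k + 1 →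
    p1 (AdjoinRoot P) (A.map (AdjoinRoot.of P)) (A.bc _ l) (A.bc _ x) (AdjoinRoot.of P c) →
    p2 R A l x c
  fin : ∀ (R : Type u) [CommRing R] [Finite (MaximalSpectrum R)] (A : SAlg R N)
    (l x : A.Car) (c : R), gd R A l → ad R A l x c → ∀ (P : R[X]) (k : ℕ), P.Monic →
    P.natDegree = D * k + 1 →
    p2 (AdjoinRoot P) (A.map (AdjoinRoot.of P)) (A.bc _ l) (A.bc _ x) (AdjoinRoot.of P c) →
    p2 R A l x c

variable {D : ℕ} {gd : ∀ (T : Type u) [CommRing T] (A : SAlg T N), A.Car → Prop}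
  {ad p0 p1 p2 : Pr3.{u} N} (s : SysZ D gd ad p0 p1 p2)
include s

theorem SysZ.model {B O : Type u} [CommRing B] [CommRing O] {ρ : B →+* O} (h : LocPres ρ 0)
    (A : SAlg O N) {l x : A.Car} {c : O} (hA : gd O A l) (hx : ad O A l x c) :
    ∃ (B' : Type u) (_ : CommRing B') (j : B →+* B') (ρ' : B' →+* O), Nb ρ j ρ' ∧
      ∃ (A0 : SAlg B' N) (l0 x0 : A0.Car) (c0 : B'), A0.map ρ' = A ∧ ρ' ∘ l0.co = l.co ∧
        ρ' ∘ x0.co = x.co ∧ ρ' c0 = c ∧ QM A0 l0 ∧ ad B' A0 l0 x0 c0 := by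
  obtain ⟨B0, _, j0, ρ0, n0, c0, hc⟩ := exists_nb_lift h fun _ : Unit => c
  obtain ⟨B1, _, j1, ρ1, n1, A1, rfl⟩ := spr_model n0.lp A
  obtain rfl := n1.comp
  obtain ⟨B2, _, j2, ρ2, n2, y, hy⟩ := spr_lift n1.lp A1 ![l, x]
  obtain rfl := n2.comp
  obtain rfl := hc ()
  obtain rfl : (A1.map j2).bc ρ2 (y 0) = l := Car.ext (hy 0)
  obtain rfl : (A1.map j2).bc ρ2 (y 1) = x := Car.ext (hy 1)
  obtain ⟨B3, _, j3, ρ3, n3, q3⟩ := qm_spread n2.lp (A1.map j2) (s.qn _ _ _ hA).toQM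
  obtain rfl := n3.comp
  obtain ⟨B4, _, j4, ρ4, n4, q4⟩ := s.ad_spread _ _ ρ3 n3.lp ((A1.map j2).map j3)
    ((A1.map j2).bc j3 (y 0)) ((A1.map j2).bc j3 (y 1)) (j3 (j2 (j1 (c0 ())))) trivial hx
  obtain rfl := n4.comp
  exact ⟨B4, inferInstance, _, ρ4, (((n0.trans n1).trans n2).trans n3).trans n4, _, _, _, _, rfl,
    rfl, rfl, rfl, q3.map j4, q4⟩

theorem SysZ.wp_near {B R : Type u} [CommRing B] [CommRing R]
    {A : SAlg B N} {l x : A.Car} {c : B} {ρ : B →+* R}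
    (hA : gd R (A.map ρ) (A.bc ρ l)) (hq : QM A l) (h : ad B A l x c) :
    NearS (WP p0 p1 A l x c ρ) ρ := by
  intro T _ i ψ σ hi hψ
  have hc : σ.comp (i.comp ρ) = σ.comp ψ := by rw [← RingHom.comp_assoc, hi, hψ]; rfl
  have hG : gd T (A.map (i.comp ρ)) (A.bc _ l) := s.gd_bc _ _ i _ _ hA
  obtain ⟨T1, _, f1, σ1, e1, c1, Φ, q1, q2⟩ := exists_smooth_qiso (A1 := A.map (i.comp ρ))
    (A2 := A.map ψ) σ (congrArg A.map hc) (l1 := A.bc _ l) (l2 := A.bc _ l)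
    (funext fun a => RingHom.congr_fun hc (l.co a)) (s.qn _ _ _ hG) (hq.map ψ)
  have hk : ∀ b, σ1 (f1 (i (ρ b))) = σ1 (f1 (ψ b)) := fun b =>
    ((RingHom.congr_fun c1 _).trans (RingHom.congr_fun hc b)).trans (RingHom.congr_fun c1 _).symm
  obtain ⟨x2, hx2⟩ := Φ.e.surjective ((A.map ψ).bc f1 (A.bc ψ x))
  obtain ⟨T2, _, f2, σ2, e2, c2, t2⟩ := s.near _ _ (f1.comp i) σ1
    (by rw [← RingHom.comp_assoc, c1, hi]) (A.map ρ) (A.bc ρ l)
    ((A.map (i.comp ρ)).bc f1 (A.bc _ x)) x2 (f1 (i (ρ c))) (f1 (ψ c)) hA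
    (s.ad_bc _ _ (f1.comp (i.comp ρ)) _ _ _ _ h)
    (s.ad_iso _ _ _ Φ _ _ x2 _ q2 (hx2 ▸ s.ad_bc _ _ (f1.comp ψ) _ _ _ _ h))
    (Car.ext ((funext fun a => hk (x.co a)).trans
      ((congrArg (fun z : Car _ => σ1 ∘ z.co) hx2).symm.trans (q1 x2)))) (hk c)
  refine ⟨T2, inferInstance, f2.comp f1, σ2, e1.comp e2,
    by rw [← RingHom.comp_assoc, c2, c1], fun S _ χ ht => t2 S χ ?_⟩
  obtain ⟨Ψ, hΨ⟩ := Φ.exists_map (χ.comp f2)
  refine s.p0_iso _ _ _ Ψ (((A.map (i.comp ρ)).map f1).bc (χ.comp f2)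
    ((A.map (i.comp ρ)).bc f1 (A.bc _ l)))
    (((A.map ψ).map f1).bc (χ.comp f2) ((A.map ψ).bc f1 (A.bc ψ l)))
    (((A.map (i.comp ρ)).map f1).bc (χ.comp f2) x2) _ ?_ ?_
  · rw [hΨ, ← map_sub]
    exact q2.map _ (bc_star _)
  · rw [hΨ, hx2]; exact ht

theorem SysZ.inf {R K : Type u} [CommRing R] [Finite (MaximalSpectrum R)] [Field K] [Algebra R K]
    (hg : GeoV R K) {A : SAlg R N} {l x : A.Car} {c : R} (hA : gd R A l) (h : ad R A l x c)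
    (ht : p0 K (A.map (algebraMap R K)) (A.bc _ l) (A.bc _ x) (algebraMap R K c)) :
    p2 R A l x c := by
  obtain ⟨B, _, ρ, O, _, _, _, _, _, hv, hg⟩ := hg
  obtain ⟨B1, _, j, ρ1, hn, A0, l0, x0, c0, rfl, hl, hx, rfl, q0, h0⟩ := s.model hg.lp A hA h
  obtain rfl : A0.bc ρ1 l0 = l := Car.ext hl
  obtain rfl : A0.bc ρ1 x0 = x := Car.ext hx
  have hg1 := hg.nb hn
  rw [IsScalarTower.algebraMap_eq R O K] at ht
  have hO := s.val O K hv _ _ _ _ (s.gd_bc _ _ (algebraMap R O) _ _ hA)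
    (s.ad_bc _ _ _ _ _ _ _ h) ht
  obtain ⟨B2, _, j2, ρ2, hn2, t2⟩ := s.p0_spread _ _ _ hg1.lpO A0 l0 x0 c0 trivial hO
  obtain ⟨P, k, ψ, hP, hk, hW⟩ := hg1.run hn2 D s.pos (WP p0 p1 A0 l0 x0 c0 ρ1)
    (fun _ _ _ _ χ _ _ h S _ χ' => h S (χ'.comp χ)) (s.wp_near hA q0 h0)
  exact s.desc _ _ _ _ _ hA h P k hP hk (hW _ (RingHom.id _) (s.p0_bc _ _ ψ _ _ _ _ t2))

/-- The property descends from the fraction field. -/
theorem SysZ.main {R K : Type u} [CommRing R] [Nontrivial R] [Finite (MaximalSpectrum R)] [Field K]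
    [Algebra R K] (hG : ResInf R ∧ GeoV R K ∨ ResFin R ∧ GeoXV R K) {A : SAlg R N} {l x : A.Car}
    {c : R} (hA : gd R A l) (h : ad R A l x c)
    (ht : p0 K (A.map (algebraMap R K)) (A.bc _ l) (A.bc _ x) (algebraMap R K c)) :
    p2 R A l x c := by
  obtain ⟨-, hg⟩ | ⟨hfin, R1, K1, _, _, _, _, ζ, j, -, hg, hj, hlp, hζ⟩ := hG
  · exact s.inf hg hA h ht
  have t1 : p0 K1 (A.map (j.comp (algebraMap R K))) (A.bc _ l) (A.bc _ x)
    (j.comp (algebraMap R K) c) := s.p0_bc _ _ j _ _ _ _ ht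
  have t2 : p0 K1 (A.map ((algebraMap R1 K1).comp (ζ.comp Polynomial.C))) (A.bc _ l) (A.bc _ x)
      ((algebraMap R1 K1).comp (ζ.comp Polynomial.C) c) := hj ▸ t1
  have t3 := s.inf hg (s.gd_bc _ _ (ζ.comp Polynomial.C) _ _ hA) (s.ad_bc _ _ _ _ _ _ _ h) t2
  have hX := s.gd_bc _ _ Polynomial.C _ _ hA
  obtain ⟨B2, _, j2, ρ2, hn, t4⟩ := s.p2_spread _ _ _ hlp (A.map Polynomial.C)
    (A.bc Polynomial.C l) (A.bc Polynomial.C x) (Polynomial.C c) hX t3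
  obtain ⟨k, hk⟩ := ResFin.run hfin hζ hn
  obtain ⟨P, ψ, hP, hd, -, hψ⟩ := hk (D * k + 1) (Nat.lt_succ_of_le (Nat.le_mul_of_pos_left k s.pos))
  have t5 : p2 _ (A.map ((ψ.comp j2).comp Polynomial.C)) (A.bc _ l) (A.bc _ x)
    ((ψ.comp j2).comp Polynomial.C c) := s.p2_bc _ _ ψ _ _ _ _ (s.gd_bc _ _ j2 _ _ hX) t4
  exact s.fin R A l x c hA h P k hP hd (hψ ▸ t5)

end Pool.Agent.GSD
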