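import Pool.Agent.P.MP_c1f06d_ag.d.DSplit
import Pool.Agent.P.MP_c1f06d_ag.w.WNP0

open Matrix Module Polynomial Pool.Agent.SU Pool.Agent.P.MP_c1f06d_ag TensorProduct

universe u

namespace Pool.Agent.GSD

/-- Skolem-Noether over a semilocal ring. -/
theorem xspl_inner {S : Type u} [CommRing S] [Finite (MaximalSpectrum S)] {n : Type} [Fintype n]
    [DecidableEq n] (α : Matrix n n S →ₐ[S] Matrix n n S) :
    ∃ g : Matrix n n S, IsUnit g.det ∧ ∀ X, α X * g = g * X := by
  cases isEmpty_or_nonempty n with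
  | inl _ => exact ⟨1, by simp, fun X => Subsingleton.elim _ _⟩
  | inr hn =>
    obtain ⟨i0⟩ := hn
    let p : Submodule S (Matrix n n S) :=
      { carrier := {g | ∀ X, α X * g = g * X}
        add_mem' := fun ha hb X => by rw [mul_add, add_mul, ha X, hb X]
        zero_mem' := fun X => by simp
        smul_mem' := fun c g hg X => by rw [Matrix.mul_smul, Matrix.smul_mul, hg X] }
    have key : ∀ N : MaximalSpectrum S, ∃ g ∈ p, g.det ∉ N.asIdeal := fun N => by
      obtain ⟨a, b, hab⟩ : ∃ a b, α (single i0 i0 1) a b ∉ N.asIdeal := by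
        by_contra hc
        push Not at hc
        exact N.isMaximal.ne_top ((Ideal.eq_top_iff_one _).2
          (dsplit_one_mem α.toRingHom i0 N.asIdeal hc))
      obtain ⟨g, g', hg, hg'⟩ := exists_intertwine α i0 a b
      have e := congrArg det hg'
      rw [det_mul, det_smul, det_one, mul_one] at e
      exact ⟨g, hg, fun h0 => hab (N.isMaximal.isPrime.mem_of_pow_mem _
        (e ▸ N.asIdeal.mul_mem_left _ h0))⟩
    choose x hx hx' using key
    obtain ⟨y, hy, h1⟩ := wnp_glue p x hx
    refine ⟨y, wnp_unit fun N h0 => hx' N ?_, hy⟩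
    have h2 := (bc_mapMatrix (Ideal.Quotient.mk N.asIdeal) n).map_eq_zero_iff.2
      (show y - x N ∈ extI _ (RingHom.ker _) by rw [Ideal.mk_ker]; exact mem_extI_iff.2 (h1 N))
    rw [map_sub, sub_eq_zero] at h2
    rw [← Ideal.Quotient.eq_zero_iff_mem, RingHom.map_det] at h0 ⊢
    rwa [← h2]

variable {Z A : Type u} [CommRing Z] [Finite (MaximalSpectrum Z)] [Ring A] [StarRing A]
  [Algebra Z A] {m : ℕ} {l : A}

/-- A split algebra over a semilocal ring has a split quadratic pair. -/
theorem ASplit.isSplit_semi (h : QAz Z m l) (hs : ASplit Z A m) : IsSplit Z m l := by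
  obtain ⟨φ, hφ⟩ := hs
  have := h.starFix
  have hl := h.add_star
  let e : A ≃+* Matrix (Fin m) (Fin m) Z := RingEquiv.ofBijective φ
    ⟨hφ.injective Function.injective_id, hφ.surjective Function.surjective_id⟩
  have he : ∀ a, e.symm (φ a) = a := e.symm_apply_apply
  obtain ⟨B, hB, hg⟩ := xspl_inner (S := Z) (n := Fin m)
    { toFun := fun X => (φ (star (e.symm X)))ᵀ
      map_one' := by simp
      map_mul' := fun X Y => by rw [map_mul, star_mul, map_mul, transpose_mul]
      map_zero' := by simp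
      map_add' := fun X Y => by rw [map_add, star_add, map_add, transpose_add]
      commutes' := fun r => by
        have e1 : algebraMap Z (Matrix (Fin m) (Fin m) Z) r = φ (algebraMap Z A r) :=
          (hφ.alg r).symm
        rw [e1, he, StarFix.fix, ← e1, Algebra.algebraMap_eq_smul_one, transpose_smul,
          transpose_one] }
  have hadj : ∀ a, B * φ (star a) = (φ a)ᵀ * B := fun a => by
    have e1 := hg (φ (star a))
    change (φ (star (e.symm _)))ᵀ * B = _ at e1
    rw [← e1, he, star_star]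
  have hsym : Bᵀ = B := by
    obtain ⟨S, _, f, φ', Q, hf, hq⟩ := h
    have hbc : BC f ((f.mapMatrix : _ →+* Matrix (Fin m) (Fin m) S).comp φ) :=
      hφ.comp (bc_mapMatrix f (Fin m))
    obtain ⟨κ, hκ, hκa⟩ := hbc.lift (g := RingHom.id S) φ' hq.alg
    let α : Matrix (Fin m) (Fin m) S →ₐ[S] Matrix (Fin m) (Fin m) S := { κ with commutes' := hκa }
    have hα : ∀ a, α ((φ a).map f) = φ' a := fun a => RingHom.congr_fun hκ a
    have h1 : IsUnit (B.map f).det := by
      have e1 := hB.map f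
      rwa [RingHom.map_det] at e1
    have k1 : ∀ X, (Q + Qᵀ) * α ((B.map f)⁻¹ * (Xᵀ * B.map f)) = (α X)ᵀ * (Q + Qᵀ) := fun X => by
      refine hbc.induction
        (p := fun X => (Q + Qᵀ) * α ((B.map f)⁻¹ * (Xᵀ * B.map f)) = (α X)ᵀ * (Q + Qᵀ)) (by simp)
        (fun t a => ?_) (fun X Y hX hY => ?_) X
      · have e1 : ((φ a).map f)ᵀ * B.map f = B.map f * (φ (star a)).map f := by
          rw [← Matrix.map_mul, hadj, Matrix.map_mul, transpose_map]
        change (Q + Qᵀ) * α (_ * ((t • (φ a).map f)ᵀ * _)) = (α (t • (φ a).map f))ᵀ * _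
        rw [transpose_smul, Matrix.smul_mul, Matrix.mul_smul, e1, ← mul_assoc,
          nonsing_inv_mul _ h1, one_mul, map_smul, map_smul, hα, hα, Matrix.mul_smul, hq.adj,
          transpose_smul, Matrix.smul_mul]
      · rw [transpose_add X, add_mul Xᵀ, mul_add (B.map f)⁻¹, map_add α, mul_add (Q + Qᵀ), hX, hY,
          map_add α, transpose_add (α X), add_mul (α X)ᵀ]
    have k2 := dsplit_symm α h1 hq.unit (by rw [transpose_add, transpose_transpose, add_comm])
      fun X Y hXY => by rw [← k1, ← hXY, ← mul_assoc, nonsing_inv_mul _ h1, one_mul]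
    ext a b
    exact ff_injective hf (congrFun (congrFun k2 a) b)
  have hQ : B * φ l + (B * φ l)ᵀ = B := by
    rw [transpose_mul, hsym, ← hadj, ← mul_add, ← map_add, hl, map_one, mul_one]
  exact ⟨φ, B * φ l, hφ, by rwa [hQ], by rw [hQ]; exact hadj, by rw [hQ]⟩

/-- The algebra of a quadratic pair over a semilocal ring is free. -/
theorem IsQuadPair.free_semi [IsAzumaya Z A] (h : IsQuadPair Z l m) : Module.Free Z A := by
  obtain ⟨-, -, S, _, _, hs, ⟨s⟩⟩ := h
  refine Module.free_of_flat_of_finrank_eq Z A (m * m) fun N => ?_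
  let _ := Ideal.Quotient.field N.asIdeal
  let k := Z ⧸ N.asIdeal
  let T := k ⊗[Z] S
  have : Nontrivial T :=
    (Module.FaithfullyFlat.nontrivial_tensorProduct_iff_left Z k).2 inferInstance
  let _ : Algebra S T := Algebra.TensorProduct.rightAlgebra
  have : IsScalarTower Z S T := Algebra.TensorProduct.right_isScalarTower
  have e1 : T ⊗[k] (k ⊗[Z] A) ≃ₗ[T] T ⊗[Z] A := AlgebraTensorModule.cancelBaseChange Z k T T A
  have e2 : T ⊗[S] (S ⊗[Z] A) ≃ₗ[T] T ⊗[Z] A := AlgebraTensorModule.cancelBaseChange Z S T T A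
  have e3 : T ⊗[S] (S ⊗[Z] A) ≃ₗ[T] T ⊗[S] Matrix (Fin m) (Fin m) S :=
    s.baseChange.equiv.baseChange S T _ _
  have : Nontrivial S := (algebraMap S T).domain_nontrivial
  rw [← Module.finrank_baseChange (R := T), (e1.trans (e2.symm.trans e3)).finrank_eq,
    Module.finrank_baseChange, Module.finrank_matrix, Module.finrank_self, Fintype.card_fin, mul_one]

/-- A line in `l + Alt` along which the norm has a unit value and a unit derivative. -/
theorem QAz.exists_smooth_line_semi (hinf : ∀ N : MaximalSpectrum Z, Infinite (Z ⧸ N.asIdeal))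
    (h : QAz Z m l) (hm : 2 ≤ m) :
    ∃ (y w : A) (p : Z[X]), La l y ∧ IsUnit y ∧ Alt w ∧ p.coeff 0 = nrd Z y ∧
      IsUnit (p.coeff 1) ∧ ∀ (T' A' : Type u) [CommRing T'] [Ring A'] [Algebra T' A']
        (f : Z →+* T') (j : A →+* A'), BC f j → ∀ t : T',
          nrd T' (j y + t • j w) = (p.map f).eval t := by
  have := h.starFix
  have := h.az.free
  have := h.az.finite
  have key : ∀ N : MaximalSpectrum Z, ∃ a b : A, ∀ (a' b' : A) (p : Z[X]),
      a' - a ∈ N.asIdeal • (⊤ : Submodule Z A) → b' - b ∈ N.asIdeal • (⊤ : Submodule Z A) →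
      (∀ (T' A' : Type u) [CommRing T'] [Ring A'] [Algebra T' A'] (f : Z →+* T') (j : A →+* A'),
        BC f j → ∀ t : T', nrd T' (j (l + (a' - star a')) + t • j (b' - star b')) =
          (p.map f).eval t) → p.coeff 0 ∉ N.asIdeal ∧ p.coeff 1 ∉ N.asIdeal := fun N => by
    let _ := Ideal.Quotient.field N.asIdeal
    have := hinf N
    have : Infinite (IsLocalRing.ResidueField (Z ⧸ N.asIdeal)) :=
      Infinite.of_injective _ (IsLocalRing.residue _).injective
    obtain ⟨D, _, _, _, _, j, hj⟩ := exists_sbc (A := A) (Ideal.Quotient.mk N.asIdeal)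
    obtain ⟨y, w, q, ⟨a, ha⟩, hy, ⟨b, hb⟩, q0, q1, hq⟩ := (h.map hj).exists_smooth_line hm
    obtain ⟨a, rfl⟩ := hj.surjective Ideal.Quotient.mk_surjective a
    obtain ⟨b, rfl⟩ := hj.surjective Ideal.Quotient.mk_surjective b
    refine ⟨a, b, fun a' b' p h1 h2 hp => ?_⟩
    have k : ∀ x y : A, x - y ∈ N.asIdeal • (⊤ : Submodule Z A) → j x = j y := fun x y e => by
      rw [← sub_eq_zero, ← map_sub, hj.map_eq_zero_iff, Ideal.mk_ker]
      exact mem_extI_iff.2 e
    have := hj.free'
    have := hj.finite'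
    have e : p.map (Ideal.Quotient.mk N.asIdeal) = q := Polynomial.funext fun t => by
      have e1 := hq _ _ _ _ BC.refl t
      rw [Polynomial.map_id] at e1
      rw [← hp _ _ _ _ hj.toBC, ← e1, map_add, map_sub, map_sub, hj.map_star, hj.map_star,
        k _ _ h1, k _ _ h2, ← ha, ← hb, add_sub_cancel]
      rfl
    rw [← Ideal.Quotient.eq_zero_iff_mem, ← Ideal.Quotient.eq_zero_iff_mem, ← coeff_map,
      ← coeff_map, e, q0]
    exact ⟨((h.map hj).az.isUnit_nrd_iff.2 hy).ne_zero, q1.ne_zero⟩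
  choose a b hab using key
  obtain ⟨a', -, ha⟩ := wnp_glue ⊤ a fun _ => trivial
  obtain ⟨b', -, hb⟩ := wnp_glue ⊤ b fun _ => trivial
  obtain ⟨p, p0, hp⟩ := h.az.exists_line (l + (a' - star a')) (b' - star b')
  have k := fun N => hab N a' b' p (ha N) (hb N) hp
  exact ⟨_, _, p, ⟨a', add_sub_cancel_left _ _⟩, wnp_isUnit h.az fun N => p0 ▸ (k N).1, ⟨b', rfl⟩,
    p0, wnp_unit fun N => (k N).2, hp⟩

end Pool.Agent.GSD
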