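import Pool.Agent.P.MP_c1f06d_ag.d.DCoreA
import Pool.Agent.P.MP_c1f06d_ag.w.XRun
import Pool.Agent.P.MP_c1f06d_ag.w.XOdd
import Pool.Agent.P.MP_c1f06d_ag.w.XRep
import Pool.Agent.P.MP_c1f06d_ag.w.XSpl

open Matrix Module Polynomial Pool.Agent.SU SAlg Pool.Agent.P.MP_c1f06d_ag Pool.Agent.GW

universe u

namespace Pool.Agent.GSD

variable {N m : ℕ}

theorem sysAZ (hm : 0 < m) : SysZ.{u} (N := N) 2 (fun T _ _ l => QAz T m l)
    (fun _ _ _ _ x _ => IsUnit (x + star x)) (fun _ _ _ l x _ => FormIso l x)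
    (fun _ _ _ l x _ => FormIso l x) (fun _ _ _ l x _ => FormIso l x) where
  pos := two_pos
  qn _ _ _ _ h := h.qn hm
  gd_bc _ _ _ _ f A _ h := h.map (sbc_bc A f)
  ad_bc _ _ _ _ f A _ x _ h := by
    have := h.map (A.bc f)
    rwa [map_add, bc_star] at this
  p0_bc _ _ _ _ f A _ _ _ h := h.map _ (bc_star f)
  p2_bc _ _ _ _ f A _ _ _ _ h := h.map _ (bc_star f)
  ad_iso _ _ _ _ Φ _ _ x _ _ h := by
    have := h.map Φ.e.symm
    rwa [← Φ.st, ← map_add, AlgEquiv.symm_apply_apply] at this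
  p0_iso _ _ _ _ Φ l1 l2 x _ hl h := by
    obtain ⟨y, hy⟩ := h
    have : FormIso (Φ.e l1) (Φ.e x) := ⟨y, ((hl.conj y).add hy).of_eq (by noncomm_ring)⟩
    have := this.map Φ.e.symm.toRingEquiv.toRingHom Φ.symm.st
    simpa using this
  ad_spread B O _ _ ρ h A _ x _ _ H := by
    obtain ⟨v, hv⟩ := H.exists_right_inv
    obtain ⟨B1, _, j1, ρ1, n1, w, hw⟩ := spr_lift h A fun _ : Unit => v
    obtain rfl := n1.comp
    obtain rfl : (A.map j1).bc ρ1 (w ()) = v := Car.ext (hw ())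
    obtain ⟨B2, _, j2, ρ2, n2, e⟩ := spr_eq n1.lp (A.map j1)
      (fun _ : Unit => (A.bc j1 x + star (A.bc j1 x)) * w ()) (fun _ => 1)
      fun _ => by simp only [map_add, map_mul, bc_star, map_one]; exact hv
    have := e ()
    simp only [map_add, map_mul, bc_star, map_one] at this
    exact ⟨B2, inferInstance, _, ρ2, n1.trans n2, isUnit_of_mul_eq_one this⟩
  p0_spread _ _ _ _ _ h A l x _ _ H := dcorea_spread h A l x H
  p2_spread _ _ _ _ _ h A l x _ _ H := dcorea_spread h A l x H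
  near T R _ _ i σ hi A l x1 x2 _ _ _ h1 _ e _ := by
    obtain ⟨T', _, f, σ', hf, hc, y, -, hy⟩ := exists_smooth_form σ h1 e.symm
    refine ⟨T', inferInstance, f, σ', hf, hc, fun S _ χ ⟨z, hz⟩ => ?_⟩
    have := hy.map (((A.map i).map f).bc χ) (bc_star χ)
    rw [map_sub, map_mul, map_mul, bc_star] at this
    obtain ⟨y', hy'⟩ : ∃ y' : ((A.map i).map (χ.comp f)).Car, Alt (star y' *
      (A.map i).bc (χ.comp f) x2 * y' - (A.map i).bc (χ.comp f) x1) := ⟨_, this⟩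
    exact FormIso.trans ⟨z, hz⟩ ⟨y', hy'⟩
  val _ K _ _ _ _ hv A _ _ _ h h1 H := by
    obtain ⟨O0, K0, _, _, _, _, _, _, _, _, _, hg, hav⟩ := hv
    exact val_formIso_fin hg hav h (sbc_bc A _) h1 H
  desc _ _ _ A _ _ _ h h1 P k hP hk H := desc_formIso_semi h hP ⟨k, hk⟩ (sbc_bc A _) h1 H
  fin _ _ _ A _ _ _ h h1 P k hP hk H := desc_formIso_semi h hP ⟨k, hk⟩ (sbc_bc A _) h1 H

theorem xcore_desc {R : Type u} [CommRing R] [Finite (MaximalSpectrum R)] {A : SAlg R N}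
    {l : A.Car} (h : QAz R m l) {P : R[X]} (hP : P.Monic) {k : ℕ} (hk : P.natDegree = m * k + 1)
    (H : HasRep m (A.map (AdjoinRoot.of P))) : HasRep m A :=
  let ⟨φ⟩ := HasRep.algHom (T' := AdjoinRoot P) H
  let ⟨e⟩ := rep_desc_semi h hP hk φ
  hasRep_of_algHom e

theorem sysCZ (hm : 0 < m) : SysZ.{u} (N := N) m (fun T _ _ l => QAz T m l)
    (fun _ _ _ _ _ _ => True) (fun _ _ A _ _ _ => HasRep m A) (fun _ _ A _ _ _ => HasRep m A)
    (fun _ _ A _ _ _ => HasRep m A) where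
  pos := hm
  qn _ _ _ _ h := h.qn hm
  gd_bc _ _ _ _ f A _ h := h.map (sbc_bc A f)
  ad_bc _ _ _ _ _ _ _ _ _ h := h
  p0_bc _ _ _ _ f _ _ _ _ h := h.map f
  p2_bc _ _ _ _ f _ _ _ _ _ h := h.map f
  ad_iso _ _ _ _ _ _ _ _ _ _ h := h
  p0_iso _ _ _ _ Φ _ _ _ _ _ h := let ⟨r, hr⟩ := h; ⟨r.pull Φ.e.toAlgHom, hr⟩
  ad_spread B _ _ _ ρ h _ _ _ _ _ _ := ⟨B, inferInstance, _, ρ, Nb.refl h, trivial⟩
  p0_spread _ _ _ _ _ h A _ _ _ _ H := dcorec_spread h A H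
  p2_spread _ _ _ _ _ h A _ _ _ _ H := dcorec_spread h A H
  near T _ _ _ _ σ _ _ _ _ _ _ _ _ _ _ _ _ := ⟨T, inferInstance, RingHom.id T, σ,
    etale_smooth (RingHom.Etale.of_bijective Function.bijective_id), rfl, fun _ _ _ h => h⟩
  val _ K _ _ _ _ hv A _ _ _ h _ H := by
    obtain ⟨O0, K0, _, _, _, _, _, _, _, _, _, hg, hav⟩ := hv
    obtain ⟨φ⟩ := H.algHom
    obtain ⟨ψ⟩ := val_rep_fin hg hav h φ.toRingHom φ.commutes
    exact hasRep_of_algHom ψ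
  desc _ _ _ _ _ _ _ h _ _ _ hP hk H := xcore_desc h hP hk H
  fin _ _ _ _ _ _ _ h _ _ _ hP hk H := xcore_desc h hP hk H

variable {Z K A AK : Type u} [CommRing Z] [IsDomain Z] [Finite (MaximalSpectrum Z)] [Field K]
  [Algebra Z K] [Ring A] [StarRing A] [Algebra Z A] [Ring AK] [StarRing AK] [Algebra K AK]
  [StarFix K AK] {j : A →+* AK} {l : A}

theorem coreA_geo (hG : ResInf Z ∧ GeoV Z K ∨ ResFin Z ∧ GeoXV Z K) (h : QAz Z m l) (hm : 2 ≤ m)
    (hj : SBC (algebraMap Z K) j) {th : A}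
    (hth : IsUnit (th + star th)) (hK : FormIso (j l) (j th)) : FormIso l th := by
  obtain ⟨N, B, e, e', k, h1, h2, h3, h4, h5, h6⟩ := exists_core_model h hj
  have h7 := hK.map k h3.map_star
  rw [h5, h5] at h7
  have h8 := hth.map e
  rw [map_add, h1.map_star] at h8
  have := ((sysAZ (by omega)).main hG (c := 0) h6 h8 h7).map e' h2.map_star
  rwa [h4, h4] at this

theorem coreC_geo (hG : ResInf Z ∧ GeoV Z K ∨ ResFin Z ∧ GeoXV Z K) (h : QAz Z m l) (hm : 2 ≤ m)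
    (hj : SBC (algebraMap Z K) j) {v : AK} (hv : v ≠ 0) (h1 : R1 v) : IsSplit Z m l := by
  obtain ⟨N, B, e, e', k, k1, -, k3, -, k5, k6⟩ := exists_core_model h hj
  obtain ⟨φ, hφ⟩ := dsplit_of_r1 (k6.map (sbc_bc B (algebraMap Z K)))
    ((map_ne_zero_iff k (k3.injective Function.injective_id)).2 hv) (k3.r1 h1)
  obtain ⟨r, hr⟩ := (sysCZ (by omega)).main hG (x := 0) (c := 0) k6 trivial
    ⟨⟨RingHom.id K, φ, hφ.smul⟩, rfl⟩
  have := h.az.free
  have := h.az.finite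
  let ψ : A →ₐ[Z] Matrix (Fin m) (Fin m) Z :=
    { r.φ.comp e with
      commutes' := fun t => by
        change r.φ (e _) = _
        rw [k1.alg, r.map_algebraMap, hr, Algebra.algebraMap_eq_smul_one]; rfl }
  exact ASplit.isSplit_semi h ⟨ψ.toRingHom, bc_of_bijective _ (h.rep_bijective ψ) ψ.commutes⟩

end Pool.Agent.GSD
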