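import Pool.Agent.P.MP_c1f06d_ag.w.WNP0
import Pool.Agent.P.MP_c1f06d_ag.d.DNP

/-! The norm principle over a semilocal ring with infinite residue fields. -/

open Matrix Module Polynomial Pool.Agent.SU

universe u

namespace Pool.Agent.GSD

theorem wnp_span {R A0 k A1 μ : Type*} [CommRing R] [Ring A0] [Algebra R A0] [Field k]
    [Ring A1] [Algebra k A1] [Fintype μ] (ψ : R →+* k)
    (κ : A0 →+* A1) (hκsm : ∀ (r : R) x, κ (r • x) = ψ r • κ x) (g : μ → A0) (y : A0)
    (hg : ∀ i : ℕ, y ^ i ∈ Submodule.span R (Set.range g)) {m : ℕ} (hm : Fintype.card μ = m)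
    (hli : LinearIndependent k fun i : Fin m => κ y ^ (i : ℕ)) (x : A0)
    (hx : x ∈ Submodule.span R (Set.range g)) :
    ∃ r, ψ r ≠ 0 ∧ r • x ∈ Algebra.adjoin R {y} := by
  classical
  let ε : μ ≃ Fin m := Fintype.equivFinOfCardEq hm
  choose D hD using fun i : μ => (Submodule.mem_span_range_iff_exists_fun R).mp (hg (ε i))
  have hli' : LinearIndependent k fun i : μ => κ y ^ (ε i : ℕ) := hli.comp ε ε.injective
  have hu : IsUnit ((Matrix.of D).map ψ) := by
    rw [← Matrix.linearIndependent_rows_iff_isUnit]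
    refine LinearIndependent.of_comp (Fintype.linearCombination k fun j => κ (g j)) ?_
    have : ⇑(Fintype.linearCombination k fun j => κ (g j)) ∘ ((Matrix.of D).map ψ).row
        = fun i : μ => κ y ^ (ε i : ℕ) := by
      funext i
      rw [← map_pow, ← hD, map_sum, Function.comp_apply, Fintype.linearCombination_apply]
      simp only [hκsm]
      rfl
    rw [this]
    exact hli'
  refine ⟨(Matrix.of D).det, ?_, ?_⟩
  · rw [RingHom.map_det]
    exact ((Matrix.isUnit_iff_isUnit_det _).mp hu).ne_zero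
  have key : ∀ j, (Matrix.of D).det • g j ∈ Algebra.adjoin R {y} := by
    intro j
    have : (Matrix.of D).det • g j = ∑ i, (Matrix.of D).adjugate j i • y ^ (ε i : ℕ) := by
      simp only [← hD, Finset.smul_sum, smul_smul]
      rw [Finset.sum_comm]
      simp only [← Finset.sum_smul]
      have h1 : ∀ j', ∑ i, (Matrix.of D).adjugate j i * D i j' =
          ((Matrix.of D).det • (1 : Matrix μ μ R)) j j' := by
        intro j'
        rw [← Matrix.adjugate_mul, Matrix.mul_apply]; rfl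
      simp [h1, Matrix.one_apply, ite_smul]
    rw [this]
    exact Subalgebra.sum_mem _ fun i _ => Subalgebra.smul_mem _
      (Subalgebra.pow_mem _ (Algebra.self_mem_adjoin_singleton R y) _) _
  obtain ⟨c, rfl⟩ := (Submodule.mem_span_range_iff_exists_fun R).mp hx
  rw [Finset.smul_sum]
  exact Subalgebra.sum_mem _ fun j _ => by
    rw [smul_comm]
    exact Subalgebra.smul_mem _ (key j) _

theorem wnp_adjoin {R S A0 k A1 n : Type*} [CommRing R] [CommRing S] [Algebra R S]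
    [Ring A0] [Algebra R A0] [Algebra S A0] [IsScalarTower R S A0] [Field k]
    [Ring A1] [Algebra k A1] [Fintype n] (ψ : R →+* k)
    (κ : A0 →+* A1) (hκsm : ∀ (r : R) x, κ (r • x) = ψ r • κ x) (b : n → S)
    (hb : Submodule.span R (Set.range b) = ⊤) (y : A0) {N : ℕ} (hN : 0 < N) (q : S[X])
    (hq : q.Monic) (hqN : q.natDegree = N) (hqy : aeval y q = 0)
    (hli : LinearIndependent k fun i : Fin (N * Fintype.card n) => κ y ^ (i : ℕ)) (s : S) :
    ∃ r, ψ r ≠ 0 ∧ r • algebraMap S A0 s ∈ Algebra.adjoin R {y} := by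
  have h1 : ∀ (s : S) (j : Fin N), s • y ^ (j : ℕ) ∈
      Submodule.span R (Set.range fun p : Fin N × n => b p.2 • y ^ (p.1 : ℕ)) := by
    intro s j
    obtain ⟨c, rfl⟩ := (Submodule.mem_span_range_iff_exists_fun R).mp
      (show s ∈ Submodule.span R (Set.range b) by rw [hb]; trivial)
    rw [Finset.sum_smul]
    refine Submodule.sum_mem _ fun i _ => ?_
    rw [smul_assoc]
    exact Submodule.smul_mem _ _ (Submodule.subset_span ⟨(j, i), rfl⟩)
  refine wnp_span ψ κ hκsm (fun p : Fin N × n => b p.2 • y ^ (p.1 : ℕ)) y (fun i => ?_)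
    (by simp) hli _ (by simpa [Algebra.algebraMap_eq_smul_one] using h1 s ⟨0, hN⟩)
  have hne : q ≠ 1 := by rintro rfl; simp at hqN; omega
  have h2 : y ^ i = aeval y (X ^ i %ₘ q) := by
    rw [aeval_modByMonic_eq_self_of_root hqy]; simp
  have h3 : (X ^ i %ₘ q).natDegree < N := hqN ▸ natDegree_modByMonic_lt _ hq hne
  rw [h2, aeval_eq_sum_range' h3, Finset.sum_range]
  exact Submodule.sum_mem _ fun j _ => h1 _ j

theorem wnp_two {k A1 : Type*} [Field k] [Infinite k] [Ring A1] [StarRing A1] [Algebra k A1]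
    [Module.Finite k A1] {R A0 : Type*} [CommRing R] [Ring A0] [StarRing A0] [Module R A0]
    (hA1 : ∀ r : k, star (algebraMap k A1 r) = algebraMap k A1 r)
    (ψ : R →+* k) (hψ : (Set.range ψ).Infinite) (κ : A0 →+* A1)
    (hκs : ∀ x, κ (star x) = star (κ x))
    (hκsm : ∀ (r : R) x, κ (r • x) = ψ r • κ x) (hspan : Submodule.span k (Set.range κ) = ⊤)
    {U : Set A1} (hZ : Zar k U) {cw : A1} (hcw : IsUnit (cw - star cw)) (y cy : A0)
    (hyu : IsUnit y) : ∃ c0 : A0, ∀ c, κ c = κ c0 → IsUnit (κ (c - star c)) ∧ κ (cy + c) ∈ U ∧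
      ∀ v, (c - star c) * v = 1 → κ (cy - y * (v * c * v) * star y) ∈ U := by
  obtain ⟨_, ⟨c0, rfl⟩, a1, a2, a3⟩ := (zar_two hA1 hZ (κ y) (κ cy) _ (hyu.map κ) hcw).dense
    κ.toAddMonoidHom.range (Set.range ψ) hψ
    (by rintro _ ⟨r, rfl⟩ _ ⟨x, rfl⟩; exact ⟨r • x, hκsm r x⟩) hspan
  refine ⟨c0, fun c hc => ⟨?_, ?_, fun v hv => ?_⟩⟩
  · rw [map_sub, hκs, hc]; exact a1
  · rw [map_add, hc]; exact a2
  · have := a3 (κ v) (by
      change (κ c0 - star (κ c0)) * _ = 1
      rw [← hc, ← hκs, ← map_sub, ← map_mul, hv, map_one])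
    simp only [map_sub, map_mul, hκs, hc]
    exact this

section

variable {R S A A1 : Type u} [CommRing R] [CommRing S] [Algebra R S] [Ring A] [Algebra R A]
  [Ring A1] [Algebra S A1] {j : A →+* A1} {m : ℕ} {l : A} [StarRing A]

theorem wnp_field (h : QAz R m l) (N : MaximalSpectrum R) (hinf : Infinite (R ⧸ N.asIdeal)) :
    ∃ (k : Type u) (_ : Field k) (_ : IsAlgClosed k) (ψ : R →+* k)
      (φ : A →+* Matrix (Fin m) (Fin m) k) (Q : Matrix (Fin m) (Fin m) k),
      (∀ r, ψ r = 0 ↔ r ∈ N.asIdeal) ∧ (Set.range ψ).Infinite ∧ QSpl l ψ φ Q := by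
  obtain ⟨S, _, s, φ, Q, hs, hq⟩ := h
  let _ := s.toAlgebra
  have : Module.FaithfullyFlat R S := hs
  have := N.isMaximal
  obtain ⟨p, hp, hl⟩ := N.asIdeal.exists_isPrime_liesOver_of_faithfullyFlat (B := S)
  let g : S →+* AlgebraicClosure p.ResidueField :=
    (algebraMap p.ResidueField _).comp (algebraMap S p.ResidueField)
  have hg : ∀ r, g.comp s r = 0 ↔ r ∈ N.asIdeal := fun r => by
    rw [Ideal.mem_of_liesOver p N.asIdeal r, ← Ideal.algebraMap_residueField_eq_zero]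
    exact map_eq_zero_iff _ (algebraMap p.ResidueField _).injective
  refine ⟨_, inferInstance, inferInstance, g.comp s, _, _, hg, ?_, hq.post g⟩
  have hi : Function.Injective (Ideal.Quotient.lift N.asIdeal (g.comp s) fun r => (hg r).2) :=
    (injective_iff_map_eq_zero _).2 fun x hx => by
      obtain ⟨r, rfl⟩ := Ideal.Quotient.mk_surjective x
      exact Ideal.Quotient.eq_zero_iff_mem.2 ((hg r).1 hx)
  refine (Set.infinite_range_of_injective hi).mono ?_
  rintro _ ⟨x, rfl⟩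
  obtain ⟨r, rfl⟩ := Ideal.Quotient.mk_surjective x
  exact ⟨r, rfl⟩

variable [StarRing A1] [StarFix S A1] [Algebra R A1] [IsScalarTower R S A1]

/-- Good modulo one maximal ideal. -/
def WG {n : Type} [Fintype n] [DecidableEq n] (N : Ideal R) (ρ : A1 → Matrix n n A)
    (F : Matrix n n A) (t z : A1) : Prop :=
  nrd R (ρ z) ∉ N ∧ nrd R (ρ (z - star z)) ∉ N ∧ (∃ r, r ∉ N ∧ r • t ∈ Algebra.adjoin R {z}) ∧
    ∀ W, NPSol ρ F z W → nrd R W ∉ N

theorem wnp_loc (h : QAz R m l) (hm : Even m) (pb : PowerBasis R S) (hj : SBC (algebraMap R S) j)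
    (ρ0 : A1 →ₐ[R] Matrix (Fin pb.dim) (Fin pb.dim) A) (h1 : ∀ a, ρ0 (j a) = diagonal fun _ => a)
    (h2 : ∀ s : S, ρ0 (algebraMap S A1 s) =
      (Algebra.leftMulMatrix pb.basis s).map (algebraMap R A))
    {F : Matrix (Fin pb.dim) (Fin pb.dim) A}
    (hF : F = Matrix.of fun i i' => (pb.basis.repr 1 i * pb.basis.repr 1 i') • l)
    (y cy : A1) (hyu : IsUnit y) (N : MaximalSpectrum R) (hN : Infinite (R ⧸ N.asIdeal)) :
    ∃ c0 : A1, ∀ c, c - c0 ∈ N.asIdeal • (⊤ : Submodule R A1) →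
      nrd R (ρ0 (c - star c)) ∉ N.asIdeal ∧
      WG N.asIdeal ρ0 F (algebraMap S A1 pb.gen) (j l + ((cy + c) - star (cy + c))) ∧
      ∀ v, (c - star c) * v = 1 → WG N.asIdeal ρ0 F (algebraMap S A1 pb.gen)
        (j l + ((cy - y * (v * c * v) * star y) - star (cy - y * (v * c * v) * star y))) := by
  have hA := h.starFix
  have := h.az.free
  have := h.az.finite
  have := hj.toBC.free'
  have := hj.toBC.finite'
  obtain ⟨k, _, _, ψ, φ, Q, hψ, hinf, hq⟩ := wnp_field h N hN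
  obtain ⟨m', rfl⟩ := hm
  obtain ⟨Ak, _, _, _, hAk, jk, hjk⟩ := exists_sbc (A := A) ψ
  obtain ⟨φ', -, hq'⟩ := QSpl.lift (g := RingHom.id k) hjk hq
  obtain ⟨p, hp⟩ := exists_hypFrame φ' ⟨hq'.toBC.injective Function.injective_id,
    hq'.toBC.surjective Function.surjective_id⟩ (jk l) Q ((isUnit_iff_isUnit_det _).2 hq'.unit)
    hq'.adj hq'.ell m' (by rw [Fintype.card_fin, two_mul])
  obtain ⟨Sk, _, _, g, bk, hg1, hg2, hg3⟩ := dnp_pb ψ pb.basis
  let pk : PowerBasis k Sk := ⟨g pb.gen, pb.dim, bk, fun i => by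
    rw [← hg2, pb.basis_eq_pow, map_pow]⟩
  obtain ⟨Bk, _, _, _, hBk, κ, hκ⟩ := exists_sbc (A := A1) g
  let _ : Algebra k Bk := Algebra.compHom Bk (algebraMap k Sk)
  have : IsScalarTower k Sk Bk := IsScalarTower.of_algebraMap_eq' rfl
  have := hjk.toBC.finite'
  have := hκ.toBC.finite'
  have := Module.Finite.of_basis bk
  have : Module.Finite k Bk := Module.Finite.trans Sk Bk
  obtain ⟨j1, hj1, hj1'⟩ := hjk.lift (g := algebraMap k Sk)
    ((RingHom.ext hg1 : g.comp (algebraMap R S) = (algebraMap k Sk).comp ψ) ▸ hj.comp hκ)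
  have hj2 : ∀ a, j1 (jk a) = κ (j a) := RingHom.congr_fun hj1
  obtain ⟨ρ, r1, r2⟩ := dnp_reg hj1'.toBC bk
  obtain ⟨lam, hlam⟩ := exists_lam pk
  have hl := h.add_star
  have hZ := zar_good_of_frame hAk.fix (jk l) (by rw [← hjk.map_star, ← map_add, hl, map_one])
    Sum.swap p hp bk pk.gen pk.adjoin_gen_eq_top lam hlam j1 hj1'.map_star
    (IsScalarTower.toAlgHom k Sk Bk) (fun s x => Algebra.commutes s x) hBk.fix
    (dnp_gen hj1'.toBC pk) ρ r1 r2
  have hsm : ∀ (r : R) x, κ (r • x) = ψ r • κ x := fun r x => by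
    rw [← algebraMap_smul S r, hκ.toBC.smul, hg1, algebraMap_smul]
  have hκF : jk.mapMatrix F = Matrix.of fun i i' => (bk.repr 1 i * bk.repr 1 i') • jk l := by
    ext i i'
    rw [hF, RingHom.mapMatrix_apply, map_apply, of_apply, of_apply, hjk.toBC.smul, map_mul,
      ← hg3, ← hg3, map_one]
  rw [← hκF, hj2] at hZ
  have hρ : ∀ x, jk.mapMatrix (ρ0 x) = ρ (κ x) := fun x => by
    induction x using hj.toBC.induction with
    | h0 => simp
    | h1 t a =>
      rw [hκ.toBC.smul, Algebra.smul_def, Algebra.smul_def, map_mul, map_mul, map_mul, h1, h2,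
        r2, ← hj2, r1]
      congr 1
      · ext i i'
        rw [RingHom.mapMatrix_apply, map_apply, map_apply, map_apply, hjk.alg,
          Algebra.leftMulMatrix_eq_repr_mul, Algebra.leftMulMatrix_eq_repr_mul, ← hg2, ← map_mul,
          hg3]
      · exact diagonal_map (map_zero jk)
    | h2 x y hx hy => simp only [map_add, hx, hy]
  have hu : ∀ W : Matrix (Fin pb.dim) (Fin pb.dim) A, IsUnit (jk.mapMatrix W) →
      nrd R W ∉ N.asIdeal := fun W hW hn =>
    wnp_nrd (h.az.mat _) (hjk.toBC.mat _) hW ((hψ _).2 hn)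
  have hu' : ∀ x, IsUnit (κ x) → nrd R (ρ0 x) ∉ N.asIdeal := fun x hx =>
    hu _ (hρ x ▸ hx.map ρ)
  have good : ∀ c, GoodF k ρ (jk.mapMatrix F) (Fintype.card (Fin m' ⊕ Fin m') *
      Fintype.card (Fin pb.dim)) (κ (j l) + (κ c - star (κ c))) →
      WG N.asIdeal ρ0 F (algebraMap S A1 pb.gen) (j l + (c - star c)) := by
    intro c hc
    rw [← hκ.map_star, ← map_sub, ← map_add] at hc
    obtain ⟨a1, a2, a3, a4⟩ := hc
    refine ⟨hu' _ a1, hu' _ (by rwa [map_sub, hκ.map_star]), ?_, fun W hW => hu _ (a4 _ ?_)⟩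
    · rcases subsingleton_or_nontrivial A1 with _ | _
      · exact ⟨1, wnp_one N (by simp), by
          rw [Subsingleton.elim (_ • _ : A1) 0]; exact zero_mem _⟩
      obtain ⟨h0, q, q1, q2, q3⟩ := dnp_char (h.map hj) (j l + (c - star c))
      obtain ⟨r, b1, b2⟩ := wnp_adjoin ψ κ hsm pb.basis pb.basis.span_eq _
        (by simpa using h0) q q1 (by simpa using q2) q3 a3 pb.gen
      exact ⟨r, fun hr => b1 ((hψ r).2 hr), b2⟩
    · obtain ⟨⟨z, hz⟩, z', hz'⟩ := hW
      exact ⟨⟨jk.mapMatrix z, by rw [hz, map_sub, (hjk.mat _).map_star]⟩, jk.mapMatrix z', by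
        rw [← hρ, ← map_mul, ← map_sub, hz', map_sub, (hjk.mat _).map_star]⟩
  obtain ⟨cw, hcw⟩ := hZ.nonempty
  obtain ⟨c0, hc0⟩ := wnp_two (k := k) (fun r => hBk.fix (algebraMap k Sk r)) ψ hinf κ
    hκ.map_star hsm
    (by
      refine top_le_iff.1 fun x _ => ?_
      induction x using hκ.toBC.induction with
      | h0 => exact zero_mem _
      | h1 t a =>
        rw [← bk.sum_repr t, Finset.sum_smul]
        refine sum_mem fun i _ => ?_
        rw [smul_assoc, ← hg2, ← hκ.toBC.smul]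
        exact Submodule.smul_mem _ _ (Submodule.subset_span ⟨_, rfl⟩)
      | h2 x y hx hy => exact add_mem (hx trivial) (hy trivial))
    hZ (cw := κ (j l) + (cw - star cw)) hcw.2.1 y cy hyu
  refine ⟨c0, fun c hc => ?_⟩
  have hk : κ (c - c0) = 0 := Submodule.smul_induction_on (p := fun x => κ x = 0) hc
    (fun r hr x _ => by rw [hsm, (hψ r).2 hr, zero_smul]) fun x y hx hy => by
      rw [map_add, hx, hy, add_zero]
  obtain ⟨a1, a2, a3⟩ := hc0 c (sub_eq_zero.1 ((map_sub κ c c0).symm.trans hk))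
  exact ⟨hu' _ a1, good _ a2, fun v hv => good _ (a3 v hv)⟩

variable [Finite (MaximalSpectrum R)] (hinf : ∀ N : MaximalSpectrum R, Infinite (R ⧸ N.asIdeal))
include hinf

theorem wnp_good (h : QAz R m l) (hm : Even m) (pb : PowerBasis R S) (hj : SBC (algebraMap R S) j)
    (ρ0 : A1 →ₐ[R] Matrix (Fin pb.dim) (Fin pb.dim) A) (h1 : ∀ a, ρ0 (j a) = diagonal fun _ => a)
    (h2 : ∀ s : S, ρ0 (algebraMap S A1 s) =
      (Algebra.leftMulMatrix pb.basis s).map (algebraMap R A))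
    {F : Matrix (Fin pb.dim) (Fin pb.dim) A}
    (hF : F = Matrix.of fun i i' => (pb.basis.repr 1 i * pb.basis.repr 1 i') • l)
    (y : A1) (hy : La (j l) y) (hyu : IsUnit y) :
    ∃ u v, Alt u ∧ u * v = 1 ∧ v * u = 1 ∧ NPGood ρ0 F (y + u) ∧
      NPGood ρ0 F (y - y * v * star y) := by
  have hA := h.starFix
  have := Module.Free.of_basis pb.basis
  have := Module.Finite.of_basis pb.basis
  obtain ⟨cy, hcy⟩ := hy
  choose c0 hc0 using fun N => wnp_loc h hm pb hj ρ0 h1 h2 hF y cy hyu N (hinf N)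
  obtain ⟨c, -, hc⟩ := wnp_glue (Z := R) ⊤ c0 fun _ => trivial
  have hu : ∀ x, (∀ N : MaximalSpectrum R, nrd R (ρ0 x) ∉ N.asIdeal) → IsUnit x := fun x hx => by
    have h3 := wnp_unit hx
    have h4 := h.az.nrd_regular hj.toBC pb.basis (ρ0 : A1 →+* _) h1 h2 x
    rw [RingHom.coe_coe] at h4
    exact (h.map hj).az.isUnit_nrd_iff.1 (wnp_norm (h4 ▸ h3))
  have good : ∀ d, (∀ N : MaximalSpectrum R, WG N.asIdeal ρ0 F (algebraMap S A1 pb.gen)
      (j l + (d - star d))) → NPGood ρ0 F (j l + (d - star d)) := fun d hd => by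
    obtain ⟨W, hW⟩ := np_exists_matrix hA.fix j hj.map_star ρ0 h1 (algebraMap S A1 pb.gen)
      (Algebra.commutes _) (StarFix.fix _) (dnp_gen hj.toBC pb) (pb.basis.repr 1) l
      (j l + (d - star d)) h.add_star ⟨d, by abel⟩ (hu _ fun N => (hd N).2.1)
      (wnp_mem (Algebra.adjoin R {j l + (d - star d)}).toSubmodule fun N => (hd N).2.2.1)
    rw [← hF] at hW
    exact ⟨hu _ fun N => (hd N).1, W, wnp_isUnit (h.az.mat _) fun N => (hd N).2.2.2 W hW, hW⟩
  obtain ⟨u, hu⟩ := hu _ fun N => (hc0 N c (hc N)).1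
  have ha : Alt (u : A1) := ⟨c, hu⟩
  have hus := (ha.inv u.mul_inv).star_eq
  have e1 : y + u = j l + ((cy + c) - star (cy + c)) := by
    rw [hu, eq_add_of_sub_eq' hcy, star_add]; abel
  have e2 : y - y * ↑u⁻¹ * star y = j l + ((cy - y * (↑u⁻¹ * c * ↑u⁻¹) * star y)
      - star (cy - y * (↑u⁻¹ * c * ↑u⁻¹) * star y)) := by
    have h0 : (↑u⁻¹ : A1) * (c - star c) * ↑u⁻¹ = ↑u⁻¹ := by rw [← hu]; simp
    simp only [star_sub, star_mul, star_star, hus]
    calc _ = j l + (cy - star cy) - y * ((↑u⁻¹ : A1) * (c - star c) * ↑u⁻¹) * star y := by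
          rw [h0, ← hcy]; abel
      _ = _ := by noncomm_ring
  refine ⟨u, ↑u⁻¹, ha, u.mul_inv, u.inv_mul, ?_, ?_⟩
  · rw [e1]; exact good _ fun N => (hc0 N c (hc N)).2.1
  · rw [e2]; exact good _ fun N => (hc0 N c (hc N)).2.2 _ (hu ▸ u.mul_inv)

theorem wnp_pair (h : QAz R m l) (hm : Even m)
    (pb : PowerBasis R S) (hj : SBC (algebraMap R S) j) (y : A1) (hy : La (j l) y)
    (hyu : IsUnit y) : ∃ (v : A1) (t : S), Alt v ∧ IsUnit v ∧
      WN R l (Algebra.norm R (nrd S y * nrd S v * t ^ 2)) := by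
  have := h.starFix
  have h' := h.map hj
  obtain ⟨ρ, h1, h2⟩ := dnp_reg hj.toBC pb.basis
  obtain ⟨u, v, a1, a2, a3, ⟨u1, W1, w1, b1, c1⟩, u2, W2, w2, b2, c2⟩ :=
    wnp_good hinf h hm pb hj ρ h1 h2 rfl y hy hyu
  have hF : (Matrix.of fun i i' => (pb.basis.repr 1 i * pb.basis.repr 1 i') • l) =
      gram l fun i => algebraMap R A (pb.basis.repr 1 i) := by
    ext i i'
    rw [gram, of_apply, of_apply, StarFix.fix, mul_assoc, ← Algebra.commutes, ← mul_assoc,
      ← map_mul (algebraMap R A), Algebra.smul_def]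
  rw [hF] at c1 c2
  have key := wn_of_two h (u1.map ρ) (u2.map ρ) w1 w2 b1 b2 c1 c2
  have hr := h.az.nrd_regular hj.toBC pb.basis (ρ : A1 →+* _) h1 h2
  simp only [RingHom.coe_coe] at hr
  have e : y - y * v * star y = algebraMap S A1 (-1) * (y * v * star (y + u)) := by
    rw [map_neg, map_one, star_add, a1.star_eq, mul_add, mul_neg, mul_assoc y v u, a3]
    noncomm_ring
  rw [hr, hr, ← map_mul, e, h'.az.nrd_mul, h'.az.nrd_mul, h'.az.nrd_mul, h'.nrd_algebraMap,
    h'.nrd_star, hm.neg_one_pow] at key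
  refine ⟨v, nrd S (y + u), a1.inv a2, ⟨⟨v, u, a3, a2⟩, rfl⟩, ?_⟩
  rwa [show nrd S y * nrd S v * nrd S (y + u) ^ 2 =
    nrd S (y + u) * (1 * (nrd S y * nrd S v * nrd S (y + u))) by ring]

end

/-- The norm principle over a semilocal ring with infinite residue fields. -/
theorem np_inf_semi {R S A A1 : Type u} [CommRing R] [Finite (MaximalSpectrum R)]
    (hinf : ∀ N : MaximalSpectrum R, Infinite (R ⧸ N.asIdeal)) [CommRing S] [Algebra R S] [Ring A]
    [StarRing A] [Algebra R A] [Ring A1] [StarRing A1] [Algebra S A1] [StarFix S A1]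
    {j : A →+* A1} {m : ℕ} {l : A} (h : QAz R m l) (hm : Even m) (pb : PowerBasis R S)
    (hj : SBC (algebraMap R S) j) {c : S} (hu : IsUnit c) (hc : PairN S (j l) c) :
    WN R l (Algebra.norm R c) := by
  let _ : Algebra R A1 := Algebra.compHom A1 (algebraMap R S)
  have : IsScalarTower R S A1 := IsScalarTower.of_algebraMap_eq' rfl
  have h' := h.map hj
  obtain ⟨l1, l2, t, c1, c2, a1, a2, n1, n2, rfl⟩ := hc
  obtain ⟨v1, t1, b1, u1, w1⟩ := wnp_pair hinf h hm pb hj _ a1 l1.isUnit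
  obtain ⟨v2, t2, b2, u2, w2⟩ := wnp_pair hinf h hm pb hj _ a2 l2.isUnit
  rw [h'.az.nrd_eq n1] at w1
  rw [h'.az.nrd_eq n2] at w2
  refine (w1.mul h w2).of_isSquare h (hu.map _) ?_
  obtain ⟨z1, e1⟩ := b1
  obtain ⟨z2, e2⟩ := b2
  have hW : Alt (diagonal ![v1, v2]) := ⟨diagonal ![z1, z2], by
    ext i i'
    fin_cases i <;> fin_cases i' <;> simp [e1, e2]⟩
  have hU : IsUnit (![v1, v2] : Fin 2 → A1) :=
    Pi.isUnit_iff.2 fun i => by fin_cases i <;> simpa
  have hU' : IsUnit (diagonal ![v1, v2]) := by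
    obtain ⟨w, e3, e4⟩ := isUnit_iff_exists.1 hU
    refine isUnit_iff_exists.2 ⟨diagonal w, ?_, ?_⟩ <;>
      rw [diagonal_mul_diagonal', ← diagonal_one] <;> congr 1
  obtain ⟨r, hr⟩ := h'.isSquare_nrd (by simp) hW hU'
  rw [h'.az.nrd_diagonal, Fin.prod_univ_two] at hr
  refine ⟨Algebra.norm R (c1 * c2 * t * t1 * t2 * r), ?_⟩
  rw [← map_mul, ← map_mul, ← map_mul]
  congr 1
  change nrd _ v1 * nrd _ v2 = _ at hr
  linear_combination (c1 * c2 * t * t1 * t2) ^ 2 * hr

end Pool.Agent.GSD
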