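import Pool.Agent.P.MP_c1f06d_ag.w.WNP2
import Pool.Agent.P.MP_c1f06d_ag.d.DFinB

/-! The norm principle over a semilocal ring with finite residue fields. -/

open Matrix Module Polynomial Pool.Agent.SU

universe u

namespace Pool.Agent.GSD

/-- A Wall datum over one residue field lifts to a datum that is trivial at the others. -/
theorem SN.lift_at {T T' A A' : Type u} [CommRing T] [CommRing T'] [Nontrivial T'] [Ring A]
    [Ring A'] [StarRing A] [StarRing A'] [Algebra T A] [Algebra T' A'] {f : T →+* T'}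
    {j : A →+* A'} {m : ℕ} {l : A} (h : QAz T m l) (hj : SBC f j) (hf : Function.Surjective f)
    {e : T} (he : f e = 1) (hT : ∀ t w s : T, IsUnit w → f t ≠ 0 → t = w + e * s → IsUnit t)
    {g1 : A'} {c1 : T'} (hs : SN T' (j l) g1 c1) :
    ∃ g c, SN T l g c ∧ j g = g1 ∧ ∃ x, g = 1 + e • x := by
  have := h.starFix
  obtain ⟨n, _, _, C, Y, u, hn, ha, rfl, rfl⟩ := hs
  choose C0 hC0 using fun i => hj.toBC.surjective hf (C i)
  obtain ⟨W, ⟨Z, hW⟩, hW'⟩ := ha.lift j.mapMatrix (hj.mat n).map_star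
    ((hj.mat n).toBC.surjective hf)
  obtain ⟨X, hX⟩ := dqaz0_J hn
  obtain ⟨J, hJ⟩ : ∃ J, J = (Int.castRingHom A).mapMatrix (X - Xᵀ) := ⟨_, rfl⟩
  have hJu : IsUnit J := hJ ▸ ((isUnit_iff_isUnit_det _).2 (hX ▸ isUnit_one)).map _
  have hJa : J = X.map (↑) - star (X.map (↑)) := by
    rw [hJ]
    ext p q
    simp
  have hC : (fun i => j (e • C0 i)) = C := funext fun i => by
    rw [hj.toBC.smul, he, one_smul, hC0]
  obtain ⟨Y1, hY1⟩ : ∃ Y1, Y1 = gram l (fun i => e • C0 i) + (e • W + (1 - e) • J) := ⟨_, rfl⟩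
  have hY : j.mapMatrix Y1 = Y := by
    rw [hY1, map_add, map_add, (hj.mat n).toBC.smul, (hj.mat n).toBC.smul, map_sub, he, map_one,
      sub_self, zero_smul, add_zero, one_smul, hW', RingHom.mapMatrix_apply,
      dwall_gram_map hj.map_star, hC, add_sub_cancel]
  have hg : gram l (fun i => e • C0 i) = e • e • gram l C0 := by
    ext p q
    simp [gram, star_smul_fix]
  obtain ⟨s, hs⟩ := wnp_cong (h.az.mat n) J (e • gram l C0 + W - J) e
  rw [show J + e • (e • gram l C0 + W - J) = Y1 by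
    rw [hY1, hg, smul_sub, smul_add, sub_smul, one_smul]; abel] at hs
  obtain ⟨Y0, hY0⟩ : IsUnit Y1 := (h.az.mat n).isUnit_nrd_iff.1
    (hT _ _ s ((h.az.mat n).isUnit_nrd_iff.2 hJu)
      (wnp_nrd (h.az.mat n) (hj.mat n).toBC (hY ▸ Y.isUnit)) hs)
  have hd : DwallD l (fun i => e • C0 i) (Y0 : Matrix n n A) _ :=
    dwallD_of_unit Y0 ⟨e • Z + (1 - e) • X.map (↑), by
      rw [hY0, hY1, add_sub_cancel_left, hW, hJa, star_add, star_smul_fix, star_smul_fix, smul_sub,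
        smul_sub]
      abel⟩
  rw [← hY0] at hY
  have hZ : ((Y0⁻¹ : (Matrix n n A)ˣ) : Matrix n n A).map j =
      ((Y⁻¹ : (Matrix n n A')ˣ) : Matrix n n A') := by
    refine (Units.inv_eq_of_mul_eq_one_right ?_).symm
    rw [← hY, ← RingHom.mapMatrix_apply, ← map_mul, Y0.mul_inv, map_one]
  refine ⟨_, _, hd.sn hn 1, by rw [dwall_wiso_map hj.map_star, hC, hZ],
    -∑ p, ∑ q, C0 p * ((Y0⁻¹ : (Matrix n n A)ˣ) : Matrix n n A) p q * star (e • C0 q), ?_⟩
  simp only [wiso, smul_neg, Finset.smul_sum, smul_mul_assoc, sub_eq_add_neg]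

theorem wfin_hT {R S F : Type*} [CommRing R] [CommRing S] [Algebra R S] [Module.Finite R S]
    [Field F] {π : S →+* F} (hπ : Function.Surjective π) {N : MaximalSpectrum R}
    (hk : RingHom.ker π ≤ N.asIdeal.map (algebraMap R S)) {e : R}
    (he : ∀ M, M ≠ N → e ∈ M.asIdeal) (t w s : S) (hw : IsUnit w) (ht : π t ≠ 0)
    (h : t = w + algebraMap R S e * s) : IsUnit t := wnp_unit fun M hM => by
  have := M.isMaximal
  let M0 : MaximalSpectrum R := ⟨M.asIdeal.comap (algebraMap R S),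
    Ideal.isMaximal_comap_of_isIntegral_of_isMaximal _⟩
  by_cases h0 : M0 = N
  · have h1 : RingHom.ker π ≤ M.asIdeal := hk.trans (h0 ▸ Ideal.map_comap_le)
    rw [← (RingHom.ker_isMaximal_of_surjective π hπ).eq_of_le M.isMaximal.ne_top h1] at hM
    exact ht hM
  · refine M.isMaximal.ne_top (Ideal.eq_top_of_isUnit_mem _ ?_ hw)
    rw [eq_sub_iff_add_eq.2 h.symm]
    exact sub_mem hM (Ideal.mul_mem_right _ _ (he M0 h0))

theorem wfin_at {R S k F A A1 : Type u} [CommRing R] [CommRing S] [Algebra R S]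
    [Module.Free R S] [Module.Finite R S] [Field k] [Finite k] [Field F] [Finite F] [Algebra k F]
    [Ring A] [StarRing A] [Algebra R A] {m : ℕ} {l : A} [Ring A1] [StarRing A1] [Algebra S A1]
    [StarFix S A1] {j : A →+* A1} {r : R →+* k} {π : S →+* F} (hr : Function.Surjective r)
    (hπ : Function.Surjective π)
    (hsq : π.comp (algebraMap R S) = (algebraMap k F).comp r) (ho : Odd (finrank k F))
    (ho' : Odd (finrank R S)) (h : QAz R m l) (h5 : 5 ≤ m) (hj : SBC (algebraMap R S) j)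
    {ε : R} (hε : r ε = 1) (hR : ∀ t w s : R, IsUnit w → r t ≠ 0 → t = w + ε * s → IsUnit t)
    (hT : ∀ t w s : S, IsUnit w → π t ≠ 0 → t = w + algebraMap R S ε * s → IsUnit t)
    {g : A1} {c : S} (hs : SN S (j l) g c) :
    ∃ g1 c1, SN S (j l) g1 c1 ∧ g1 - g ∈ extI A1 (RingHom.ker π) ∧
      (∃ x, g1 = 1 + algebraMap R S ε • x) ∧ WN R l (Algebra.norm R c1) := by
  have := r.domain_nontrivial
  have := h.starFix
  have := h.az.free
  have := h.az.finite
  have := hj.toBC.free'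
  have := hj.toBC.finite'
  have hS : QAz S m (j l) := h.map hj
  have hε' : π (algebraMap R S ε) = 1 :=
    (RingHom.congr_fun hsq ε).trans (by rw [RingHom.comp_apply, hε, map_one])
  obtain ⟨Ak, _, _, _, _, jk, hjk⟩ := exists_sbc (A := A) r
  obtain ⟨AF, _, _, _, _, p, hp⟩ := exists_sbc (A := A1) π
  have hcomp := hj.comp hp
  rw [hsq] at hcomp
  obtain ⟨e, he, hes⟩ := hjk.lift hcomp
  have he' : ∀ a, e (jk a) = p (j a) := fun a => RingHom.congr_fun he a
  obtain ⟨φ0, Q0, h0⟩ := isSplit_of_finite (h.map hjk)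
  have h1 := h0.post (algebraMap k F)
  rw [RingHom.comp_id] at h1
  obtain ⟨φ, hφ, h2⟩ := QSpl.lift (g := RingHom.id F) hes (by rwa [RingHom.id_comp])
  have hφ' : ∀ a, φ (e a) = (φ0 a).map (algebraMap k F) := fun a => RingHom.congr_fun hφ a
  rw [he'] at h2
  have key : ∀ g, EvenRefl (Q0.map (algebraMap k F)) g →
      ∃ g1 c1, SN S (j l) g1 c1 ∧ φ (p g1) = g ∧ (∃ x, g1 = 1 + algebraMap R S ε • x) ∧
        WN R l (Algebra.norm R c1) := fun g hg => by
    refine fin_group ho h0.unit h5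
      (fun g => ∃ g1 c1, SN S (j l) g1 c1 ∧ φ (p g1) = g ∧ (∃ x, g1 = 1 + algebraMap R S ε • x) ∧
        WN R l (Algebra.norm R c1)) ?_ ?_ ?_ hg
    · rintro _ _ ⟨g1, c1, s1, rfl, ⟨x1, e1⟩, w1⟩ ⟨g2, c2, s2, rfl, ⟨x2, e2⟩, w2⟩
      exact ⟨g1 * g2, c1 * c2, s1.mul hS s2, by rw [map_mul, map_mul], ⟨x1 + g1 * x2, by
        rw [e2, mul_add, mul_one, mul_smul_comm, smul_add, ← add_assoc, ← e1]⟩,
        by rw [map_mul]; exact w1.mul h w2⟩
    · intro g hg
      obtain ⟨g, rfl⟩ := h2.toBC.surjective Function.surjective_id g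
      obtain ⟨c', hs⟩ := (sn_iff_evenRefl h2 h5 g).2 hg
      obtain ⟨g1, c1, s1, rfl, x1, e1⟩ := hs.lift_at hS hp hπ hε' hT
      refine ⟨g1 * g1, c1 * c1, s1.mul hS s1, by rw [map_mul, map_mul], ⟨x1 + g1 * x1, by
        rw [smul_add, ← add_assoc, ← e1, ← mul_smul_comm, ← mul_one_add, ← e1]⟩, ?_⟩
      rw [map_mul, ← sq]
      exact wn_sq h ((s1.isUnit hS).map (Algebra.norm R))
    · intro g hg
      obtain ⟨g, rfl⟩ := h0.toBC.surjective Function.surjective_id g
      obtain ⟨c', hs⟩ := (sn_iff_evenRefl h0 h5 g).2 hg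
      obtain ⟨g1, c1, s1, rfl, x1, e1⟩ := hs.lift_at h hjk hr hε hR
      refine ⟨j g1, algebraMap R S c1, s1.map h hj, by rw [← he', hφ'],
        ⟨j x1, by rw [e1, map_add, map_one, hj.toBC.smul]⟩, ?_⟩
      rw [Algebra.norm_algebraMap]
      obtain ⟨t, ht⟩ := ho'
      refine WN.of_isSquare h ⟨g1, s1⟩ ((s1.isUnit h).pow _) ⟨c1 ^ (t + 1), ?_⟩
      rw [ht]
      ring
  obtain ⟨g1, c1, s1, hg, x1, w1⟩ := key _ ((sn_iff_evenRefl h2 h5 _).1 ⟨_, hs.map hS hp⟩)
  have hg' : p g1 = p g := h2.toBC.injective Function.injective_id hg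
  exact ⟨g1, c1, s1, hp.toBC.map_eq_zero_iff.1 (by rw [map_sub, hg', sub_self]), x1, w1⟩

variable {R A A1 : Type u} [CommRing R] [Ring A]
  [StarRing A] [Algebra R A] {m : ℕ} {l : A} {P : R[X]} [Ring A1] [StarRing A1]
  [Algebra (AdjoinRoot P) A1] [StarFix (AdjoinRoot P) A1] {j : A →+* A1}

theorem wfin_one (h : QAz R m l) (h5 : 5 ≤ m) (hP : P.Monic) (N : MaximalSpectrum R)
    [Finite (R ⧸ N.asIdeal)] (hi : Irreducible (P.map (Ideal.Quotient.mk N.asIdeal)))
    (hodd : Odd P.natDegree) (hj : SBC (AdjoinRoot.of P) j) {ε : R} (h1 : ε - 1 ∈ N.asIdeal)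
    (h2 : ∀ M, M ≠ N → ε ∈ M.asIdeal) {g : A1} {c : AdjoinRoot P}
    (hs : SN (AdjoinRoot P) (j l) g c) :
    ∃ g1 c1, SN (AdjoinRoot P) (j l) g1 c1 ∧ WN R l (Algebra.norm R c1) ∧
      g1 - g ∈ extI A1 (N.asIdeal.map (AdjoinRoot.of P)) ∧
      ∀ M, M ≠ N → g1 - 1 ∈ extI A1 (M.asIdeal.map (AdjoinRoot.of P)) := by
  have := N.isMaximal
  let _ := Ideal.Quotient.field N.asIdeal
  have := (Ideal.Quotient.mk N.asIdeal).domain_nontrivial
  have := Module.Free.of_basis (AdjoinRoot.powerBasis' hP).basis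
  have := Module.Finite.of_basis (AdjoinRoot.powerBasis' hP).basis
  have := Fact.mk hi
  set B := P.map (Ideal.Quotient.mk N.asIdeal) with hB
  have hdB : B.natDegree = P.natDegree := hP.natDegree_map _
  have := Module.Finite.of_basis (AdjoinRoot.powerBasis hi.ne_zero).basis
  have : Finite (AdjoinRoot B) := Module.finite_of_finite (R ⧸ N.asIdeal)
  let φ : AdjoinRoot P →+* AdjoinRoot B :=
    AdjoinRoot.lift ((AdjoinRoot.of B).comp (Ideal.Quotient.mk N.asIdeal)) (AdjoinRoot.root B)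
      (by rw [← eval₂_map]; exact AdjoinRoot.eval₂_root _)
  have hφ : ∀ r, φ (AdjoinRoot.mk P r) = AdjoinRoot.mk B (r.map (Ideal.Quotient.mk N.asIdeal)) :=
    fun r => by
      rw [AdjoinRoot.lift_mk, ← eval₂_map, ← AdjoinRoot.aeval_eq]
      rfl
  have hm' := map_surjective (Ideal.Quotient.mk N.asIdeal) Ideal.Quotient.mk_surjective
  have hsu : Function.Surjective φ := fun x => by
    obtain ⟨r, rfl⟩ := AdjoinRoot.mk_surjective x
    obtain ⟨r, rfl⟩ := hm' r
    exact ⟨_, hφ r⟩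
  have hk : RingHom.ker φ ≤ N.asIdeal.map (algebraMap R (AdjoinRoot P)) := fun x hx => by
    obtain ⟨r, rfl⟩ := AdjoinRoot.mk_surjective x
    obtain ⟨t, ht⟩ := AdjoinRoot.mk_eq_zero.1 ((hφ r).symm.trans hx)
    obtain ⟨t, rfl⟩ := hm' t
    have h1 : r - P * t ∈ RingHom.ker (mapRingHom (Ideal.Quotient.mk N.asIdeal)) := by
      rw [RingHom.mem_ker, coe_mapRingHom, Polynomial.map_sub, Polynomial.map_mul, ht, sub_self]
    rw [ker_mapRingHom, Ideal.mk_ker] at h1
    have h2 := Ideal.mem_map_of_mem (AdjoinRoot.mk P) h1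
    rwa [Ideal.map_map, map_sub, map_mul, AdjoinRoot.mk_self, zero_mul, sub_zero] at h2
  let _ : Algebra (R ⧸ N.asIdeal) (AdjoinRoot B) := AdjoinRoot.instAlgebra B
  have ho : Odd (finrank (R ⧸ N.asIdeal) (AdjoinRoot B)) := by
    rwa [(AdjoinRoot.powerBasis hi.ne_zero).finrank, AdjoinRoot.powerBasis_dim, hdB]
  obtain ⟨g1, c1, s1, a1, ⟨x, rfl⟩, w1⟩ := wfin_at (S := AdjoinRoot P) (k := R ⧸ N.asIdeal)
    (F := AdjoinRoot B) (r := Ideal.Quotient.mk N.asIdeal) (π := φ) Ideal.Quotient.mk_surjective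
    hsu (AdjoinRoot.lift_comp_of _) ho (by rwa [(AdjoinRoot.powerBasis' hP).finrank]) h h5 hj
    (ε := ε) (Ideal.Quotient.eq.2 h1)
    (wfin_hT (R := R) Ideal.Quotient.mk_surjective (N := N) (by simp) h2) (wfin_hT hsu hk h2) hs
  exact ⟨_, c1, s1, w1, Ideal.map_mono hk a1, fun M hM => by
    rw [add_sub_cancel_left]
    exact smul_mem_extI (Ideal.mem_map_of_mem _ (h2 M hM)) x⟩

/-- The norm principle over a semilocal ring with finite residue fields. -/
theorem np_fin_semi [Finite (MaximalSpectrum R)]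
    (hfin : ∀ N : MaximalSpectrum R, Finite (R ⧸ N.asIdeal)) (h : QAz R m l) (hm : Even m)
    (h5 : 5 ≤ m) (hP : P.Monic)
    (hi : ∀ N : MaximalSpectrum R, Irreducible (P.map (Ideal.Quotient.mk N.asIdeal)))
    (hd : ∀ N : MaximalSpectrum R, FinDeg (m * m + Nat.card (R ⧸ N.asIdeal)) P.natDegree)
    (hj : SBC (AdjoinRoot.of P) j) {c : AdjoinRoot P} (hc : WN (AdjoinRoot P) (j l) c) :
    WN R l (Algebra.norm R c) := by
  classical
  have := Fintype.ofFinite (MaximalSpectrum R)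
  have hS := h.map hj
  obtain ⟨g, hs⟩ := hc
  obtain ⟨e, he⟩ := wnp_e (Z := R)
  have key : ∀ s : Finset (MaximalSpectrum R), ∃ g1 c1, SN (AdjoinRoot P) (j l) g1 c1 ∧
      WN R l (Algebra.norm R c1) ∧ ∀ M : MaximalSpectrum R,
        g1 - (if M ∈ s then g else 1) ∈ extI A1 (M.asIdeal.map (AdjoinRoot.of P)) := fun s => by
    induction s using Finset.induction_on with
    | empty =>
      exact ⟨1, 1 ^ 2, sn_one hS isUnit_one, by
        rw [map_pow, map_one]; exact wn_sq h isUnit_one, by simp⟩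
    | insert N s hN ih =>
      obtain ⟨g1, c1, s1, w1, a1⟩ := ih
      have := hfin N
      obtain ⟨g2, c2, s2, w2, a2, a3⟩ := wfin_one h h5 hP N (hi N) (Nat.not_even_iff_odd.1 fun he =>
        (hd N).2 2 le_rfl (by nlinarith) he.two_dvd) hj (he N).1 (he N).2 hs
      refine ⟨g1 * g2, c1 * c2, s1.mul hS s2, by rw [map_mul]; exact w1.mul h w2, fun M => ?_⟩
      by_cases hM : M = N
      · have h1 := a1 N
        rw [if_neg hN] at h1
        rw [hM, if_pos (Finset.mem_insert_self N s),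
          show g1 * g2 - g = (g1 - 1) * g2 + (g2 - g) by noncomm_ring]
        exact add_mem (Ideal.mul_mem_right _ _ h1) a2
      · simp only [Finset.mem_insert, hM, false_or]
        rw [show ∀ x, g1 * g2 - x = g1 * (g2 - 1) + (g1 - x) from fun x => by noncomm_ring]
        exact add_mem (Ideal.mul_mem_left _ _ (a3 M hM)) (a1 M)
  obtain ⟨g1, c1, s1, w1, a1⟩ := key Finset.univ
  have w2 := fin_kernel_semi hfin h hm hP hi hd hj (hs.mul hS (s1.inv hS)) fun N => by
    have h1 := a1 N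
    rw [if_pos (Finset.mem_univ N)] at h1
    rw [← (s1.iso hS).2, ← sub_mul, ← neg_sub]
    exact Ideal.mul_mem_right _ _ (neg_mem h1)
  refine WN.of_isSquare h (w2.mul h w1) ((hs.isUnit hS).map (Algebra.norm R))
    ⟨Algebra.norm R c * Algebra.norm R c1, ?_⟩
  rw [map_mul]
  ring

end Pool.Agent.GSD
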