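import Pool.Agent.P.MP_c1f06d_ag.w.GeoZ
import Pool.Agent.P.MP_c1f06d_ag.d.WVal5
import Pool.Agent.P.MP_c1f06d_ag.d.RunD

open Polynomial IsLocalRing Module

universe u

namespace Pool.Agent.GSD

open Pool.Agent.P.MP_c1f06d_ag Pool.Agent.SU Pool.Agent.GW

/-- `O` is finite, free and separable over a valuation ring, and `K` is its generic fibre. -/
def OverVal (O K : Type u) [CommRing O] [Field K] [Algebra O K] : Prop :=
  ∃ (O0 K0 : Type u) (_ : CommRing O0) (_ : IsDomain O0) (_ : ValuationRing O0)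
    (_ : Infinite (ResidueField O0)) (_ : Field K0) (_ : Algebra O0 K0) (_ : IsFractionRing O0 K0)
    (_ : Algebra O0 O) (_ : Algebra K0 K), BC (algebraMap O0 K0) (algebraMap O K) ∧ Avg O0 O

/-- The geometric principle, with a ring `O` over a valuation ring. -/
def GeoV (Z K : Type u) [CommRing Z] [Field K] [Algebra Z K] : Prop :=
  ∃ (B : Type u) (_ : CommRing B) (ρ : B →+* Z) (O : Type u) (_ : CommRing O) (_ : IsDomain O)
    (_ : Algebra Z O) (_ : Algebra O K) (_ : IsScalarTower Z O K),
    OverVal O K ∧ GW.GZ ρ (algebraMap Z O)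

/-- The principle for a localisation of `Z[X]`. -/
def GeoXV (Z K : Type u) [CommRing Z] [Field K] [Algebra Z K] : Prop :=
  ∃ (Z1 K1 : Type u) (_ : CommRing Z1) (_ : Finite (MaximalSpectrum Z1))
    (_ : Field K1) (_ : Algebra Z1 K1) (ζ : Z[X] →+* Z1)
    (κ : K →+* K1), ResInf Z1 ∧ GeoV Z1 K1 ∧
      κ.comp (algebraMap Z K) = (algebraMap Z1 K1).comp (ζ.comp C) ∧ LocPres ζ 0 ∧
      ∀ F, IsUnit (ζ F) → ∀ N, F.map (rf N) ≠ 0

theorem overVal_of_avg (O0 O K : Type u) [CommRing O0] [IsDomain O0] [ValuationRing O0]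
    [Infinite (ResidueField O0)] [CommRing O] [IsDomain O] [Algebra O0 O] [Module.Free O0 O]
    [Module.Finite O0 O] (hav : Avg O0 O) [Field K] [Algebra O K] [IsFractionRing O K] :
    OverVal O K := by
  let b1 := Module.Free.chooseBasis O0 O
  let _ : Algebra O0 K := ((algebraMap O K).comp (algebraMap O0 O)).toAlgebra
  have : IsScalarTower O0 O K := IsScalarTower.of_algebraMap_eq' rfl
  have : FaithfulSMul O0 K := (faithfulSMul_iff_algebraMap_injective _ _).2
    ((IsFractionRing.injective O K).comp (FaithfulSMul.algebraMap_injective O0 O))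
  let _ : Algebra (FractionRing O0) K := FractionRing.liftAlgebra O0 K
  have : IsScalarTower O0 (FractionRing O0) K := FractionRing.isScalarTower_liftAlgebra O0 K
  refine ⟨O0, FractionRing O0, _, ‹_›, ‹_›, ‹_›, _, _, inferInstance, _, _,
    dbc0_mk (fun t => ?_) b1 (b1.localizationLocalization (FractionRing O0) (nonZeroDivisors O0) K)
      fun i => (b1.localizationLocalization_apply _ (nonZeroDivisors O0) K i).symm, hav⟩
  rw [← IsScalarTower.algebraMap_apply, ← IsScalarTower.algebraMap_apply]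

theorem overVal_of_loc {R : Type u} [CommRing R] [IsDomain R] [IsLocalRing R]
    [Infinite (ResidueField R)] (q : Ideal R) [q.IsPrime]
    [ValuationRing (Localization.AtPrime q)] (Z O K : Type u) [CommRing Z] [IsDomain Z]
    [Algebra R Z] [Module.Finite R Z] [Algebra.Etale R Z] [CommRing O] [IsDomain O] [Algebra Z O]
    [IsLocalization (Algebra.algebraMapSubmonoid Z q.primeCompl) O] [Field K] [Algebra O K]
    [IsFractionRing O K] : OverVal O K := by
  have : Module.Free R Z := Module.free_of_flat_of_isLocalRing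
  let O0 := Localization.AtPrime q
  let _ : Algebra O0 O := localizationAlgebra q.primeCompl Z
  let _ : Algebra R O := ((algebraMap Z O).comp (algebraMap R Z)).toAlgebra
  have : IsScalarTower R Z O := IsScalarTower.of_algebraMap_eq' rfl
  have : IsScalarTower R O0 O := isScalarTower_localizationAlgebra _ _
  let b := Module.Free.chooseBasis R Z
  have h1 : BC (algebraMap R O0) (algebraMap Z O) := dbc0_mk (fun t => by
    rw [← IsScalarTower.algebraMap_apply, ← IsScalarTower.algebraMap_apply]) b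
    (b.localizationLocalization O0 q.primeCompl O)
    fun i => (b.localizationLocalization_apply O0 q.primeCompl O i).symm
  have := h1.free'
  have := h1.finite'
  have := infinite_residue (algebraMap R O0)
  exact overVal_of_avg O0 O K (avg_bc h1 avg_of_unramified)

theorem geoV_of_gp {B0 R : Type u} [CommRing B0] [CommRing R] [IsDomain R] [IsLocalRing R]
    [Infinite (ResidueField R)] {ρ0 : B0 →+* R} {q : Ideal R} [q.IsPrime]
    [ValuationRing (Localization.AtPrime q)] (hg : GP ρ0 q) (Z K : Type u) [CommRing Z] [IsDomain Z]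
    [Algebra R Z] [Module.Finite R Z] [Algebra.Etale R Z] [Field K] [Algebra Z K]
    [IsFractionRing Z K] : GeoV Z K := by
  obtain ⟨f, θ, hm⟩ := exists_mono R Z
  obtain ⟨O, _, _, _, _, _, _, _, h1, -, -⟩ := hm.loc q K
  obtain ⟨B, _, ρ, h⟩ := gz_of_gp hg hm O
  exact ⟨B, _, ρ, O, _, ‹_›, _, _, ‹_›, overVal_of_loc q Z O K, h⟩

theorem geoV_cases (V A : Type u) [CommRing V] [IsDomain V] [ValuationRing V] [CommRing A]
    [Algebra V A] [Algebra.Smooth V A] (p : Ideal A) [p.IsPrime] (R : Type u) [CommRing R]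
    [Algebra A R] [IsLocalization.AtPrime R p] (Z K : Type u) [CommRing Z] [IsDomain Z]
    [Algebra R Z] [Module.Finite R Z] [Algebra.Etale R Z] [Field K] [Algebra Z K]
    [IsFractionRing Z K] :
    Finite (MaximalSpectrum Z) ∧ (ResInf Z ∧ GeoV Z K ∨ ResFin Z ∧ GeoXV Z K) := by
  have : IsLocalRing R := IsLocalization.AtPrime.isLocalRing R p
  have : IsDomain R := isDomain_of_smooth V A p R
  refine ⟨wv_finite_max (T := R), ?_⟩
  rcases finite_or_infinite (ResidueField R) with hfin | hinf
  · obtain ⟨B, _, ρ, q, _, _, hg⟩ := exists_gp_RX V A p R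
    obtain ⟨Z1, _, _, _, _, _, ζ, h1, h2, h3⟩ := exists_ZX R Z
    have := infinite_residueField_RX R
    obtain ⟨K1, _, _, _, κ, hκ⟩ := exists_frac K (ζ.comp C) (h1.comp C_injective)
    exact .inr ⟨(resFin_of_local R).of_finite Z, Z1, K1, _, wv_finite_max (T := RX R),
      _, _, ζ, κ, (resInf_of_local (RX R)).of_finite Z1, geoV_of_gp hg Z1 K1, hκ, h2, h3⟩
  · obtain ⟨B, _, ρ, q, _, _, hg⟩ := exists_gp V A p R
    exact .inl ⟨(resInf_of_local R).of_finite Z, geoV_of_gp hg Z K⟩

end Pool.Agent.GSD
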