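import Pool.Agent.P.MP_c1f06d_ag.d.DCoreB
import Pool.Agent.P.MP_c1f06d_ag.w.XGeo
import Pool.Agent.P.MP_c1f06d_ag.w.XEq
import Pool.Agent.P.MP_c1f06d_ag.w.XSpl
import Pool.Agent.P.MP_c1f06d_ag.w.WNP1
import Pool.Agent.P.MP_c1f06d_ag.w.WNP3

/-! Spinor norms from the fraction field, over a semilocal base with the geometric principle. -/

open Matrix Module Polynomial Pool.Agent.SU Pool.Agent.P.MP_c1f06d_ag Pool.Agent.GW

universe u

namespace Pool.Agent.GSD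

open SAlg

variable {N m : ℕ}

theorem xcb_near {B R : Type u} [CommRing B] [CommRing R] [Finite (MaximalSpectrum R)]
    (hinf : ResInf R) {A : SAlg B N} {l : A.Car} {c : B} {ρ : B →+* R}
    (hA : QAz R m (A.bc ρ l)) (hm : 2 ≤ m) (hq : QM A l) (hc : IsUnit c) :
    NearS (dcb_W A l c ρ) ρ := by
  intro T _ i ψ σ hi hψ
  have hcm : σ.comp (i.comp ρ) = σ.comp ψ := by rw [← RingHom.comp_assoc, hi, hψ]; rfl
  have hG : QAz T m (A.bc (i.comp ρ) l) := hA.map (sbc_bc _ i)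
  obtain ⟨T1, _, f1, σ1, e1, c1, Φ, -, p2⟩ := exists_smooth_qiso (A1 := A.map (i.comp ρ))
    (A2 := A.map ψ) σ (congrArg A.map hcm) (l1 := A.bc _ l) (l2 := A.bc _ l)
    (funext fun a => RingHom.congr_fun hcm (l.co a)) (hG.qn (by omega)) (hq.map ψ)
  obtain ⟨y, w, p, hy, uy, hw, p0, p1, hp⟩ := hA.exists_smooth_line_semi hinf hm
  have s1 : ∀ r, σ1 (f1 (i r)) = r := fun r =>
    (RingHom.congr_fun c1 _).trans (RingHom.congr_fun hi r)
  have s2 : σ1 (f1 (ψ c)) = ρ c := (RingHom.congr_fun c1 _).trans (RingHom.congr_fun hψ c)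
  obtain ⟨T2, _, f2, σ2, s, e2, c2, hs⟩ := xeq_root σ1
    (C (f1 (i (ρ c))) * p.map (f1.comp i) - C (f1 (i (p.coeff 0)) * f1 (ψ c)))
    (by simp [s1, s2, mul_comm]) (by simpa [s1, coeff_C] using (hc.map ρ).mul p1)
  refine ⟨T2, inferInstance, f2.comp f1, σ2, e1.comp e2,
    by rw [← RingHom.comp_assoc, c2, c1], ?_, ?_⟩
  · obtain ⟨Ψ, hΨ⟩ := Φ.exists_map f2
    refine ⟨Ψ, ?_⟩
    have := p2.map _ (((A.map ψ).map f1).bc_star (f := f2))
    rw [map_sub, ← hΨ] at this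
    exact this
  · let k : R →+* T2 := (f2.comp f1).comp i
    have hk := sbc_bc (A.map ρ) k
    have hz : Az T2 ((A.map ρ).map k).Car := (hA.map hk).az
    have n1 := hp _ _ k _ hk.toBC s
    have n2 : nrd T2 ((A.map ρ).bc k y) = k (p.coeff 0) := by
      rw [hA.az.nrd_map hk.toBC, p0]
    have u0 : IsUnit (k (p.coeff 0)) := (p0 ▸ hA.az.isUnit_nrd_iff.2 uy).map k
    have hs' : k (ρ c) * (p.map k).eval s = k (p.coeff 0) * f2 (f1 (ψ c)) := by
      rw [Polynomial.map_sub, Polynomial.map_mul, map_C, map_C, Polynomial.map_map, eval_sub,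
        eval_mul, eval_C, eval_C, map_mul, sub_eq_zero] at hs
      exact hs
    have u1 : IsUnit ((A.map ρ).bc k y + s • (A.map ρ).bc k w) := by
      rw [← hz.isUnit_nrd_iff, n1]
      exact isUnit_of_mul_isUnit_right (hs' ▸ u0.mul (((hc.map ψ).map f1).map f2))
    obtain ⟨v, hv⟩ := u0.exists_right_inv
    have ly : La ((A.map ρ).bc k (A.bc ρ l)) ((A.map ρ).bc k y) := by
      have := Alt.map _ hk.map_star hy
      rw [map_sub] at this
      exact this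
    have lw : Alt (s • (A.map ρ).bc k w) := by
      obtain ⟨z, hz⟩ := Alt.map _ hk.map_star hw
      exact ⟨s • z, by rw [hz, star_smul', smul_sub]⟩
    refine ⟨u1.unit, (uy.map ((A.map ρ).bc k)).unit, k (ρ c) * v, _, _, ly.add_alt lw, ly,
      hz.isNrd _, hz.isNrd _, ?_⟩
    change k (ρ c) * f2 (f1 (ψ c)) = _ * (nrd T2 (_ + _) * nrd T2 ((A.map ρ).bc k y))
    rw [n1, n2]
    linear_combination (-(k (ρ c) * v ^ 2 * k (p.coeff 0))) * hs' -
      k (ρ c) * f2 (f1 (ψ c)) * (k (p.coeff 0) * v + 1) * hv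

theorem xcb_inf {R K : Type u} [CommRing R] [Finite (MaximalSpectrum R)] [Field K] [Algebra R K]
    (hinf : ResInf R) (hg : GeoV R K) (hN : N = m * m) {A : SAlg R N} {l : A.Car} (h : QAz R m l)
    (hm : Even m) (h2 : 2 ≤ m) {c : R} (hc : IsUnit c)
    (hK : PairN K (A.bc (algebraMap R K) l) (algebraMap R K c)) : WN R l c := by
  obtain ⟨B, _, ρ, O, _, _, _, _, _, ⟨O0, K0, _, _, _, _, _, _, _, _, _, hO1, hO2⟩, hg⟩ := hg
  obtain ⟨B1, _, j1, ρ1, n1, A1, rfl⟩ := spr_model hg.lp A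
  obtain ⟨B2, _, j2, ρ2, n2, y, hy⟩ := spr_lift n1.lp A1 fun _ : Unit => l
  obtain rfl := n2.comp
  obtain rfl : (A1.map j2).bc ρ2 (y ()) = l := Car.ext (hy ())
  obtain ⟨B3, _, j3, ρ3, n3, q3⟩ := qm_spread n2.lp (A1.map j2) (h.qn (by omega)).toQM
  obtain rfl := n3.comp
  obtain ⟨B4, _, j4, ρ4, n4, a, ha⟩ := exists_nb_lift n3.lp fun _ : Unit => c
  obtain rfl := n4.comp
  obtain rfl := ha ()
  obtain ⟨B5, _, j5, ρ5, n5, u5⟩ := exists_nb_unit n4.lp (a ()) hc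
  obtain rfl := n5.comp
  have hg1 := hg.nb ((((n1.trans n2).trans n3).trans n4).trans n5)
  let A0 := (((A1.map j2).map j3).map j4).map j5
  let l0 : A0.Car := (A1.map j2).bc (j5.comp (j4.comp j3)) (y ())
  have q0 : QM A0 l0 := (q3.map j4).map j5
  have h' : QAz R m (A0.bc ρ5 l0) := h
  change WN R (A0.bc ρ5 l0) (ρ5 (j5 (a ())))
  change PairN K ((A0.map ρ5).bc _ (A0.bc ρ5 l0)) (algebraMap R K (ρ5 (j5 (a ())))) at hK
  generalize j5 (a ()) = c0 at u5 hK ⊢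
  rw [IsScalarTower.algebraMap_eq R O K] at hK
  have hO := val_pairN_fin hO1 hO2 (h'.map (sbc_bc _ (algebraMap R O))) hm (sbc_bc _ (algebraMap O K))
    ((u5.map ρ5).map (algebraMap R O)) hK
  obtain ⟨B6, _, j6, ρ6, n6, t6⟩ := dcb_pairN_spread hg1.lpO hN A0 (l := l0) (c := c0) hO
  obtain ⟨P, k, ψ, hP, hk, ⟨Φ, hΦ⟩, hW⟩ := hg1.run n6 2 two_pos (dcb_W A0 l0 c0 ρ5)
    (dcb_stable _ _ _ _) (xcb_near hinf h' h2 q0 u5)
  have t7 : PairN _ (A0.bc (ψ.comp j6) l0) (ψ (j6 c0)) := by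
    have := t6.map (sbc_bc _ ψ)
    exact this
  have t8 := (t7.of_la hΦ).map (dcb_siso Φ.symm)
  have t9 : PairN _ ((A0.map ρ5).bc (AdjoinRoot.of P) (A0.bc ρ5 l0)) (ψ (j6 c0)) := by
    change PairN _ (Φ.e.symm (Φ.e _)) _ at t8
    rw [Φ.e.symm_apply_apply] at t8
    exact t8
  have u6 : IsUnit (ψ (j6 c0)) := (u5.map j6).map ψ
  have w1 := np_inf_semi hinf h' hm (AdjoinRoot.powerBasis' hP) (sbc_bc _ (AdjoinRoot.of P))
    u6 t9
  have w2 := np_inf_semi hinf h' hm (AdjoinRoot.powerBasis' hP) (sbc_bc _ (AdjoinRoot.of P))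
    (((u5.map ρ5).map (AdjoinRoot.of P)).mul u6) hW
  rw [map_mul, dcb_norm hP] at w2
  refine WN.of_odd_pow h' (k := P.natDegree) ⟨k, hk⟩
    ((w1.mul h' w2).of_isSquare h' ((u5.map ρ5).pow _)
      ⟨Algebra.norm R (ψ (j6 c0)) * ρ5 c0 ^ P.natDegree, by ring⟩)

variable {Z K : Type u} [CommRing Z] [Finite (MaximalSpectrum Z)] [Field K]
  [Algebra Z K] (hZ : ResInf Z ∧ GeoV Z K ∨ ResFin Z ∧ GeoXV Z K)
include hZ

theorem xcb_main (hN : N = m * m) {A : SAlg Z N} {l : A.Car} (h : QAz Z m l) (hm : Even m)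
    (h5 : 5 ≤ m) {c : Z} (hc : IsUnit c)
    (hK : PairN K (A.bc (algebraMap Z K) l) (algebraMap Z K c)) : WN Z l c := by
  rcases hZ with ⟨hinf, hg⟩ | ⟨hfin, Z1, K1, _, _, _, _, ζ, κ, hinf, hg, hκ, hζ, hF⟩
  · exact xcb_inf hinf hg hN h hm (by omega) hc hK
  have := (algebraMap Z K).domain_nontrivial
  have t1 : PairN K1 (A.bc (κ.comp (algebraMap Z K)) l) (κ.comp (algebraMap Z K) c) := by
    have := hK.map (sbc_bc _ κ)
    exact this
  rw [hκ] at t1
  have t3 := xcb_inf hinf hg hN (h.map (sbc_bc A (ζ.comp Polynomial.C)))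
    hm (by omega) (hc.map (ζ.comp Polynomial.C)) t1
  obtain ⟨B2, _, j2, ρ2, hn, t4⟩ := dcb_wn_spread hζ (A.map Polynomial.C)
    (h.map (sbc_bc A Polynomial.C)) (c := Polynomial.C c) t3
  obtain ⟨k, hk⟩ := hfin.run hF hn
  obtain ⟨M, hM⟩ := (Set.finite_range fun N : MaximalSpectrum Z =>
    Nat.card (Z ⧸ N.asIdeal)).bddAbove
  obtain ⟨P, ψ, hP, hd0, hi, hψ⟩ := hk ((m * m + M).factorial * (k + 1) + 1) (by
    have := (m * m + M).factorial_pos
    nlinarith)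
  have t5 : WN _ (A.bc ((ψ.comp j2).comp Polynomial.C) l) (((ψ.comp j2).comp Polynomial.C) c) := by
    have := t4.map (h.map (sbc_bc A (j2.comp Polynomial.C))) (sbc_bc _ ψ)
    exact this
  rw [hψ] at t5
  have hd := hd0 ▸ dcb_finDeg (m * m + M) k
  have t6 := np_fin_semi hfin h hm h5 hP hi (fun N => ⟨hd.1, fun e h2 he =>
    hd.2 e h2 (he.trans (Nat.add_le_add_left (hM ⟨N, rfl⟩) _))⟩) (sbc_bc A _) t5
  rw [dcb_norm hP] at t6
  refine t6.of_odd_pow h (Nat.not_even_iff_odd.1 fun he => ?_)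
  exact hd.2 2 le_rfl (by nlinarith) he.two_dvd

/-- A unit of `Z` that is a product of two norms over the fraction field is a spinor norm. -/
theorem coreB_geo {A AK : Type u} [Ring A] [StarRing A] [Algebra Z A] [Ring AK] [StarRing AK]
    [Algebra K AK] [StarFix K AK] {j : A →+* AK} {l : A}
    (h : QAz Z m l) (hm : Even m) (h5 : 5 ≤ m) (hj : SBC (algebraMap Z K) j) {c : Z}
    (hc : IsUnit c) (hK : PairN K (j l) (algebraMap Z K c)) : WN Z l c := by
  have := (algebraMap Z K).domain_nontrivial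
  have := h.starFix
  have := h.az.free
  have := h.az.finite
  obtain ⟨N, B, e, h1, h2⟩ := exists_salg (T := Z) (A := A)
  have hB := h.map h1
  have hN : N = m * m := by
    rw [← hB.finrank, B.coL.finrank_eq, Module.finrank_fin_fun]
  obtain ⟨k, hk, h3⟩ := hj.lift (g := RingHom.id K) (h1.comp (sbc_bc B (algebraMap Z K)))
  have t1 := hK.map h3
  rw [show k (j l) = B.bc (algebraMap Z K) (e l) from RingHom.congr_fun hk l] at t1
  have t2 := (xcb_main hZ hN hB hm h5 hc t1).map hB h2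
  rwa [show (e.symm : B.Car →+* A) ((e : A →+* B.Car) l) = l from e.symm_apply_apply l] at t2

end Pool.Agent.GSD
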