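import Pool.Agent.P.MP_c1f06d_ag.w.Weil

open Polynomial

universe u

namespace Pool.Agent.GW

open Pool.Agent.P.MP_c1f06d_ag Pool.Agent.SU

section
variable {B R : Type u} [CommRing B] [CommRing R] {ρ : B →+* R}

theorem lp_poly (h : LocPres ρ 0) (p : R[X]) :
    ∃ (a : B[X]) (s : B), IsUnit (ρ s) ∧ p * C (ρ s) = a.map ρ := by
  induction p using Polynomial.induction_on' with
  | add p q hp hq =>
    obtain ⟨a, s, hs, e⟩ := hp
    obtain ⟨b, t, ht, e'⟩ := hq
    refine ⟨a * C t + b * C s, s * t, by rw [map_mul]; exact hs.mul ht, ?_⟩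
    simp only [map_mul, Polynomial.map_add, Polynomial.map_mul, map_C, ← e, ← e']
    ring
  | monomial n r =>
    obtain ⟨a, s, hs, e⟩ := h.surj r
    exact ⟨monomial n a, s, hs, by rw [map_monomial, monomial_mul_C, e]⟩

theorem lp_poly_zero (h : LocPres ρ 0) {e : B[X]} (he : e.map ρ = 0) :
    ∃ s : B, IsUnit (ρ s) ∧ C s * e = 0 := by
  obtain ⟨s, hs, hd⟩ := spread_ker h (fun i : Fin (e.natDegree + 1) => e.coeff i) fun i => by
    rw [← coeff_map, he, coeff_zero]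
  refine ⟨s, hs, Polynomial.ext fun i => ?_⟩
  rw [coeff_C_mul, coeff_zero]
  rcases lt_or_ge e.natDegree i with hi | hi
  · rw [coeff_eq_zero_of_natDegree_lt hi, mul_zero]
  · exact zero_dvd_iff.1 (hd ⟨i, Nat.lt_succ_of_le hi⟩)

theorem nb_poly (h : LocPres ρ 0) (p : R[X]) :
    ∃ (B' : Type u) (_ : CommRing B') (j : B →+* B') (ρ' : B' →+* R), Nb ρ j ρ' ∧
      ∃ a : B'[X], a.map ρ' = p := by
  obtain ⟨a, s, hs, e⟩ := lp_poly h p
  obtain ⟨B', _, j, ρ', hn, hu⟩ := exists_nb_unit h s hs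
  obtain ⟨t, ht⟩ := hu.exists_right_inv
  refine ⟨B', inferInstance, j, ρ', hn, a.map j * C t, ?_⟩
  rw [Polynomial.map_mul, Polynomial.map_map, hn.comp, ← e, map_C, mul_assoc, ← C_mul, ← hn.apply,
    ← map_mul, ht, map_one, C_1, mul_one]

/-- A monic separable polynomial spreads to a neighbourhood. -/
theorem nb_sep (h : LocPres ρ 0) {f b c : R[X]} (hf : f.Monic) (e : derivative f * b + f * c = 1) :
    ∃ (B' : Type u) (_ : CommRing B') (j : B →+* B') (ρ' : B' →+* R), Nb ρ j ρ' ∧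
      ∃ f' b' c' : B'[X], f'.Monic ∧ f'.map ρ' = f ∧ derivative f' * b' + f' * c' = 1 := by
  obtain ⟨B1, _, j1, ρ1, n1, f1, e1⟩ := nb_poly h f
  obtain ⟨f1, rfl, -, m1⟩ := lifts_and_natDegree_eq_and_monic ((mem_lifts f).2 ⟨f1, e1⟩) hf
  obtain ⟨B2, _, j2, ρ2, n2, b2, rfl⟩ := nb_poly n1.lp b
  obtain ⟨B3, _, j3, ρ3, n3, c3, rfl⟩ := nb_poly n2.lp c
  obtain rfl := n2.comp
  obtain rfl := n3.comp
  obtain ⟨s, hs, e3⟩ := lp_poly_zero n3.lp
    (e := derivative ((f1.map j2).map j3) * b2.map j3 + (f1.map j2).map j3 * c3 - 1) (by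
      rw [Polynomial.map_sub, Polynomial.map_add, Polynomial.map_mul, Polynomial.map_mul,
        ← derivative_map, Polynomial.map_one, sub_eq_zero, ← e]
      simp only [Polynomial.map_map, RingHom.comp_assoc])
  obtain ⟨B4, _, j4, ρ4, n4, hu⟩ := exists_nb_unit n3.lp s hs
  obtain rfl := n4.comp
  refine ⟨B4, inferInstance, _, ρ4, ((n1.trans n2).trans n3).trans n4, ((f1.map j2).map j3).map j4,
    (b2.map j3).map j4, c3.map j4, ((m1.map _).map _).map _, by
      simp only [Polynomial.map_map, RingHom.comp_assoc], ?_⟩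
  have e4 := congrArg (Polynomial.map j4) e3
  rwa [Polynomial.map_mul, map_C, Polynomial.map_zero, (hu.map C).mul_right_eq_zero,
    Polynomial.map_sub, Polynomial.map_add, Polynomial.map_mul, Polynomial.map_mul,
    ← derivative_map, Polynomial.map_one, sub_eq_zero] at e4

/-- Adjoining a root of a separable polynomial near a section. -/
theorem exists_etale_rootS (σ : B →+* R) {f b c : B[X]} (hf : f.Monic)
    (e : derivative f * b + f * c = 1) {θ : R} (hθ : eval₂ σ θ f = 0) :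
    ∃ (B' : Type u) (_ : CommRing B') (j : B →+* B') (σ' : B' →+* R) (y : B'),
      j.Etale ∧ σ'.comp j = σ ∧ σ' y = θ ∧ eval₂ j y f = 0 := by
  let _ : Algebra B R := σ.toAlgebra
  let P : StandardEtalePair B := ⟨f, hf, 1, b, c, 0, by rw [e, pow_zero]⟩
  have hP : P.HasMap θ := ⟨hθ, by simp [P]⟩
  exact ⟨P.Ring, inferInstance, algebraMap _ _, (P.lift _ hP).toRingHom, P.X,
    RingHom.etale_algebraMap.2 inferInstance, (P.lift _ hP).comp_algebraMap, P.lift_X _ hP,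
    P.hasMap_X.1⟩

end

theorem Mono.ext {R Z S : Type*} [CommRing R] [CommRing Z] [Algebra R Z] [CommRing S] {f : R[X]}
    {θ : Z} (hm : Mono f θ) {a b : Z →+* S}
    (h1 : a.comp (algebraMap R Z) = b.comp (algebraMap R Z)) (h2 : a θ = b θ) : a = b :=
  RingHom.ext fun z => by
    obtain ⟨p, rfl⟩ := hm.surj z
    rw [aeval_def, hom_eval₂, hom_eval₂, h1, h2]

theorem Mono.lift {R Z S : Type*} [CommRing R] [CommRing Z] [Algebra R Z] [CommRing S] {f : R[X]}
    {θ : Z} (hm : Mono f θ) (i : R →+* S) (t : S) (ht : eval₂ i t f = 0) :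
    ∃ a : Z →+* S, a.comp (algebraMap R Z) = i ∧ a θ = t := by
  have hle : RingHom.ker (aeval θ : R[X] →ₐ[R] Z).toRingHom ≤ RingHom.ker (eval₂RingHom i t) :=
    fun p hp => by
      obtain ⟨c, rfl⟩ := hm.ker p hp
      rw [RingHom.mem_ker, map_mul, coe_eval₂RingHom, ht, zero_mul]
  have e := fun p => (aeval θ : R[X] →ₐ[R] Z).toRingHom.liftOfRightInverse_comp_apply _
    (Function.rightInverse_surjInv hm.surj) ⟨_, hle⟩ p
  exact ⟨_, RingHom.ext fun r => by simpa using e (C r), by simpa using e X⟩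

/-- The principle over a monogenic etale algebra from the principle over the local base. -/
theorem gz_of_gp {B0 R Z : Type u} [CommRing B0] [CommRing R] [IsLocalRing R] [CommRing Z]
    [Nontrivial Z] [Algebra R Z] {ρ0 : B0 →+* R} {q : Ideal R} [q.IsPrime] (hg : GP ρ0 q) {f : R[X]} {θ : Z}
    (hm : Mono f θ) (O : Type u) [CommRing O] [Algebra Z O]
    [IsLocalization (Algebra.algebraMapSubmonoid Z q.primeCompl) O] :
    ∃ (B : Type u) (_ : CommRing B) (ρ : B →+* Z), GZ ρ (algebraMap Z O) := by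
  obtain ⟨v, hv⟩ := hm.deriv.exists_right_inv
  obtain ⟨b, rfl⟩ := hm.surj v
  obtain ⟨c, hc⟩ := hm.ker (1 - derivative f * b) (by rw [map_sub, map_mul, hv, map_one, sub_self])
  obtain ⟨B1, _, j, ρ1, hn, f1, b1, c1, m1, rfl, e1⟩ := nb_sep hg.lp hm.monic (b := b) (c := c)
    (by rw [← hc, add_sub_cancel])
  have hg1 := hg.nb hn
  let ρ : AdjoinRoot f1 →+* Z := AdjoinRoot.lift ((algebraMap R Z).comp ρ1) θ
    (by rw [← eval₂_map]; exact hm.root)
  have r1 : ∀ p, ρ (AdjoinRoot.mk f1 p) = aeval θ (p.map ρ1) := fun p => by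
    rw [AdjoinRoot.lift_mk, ← eval₂_map]; rfl
  have r2 : ∀ s, ρ (AdjoinRoot.of f1 s) = algebraMap R Z (ρ1 s) := fun s => AdjoinRoot.lift_of _
  have sj : ∀ z, ∃ a s, IsUnit (ρ1 s) ∧ z * algebraMap R Z (ρ1 s) = ρ a := fun z => by
    obtain ⟨p, rfl⟩ := hm.surj z
    obtain ⟨a, s, hs, e⟩ := lp_poly hn.lp p
    exact ⟨AdjoinRoot.mk f1 a, s, hs, by rw [r1, ← e, map_mul, aeval_C]⟩
  have kr : ∀ a, ρ a = 0 → ∃ s, IsUnit (ρ1 s) ∧ AdjoinRoot.of f1 s * a = 0 := fun a ha => by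
    obtain ⟨p, rfl⟩ := AdjoinRoot.mk_surjective a
    obtain ⟨s, hs, e⟩ := lp_poly_zero hn.lp (e := p %ₘ f1) (by
      rw [map_modByMonic _ m1, modByMonic_eq_zero_iff_dvd hm.monic]
      exact hm.ker _ (r1 p ▸ ha))
    refine ⟨s, hs, ?_⟩
    rw [← modByMonic_add_div p f1, map_add, map_mul, AdjoinRoot.mk_self, zero_mul, add_zero]
    exact (map_mul (AdjoinRoot.mk f1) _ _).symm.trans (by rw [e, map_zero])
  have lp : LocPres ρ 0 := ⟨map_zero _, fun z =>
      let ⟨a, s, hs, e⟩ := sj z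
      ⟨a, AdjoinRoot.of f1 s, r2 s ▸ hs.map _, (r2 s).symm ▸ e⟩, fun a ha =>
      let ⟨s, hs, e⟩ := kr a ha
      ⟨AdjoinRoot.of f1 s, r2 s ▸ hs.map _, e ▸ dvd_rfl⟩⟩
  refine ⟨AdjoinRoot f1, inferInstance, ρ, lp,
    lp.localization (Algebra.algebraMapSubmonoid Z q.primeCompl) O, fun D hD W hs hW F hF => ?_⟩
  obtain ⟨F0, G, hF0, hG⟩ : ∃ F0 G, ρ1 F0 ∉ q ∧ AdjoinRoot.of f1 F0 = F * G := by
    obtain ⟨⟨z, _, r, hr, rfl⟩, hz⟩ : ∃ x : Z × Algebra.algebraMapSubmonoid Z q.primeCompl,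
        ρ F * x.1 = x.2 := by
      obtain ⟨w, hw⟩ := hF.exists_right_inv
      obtain ⟨⟨z, s⟩, e⟩ := IsLocalization.surj (Algebra.algebraMapSubmonoid Z q.primeCompl) w
      obtain ⟨t, ht⟩ := (IsLocalization.eq_iff_exists (Algebra.algebraMapSubmonoid Z q.primeCompl)
        O).1 (show algebraMap Z O (ρ F * z) = algebraMap Z O s by
          rw [map_mul, ← e, ← mul_assoc, hw, one_mul])
      exact ⟨(t * z, t * s), by rw [Submonoid.coe_mul, ← ht]; ring⟩
    obtain ⟨a, s, hs, e⟩ := sj z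
    obtain ⟨r0, t, ht, e'⟩ := hn.lp.surj r
    obtain ⟨w, hw, e2⟩ := kr (F * a * AdjoinRoot.of f1 t - AdjoinRoot.of f1 (r0 * s)) (by
      rw [map_sub, map_mul, map_mul, r2, r2, ← e, ← mul_assoc, hz, map_mul, ← e', map_mul, map_mul]
      ring)
    refine ⟨w * (r0 * s), AdjoinRoot.of f1 w * a * AdjoinRoot.of f1 t, fun hq => ?_, ?_⟩
    · rw [map_mul, map_mul, ← e', Ideal.unit_mul_mem_iff_mem _ hw, Ideal.mul_unit_mem_iff_mem _ hs,
        Ideal.mul_unit_mem_iff_mem _ ht] at hq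
      exact hr hq
    · rw [map_mul]
      linear_combination -e2
  obtain ⟨P, k, ψ0, hP, hk, hu, hw⟩ := hg1.geo D hD
    (fun T _ i ψ0 => ∀ (S : Type u) [CommRing S] (χ : T →+* S) (ι : Z →+* S),
      ι.comp (algebraMap R Z) = χ.comp i → ∃ ψ : AdjoinRoot f1 →+* S,
        ψ.comp (AdjoinRoot.of f1) = χ.comp ψ0 ∧ W S ι ψ)
    (fun T T' _ _ χ i ψ0 h S _ χ' ι hι => h S (χ'.comp χ) ι hι)
    (fun T _ i ψ0 σ0 hi hψ => by
      obtain ⟨ιT, i1, i2⟩ := hm.lift ((AdjoinRoot.of ((f1.map ρ1).map i)).comp i) (AdjoinRoot.root _)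
        (by rw [← eval₂_map, AdjoinRoot.eval₂_root])
      have gm : ((f1.map ρ1).map i).map σ0 = f1.map ρ1 := by
        rw [Polynomial.map_map, hi, Polynomial.map_id]
      let σ : AdjoinRoot ((f1.map ρ1).map i) →+* Z := AdjoinRoot.lift ((algebraMap R Z).comp σ0) θ
        (by rw [← eval₂_map, gm]; exact hm.root)
      have s1 : σ.comp (AdjoinRoot.of _) = (algebraMap R Z).comp σ0 := AdjoinRoot.lift_comp_of _
      have s2 : σ (AdjoinRoot.root _) = θ := AdjoinRoot.lift_root _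
      obtain ⟨T1, _, h1, σ1, y, a1, a2, a3, a4⟩ := exists_etale_rootS σ
        (f := f1.map ((AdjoinRoot.of _).comp ψ0)) (m1.map _)
        (b := b1.map ((AdjoinRoot.of _).comp ψ0)) (c := c1.map ((AdjoinRoot.of _).comp ψ0))
        (by rw [derivative_map, ← Polynomial.map_mul, ← Polynomial.map_mul, ← Polynomial.map_add, e1,
          Polynomial.map_one]) (θ := θ) (by
          rw [eval₂_map, ← RingHom.comp_assoc, s1, RingHom.comp_assoc, hψ, ← eval₂_map]
          exact hm.root)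
      let ψ1 : AdjoinRoot f1 →+* T1 := AdjoinRoot.lift (h1.comp ((AdjoinRoot.of _).comp ψ0)) y
        (by rw [← eval₂_map]; exact a4)
      have p1 : ψ1.comp (AdjoinRoot.of f1) = h1.comp ((AdjoinRoot.of _).comp ψ0) :=
        AdjoinRoot.lift_comp_of _
      obtain ⟨T2, _, h2, σ2, b1, b2, b3⟩ := hW T1 (h1.comp ιT) ψ1 σ1
        (hm.ext (by
          rw [← RingHom.comp_assoc, a2, RingHom.comp_assoc, i1, ← RingHom.comp_assoc, s1,
            RingHom.comp_assoc, hi]; rfl) (by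
          rw [← RingHom.comp_assoc, a2, RingHom.comp_apply, i2, s2]; rfl))
        (AdjoinRoot.ringHom_ext (by
          rw [RingHom.comp_assoc, p1, ← RingHom.comp_assoc, a2, ← RingHom.comp_assoc, s1,
            RingHom.comp_assoc, hψ]
          exact (AdjoinRoot.lift_comp_of _).symm) (by
          rw [RingHom.comp_apply, AdjoinRoot.lift_root, a3, AdjoinRoot.lift_root]))
      have c2 : σ2.comp (h2.comp h1) = σ := by rw [← RingHom.comp_assoc, b2, a2]
      obtain ⟨T', _, φ, σ', d1, d2, d3⟩ := weil_near σ0 (fun r => ⟨i r, RingHom.congr_fun hi r⟩)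
        (hm.monic.map i) hm.surj (gm.symm ▸ hm.ker) (h2.comp h1) ((etale_smooth a1).comp b1) σ2
        (c2 ▸ s1) ((RingHom.congr_fun c2 _).trans s2)
      refine ⟨T', inferInstance, φ, σ', d1, d2, fun S _ χ ι hι => ?_⟩
      let τ : AdjoinRoot ((f1.map ρ1).map i) →+* S := AdjoinRoot.lift (χ.comp φ) (ι θ) (by
        rw [eval₂_map, RingHom.comp_assoc, ← hι, ← hom_eval₂, ← aeval_def, hm.root, map_zero])
      have t1 : τ.comp (AdjoinRoot.of _) = χ.comp φ := AdjoinRoot.lift_comp_of _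
      obtain ⟨lam, hl⟩ := d3 S χ τ t1
      refine ⟨lam.comp (h2.comp ψ1), ?_, ?_⟩
      · rw [RingHom.comp_assoc, RingHom.comp_assoc, p1, ← RingHom.comp_assoc _ h1,
          ← RingHom.comp_assoc _ _ lam, hl, ← RingHom.comp_assoc, t1]; rfl
      · have e : lam.comp (h2.comp (h1.comp ιT)) = ι := by
          rw [← RingHom.comp_assoc _ h1, ← RingHom.comp_assoc _ _ lam, hl]
          exact hm.ext (by rw [RingHom.comp_assoc, i1, ← RingHom.comp_assoc, t1, hι]; rfl)
            (by rw [RingHom.comp_apply, i2, AdjoinRoot.lift_root])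
        exact e ▸ hs _ _ lam _ _ b3) F0 hF0
  obtain ⟨ψ, e2, e3⟩ := hw (AdjoinRoot (P.map (algebraMap R Z)))
    (AdjoinRoot.lift ((AdjoinRoot.of _).comp (algebraMap R Z)) (AdjoinRoot.root _)
      (by rw [← eval₂_map, AdjoinRoot.eval₂_root])) (AdjoinRoot.of _)
    (AdjoinRoot.lift_comp_of _).symm
  refine ⟨_, k, ψ, hP.map _, (hP.natDegree_map _).trans hk, ?_, e3⟩
  have := hu.map (AdjoinRoot.lift ((AdjoinRoot.of (P.map (algebraMap R Z))).comp (algebraMap R Z))
    (AdjoinRoot.root _) (by rw [← eval₂_map, AdjoinRoot.eval₂_root]))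
  rw [← RingHom.comp_apply, ← e2, RingHom.comp_apply, hG, map_mul] at this
  exact isUnit_of_mul_isUnit_left this

end Pool.Agent.GW
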