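import Pool.Agent.P.MP_c1f06d_ag.w.GZ
import Pool.Agent.P.MP_c1f06d_ag.ValG

open Polynomial IsLocalRing

universe u

namespace Pool.Agent.GW

open Pool.Agent.P.MP_c1f06d_ag Pool.Agent.SU

open TensorProduct in
/-- A finite unramified algebra over a local ring with infinite residue field has a generator. -/
theorem monoex_gen (R Z : Type u) [CommRing R] [IsLocalRing R] [Infinite (ResidueField R)]
    [CommRing Z] [Algebra R Z] [Module.Finite R Z] [Algebra.FormallyUnramified R Z] :
    ∃ a : Z, Algebra.adjoin R {a} = ⊤ := by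
  obtain ⟨n, z, hz⟩ := Module.Finite.exists_fin (R := R) (M := Z)
  set e := Algebra.FormallyUnramified.elem R Z with he
  let d : Z → Z ⊗[R] Z := fun x => x ⊗ₜ[R] (1 : Z) - (1 : Z) ⊗ₜ[R] x
  have hde : ∀ x, d x * e = 0 := fun x => by
    have h := Algebra.FormallyUnramified.one_tmul_sub_tmul_one_mul_elem (R := R) x
    rw [← neg_sub, neg_mul, neg_eq_zero] at h
    exact h
  have hadj : Algebra.adjoin R (Set.range z) = ⊤ := by
    rw [eq_top_iff]
    intro x _
    exact Algebra.span_le_adjoin R _ (hz ▸ Submodule.mem_top : x ∈ Submodule.span R (Set.range z))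
  let p : (Z ⊗[R] Z)[X] := C e + ∑ i : Fin n, monomial (i.1 + 1) (d (z i))
  have hc0 : p.coeff 0 = e := by
    simp [p, coeff_monomial]
  have hc1 : ∀ i : Fin n, p.coeff (i.1 + 1) = d (z i) := fun i => by
    simp only [p, coeff_add, coeff_C_succ, zero_add, finsetSum_coeff, coeff_monomial]
    rw [Finset.sum_eq_single i]
    · simp
    · intro j _ hj
      rw [if_neg]
      exact fun h => hj (Fin.ext (by omega))
    · simp
  have hp : ∀ N : MaximalSpectrum (Z ⊗[R] Z), ∃ i, p.coeff i ∉ N.asIdeal := fun N => by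
    by_contra h
    have h' : ∀ i, p.coeff i ∈ N.asIdeal := fun i => by_contra fun hi => h ⟨i, hi⟩
    have h1 : ∀ x, d x ∈ N.asIdeal := gen_mem_of_adjoin _ hadj N.asIdeal (by
      rintro _ ⟨i, rfl⟩
      exact (hc1 i ▸ h' (i.1 + 1) : d (z i) ∈ N.asIdeal))
    have h2 : KaehlerDifferential.ideal R Z ≤ N.asIdeal := by
      rw [← KaehlerDifferential.span_range_eq_ideal, Ideal.span_le]
      rintro _ ⟨s, rfl⟩
      have := N.asIdeal.neg_mem (h1 s)
      rwa [neg_sub] at this
    have h3 : 1 - e ∈ N.asIdeal := h2 (by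
      rw [KaehlerDifferential.ideal, RingHom.mem_ker, map_sub, map_one, he,
        Algebra.FormallyUnramified.lmul_elem, sub_self])
    have h4 := N.asIdeal.add_mem h3 (hc0 ▸ h' 0)
    rw [sub_add_cancel] at h4
    exact sl_notMem isUnit_one N h4
  have := gen_neBot (R := R)
  obtain ⟨c, hc⟩ := (eventually_notMem (R := R) (fun _ => p) hp).exists
  obtain ⟨v, hv⟩ := (sl_unit hc).exists_left_inv
  refine ⟨∑ i : Fin n, c ^ (i.1 + 1) • z i, adjoin_eq_top_of_span _ fun x => ?_⟩
  have hev : p.eval (algebraMap R _ c) = e + d (∑ i : Fin n, c ^ (i.1 + 1) • z i) := by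
    simp only [p, d, eval_add, eval_C, eval_finsetSum, eval_monomial, sum_tmul, tmul_sum,
      ← Finset.sum_sub_distrib, ← smul_tmul', tmul_smul, ← smul_sub]
    congr 1
    refine Finset.sum_congr rfl fun i _ => ?_
    rw [← map_pow, mul_comm, ← Algebra.smul_def]
  rw [hev] at hv
  refine Ideal.mem_span_singleton'.2 ⟨v * d x, ?_⟩
  change v * d x * d _ = d x
  linear_combination d x * hv - v * hde x

/-- The derivative of the equation of a generator of an unramified algebra is a unit. -/
theorem monoex_deriv {R Z : Type u} [CommRing R] [CommRing Z] [Algebra R Z]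
    [Algebra.FormallyUnramified R Z] (P : R[X]) (e : AdjoinRoot P ≃ₐ[R] Z) :
    IsUnit (aeval (e (AdjoinRoot.root P)) (derivative P)) := by
  set a := e (AdjoinRoot.root P) with ha
  have h0 : aeval a P = 0 := by
    rw [ha, aeval_algHom_apply, AdjoinRoot.aeval_eq, AdjoinRoot.mk_self, map_zero]
  let Q := Z ⧸ Ideal.span {aeval a (derivative P)}
  let π : Z →ₐ[R] DualNumber Q :=
    ((TrivSqZeroExt.inlAlgHom R Q Q)).comp (Ideal.Quotient.mkₐ R _)
  have hε : (DualNumber.eps : DualNumber Q) ^ 2 = 0 := by rw [pow_two, DualNumber.eps_mul_eps]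
  have hz : π (aeval a (derivative P)) = 0 := by
    have : Ideal.Quotient.mkₐ R (Ideal.span {aeval a (derivative P)})
        (aeval a (derivative P)) = 0 :=
      Ideal.Quotient.eq_zero_iff_mem.2 (Ideal.mem_span_singleton_self _)
    simp only [π, AlgHom.comp_apply, this, map_zero]
  have h1 : aeval (π a + DualNumber.eps) P = 0 := by
    rw [aeval_add_of_sq_eq_zero _ _ _ hε, aeval_algHom_apply π a P,
      aeval_algHom_apply π a (derivative P), hz, zero_mul, add_zero]
    exact (congrArg π h0).trans (map_zero π)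
  let g : Z →ₐ[R] DualNumber Q :=
    (AdjoinRoot.liftAlgHom P (Algebra.ofId R _) (π a + DualNumber.eps) h1).comp e.symm.toAlgHom
  have hg : g a = π a + DualNumber.eps := by
    simp [g, ha]
  have hnil : IsNilpotent (Ideal.span {(DualNumber.eps : DualNumber Q)}) :=
    ⟨2, by rw [Ideal.span_singleton_pow, hε, Ideal.span_singleton_zero]; rfl⟩
  have hgπ : g = π := Algebra.FormallyUnramified.ext _ hnil fun x => by
    obtain ⟨y, rfl⟩ := e.surjective x
    obtain ⟨q, rfl⟩ := AdjoinRoot.mk_surjective y
    rw [← AdjoinRoot.aeval_eq, ← aeval_algHom_apply e, ← ha, ← aeval_algHom_apply g,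
      ← aeval_algHom_apply π, hg, aeval_add_of_sq_eq_zero _ _ _ hε, Ideal.Quotient.eq,
      add_sub_cancel_left]
    exact Ideal.mul_mem_left _ _ (Ideal.mem_span_singleton_self _)
  rw [hgπ, left_eq_add] at hg
  have h2 : (1 : Q) = 0 := by simpa using congrArg TrivSqZeroExt.snd hg
  exact Ideal.span_singleton_eq_top.1 (Ideal.Quotient.zero_eq_one_iff.1 h2.symm)

theorem exists_mono (R Z : Type u) [CommRing R] [IsLocalRing R] [Infinite (ResidueField R)]
    [CommRing Z] [Algebra R Z] [Module.Finite R Z] [Algebra.Etale R Z] :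
    ∃ (f : R[X]) (θ : Z), Mono f θ := by
  have : Module.Free R Z := Module.free_of_flat_of_isLocalRing
  obtain ⟨a, ha⟩ := monoex_gen R Z
  obtain ⟨P, e, hm, -, rfl, -⟩ := exists_adjoinRoot_equiv a ha
  have hev : ∀ p : R[X], aeval (e (AdjoinRoot.root P)) p = e (AdjoinRoot.mk P p) := fun p => by
    rw [aeval_algHom_apply, AdjoinRoot.aeval_eq]
  refine ⟨P, _, hm, by rw [hev, AdjoinRoot.mk_self, map_zero], monoex_deriv P e, fun z => ?_,
    fun p hp => ?_⟩
  · obtain ⟨y, rfl⟩ := e.surjective z
    obtain ⟨q, rfl⟩ := AdjoinRoot.mk_surjective y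
    exact ⟨q, hev q⟩
  · rw [hev, map_eq_zero_iff _ e.injective] at hp
    exact AdjoinRoot.mk_eq_zero.1 hp

theorem monoex_inj {R Z : Type u} [CommRing R] [CommRing Z] [Nontrivial Z] [Algebra R Z]
    {f : R[X]} {θ : Z} (hm : Mono f θ) : Function.Injective (algebraMap R Z) := by
  refine (injective_iff_map_eq_zero _).2 fun r hr => ?_
  have h := hm.ker (C r) (by rw [aeval_C, hr])
  by_contra hr0
  have : Nontrivial R := nontrivial_of_ne r 0 hr0
  have h1 : f = 1 := by
    by_contra h1
    exact hm.monic.not_dvd_of_natDegree_lt (C_ne_zero.2 hr0)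
      (by rw [natDegree_C]; exact Nat.pos_of_ne_zero fun h2 => h1 (hm.monic.natDegree_eq_zero.1 h2)) h
  have h2 := hm.root
  rw [h1, map_one] at h2
  exact one_ne_zero h2

theorem monoex_finite {R Z : Type u} [CommRing R] [CommRing Z] [Algebra R Z]
    {f : R[X]} {θ : Z} (hm : Mono f θ) : Module.Finite R Z := by
  have := hm.monic.finite_adjoinRoot
  refine Module.Finite.of_surjective
    (AdjoinRoot.liftAlgHom f (Algebra.ofId R Z) θ hm.root).toLinearMap fun z => ?_
  obtain ⟨p, rfl⟩ := hm.surj z
  exact ⟨AdjoinRoot.mk f p, AdjoinRoot.liftAlgHom_mk f (Algebra.ofId R Z) θ hm.root p⟩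

/-- The localisation of `Z` at a prime `q` of `R` at which `R` is a valuation ring. -/
theorem Mono.loc {R Z : Type u} [CommRing R] [IsDomain R] [IsLocalRing R]
    [Infinite (ResidueField R)] [CommRing Z] [IsDomain Z] [Algebra R Z] {f : R[X]} {θ : Z}
    (hm : Mono f θ) (q : Ideal R) [q.IsPrime] [ValuationRing (Localization.AtPrime q)]
    (K : Type u) [Field K] [Algebra Z K] [IsFractionRing Z K] :
    ∃ (O : Type u) (_ : CommRing O) (_ : IsDomain O) (_ : Algebra Z O) (_ : Algebra O K)
      (_ : IsScalarTower Z O K) (_ : IsFractionRing O K) (_ : Finite (MaximalSpectrum O)),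
      IsLocalization (Algebra.algebraMapSubmonoid Z q.primeCompl) O ∧ ResInf O ∧ Arith O := by
  have hinj := monoex_inj hm
  have hfin := monoex_finite hm
  let M := Algebra.algebraMapSubmonoid Z q.primeCompl
  have hM : M ≤ nonZeroDivisors Z := by
    rintro _ ⟨r, hr, rfl⟩
    refine mem_nonZeroDivisors_of_ne_zero fun h => hr ?_
    rw [(injective_iff_map_eq_zero _).1 hinj r h]
    exact q.zero_mem
  let W := Localization.AtPrime q
  let O := Localization M
  have hdom : IsDomain O := IsLocalization.isDomain_localization hM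
  have hu : ∀ y : M, IsUnit (algebraMap Z K y) := fun y =>
    IsLocalization.map_units K ⟨y.1, hM y.2⟩
  let _ : Algebra O K := (IsLocalization.lift (S := O) hu).toAlgebra
  have hT : IsScalarTower Z O K :=
    IsScalarTower.of_algebraMap_eq fun z => (IsLocalization.lift_eq hu z).symm
  have hF : IsFractionRing O K := IsFractionRing.isFractionRing_of_isLocalization M O K hM
  have hWO : Module.Finite W O := inferInstance
  have hres : Infinite (ResidueField W) := by
    have h0 : Infinite (R ⧸ maximalIdeal R) := ‹Infinite (ResidueField R)›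
    have h1 : Infinite (R ⧸ q) := Infinite.of_surjective
      (Ideal.Quotient.factor (le_maximalIdeal (Ideal.IsPrime.ne_top ‹_›)))
      (Ideal.Quotient.factor_surjective _)
    exact Infinite.of_injective _ (Ideal.injective_algebraMap_quotient_residueField q)
  have hinjW : Function.Injective (algebraMap W O) := by
    refine (injective_iff_map_eq_zero _).2 fun w hw => ?_
    obtain ⟨⟨r, s⟩, hs⟩ := IsLocalization.surj q.primeCompl w
    have h1 : algebraMap R O r = 0 := by
      rw [IsScalarTower.algebraMap_apply R W O, ← hs, map_mul, hw, zero_mul]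
    rw [IsScalarTower.algebraMap_apply R Z O,
      map_eq_zero_iff _ (IsLocalization.injective O hM), map_eq_zero_iff _ hinj] at h1
    rw [h1, map_zero] at hs
    exact (IsLocalization.map_units W s).mul_left_eq_zero.1 hs
  have hev : ∀ p : R[X], aeval (algebraMap Z O θ) (p.map (algebraMap R W)) =
      algebraMap Z O (aeval θ p) := fun p => by
    rw [aeval_map_algebraMap, aeval_algebraMap_apply]
  have hsurj : ∀ o : O, ∃ p : W[X], aeval (algebraMap Z O θ) p = o := fun o => by
    obtain ⟨⟨z, _, s, hs, rfl⟩, h⟩ := IsLocalization.surj M o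
    obtain ⟨p, rfl⟩ := hm.surj z
    obtain ⟨v, hv⟩ := (IsLocalization.map_units W (⟨s, hs⟩ : q.primeCompl)).exists_right_inv
    refine ⟨p.map (algebraMap R W) * C v, ?_⟩
    rw [map_mul, hev, aeval_C, ← h, mul_assoc]
    change o * (algebraMap Z O (algebraMap R Z s) * _) = o
    rw [← IsScalarTower.algebraMap_apply, IsScalarTower.algebraMap_apply R W O, ← map_mul]
    change o * algebraMap W O (algebraMap R W (⟨s, hs⟩ : q.primeCompl) * v) = o
    rw [hv, map_one, mul_one]
  refine ⟨O, inferInstance, hdom, inferInstance, inferInstance, hT, hF,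
    finite_maximalSpectrum W O, inferInstance, (resInf_of_local W).of_finite O,
    arith_of_local fun N x y => ?_⟩
  have := N.isMaximal.isPrime
  let L := Localization.AtPrime N.asIdeal
  have hOL : Function.Injective (algebraMap O L) :=
    IsLocalization.injective L N.asIdeal.primeCompl_le_nonZeroDivisors
  have : FaithfulSMul W L := (faithfulSMul_iff_algebraMap_injective W L).2 (by
    rw [IsScalarTower.algebraMap_eq W O L]
    exact hOL.comp hinjW)
  have hv : ValuationRing L := valuationRing_of_simple (W := W)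
    (algebraMap O L (algebraMap Z O θ)) (f.map (algebraMap R W)) (hm.monic.map _)
    (by rw [aeval_algebraMap_apply, hev, hm.root, map_zero, map_zero])
    (by
      rw [derivative_map, aeval_algebraMap_apply, hev]
      exact (hm.deriv.map _).map _)
    (fun r => by
      obtain ⟨⟨a, s⟩, h⟩ := IsLocalization.surj N.asIdeal.primeCompl r
      obtain ⟨pa, ha⟩ := hsurj a
      obtain ⟨ps, hs⟩ := hsurj s
      refine ⟨pa, ps, ?_, ?_⟩
      · rw [aeval_algebraMap_apply, hs]
        exact (IsLocalization.map_units L s).ne_zero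
      · rw [aeval_algebraMap_apply L _ pa, aeval_algebraMap_apply L _ ps, ha, hs, h])
  have key : ∀ x y : O, algebraMap O L y ∣ algebraMap O L x → ∃ s, s ∉ N.asIdeal ∧ y ∣ s * x := by
    rintro x y ⟨c, hc⟩
    obtain ⟨⟨a, s⟩, h⟩ := IsLocalization.surj N.asIdeal.primeCompl c
    refine ⟨s, s.2, a, hOL ?_⟩
    rw [map_mul, map_mul, hc, ← h]
    ring
  rcases ValuationRing.dvd_total (algebraMap O L x) (algebraMap O L y) with h | h
  · obtain ⟨s, hs, h⟩ := key y x h
    exact ⟨s, hs, .inr h⟩
  · obtain ⟨s, hs, h⟩ := key x y h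
    exact ⟨s, hs, .inl h⟩

end Pool.Agent.GW
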