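import Pool.Agent.P.MP_c1f06d_ag.w.GZex
import Pool.Agent.P.MP_c1f06d_ag.w.MonoEx

open Polynomial IsLocalRing

universe u

namespace Pool.Agent.GW

open Pool.Agent.P.MP_c1f06d_ag Pool.Agent.SU

theorem geo_of_gp {B0 R : Type u} [CommRing B0] [CommRing R] [IsDomain R] [IsLocalRing R]
    [Infinite (ResidueField R)] {ρ0 : B0 →+* R} {q : Ideal R} [q.IsPrime]
    [ValuationRing (Localization.AtPrime q)] (hg : GP ρ0 q) (Z K : Type u) [CommRing Z] [IsDomain Z]
    [Algebra R Z] [Module.Finite R Z] [Algebra.Etale R Z] [Field K] [Algebra Z K]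
    [IsFractionRing Z K] : Geo Z K := by
  obtain ⟨f, θ, hm⟩ := exists_mono R Z
  obtain ⟨O, _, _, _, _, _, _, _, h1, h2, h3⟩ := hm.loc q K
  obtain ⟨B, _, ρ, h⟩ := gz_of_gp hg hm O
  exact ⟨B, _, ρ, O, _, ‹_›, _, _, ‹_›, ‹_›, ‹_›, h2, h3, h⟩

/-- The ring `Z ⊗ R(X)`. -/
theorem exists_ZX (R Z : Type u) [CommRing R] [IsDomain R] [IsLocalRing R] [CommRing Z] [IsDomain Z]
    [Algebra R Z] [Module.Finite R Z] [Algebra.Etale R Z] :
    ∃ (Z1 : Type u) (_ : CommRing Z1) (_ : IsDomain Z1) (_ : Algebra (RX R) Z1)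
      (_ : Module.Finite (RX R) Z1) (_ : Algebra.Etale (RX R) Z1) (ζ : Z[X] →+* Z1),
      Function.Injective ζ ∧ LocPres ζ 0 ∧ ∀ F, IsUnit (ζ F) → ∀ N, F.map (rf N) ≠ 0 := by
  let _ : Algebra R[X] Z[X] := Polynomial.algebra R Z
  have he : Algebra.Etale R[X] Z[X] :=
    Algebra.Etale.of_equiv (Algebra.IsPushout.equiv R R[X] Z Z[X])
  have hf : Module.Finite R[X] Z[X] :=
    Module.Finite.equiv (Algebra.IsPushout.equiv R R[X] Z Z[X]).toLinearEquiv
  let _ : Algebra Z[X] (TensorProduct R[X] (RX R) Z[X]) := Algebra.TensorProduct.rightAlgebra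
  have hl : IsLocalization (Algebra.algebraMapSubmonoid Z[X] (mX R).primeCompl)
      (TensorProduct R[X] (RX R) Z[X]) :=
    (Algebra.isLocalization_iff_isPushout (mX R).primeCompl (RX R)).2 inferInstance
  have hu : ∀ m ∈ Algebra.algebraMapSubmonoid Z[X] (mX R).primeCompl, ∃ i, IsUnit (m.coeff i) := by
    rintro _ ⟨s, hs, rfl⟩
    have h1 : s.map (residue R) ≠ 0 := fun e => hs ((rx_mem_iff R s).2 e)
    obtain ⟨i, hi⟩ : ∃ i, (s.map (residue R)).coeff i ≠ 0 := by
      by_contra e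
      exact h1 (Polynomial.ext fun i => by_contra fun k => e ⟨i, k⟩)
    rw [coeff_map] at hi
    refine ⟨i, ?_⟩
    change IsUnit ((s.map (algebraMap R Z)).coeff i)
    rw [coeff_map]
    exact ((residue_ne_zero_iff_isUnit _).1 hi).map _
  have hM : Algebra.algebraMapSubmonoid Z[X] (mX R).primeCompl ≤ nonZeroDivisors Z[X] :=
    fun m hm => mem_nonZeroDivisors_of_ne_zero fun e => by
      obtain ⟨i, hi⟩ := hu m hm
      rw [e, coeff_zero] at hi
      exact not_isUnit_zero hi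
  have hinj := IsLocalization.injective (TensorProduct R[X] (RX R) Z[X]) hM
  refine ⟨TensorProduct R[X] (RX R) Z[X], inferInstance,
    IsLocalization.isDomain_of_le_nonZeroDivisors _ hM, inferInstance, inferInstance, inferInstance,
    algebraMap Z[X] _, hinj, ⟨map_zero _, fun r => ?_, fun a ha => ⟨1, by simp, ?_⟩⟩,
    fun F hF N e => ?_⟩
  · obtain ⟨⟨a, s⟩, h⟩ :=
      IsLocalization.surj (Algebra.algebraMapSubmonoid Z[X] (mX R).primeCompl) r
    exact ⟨a, s, IsLocalization.map_units _ s, h⟩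
  · rw [hinj (ha.trans (map_zero _).symm), mul_zero]
  · obtain ⟨m, hm, G, hG⟩ := (IsLocalization.algebraMap_isUnit_iff
      (Algebra.algebraMapSubmonoid Z[X] (mX R).primeCompl)).1 hF
    obtain ⟨i, hi⟩ := hu m hm
    refine sl_unit_iff.1 hi N ?_
    rw [← coeff_map, hG, Polynomial.map_mul, e, zero_mul, coeff_zero]

/-- The step back from `Z[X]`: a monic polynomial of any large degree, irreducible modulo every
maximal ideal, modulo which `F` is a unit. -/
theorem ResFin.exists_irreducible {Z : Type u} [CommRing Z] [Nontrivial Z]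
    [Finite (MaximalSpectrum Z)] (h : ResFin Z) (F : Z[X]) (hF : ∀ N, F.map (rf N) ≠ 0) (l : ℕ)
    (hl : F.natDegree < l) : ∃ P : Z[X], P.Monic ∧ P.natDegree = l ∧
      (∀ N, Irreducible (P.map (rf N))) ∧ IsUnit (AdjoinRoot.mk P F) := by
  have hq : ∀ N : MaximalSpectrum Z, ∃ Q : (Z ⧸ N.asIdeal)[X], Q.Monic ∧ Irreducible Q ∧
      Q.natDegree = l ∧ IsCoprime Q (F.map (rf N)) := fun N => by
    have := N.isMaximal
    let _ := Ideal.Quotient.field N.asIdeal
    have := h N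
    obtain ⟨Q, q1, q2, q3⟩ := exists_irreducible_degree (Z ⧸ N.asIdeal) l (by omega)
    refine ⟨Q, q1, q2, q3, q2.coprime_iff_not_dvd.mpr fun hd => ?_⟩
    have h1 := natDegree_le_of_dvd hd (hF N)
    have h2 := natDegree_map_le (f := rf N) (p := F)
    omega
  choose Q q1 q2 q3 q4 using hq
  obtain ⟨P, p1, p2, p3⟩ := sl_crt_monic l Q q1 q3
  refine ⟨P, p1, p2, fun N => p3 N ▸ q2 N, ?_⟩
  have := p1.finite_adjoinRoot
  refine isUnit_of_forall_map (Z := Z) fun N => ?_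
  have su : Function.Surjective (Polynomial.map (rf N)) := map_surjective _ (rf_surj N)
  obtain ⟨a, b, hab⟩ := q4 N
  obtain ⟨a, rfl⟩ := su a
  obtain ⟨b, rfl⟩ := su b
  have h1 : a * P + b * F - 1 ∈ N.asIdeal.map C := by
    rw [Ideal.mem_map_C_iff]
    intro i
    rw [← rf_eq_zero, ← coeff_map, Polynomial.map_sub, Polynomial.map_add, Polynomial.map_mul,
      Polynomial.map_mul, p3, hab, Polynomial.map_one, sub_self, coeff_zero]
  have h2 := Ideal.mem_map_of_mem (AdjoinRoot.mk P) h1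
  rw [Ideal.map_map, map_sub, map_add, map_mul, map_mul, AdjoinRoot.mk_self, mul_zero, zero_add,
    map_one, mul_comm] at h2
  exact ⟨_, h2⟩

theorem ResFin.run {Z Z1 B' : Type u} [CommRing Z] [Nontrivial Z] [Finite (MaximalSpectrum Z)]
    [CommRing Z1] [CommRing B'] (h : ResFin Z) {ζ : Z[X] →+* Z1}
    (hζ : ∀ F, IsUnit (ζ F) → ∀ N, F.map (rf N) ≠ 0) {j : Z[X] →+* B'} {ρ' : B' →+* Z1}
    (hn : Nb ζ j ρ') : ∃ n0 : ℕ, ∀ l, n0 < l → ∃ (P : Z[X]) (ψ' : B' →+* AdjoinRoot P),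
      P.Monic ∧ P.natDegree = l ∧ (∀ N, Irreducible (P.map (rf N))) ∧
      (ψ'.comp j).comp C = AdjoinRoot.of P := by
  obtain ⟨F, hF, hx⟩ := hn.ext
  refine ⟨F.natDegree, fun l hl => ?_⟩
  obtain ⟨P, p1, p2, p3, p4⟩ := h.exists_irreducible F (hζ F (hn.apply F ▸ hF.map ρ')) l hl
  obtain ⟨ψ', e⟩ := hx _ (AdjoinRoot.mk P) p4
  exact ⟨P, ψ', p1, p2, p3, by rw [e]; rfl⟩

/-- The two cases for a domain that is finite etale over a local ring of a smooth algebra over a
valuation ring. -/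
theorem geo_cases (V A : Type u) [CommRing V] [IsDomain V] [ValuationRing V] [CommRing A]
    [Algebra V A] [Algebra.Smooth V A] (p : Ideal A) [p.IsPrime] (R : Type u) [CommRing R]
    [Algebra A R] [IsLocalization.AtPrime R p] (Z K : Type u) [CommRing Z] [IsDomain Z]
    [Algebra R Z] [Module.Finite R Z] [Algebra.Etale R Z] [Field K] [Algebra Z K]
    [IsFractionRing Z K] :
    Finite (MaximalSpectrum Z) ∧ (ResInf Z ∧ Geo Z K ∨ ResFin Z ∧ GeoX Z K) := by
  have : IsLocalRing R := IsLocalization.AtPrime.isLocalRing R p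
  have : IsDomain R := isDomain_of_smooth V A p R
  refine ⟨finite_maximalSpectrum R Z, ?_⟩
  rcases finite_or_infinite (ResidueField R) with hfin | hinf
  · obtain ⟨B, _, ρ, q, _, _, hg⟩ := exists_gp_RX V A p R
    obtain ⟨Z1, _, _, _, _, _, ζ, h1, h2, h3⟩ := exists_ZX R Z
    have := infinite_residueField_RX R
    obtain ⟨K1, _, _, _, κ, hκ⟩ := exists_frac K (ζ.comp C) (h1.comp C_injective)
    exact .inr ⟨(resFin_of_local R).of_finite Z, Z1, K1, _, ‹_›, finite_maximalSpectrum (RX R) Z1,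
      _, _, ‹_›, ζ, κ, (resInf_of_local (RX R)).of_finite Z1, geo_of_gp hg Z1 K1, hκ, h2, h3⟩
  · obtain ⟨B, _, ρ, q, _, _, hg⟩ := exists_gp V A p R
    exact .inl ⟨(resInf_of_local R).of_finite Z, geo_of_gp hg Z K⟩

end Pool.Agent.GW
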