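import Pool.Agent.P.MP_c1f06d_ag.w.WNP0
import Pool.Agent.P.MP_c1f06d_ag.d.DFinA

/-! The norm principle on the kernel of the reduction, over a semilocal ring with finite residue
fields. -/

open Matrix Module Polynomial Pool.Agent.SU

universe u

namespace Pool.Agent.GSD

section aux
variable {T B : Type*} [CommRing T] [Ring B] [Algebra T B]

theorem wfin_isUnit [Module.Finite T B] {x : B}
    (h : ∀ N : MaximalSpectrum T, ∃ y, x * y - 1 ∈ extI B N.asIdeal) : IsUnit x := by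
  have h1 : Function.Surjective (LinearMap.mulLeft T x) := by
    rw [← LinearMap.range_eq_top, ← top_le_iff]
    refine wnp_le Module.Finite.fg_top fun N z _ => ?_
    obtain ⟨y, hy⟩ := h N
    rw [show z = x * (y * z) + -((x * y - 1) * z) by noncomm_ring]
    exact Submodule.add_mem_sup ⟨y * z, rfl⟩
      (neg_mem (mem_extI_iff.1 (Ideal.mul_mem_right _ _ hy)))
  have h2 := OrzechProperty.injective_of_surjective_endomorphism _ h1
  obtain ⟨c, hc⟩ := h1 1
  have hc1 : x * c = 1 := hc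
  have hc2 : c * x = 1 := h2 (show x * (c * x) = x * 1 by rw [← mul_assoc, hc1, one_mul, mul_one])
  exact ⟨⟨x, c, hc1, hc2⟩, rfl⟩

theorem wfin_glue {Z : Type*} [CommRing Z] [Finite (MaximalSpectrum Z)] (f : Z →+* T)
    (x : MaximalSpectrum Z → B) : ∃ y, ∀ N, y - x N ∈ extI B (N.asIdeal.map f) := by
  let _ : Module Z B := Module.compHom B f
  obtain ⟨y, -, hy⟩ := wnp_glue (Z := Z) ⊤ x fun _ => trivial
  exact ⟨y, fun N => Submodule.smul_induction_on (hy N)
    (fun r hr a _ => smul_mem_extI (Ideal.mem_map_of_mem f hr) a) fun _ _ => add_mem⟩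

theorem wfin_sep {P : T[X]} (hP : P.Monic)
    (H : ∀ N : MaximalSpectrum T, (P.map (Ideal.Quotient.mk N.asIdeal)).Separable) :
    ∃ u : T[X], aeval (AdjoinRoot.root P) (u * derivative P) = 1 := by
  have := hP.finite_adjoinRoot
  have h : IsUnit (AdjoinRoot.mk P (derivative P)) := wfin_isUnit (T := T) fun N => by
    obtain ⟨a, b, hab⟩ := H N
    obtain ⟨a, rfl⟩ := map_surjective _ (Ideal.Quotient.mk_surjective (I := N.asIdeal)) a
    obtain ⟨b, rfl⟩ := map_surjective _ (Ideal.Quotient.mk_surjective (I := N.asIdeal)) b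
    have h1 : a * P + b * derivative P - 1 ∈
        RingHom.ker (mapRingHom (Ideal.Quotient.mk N.asIdeal)) := by
      rw [RingHom.mem_ker, coe_mapRingHom, Polynomial.map_sub, Polynomial.map_add,
        Polynomial.map_mul, Polynomial.map_mul, ← derivative_map, hab, Polynomial.map_one, sub_self]
    rw [ker_mapRingHom, Ideal.mk_ker] at h1
    have h2 := Ideal.mem_map_of_mem (AdjoinRoot.mk P) h1
    rw [Ideal.map_map, map_sub, map_add, map_mul, map_mul, AdjoinRoot.mk_self, mul_zero, zero_add,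
      map_one, mul_comm] at h2
    exact ⟨_, h2⟩
  obtain ⟨v, hv⟩ := h.exists_left_inv
  obtain ⟨u, rfl⟩ := AdjoinRoot.mk_surjective v
  exact ⟨u, by rw [AdjoinRoot.aeval_eq, map_mul, hv]⟩

variable [StarRing B]

variable (T) in
/-- The twisted commutator as a linear map. -/
def twL (x : B) : B →ₗ[T] B := LinearMap.mulLeft T x - LinearMap.mulRight T (star x)

theorem wfin_surj [StarFix T B] (I : Ideal T) {c y : B} (hc : c * y = y * c) {P u : T[X]}
    (hP : aeval c P = 0) (hu : aeval c (u * derivative P) = 1) {B' : Type*} [Ring B'] [StarRing B']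
    (π : B →+* B') (hπ : ∀ b, π (star b) = star (π b)) (hs : Function.Surjective π)
    (hk : ∀ b, π b = 0 → b ∈ extI B I) [Finite B']
    (hi : ∀ z, tw (π y) (tw (π c) z) = 0 → tw (π c) z = 0) :
    LinearMap.range (twL T c) ≤
      LinearMap.range (twL T y ∘ₗ twL T c) ⊔ I • LinearMap.range (twL T c) := by
  obtain ⟨η, h1, h2⟩ := fa_eta hP hu
  have hL : ∀ x z : B, twL T x z = tw x z := fun _ _ => rfl
  have hπt := dfina_tw π hπ
  have hc' : π c * π y = π y * π c := by rw [← map_mul, hc, map_mul]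
  have hsub : ∀ x z z' : B', tw x (z - z') = tw x z - tw x z' := fun x z z' => by
    simp only [tw]; noncomm_ring
  let f : Set.range (tw (π c)) → Set.range (tw (π c)) := fun v =>
    ⟨tw (π y) v.1, by
      obtain ⟨_, w, rfl⟩ := v
      exact ⟨tw (π y) w, dfina1_tw_comm hc' w⟩⟩
  have hf : Function.Surjective f := Finite.surjective_of_injective (by
    rintro ⟨_, w, rfl⟩ ⟨_, w', rfl⟩ e
    have e1 : tw (π y) (tw (π c) w) = tw (π y) (tw (π c) w') := congrArg Subtype.val e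
    refine Subtype.ext (sub_eq_zero.1 ?_)
    change tw (π c) w - tw (π c) w' = 0
    rw [← hsub]
    exact hi _ (by rw [hsub, hsub, e1, sub_self]))
  rintro _ ⟨w, rfl⟩
  obtain ⟨⟨_, w1, rfl⟩, e⟩ := hf ⟨tw (π c) (π w), _, rfl⟩
  obtain ⟨w2, rfl⟩ := hs w1
  have e1 : tw (π y) (tw (π c) (π w2)) = tw (π c) (π w) := congrArg Subtype.val e
  have e2 : twL T c w - twL T y (twL T c w2) ∈ I • (⊤ : Submodule T B) :=
    mem_extI_iff.1 (hk _ (by rw [map_sub, hL, hL, hL, hπt, hπt, hπt, e1, sub_self]))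
  have e3 : (twL T c ∘ₗ η) (twL T c w - twL T y (twL T c w2)) =
      twL T c w - twL T y (twL T c w2) := by
    simp only [map_sub, LinearMap.comp_apply, hL]
    rw [← dfina1_tw_comm hc, h2, h2, h1, h1]
  have e4 : twL T c w - twL T y (twL T c w2) ∈ I • LinearMap.range (twL T c) := by
    rw [← e3]
    have := Submodule.mem_map_of_mem (f := twL T c ∘ₗ η) e2
    rw [Submodule.map_smul''] at this
    refine Submodule.smul_mono le_rfl ?_ this
    rintro _ ⟨x, -, rfl⟩
    exact ⟨η x, rfl⟩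
  rw [show twL T c w = twL T y (twL T c w2) + (twL T c w - twL T y (twL T c w2)) by abel]
  exact Submodule.add_mem_sup ⟨w2, rfl⟩ e4

end aux

variable {R A A1 : Type u} [CommRing R] [Ring A]
  [StarRing A] [Algebra R A] {m : ℕ} {l : A} {P : R[X]} [Ring A1] [StarRing A1]
  [Algebra (AdjoinRoot P) A1] [StarFix (AdjoinRoot P) A1] {j : A →+* A1}

/-- A good residue class modulo one maximal ideal. -/
theorem wfin_loc {k : Type u} [Field k] [Finite k] {r : R →+* k} (hr : Function.Surjective r)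
    (h : QAz R m l) (hm : Even m) (hP : P.Monic) (hi : Irreducible (P.map r))
    (hd : FinDeg (m * m + Nat.card k) P.natDegree) (hj : SBC (AdjoinRoot.of P) j)
    {b : Basis (Fin P.natDegree) R (AdjoinRoot P)} (hb : ∀ i, b i = AdjoinRoot.root P ^ (i : ℕ))
    {ρ : A1 →+* Matrix (Fin P.natDegree) (Fin P.natDegree) A}
    (hρ : ∀ a, ρ (j a) = diagonal fun _ => a)
    (hρ' : ∀ s, ρ (algebraMap _ A1 s) = (Algebra.leftMulMatrix b s).map (algebraMap R A))
    {u : R[X]} (hu : aeval (AdjoinRoot.root P) (u * derivative P) = 1) {t : A1}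
    (ht : t = algebraMap (AdjoinRoot P) A1 (AdjoinRoot.root P))
    {E : Matrix (Fin P.natDegree) (Fin P.natDegree) A}
    (hE : E = (vecMulVec (b.repr 1) (b.repr 1)).map (algebraMap R A)) :
    ∃ y0 : A1, La (j l) y0 ∧ ∀ y, La (j l) y →
      y - y0 ∈ extI A1 ((RingHom.ker r).map (AdjoinRoot.of P)) →
      r (nrd R (ρ y)) ≠ 0 ∧ r (nrd R (ρ (y - star y))) ≠ 0 ∧
      LinearMap.range (twL R (ρ t)) ≤ LinearMap.range (twL R (ρ y) ∘ₗ twL R (ρ t)) ⊔
        RingHom.ker r • LinearMap.range (twL R (ρ t)) ∧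
      ∀ a W z, a * (y - star y) = 1 → tw (ρ y) W = E → W - ρ a * E = tw (ρ t) z →
        r (nrd R W) ≠ 0 := by
  have := h.starFix
  have := h.az.free
  have := h.az.finite
  have hl1 := (h.map hj).add_star
  obtain ⟨D, _, _, _, _, π0, hπ0⟩ := exists_sbc (A := A) r
  have hD := h.map hπ0
  have := hπ0.toBC.finite'
  have : Finite D := Module.finite_of_finite k
  have hsur := hπ0.toBC.surjective hr
  have hdeg : (P.map r).natDegree = P.natDegree := hP.natDegree_map _
  have hlt : finrank k D < (P.map r).natDegree := by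
    rw [hD.finrank, hdeg]
    by_contra hc
    have hc' := not_lt.1 hc
    exact hd.2 _ hd.1 (hc'.trans (Nat.le_add_right _ _)) dvd_rfl
  have hone : 1 < (P.map r).natDegree := hdeg ▸ hd.1
  obtain ⟨c, hc⟩ := exists_shift (hP.map _) hi (hdeg ▸ hd)
  rw [← hD.finrank] at hc
  obtain ⟨yc, w, γ, hw⟩ := dfina_wit hD hm
  obtain ⟨c', rfl⟩ := hr c
  obtain ⟨y1, hy1, rfl⟩ := La.lift π0 hπ0.map_star hsur hw.la
  obtain ⟨w1, hw1, rfl⟩ := Alt.lift π0 hπ0.map_star hsur hw.alt
  have hπ := hπ0.mat (Fin P.natDegree)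
  obtain ⟨π, hπd⟩ : ∃ π : Matrix (Fin P.natDegree) (Fin P.natDegree) A →+*
      Matrix (Fin P.natDegree) (Fin P.natDegree) D, π = π0.mapMatrix := ⟨_, rfl⟩
  rw [← hπd] at hπ
  obtain ⟨κ, hκ⟩ : ∃ κ : AdjoinRoot P →+* Matrix (Fin P.natDegree) (Fin P.natDegree) k,
      ∀ s, κ s = (Algebra.leftMulMatrix b s).map r :=
    ⟨r.mapMatrix.comp (Algebra.leftMulMatrix b).toRingHom, fun _ => rfl⟩
  have hπa : ∀ X : Matrix (Fin P.natDegree) (Fin P.natDegree) R,
      π (X.map (algebraMap R A)) = (X.map r).map (algebraMap _ D) := fun X => by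
    rw [hπd]
    exact Matrix.ext fun p q => hπ0.alg _
  have hπj : ∀ a, π (ρ (j a)) = diagonal fun _ => π0 a := fun a => by
    rw [hρ, hπd, RingHom.mapMatrix_apply, diagonal_map (map_zero _)]
  have hπs : ∀ s, π (ρ (algebraMap _ A1 s)) = (κ s).map (algebraMap _ D) := fun s => by
    rw [hρ', hπa, hκ]
  have hκa : ∀ x, κ (algebraMap R _ x) = algebraMap _ _ (r x) := fun x => by
    rw [hκ, AlgHom.commutes, algebraMap_eq_diagonal, algebraMap_eq_diagonal,
      diagonal_map (map_zero _)]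
    rfl
  have hκp : ∀ q : R[X], κ (aeval (AdjoinRoot.root P) q) =
      aeval (κ (AdjoinRoot.root P)) (q.map r) := fun q =>
    map_aeval_eq_aeval_map (RingHom.ext fun x => (hκa x).symm) q _
  obtain ⟨C, hC⟩ : ∃ C, C = κ (AdjoinRoot.root P) := ⟨_, rfl⟩
  rw [← hC] at hκp
  have hP0 : aeval (AdjoinRoot.root P) P = 0 := by rw [AdjoinRoot.aeval_eq, AdjoinRoot.mk_self]
  have hCP : aeval C (P.map r) = 0 := by rw [← hκp, hP0, map_zero]
  have hCu : aeval C (u.map r * derivative (P.map r)) = 1 := by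
    rw [derivative_map, ← Polynomial.map_mul, ← hκp, hu, map_one]
  have hρp : ∀ q : R[X], aeval (ρ t) q = ρ (algebraMap _ A1 (aeval (AdjoinRoot.root P) q)) :=
    fun q => by
      rw [ht, hρ', hρ']
      exact aeval_algHom_apply ((Algebra.ofId R A).mapMatrix.comp (Algebra.leftMulMatrix b)) _ q
  have hπt : π (ρ t) = C.map (algebraMap _ D) := by rw [ht, hπs, hC]
  have hker : ∀ x ∈ extI A1 ((RingHom.ker r).map (AdjoinRoot.of P)), π (ρ x) = 0 := by
    intro x hx
    rw [extI, Ideal.map_map] at hx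
    refine (Ideal.map_le_iff_le_comap.2 fun s hs => ?_ : _ ≤ RingHom.ker (π.comp ρ)) hx
    change π (ρ (algebraMap _ A1 (algebraMap R _ s))) = 0
    rw [hπs, hκa, RingHom.mem_ker.1 hs, map_zero, Matrix.map_zero _ (map_zero _)]
  have hun : ∀ x, IsUnit (π x) → r (nrd R x) ≠ 0 := fun x hx => wnp_nrd (h.az.mat _) hπ.toBC hx
  obtain ⟨y0, hy0⟩ : ∃ y0, y0 = j y1 +
      algebraMap _ A1 (AdjoinRoot.root P + algebraMap R _ c') * j w1 := ⟨_, rfl⟩
  have hy0w : π (ρ y0) = witM (π0 y1) (π0 w1) C (r c') := by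
    rw [hy0, map_add, map_add, map_mul, map_mul, hπj, hπj, hπs, map_add, hκa, ← hC,
      Algebra.algebraMap_eq_smul_one, witM]
  have hy0l : La (j l) y0 := hy0 ▸ (hy1.map j hj.map_star).add_alt
    ((hw1.map j hj.map_star).cmul (Algebra.commutes _) (StarFix.fix _))
  obtain ⟨e, he⟩ : ∃ e : Fin P.natDegree → R, e = b.repr 1 := ⟨_, rfl⟩
  rw [← he] at hE
  have hπE : π E = (vecMulVec (r ∘ e) (r ∘ e)).map (algebraMap _ D) := by
    rw [hE, hπa]
    exact congrArg (Matrix.map · _) (Matrix.ext fun p q => map_mul r _ _)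
  have hcyc : ∀ v : Fin P.natDegree → k, (∀ i : ℕ, (C ^ i *ᵥ (r ∘ e)) ⬝ᵥ v = 0) → v = 0 :=
    fun v hv => by
    funext i
    have h2 : C ^ (i : ℕ) *ᵥ (r ∘ e) = Pi.single i 1 := by
      funext p
      rw [hC, ← map_pow, hκ, ← RingHom.map_mulVec, he, Algebra.leftMulMatrix_mulVec_repr, mul_one,
        ← hb, Basis.repr_self, Finsupp.single_apply, Pi.single_apply]
      by_cases hp : i = p
      · rw [if_pos hp, if_pos hp.symm, map_one]
      · rw [if_neg hp, if_neg (Ne.symm hp), map_zero]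
    have := hv i
    rwa [h2, single_dotProduct, one_mul] at this
  refine ⟨y0, hy0l, fun y hy e1 => ?_⟩
  have hyw : π (ρ y) = witM (π0 y1) (π0 w1) C (r c') := by
    have := hker _ e1
    rwa [map_sub, map_sub, sub_eq_zero, hy0w] at this
  have h2 : π (ρ (y - star y)) = ((2 : k) • (C + r c' • 1) + γ • 1).map
      (algebraMap _ D) * diagonal fun _ => π0 w1 := by
    rw [← dfina_two hw, ← hyw, eq_sub_of_add_eq' (hy.add_star hl1), sub_sub_eq_add_sub,
      map_sub, map_sub, map_add, map_add, map_one, map_one]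
  have htc : ∀ x, t * x = x * t := fun x => ht ▸ Algebra.commutes _ x
  refine ⟨hun _ (hyw ▸ dfina_unit1 hw hi hCP hlt), hun _ (h2 ▸ dfina_unit2 hw hi hCP hone),
    wfin_surj (P := P) (u := u) _ (by rw [← map_mul, ← map_mul, htc])
      (by rw [hρp, hP0, map_zero, map_zero]) (by rw [hρp, hu, map_one, map_one]) π hπ.map_star
      (hπ.toBC.surjective hr) (fun x hx => hπ.toBC.map_eq_zero_iff.1 hx)
      (by rw [hyw, hπt]; exact fa_inj hw hc hCP hCu), fun a W z ha w3 w4 => hun _ ?_⟩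
  rcases subsingleton_or_nontrivial D with hD0 | hD0
  · exact isUnit_of_subsingleton _
  refine fa_unit (a := π (ρ a)) (z := π z) hD.add_star hw hc hCP hCu hcyc ?_ ?_ ?_
  · rw [← hyw, ← hπE, ← w3, dfina_tw π hπ.map_star]
  · rw [← h2, ← map_mul, ← map_mul, ha, map_one, map_one]
  · rw [← hπE, ← hπt, ← dfina_tw π hπ.map_star, ← w4, map_sub, map_mul]

variable [Finite (MaximalSpectrum R)] (hfin : ∀ N : MaximalSpectrum R, Finite (R ⧸ N.asIdeal))
  (h : QAz R m l) (hm : Even m) (hP : P.Monic)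
  (hi : ∀ N : MaximalSpectrum R, Irreducible (P.map (Ideal.Quotient.mk N.asIdeal)))
  (hd : ∀ N : MaximalSpectrum R, FinDeg (m * m + Nat.card (R ⧸ N.asIdeal)) P.natDegree)
  (hj : SBC (AdjoinRoot.of P) j)
include hfin h hm hP hi hd hj

/-- One residue class of Cayley parameters for which the norm principle holds. -/
theorem fin_good_semi : ∃ y0 : A1ˣ, La (j l) y0 ∧ ∀ y y' : A1ˣ, La (j l) y → La (j l) y' →
    (∀ N : MaximalSpectrum R, (y : A1) - y0 ∈ extI A1 (N.asIdeal.map (AdjoinRoot.of P))) →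
    (∀ N : MaximalSpectrum R, (y' : A1) - y0 ∈ extI A1 (N.asIdeal.map (AdjoinRoot.of P))) →
    WN R l (Algebra.norm R (nrd (AdjoinRoot P) (y : A1) * nrd (AdjoinRoot P) (y' : A1))) := by
  have := h.starFix
  have := h.az.free
  have := h.az.finite
  have := hP.free_adjoinRoot
  have := hP.finite_adjoinRoot
  have h1 := h.map hj
  have hl1 := h1.add_star
  obtain ⟨b, hb⟩ : ∃ b : Basis (Fin P.natDegree) R (AdjoinRoot P),
      ∀ i, b i = AdjoinRoot.root P ^ (i : ℕ) :=
    ⟨(AdjoinRoot.powerBasis' hP).basis, (AdjoinRoot.powerBasis' hP).basis_eq_pow⟩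
  have hj' : BC (algebraMap R (AdjoinRoot P)) j := hj.toBC
  obtain ⟨ρ, hρ, hρ'⟩ := hj'.exists_regular b
  obtain ⟨u, hu⟩ := wfin_sep hP fun N => by
    have := N.isMaximal
    have := hfin N
    let _ := Ideal.Quotient.field N.asIdeal
    exact PerfectField.separable_of_irreducible (hi N)
  obtain ⟨t, ht⟩ : ∃ t, t = algebraMap (AdjoinRoot P) A1 (AdjoinRoot.root P) := ⟨_, rfl⟩
  obtain ⟨E, hE⟩ : ∃ E, E = (vecMulVec (b.repr 1) (b.repr 1)).map (algebraMap R A) := ⟨_, rfl⟩
  have loc : ∀ N : MaximalSpectrum R, ∃ c : A1, ∀ y, La (j l) y →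
      y - (j l + (c - star c)) ∈ extI A1 (N.asIdeal.map (AdjoinRoot.of P)) →
      nrd R (ρ y) ∉ N.asIdeal ∧ nrd R (ρ (y - star y)) ∉ N.asIdeal ∧
      LinearMap.range (twL R (ρ t)) ≤ LinearMap.range (twL R (ρ y) ∘ₗ twL R (ρ t)) ⊔
        N.asIdeal • LinearMap.range (twL R (ρ t)) ∧
      ∀ a W z, a * (y - star y) = 1 → tw (ρ y) W = E → W - ρ a * E = tw (ρ t) z →
        nrd R W ∉ N.asIdeal := fun N => by
    have := N.isMaximal
    have := hfin N
    let _ := Ideal.Quotient.field N.asIdeal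
    obtain ⟨y0, ⟨c, hc⟩, H⟩ := wfin_loc (k := R ⧸ N.asIdeal) (r := Ideal.Quotient.mk N.asIdeal)
      Ideal.Quotient.mk_surjective h hm hP (hi N) (hd N) hj hb hρ hρ' hu ht hE
    simp only [Ideal.mk_ker, ne_eq, Ideal.Quotient.eq_zero_iff_mem] at H
    exact ⟨c, by rw [← hc, add_sub_cancel]; exact H⟩
  choose c0 loc using loc
  obtain ⟨c, hc⟩ := wfin_glue (AdjoinRoot.of P) c0
  obtain ⟨y0, hy0⟩ : ∃ y0, y0 = j l + (c - star c) := ⟨_, rfl⟩
  have hy0l : La (j l) y0 := hy0 ▸ (La.refl _).add_alt (alt_sub_star c)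
  have loc' := fun y hy (e : ∀ N : MaximalSpectrum R,
      y - y0 ∈ extI A1 (N.asIdeal.map (AdjoinRoot.of P))) N => loc N y hy (by
    have := add_mem (e N) (sub_mem (hc N) (star_mem_extI (hc N)))
    rwa [hy0, star_sub, show y - (j l + (c - star c)) + (c - c0 N - (star c - star (c0 N))) =
      y - (j l + (c0 N - star (c0 N))) by abel] at this)
  have hun : ∀ x, (∀ N : MaximalSpectrum R, nrd R (ρ x) ∉ N.asIdeal) → IsUnit x := fun x hx => by
    have h2 := wnp_unit hx
    rw [h.az.nrd_regular hj' b ρ hρ hρ'] at h2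
    exact h1.az.isUnit_nrd_iff.1 (wnp_norm h2)
  obtain ⟨e, he⟩ : ∃ e : Fin P.natDegree → R, e = b.repr 1 := ⟨_, rfl⟩
  rw [← he] at hE
  have hEa : ∀ p q, E p q = algebraMap R A (e p * e q) := fun p q => by rw [hE]; rfl
  have hEs : star E = E := by
    ext p q
    rw [Matrix.star_apply, hEa, hEa, StarFix.fix, mul_comm]
  have hED : ∀ a ∈ Set.range j, ρ a * E = E * star (ρ (star a)) := by
    rintro _ ⟨a, rfl⟩
    rw [← hj.map_star, hρ, hρ, star_eq_conjTranspose, diagonal_conjTranspose]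
    ext p q
    rw [diagonal_mul, mul_diagonal, hEa, Pi.star_apply, star_star, Algebra.commutes]
  have hgram : ρ (j l) * E = gram l fun p => algebraMap R A (e p) := by
    ext p q
    rw [hρ, diagonal_mul, hEa, gram, of_apply, StarFix.fix, Algebra.commutes (e p), map_mul,
      mul_assoc]
  have key : ∀ y : A1, La (j l) y → (∀ N : MaximalSpectrum R,
      y - y0 ∈ extI A1 (N.asIdeal.map (AdjoinRoot.of P))) →
      ∃ W, IsUnit W ∧ Alt W ∧ Alt (ρ y * W - gram l fun p => algebraMap R A (e p)) := by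
    intro y hy hyw
    obtain ⟨v, hv⟩ := hun _ fun N => (loc' y hy hyw N).2.1
    have htc : ∀ x, t * x = x * t := fun x => ht ▸ Algebra.commutes _ x
    have hle := wnp_le (by rw [← Submodule.map_top]; exact Module.Finite.fg_top.map _)
      fun N => (loc' y hy hyw N).2.2.1
    obtain ⟨W, w1, w2, w3, z, w4⟩ := fa_exists ρ t htc (ht ▸ StarFix.fix _) E hEs (Set.range j) hED
      (ht ▸ dfina_gen hj.toBC) hl1 (by
        have := hED _ ⟨star l, rfl⟩
        rwa [hj.map_star, star_star] at this) hy (hv ▸ v.inv_mul) (hv ▸ v.mul_inv) fun z => by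
        obtain ⟨z1, h⟩ := hle ⟨z, rfl⟩
        exact ⟨z1, h.symm⟩
    exact ⟨W, wnp_isUnit (h.az.mat _) fun N =>
      (loc' y hy hyw N).2.2.2 _ W z (hv ▸ v.inv_mul) w3 w4, w1, hgram ▸ w2⟩
  obtain ⟨y0', rfl⟩ := hun y0 fun N =>
    (loc' y0 hy0l (fun _ => by rw [sub_self]; exact zero_mem _) N).1
  refine ⟨y0', hy0l, fun y y' hy hy' e1 e2 => ?_⟩
  obtain ⟨W, a1, a2, a3⟩ := key y hy e1
  obtain ⟨W', b1, b2, b3⟩ := key y' hy' e2
  have := wn_of_two h ((Units.isUnit y).map ρ) ((Units.isUnit y').map ρ) a1 b1 a2 b2 a3 b3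
  rwa [h.az.nrd_regular hj' b ρ hρ hρ', h.az.nrd_regular hj' b ρ hρ hρ', ← map_mul] at this

/-- The norm principle on the kernel of the reduction. -/
theorem fin_kernel_semi {g : A1} {c : AdjoinRoot P} (hs : SN (AdjoinRoot P) (j l) g c)
    (hg : ∀ N : MaximalSpectrum R, g - 1 ∈ extI A1 (N.asIdeal.map (AdjoinRoot.of P))) :
    WN R l (Algebra.norm R c) := by
  obtain ⟨y0, h0, good⟩ := fin_good_semi hfin h hm hP hi hd hj
  have h1 := h.map hj
  have hl := h1.add_star
  have := hj.toBC.finite'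
  have := hP.finite_adjoinRoot
  have e0 : 1 - g * gl y0 = (1 - (g - 1) * (gl y0 * y0)) * ((y0⁻¹ : A1ˣ) : A1) := by
    rw [sub_mul, one_mul, mul_assoc, mul_assoc, Units.mul_inv, mul_one, gl]
    noncomm_ring
  have hm : ∀ N : MaximalSpectrum R,
      (g - 1) * (gl y0 * y0) ∈ extI A1 (N.asIdeal.map (AdjoinRoot.of P)) :=
    fun N => Ideal.mul_mem_right _ _ (hg N)
  have hu0 : IsUnit (1 - (g - 1) * (gl y0 * y0)) := by
    let _ : Algebra R A1 := ((algebraMap (AdjoinRoot P) A1).comp (AdjoinRoot.of P)).toAlgebra'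
      fun c x => Algebra.commutes _ x
    have : IsScalarTower R (AdjoinRoot P) A1 := IsScalarTower.of_algebraMap_eq fun _ => rfl
    have : Module.Finite R A1 := Module.Finite.trans (AdjoinRoot P) A1
    refine wfin_isUnit (T := R) fun N => ⟨1, ?_⟩
    have h2 := hm N
    rw [extI, Ideal.map_map] at h2
    rw [mul_one, sub_sub_cancel_left]
    exact neg_mem h2
  have hu : IsUnit (1 - g * gl y0) := e0 ▸ hu0.mul (Units.isUnit _)
  obtain ⟨y, hy, -, e1, e2⟩ := (hs.iso h1).1.exists_gl_mul_gl hl h0 hu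
  have e3 : (y : A1) - y0 = y * ((g - 1) * (gl y0 * y0)) := by
    have e4 : ((y⁻¹ : A1ˣ) : A1) * y0 = 1 - (g - 1) * (gl y0 * y0) := by
      rw [e2, e0, mul_assoc, Units.inv_mul, mul_one]
    calc (y : A1) - y0 = y - y * (((y⁻¹ : A1ˣ) : A1) * y0) := by
          rw [Units.mul_inv_cancel_left]
      _ = _ := by rw [e4]; noncomm_ring
  have w := good y y0 hy h0 (fun N => e3 ▸ Ideal.mul_mem_left _ _ (hm N))
    fun _ => by rw [sub_self]; exact zero_mem _
  have s1 := sn_gl h1 hy (y2 := star y0) h0.star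
  rw [← e1, Units.coe_star, h1.nrd_star] at s1
  refine w.of_isSquare h ((hs.isUnit h1).map _) ?_
  rw [← map_mul]
  exact (s1.ratio h1 hs).map _

end Pool.Agent.GSD
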