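import Pool.Agent.P.MP_c1f06d_ag.w.GZ

open Polynomial

universe u

namespace Pool.Agent.GW

open Pool.Agent.P.MP_c1f06d_ag Pool.Agent.SU

section
variable {T0 C S : Type*} [CommRing T0] [CommRing C] [CommRing S] {g : T0[X]} {n d : ℕ}

/-- The polynomials with the given coefficients. -/
noncomputable def wpol (x : Fin n × Fin d → C) (i : Fin n) : C[X] := ∑ j : Fin d, monomial j (x (i, j))

theorem wpol_map (γ : C →+* S) (x : Fin n × Fin d → C) (i : Fin n) :
    (wpol x i).map γ = wpol (γ ∘ x) i := by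
  simp [wpol, Polynomial.map_sum]

theorem wpol_coeff (x : Fin n × Fin d → C) (i : Fin n) (j : Fin d) :
    (wpol x i).coeff j = x (i, j) := by
  simp [wpol, coeff_monomial, Fin.val_inj]

theorem wpol_degree (x : Fin n × Fin d → C) (i : Fin n) : (wpol x i).degree < d :=
  (degree_sum_le _ _).trans_lt ((Finset.sup_lt_iff (WithBot.bot_lt_coe d)).2 fun j _ =>
    (degree_monomial_le _ _).trans_lt (Nat.cast_lt.2 j.2))

theorem wl_coeff (hg : g.Monic) (φ : T0 →+* C) (p : C[X]) {j : ℕ} (hj : g.natDegree ≤ j) :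
    (p %ₘ g.map φ).coeff j = 0 := by
  nontriviality C
  refine coeff_eq_zero_of_degree_lt ((degree_modByMonic_lt p (hg.map φ)).trans_le ?_)
  exact (degree_map_le.trans degree_le_natDegree).trans (by exact_mod_cast hj)

theorem wpol_mod (hg : g.Monic) (φ : T0 →+* C) (p : Fin n → C[X]) (i : Fin n) :
    wpol (fun a : Fin n × Fin g.natDegree => (p a.1 %ₘ g.map φ).coeff a.2) i = p i %ₘ g.map φ := by
  ext j
  rcases lt_or_ge j g.natDegree with h | h
  · exact wpol_coeff _ i ⟨j, h⟩
  · rw [wl_coeff hg φ _ h]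
    exact coeff_eq_zero_of_degree_lt ((wpol_degree _ i).trans_le (by exact_mod_cast h))

theorem wl_eval {φ : T0 →+* C} {χ : C →+* S} {τ : AdjoinRoot g →+* S}
    (h : τ.comp (AdjoinRoot.of g) = χ.comp φ) :
    (eval₂RingHom χ (τ (AdjoinRoot.root g))).comp (mapRingHom φ) = τ.comp (AdjoinRoot.mk g) :=
  Polynomial.ringHom_ext (fun a => by simpa using (RingHom.congr_fun h a).symm) (by simp)

theorem wl_mod {φ : T0 →+* C} {χ : C →+* S} {τ : AdjoinRoot g →+* S}
    (h : τ.comp (AdjoinRoot.of g) = χ.comp φ) (p : C[X]) :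
    eval₂RingHom χ (τ (AdjoinRoot.root g)) (p %ₘ g.map φ) =
      eval₂RingHom χ (τ (AdjoinRoot.root g)) p := by
  have e : eval₂RingHom χ (τ (AdjoinRoot.root g)) (g.map φ) = 0 :=
    (RingHom.congr_fun (wl_eval h) g).trans (by simp)
  conv_rhs => rw [← modByMonic_add_div p (g.map φ), map_add, map_mul, e, zero_mul, add_zero]

theorem wl_ev {φ : T0 →+* C} {χ : C →+* S} {τ : AdjoinRoot g →+* S}
    (h : τ.comp (AdjoinRoot.of g) = χ.comp φ) (y : Fin n → C[X]) (G : MvPolynomial (Fin n) T0[X]) :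
    eval₂RingHom χ (τ (AdjoinRoot.root g)) (MvPolynomial.eval₂ (mapRingHom φ) y G) =
      MvPolynomial.eval₂ τ (eval₂RingHom χ (τ (AdjoinRoot.root g)) ∘ y)
        (MvPolynomial.map (AdjoinRoot.mk g) G) := by
  rw [MvPolynomial.eval₂_comp_left, wl_eval h, MvPolynomial.eval₂_map]

end

/-- Weil restriction of a smooth neighbourhood. -/
theorem weil_near {T0 R Z T2 : Type u} [CommRing T0] [CommRing R] [IsLocalRing R] [CommRing Z]
    [Algebra R Z] [CommRing T2] (σ0 : T0 →+* R) (hσ0 : Function.Surjective σ0) {g : T0[X]}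
    (hg : g.Monic) {θ : Z} (hs : ∀ z, ∃ p : R[X], aeval θ p = z)
    (hk : ∀ p : R[X], aeval θ p = 0 → g.map σ0 ∣ p) (h : AdjoinRoot g →+* T2) (hh : h.Smooth)
    (σ2 : T2 →+* Z) (h1 : (σ2.comp h).comp (AdjoinRoot.of g) = (algebraMap R Z).comp σ0)
    (h2 : σ2 (h (AdjoinRoot.root g)) = θ) :
    ∃ (T0' : Type u) (_ : CommRing T0') (φ : T0 →+* T0') (σ0' : T0' →+* R),
      φ.Etale ∧ σ0'.comp φ = σ0 ∧
      ∀ (S : Type u) [CommRing S] (χ : T0' →+* S) (τ : AdjoinRoot g →+* S),
        τ.comp (AdjoinRoot.of g) = χ.comp φ → ∃ lam : T2 →+* S, lam.comp h = τ := by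
  let _ := h.toAlgebra
  have : Algebra.Smooth (AdjoinRoot g) T2 := hh
  obtain ⟨n, π, hπ, hker⟩ := Algebra.FinitePresentation.out (R := AdjoinRoot g) (A := T2)
  obtain ⟨r, G0, hG⟩ := Submodule.fg_iff_exists_fin_generating_family.1 hker
  choose G hG' using fun k => MvPolynomial.map_surjective (σ := Fin n) (AdjoinRoot.mk g)
    AdjoinRoot.mk_surjective (G0 k)
  have hπC : ∀ a, π (MvPolynomial.C a) = h a := fun a => π.commutes a
  have hA : ∀ (S : Type u) [CommRing S] (τ : AdjoinRoot g →+* S) (y : Fin n → S),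
      (∀ k, MvPolynomial.eval₂ τ y (G0 k) = 0) →
      ∃ lam : T2 →+* S, lam.comp h = τ ∧ ∀ i, lam (π (MvPolynomial.X i)) = y i := by
    intro S _ τ y hy
    have hle : RingHom.ker π.toRingHom ≤ RingHom.ker (MvPolynomial.eval₂Hom τ y) := by
      rw [← hG]
      exact Submodule.span_le.2 (by rintro _ ⟨k, rfl⟩; exact hy k)
    have e := fun a => π.toRingHom.liftOfRightInverse_comp_apply _
      (Function.rightInverse_surjInv hπ) ⟨_, hle⟩ a
    exact ⟨_, RingHom.ext fun a => by
      rw [RingHom.comp_apply, ← hπC]; exact (e _).trans (MvPolynomial.eval₂Hom_C _ _ _),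
      fun i => (e _).trans (MvPolynomial.eval₂Hom_X' _ _ _)⟩
  have hB : ∀ (S : Type u) [CommRing S] (lam : T2 →+* S) (k : Fin r),
      MvPolynomial.eval₂ (lam.comp h) (fun i => lam (π (MvPolynomial.X i))) (G0 k) = 0 := by
    intro S _ lam k
    have e : MvPolynomial.eval₂Hom (lam.comp h) (fun i => lam (π (MvPolynomial.X i))) =
        lam.comp π.toRingHom :=
      MvPolynomial.ringHom_ext (fun a => by simp [← hπC]) fun i => by simp
    have e0 : G0 k ∈ RingHom.ker π.toRingHom := hG ▸ Submodule.subset_span ⟨k, rfl⟩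
    exact (RingHom.congr_fun e _).trans ((congrArg lam e0).trans (map_zero lam))
  choose p0 hp0 using fun i => hs (σ2 (π (MvPolynomial.X i)))
  obtain ⟨T0', _, φ, σ0', x, e1, e2, -, e3⟩ := exists_etale_sol σ0 hσ0
    (ι := Fin n × Fin g.natDegree) (κ := Fin r × Fin g.natDegree)
    (fun C _ φ x a => (MvPolynomial.eval₂ (mapRingHom φ) (wpol x) (G a.1) %ₘ g.map φ).coeff a.2)
    (fun C C' _ _ φ γ x => funext fun a => by
      rw [Function.comp_apply, ← coeff_map, map_modByMonic _ (hg.map φ), Polynomial.map_map,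
        ← coe_mapRingHom γ, MvPolynomial.eval₂_comp_left, mapRingHom_comp]
      congr 3
      exact funext fun i => (wpol_map γ x i).symm)
    (fun C _ φ I hI x hx => by
      rcases subsingleton_or_nontrivial C with hC | hC
      · exact ⟨x, fun i => by simp, Subsingleton.elim _ _⟩
      have hm := hg.map φ
      let τ : AdjoinRoot g →+* AdjoinRoot (g.map φ) := AdjoinRoot.lift
        ((AdjoinRoot.of _).comp φ) (AdjoinRoot.root _) (by rw [← eval₂_map, AdjoinRoot.eval₂_root])
      have hτ : τ.comp (AdjoinRoot.of g) = (AdjoinRoot.of _).comp φ := AdjoinRoot.lift_comp_of _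
      have hr : eval₂RingHom (AdjoinRoot.of (g.map φ)) (τ (AdjoinRoot.root g)) =
          AdjoinRoot.mk (g.map φ) :=
        Polynomial.ringHom_ext (fun a => by simp) (by simp [τ])
      have ev := fun y k => wl_ev hτ y (G k)
      simp only [hr, hG'] at ev
      let J := I.map (AdjoinRoot.of (g.map φ))
      obtain ⟨l0, l1, l2⟩ := hA _ ((Ideal.Quotient.mk J).comp τ)
        (Ideal.Quotient.mk J ∘ AdjoinRoot.mk (g.map φ) ∘ wpol x) fun k => by
          rw [← MvPolynomial.eval₂_comp_left, ← ev, ← hr, ← wl_mod hτ, hr,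
            ← wpol_mod hg φ (fun k => MvPolynomial.eval₂ (mapRingHom φ) (wpol x) (G k)) k,
            Ideal.Quotient.eq_zero_iff_mem, wpol, map_sum]
          refine sum_mem fun j _ => ?_
          rw [← C_mul_X_pow_eq_monomial, map_mul]
          exact Ideal.mul_mem_right _ _ (Ideal.mem_map_of_mem _ (hx (k, j)))
      let _ := τ.toAlgebra
      obtain ⟨lam, hlam⟩ := Algebra.FormallySmooth.exists_lift (R := AdjoinRoot g) (A := T2) J
        ⟨2, by rw [← Ideal.map_pow, hI, Ideal.map_bot]; rfl⟩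
        { l0 with commutes' := fun a => RingHom.congr_fun l1 a }
      choose p hp using fun i => AdjoinRoot.mk_surjective (lam (π (MvPolynomial.X i)))
      refine ⟨fun a => (p a.1 %ₘ g.map φ).coeff a.2, fun a => ?_, funext fun a => ?_⟩
      · have m1 : AdjoinRoot.mk (g.map φ) (p a.1 - wpol x a.1) ∈
            I • (⊤ : Submodule C (AdjoinRoot (g.map φ))) := by
          rw [Ideal.smul_top_eq_map, map_sub, hp]
          exact Ideal.Quotient.eq.1 ((AlgHom.congr_fun hlam _).trans (l2 a.1))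
        have m2 := Submodule.smul_induction_on m1
          (p := fun s => (AdjoinRoot.modByMonicHom hm s).coeff a.2 ∈ I)
          (fun c hc s _ => by rw [map_smul, coeff_smul]; exact I.mul_mem_right _ hc)
          fun s t hs ht => by rw [map_add, coeff_add]; exact I.add_mem hs ht
        rwa [AdjoinRoot.modByMonicHom_mk, sub_modByMonic, coeff_sub,
          (modByMonic_eq_self_iff hm).2 ((wpol_degree x a.1).trans_eq (by
            rw [degree_eq_natDegree hm.ne_zero, hg.natDegree_map])), wpol_coeff] at m2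
      · have e : lam.toRingHom.comp h = τ := RingHom.ext fun a => lam.commutes a
        have m1 := hB _ lam.toRingHom a.1
        have m2 : (fun i => lam.toRingHom (π (MvPolynomial.X i))) = AdjoinRoot.mk (g.map φ) ∘
            wpol fun a : Fin n × Fin g.natDegree => (p a.1 %ₘ g.map φ).coeff a.2 :=
          funext fun i => by
            rw [Function.comp_apply, wpol_mod hg, ← hr, wl_mod hτ, hr, hp]; rfl
        rw [e, m2, ← ev, AdjoinRoot.mk_eq_zero] at m1
        rw [(modByMonic_eq_zero_iff_dvd hm).2 m1]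
        rfl)
    (fun a => (p0 a.1 %ₘ g.map σ0).coeff a.2) (funext fun a => by
      have m1 := wl_ev h1 (wpol fun a : Fin n × Fin g.natDegree => (p0 a.1 %ₘ g.map σ0).coeff a.2)
        (G a.1)
      have m2 : eval₂RingHom (algebraMap R Z) (σ2.comp h (AdjoinRoot.root g)) ∘
          (wpol fun a : Fin n × Fin g.natDegree => (p0 a.1 %ₘ g.map σ0).coeff a.2) =
          fun i => σ2 (π (MvPolynomial.X i)) := funext fun i => by
        rw [Function.comp_apply, wpol_mod hg, wl_mod h1, ← hp0, RingHom.comp_apply, h2]; rfl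
      rw [m2, hG', hB, RingHom.comp_apply, h2] at m1
      rw [(modByMonic_eq_zero_iff_dvd (hg.map σ0)).2 (hk _ m1)]
      rfl)
  refine ⟨T0', inferInstance, φ, σ0', e1, e2, fun S _ χ τ hτ => ?_⟩
  obtain ⟨lam, hl, -⟩ := hA S τ (eval₂RingHom χ (τ (AdjoinRoot.root g)) ∘ wpol x) fun k => by
    rw [← hG', ← wl_ev hτ, ← wl_mod hτ,
      ← wpol_mod hg φ (fun k => MvPolynomial.eval₂ (mapRingHom φ) (wpol x) (G k)) k,
      show (fun a : Fin r × Fin g.natDegree => _) = 0 from e3]
    simp [wpol]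
  exact ⟨lam, hl⟩

end Pool.Agent.GW
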